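import Pool.Agent.Lib.MP_cff830_lc.MR.Defs
import Pool.Agent.Lib.MP_cff830_lc.SDP.Stmts
import Pool.Agent.Lib.GSI.Erdos

/-!
# Monotone circuits over relaxations of vertex cover: technical definitions and simple facts
-/

set_option autoImplicit false

namespace Pool.Agent.Lib.MP_cff830_lc.MR

open Finset

/-! ### Weights -/

/-- The weight of a set. -/
noncomputable def wt {n : ℕ} (w : Fin n → ℝ) (A : Finset (Fin n)) : ℝ := ∑ v ∈ A, w v

/-! ### Negative tests -/

/-- The graph of a negative test: all pairs except those inside `I`. -/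
def negG {n : ℕ} (I : Finset (Fin n)) : SimpleGraph (Fin n) where
  Adj u v := u ≠ v ∧ (u ∉ I ∨ v ∉ I)
  symm := ⟨fun _ _ h => ⟨h.1.symm, h.2.symm⟩⟩
  loopless := ⟨fun _ h => h.1 rfl⟩

/-- The probability of `I`, every vertex being in `I` with probability `ρ`. -/
noncomputable def bern {n : ℕ} (ρ : ℝ) (I : Finset (Fin n)) : ℝ :=
  ρ ^ I.card * (1 - ρ) ^ (n - I.card)

open Classical in
/-- The probability of an event. -/
noncomputable def prN {n : ℕ} (ρ : ℝ) (A : Finset (Fin n) → Prop) : ℝ :=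
  ∑ I, if A I then bern ρ I else 0

/-! ### Positive tests -/

open Classical in
/-- The probability of an event, for the uniform distribution. -/
noncomputable def prP {Ω : Type} [Fintype Ω] (A : Ω → Prop) : ℝ :=
  ((univ.filter A).card : ℝ) / (Fintype.card Ω : ℝ)

/-! ### Terms -/

/-- The graph `G` contains the pairs in `E`. -/
def In {n : ℕ} (E : Finset (Sym2 (Fin n))) (G : SimpleGraph (Fin n)) : Prop :=
  ∀ e ∈ E, e ∈ G.edgeSet

open Classical in
/-- The terms: at most `t` pairs of distinct vertices. -/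
noncomputable def terms (n t : ℕ) : Finset (Finset (Sym2 (Fin n))) :=
  univ.filter fun E => (∀ e ∈ E, ¬ e.IsDiag) ∧ E.card ≤ t

/-- Monotone functions of terms. -/
def MonoFn {n : ℕ} (t : ℕ) (g : Finset (Sym2 (Fin n)) → ℝ) : Prop :=
  ∀ E ∈ terms n t, ∀ E' ∈ terms n t, E ⊆ E' → g E ≤ g E'

/-- Closed functions of terms: if a negative test that contains `E` (almost) always contains a term
of value at least `g K`, then `g K ≤ g E`. -/
def Closed {n : ℕ} (ρ δ : ℝ) (t : ℕ) (g : Finset (Sym2 (Fin n)) → ℝ) : Prop :=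
  ∀ E ∈ terms n t, ∀ K ∈ terms n t,
    prN ρ (fun I => In E (negG I) ∧ ∀ K' ∈ terms n t, In K' (negG I) → g K' < g K) ≤ δ →
      g K ≤ g E

open Classical in
/-- The terms whose value is larger than the values of all their proper subsets. -/
noncomputable def jump {n : ℕ} (t : ℕ) (g : Finset (Sym2 (Fin n)) → ℝ) :
    Finset (Finset (Sym2 (Fin n))) :=
  (terms n t).filter fun E => ∀ E' : Finset (Sym2 (Fin n)), E' ⊂ E → g E' < g E

/-- The vertices of the pairs in `E`. -/
def vs {n : ℕ} (E : Finset (Sym2 (Fin n))) : Finset (Fin n) :=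
  univ.filter fun v => ∃ e ∈ E, v ∈ e

/-- All pairs in `E` have both ends in `S`. -/
def Inside {n : ℕ} (S : Finset (Fin n)) (E : Finset (Sym2 (Fin n))) : Prop :=
  ∀ e ∈ E, ∀ v ∈ e, v ∈ S

open Classical in
/-- The edges of `G` with both ends in `S`. -/
noncomputable def edgesIn {n : ℕ} (G : SimpleGraph (Fin n)) (S : Finset (Fin n)) :
    Finset (Sym2 (Fin n)) :=
  univ.filter fun e => e ∈ G.edgeSet ∧ ∀ v ∈ e, v ∈ S

open Classical in
/-- The vertices outside `S` with a neighbour in `S`. -/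
noncomputable def nbr {n : ℕ} (G : SimpleGraph (Fin n)) (S : Finset (Fin n)) : Finset (Fin n) :=
  univ.filter fun v => v ∉ S ∧ ∃ u ∈ S, G.Adj u v

/-- The graph with edge set `E`. -/
def gr {n : ℕ} (E : Finset (Sym2 (Fin n))) : SimpleGraph (Fin n) :=
  SimpleGraph.fromEdgeSet (E : Set (Sym2 (Fin n)))

/-! ### Simple facts -/

theorem negG_adj {n : ℕ} {I : Finset (Fin n)} {u v : Fin n} :
    (negG I).Adj u v ↔ u ≠ v ∧ (u ∉ I ∨ v ∉ I) := Iff.rfl

/-- The definition with any instance of decidability. -/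
theorem prN_eq {n : ℕ} (ρ : ℝ) (A : Finset (Fin n) → Prop) [DecidablePred A] :
    prN ρ A = ∑ I ∈ univ.filter A, bern ρ I := by
  unfold prN
  rw [Finset.sum_filter]
  refine Finset.sum_congr rfl fun I _ => ?_
  by_cases h : A I <;> simp [h]

/-- The definition with any instance of decidability. -/
theorem prP_eq {Ω : Type} [Fintype Ω] (A : Ω → Prop) [DecidablePred A] :
    prP A = ((univ.filter A).card : ℝ) / (Fintype.card Ω : ℝ) := by
  unfold prP
  congr!

theorem bern_nonneg {n : ℕ} {ρ : ℝ} (h0 : 0 ≤ ρ) (h1 : ρ ≤ 1) (I : Finset (Fin n)) :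
    0 ≤ bern ρ I := by
  unfold bern
  have : 0 ≤ 1 - ρ := by linarith
  positivity

theorem bern_sum {n : ℕ} (ρ : ℝ) : ∑ I : Finset (Fin n), bern ρ I = 1 := by
  have h := Finset.sum_pow_mul_eq_add_pow ρ (1 - ρ) (univ : Finset (Fin n))
  rw [card_univ, Fintype.card_fin, add_sub_cancel, one_pow, powerset_univ] at h
  exact h

theorem prN_nonneg {n : ℕ} {ρ : ℝ} (h0 : 0 ≤ ρ) (h1 : ρ ≤ 1) (A : Finset (Fin n) → Prop) :
    0 ≤ prN ρ A := by
  classical
  unfold prN
  refine Finset.sum_nonneg fun I _ => ?_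
  split_ifs
  · exact bern_nonneg h0 h1 I
  · exact le_rfl

theorem prN_mono {n : ℕ} {ρ : ℝ} (h0 : 0 ≤ ρ) (h1 : ρ ≤ 1) {A B : Finset (Fin n) → Prop}
    (h : ∀ I, A I → B I) : prN ρ A ≤ prN ρ B := by
  classical
  unfold prN
  refine Finset.sum_le_sum fun I _ => ?_
  by_cases hA : A I
  · rw [if_pos hA, if_pos (h I hA)]
  · rw [if_neg hA]
    split_ifs
    · exact bern_nonneg h0 h1 I
    · exact le_rfl

theorem prN_or {n : ℕ} {ρ : ℝ} (h0 : 0 ≤ ρ) (h1 : ρ ≤ 1) (A B : Finset (Fin n) → Prop) :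
    prN ρ (fun I => A I ∨ B I) ≤ prN ρ A + prN ρ B := by
  classical
  unfold prN
  rw [← Finset.sum_add_distrib]
  refine Finset.sum_le_sum fun I _ => ?_
  have h := bern_nonneg h0 h1 I
  by_cases hA : A I <;> by_cases hB : B I <;> simp [hA, hB, h]

theorem prN_exists {n : ℕ} {ρ : ℝ} (h0 : 0 ≤ ρ) (h1 : ρ ≤ 1) {ι : Type} (s : Finset ι)
    (A : ι → Finset (Fin n) → Prop) :
    prN ρ (fun I => ∃ i ∈ s, A i I) ≤ ∑ i ∈ s, prN ρ (A i) := by
  classical
  induction s using Finset.induction_on with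
  | empty =>
    rw [Finset.sum_empty]
    unfold prN
    simp
  | insert a s ha ih =>
    rw [Finset.sum_insert ha]
    refine le_trans (prN_mono h0 h1 ?_) ((prN_or h0 h1 (A a) fun I => ∃ i ∈ s, A i I).trans
      (by linarith))
    rintro I ⟨i, hi, hI⟩
    rcases Finset.mem_insert.1 hi with rfl | hi
    · exact Or.inl hI
    · exact Or.inr ⟨i, hi, hI⟩

theorem prN_true {n : ℕ} (ρ : ℝ) : prN ρ (fun _ : Finset (Fin n) => True) = 1 := by
  classical
  unfold prN
  simp only [if_true]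
  exact bern_sum ρ

theorem prN_le_one {n : ℕ} {ρ : ℝ} (h0 : 0 ≤ ρ) (h1 : ρ ≤ 1) (A : Finset (Fin n) → Prop) :
    prN ρ A ≤ 1 := by
  rw [← prN_true (n := n) ρ]
  exact prN_mono h0 h1 fun _ _ => trivial

theorem prP_nonneg {Ω : Type} [Fintype Ω] (A : Ω → Prop) : 0 ≤ prP A := by
  unfold prP
  positivity

theorem prP_mono {Ω : Type} [Fintype Ω] {A B : Ω → Prop} (h : ∀ ω, A ω → B ω) :
    prP A ≤ prP B := by
  classical
  unfold prP
  refine div_le_div_of_nonneg_right ?_ (by positivity)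
  exact_mod_cast card_le_card fun ω hω => by
    rw [mem_filter] at hω ⊢
    exact ⟨hω.1, h ω hω.2⟩

theorem prP_or {Ω : Type} [Fintype Ω] (A B : Ω → Prop) :
    prP (fun ω => A ω ∨ B ω) ≤ prP A + prP B := by
  classical
  unfold prP
  rw [← add_div]
  refine div_le_div_of_nonneg_right ?_ (by positivity)
  have h : ∀ D : DecidablePred fun ω => A ω ∨ B ω,
      (@Finset.filter Ω (fun ω => A ω ∨ B ω) D univ).card ≤
        (univ.filter A).card + (univ.filter B).card := by
    intro D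
    refine le_trans (card_le_card fun ω hω => ?_) (card_union_le _ _)
    simpa using hω
  exact_mod_cast h _

theorem prP_exists {Ω : Type} [Fintype Ω] {ι : Type} (s : Finset ι) (A : ι → Ω → Prop) :
    prP (fun ω => ∃ i ∈ s, A i ω) ≤ ∑ i ∈ s, prP (A i) := by
  classical
  induction s using Finset.induction_on with
  | empty =>
    rw [Finset.sum_empty]
    unfold prP
    simp
  | insert a s ha ih =>
    rw [Finset.sum_insert ha]
    refine le_trans (prP_mono ?_) ((prP_or (A a) fun ω => ∃ i ∈ s, A i ω).trans (by linarith))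
    rintro ω ⟨i, hi, hω⟩
    rcases Finset.mem_insert.1 hi with rfl | hi
    · exact Or.inl hω
    · exact Or.inr ⟨i, hi, hω⟩

theorem prP_true {Ω : Type} [Fintype Ω] [Nonempty Ω] : prP (fun _ : Ω => True) = 1 := by
  classical
  unfold prP
  have h : (Fintype.card Ω : ℝ) ≠ 0 := by exact_mod_cast Fintype.card_ne_zero
  rw [filter_true, card_univ, div_self h]

theorem prP_le_one {Ω : Type} [Fintype Ω] [Nonempty Ω] (A : Ω → Prop) : prP A ≤ 1 := by
  rw [← prP_true (Ω := Ω)]
  exact prP_mono fun _ _ => trivial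

theorem mem_terms {n t : ℕ} {E : Finset (Sym2 (Fin n))} :
    E ∈ terms n t ↔ (∀ e ∈ E, ¬ e.IsDiag) ∧ E.card ≤ t := by
  classical
  unfold terms
  rw [mem_filter]
  exact ⟨fun h => h.2, fun h => ⟨mem_univ _, h⟩⟩

theorem mem_vs {n : ℕ} {E : Finset (Sym2 (Fin n))} {v : Fin n} :
    v ∈ vs E ↔ ∃ e ∈ E, v ∈ e := by
  unfold vs
  rw [mem_filter]
  exact ⟨fun h => h.2, fun h => ⟨mem_univ _, h⟩⟩

theorem terms_subset {n t : ℕ} {E E' : Finset (Sym2 (Fin n))} (h : E ∈ terms n t) (hE : E' ⊆ E) :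
    E' ∈ terms n t :=
  mem_terms.2 ⟨fun e he => (mem_terms.1 h).1 e (hE he),
    (card_le_card hE).trans (mem_terms.1 h).2⟩

theorem In.mono {n : ℕ} {E E' : Finset (Sym2 (Fin n))} {G : SimpleGraph (Fin n)} (h : In E G)
    (hE : E' ⊆ E) : In E' G := fun e he => h e (hE he)

end Pool.Agent.Lib.MP_cff830_lc.MR
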