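import Pool.Agent.Lib.MP_cff830_lc.MR.Stmts59

/-!
# Monotone circuits over relaxations of vertex cover: events that depend on given vertices (M8)
-/

set_option autoImplicit false

namespace Pool.Agent.Lib.MP_cff830_lc.MR

open Finset

namespace BernAux

/-- The probability of the part `J` of `I` in the set `A`. -/
noncomputable def bA {n : ℕ} (ρ : ℝ) (A J : Finset (Fin n)) : ℝ :=
  ρ ^ J.card * (1 - ρ) ^ (A.card - J.card)

theorem bA_sum {n : ℕ} (ρ : ℝ) (A : Finset (Fin n)) : ∑ J ∈ A.powerset, bA ρ A J = 1 := by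
  have h := Finset.sum_pow_mul_eq_add_pow ρ (1 - ρ) A
  rw [add_sub_cancel, one_pow] at h
  exact h

theorem split_sum {n : ℕ} (ρ : ℝ) (B : Finset (Fin n)) (f : Finset (Fin n) → ℝ) :
    ∑ I, bern ρ I * f I =
      ∑ p ∈ B.powerset ×ˢ Bᶜ.powerset, bA ρ B p.1 * bA ρ Bᶜ p.2 * f (p.1 ∪ p.2) := by
  refine Finset.sum_nbij' (fun I => (I ∩ B, I \ B)) (fun p => p.1 ∪ p.2) ?_ ?_ ?_ ?_ ?_
  · intro I _
    simp only [mem_product, mem_powerset]
    refine ⟨inter_subset_right, fun v hv => ?_⟩
    rw [mem_compl]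
    exact (mem_sdiff.1 hv).2
  · intro p _
    exact mem_univ _
  · intro I _
    ext v
    simp only [mem_union, mem_inter, mem_sdiff]
    tauto
  · rintro ⟨J, K⟩ hp
    simp only [mem_product, mem_powerset] at hp
    have hK : ∀ v ∈ K, v ∉ B := fun v hv => mem_compl.1 (hp.2 hv)
    refine Prod.ext ?_ ?_
    · ext v
      simp only [mem_union, mem_inter]
      constructor
      · rintro ⟨h1 | h1, h2⟩
        · exact h1
        · exact absurd h2 (hK v h1)
      · exact fun h => ⟨Or.inl h, hp.1 h⟩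
    · ext v
      simp only [mem_union, mem_sdiff]
      constructor
      · rintro ⟨h1 | h1, h2⟩
        · exact absurd (hp.1 h1) h2
        · exact h1
      · exact fun h => ⟨Or.inr h, hK v h⟩
  · intro I _
    have h1 : (I ∩ B) ∪ (I \ B) = I := by
      ext v
      simp only [mem_union, mem_inter, mem_sdiff]
      tauto
    have h2 : (I ∩ B).card + (I \ B).card = I.card := card_inter_add_card_sdiff I B
    have h3 : (I ∩ B).card ≤ B.card := card_le_card inter_subset_right
    have h4 : (I \ B).card ≤ Bᶜ.card := card_le_card fun v hv => by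
      rw [mem_compl]
      exact (mem_sdiff.1 hv).2
    have h5 : B.card + Bᶜ.card = n := by
      rw [card_add_card_compl, Fintype.card_fin]
    simp only [h1]
    unfold bern bA
    have h6 : n - I.card = (B.card - (I ∩ B).card) + (Bᶜ.card - (I \ B).card) := by omega
    rw [h6, ← h2, pow_add, pow_add]
    ring

open Classical in
theorem pr_split {n : ℕ} (ρ : ℝ) (B : Finset (Fin n)) {A1 A2 : Finset (Fin n) → Prop}
    (h1 : ∀ J K, J ⊆ B → K ⊆ Bᶜ → (A1 (J ∪ K) ↔ A1 J))
    (h2 : ∀ J K, J ⊆ B → K ⊆ Bᶜ → (A2 (J ∪ K) ↔ A2 K)) :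
    prN ρ (fun I => A1 I ∧ A2 I) =
      (∑ J ∈ B.powerset, bA ρ B J * if A1 J then 1 else 0) *
        ∑ K ∈ Bᶜ.powerset, bA ρ Bᶜ K * if A2 K then 1 else 0 := by
  have h := split_sum ρ B (fun I => if A1 I ∧ A2 I then (1 : ℝ) else 0)
  have e : prN ρ (fun I => A1 I ∧ A2 I) = ∑ I, bern ρ I * if A1 I ∧ A2 I then (1 : ℝ) else 0 := by
    unfold prN
    refine Finset.sum_congr rfl fun I _ => ?_
    by_cases hc : A1 I ∧ A2 I
    · rw [if_pos hc, if_pos hc, mul_one]
    · rw [if_neg hc, if_neg hc, mul_zero]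
  rw [e, h, Finset.sum_product, Finset.sum_mul]
  refine Finset.sum_congr rfl fun J hJ => ?_
  rw [Finset.mul_sum]
  refine Finset.sum_congr rfl fun K hK => ?_
  have k1 := h1 J K (mem_powerset.1 hJ) (mem_powerset.1 hK)
  have k2 := h2 J K (mem_powerset.1 hJ) (mem_powerset.1 hK)
  simp only [k1, k2]
  by_cases c1 : A1 J <;> by_cases c2 : A2 K <;> simp [c1, c2]

open Classical in
theorem pr_left {n : ℕ} (ρ : ℝ) (B : Finset (Fin n)) {A1 : Finset (Fin n) → Prop}
    (h1 : ∀ J K, J ⊆ B → K ⊆ Bᶜ → (A1 (J ∪ K) ↔ A1 J)) :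
    prN ρ A1 = ∑ J ∈ B.powerset, bA ρ B J * if A1 J then 1 else 0 := by
  have h := pr_split ρ B (A1 := A1) (A2 := fun _ => True) h1 (fun _ _ _ _ => Iff.rfl)
  simp only [and_true, if_true, mul_one, bA_sum] at h
  exact h

open Classical in
theorem pr_right {n : ℕ} (ρ : ℝ) (B : Finset (Fin n)) {A2 : Finset (Fin n) → Prop}
    (h2 : ∀ J K, J ⊆ B → K ⊆ Bᶜ → (A2 (J ∪ K) ↔ A2 K)) :
    prN ρ A2 = ∑ K ∈ Bᶜ.powerset, bA ρ Bᶜ K * if A2 K then 1 else 0 := by
  have h := pr_split ρ B (A1 := fun _ => True) (A2 := A2) (fun _ _ _ _ => Iff.rfl) h2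
  simp only [true_and, if_true, mul_one, bA_sum, one_mul] at h
  exact h

theorem pr_indep {n : ℕ} (ρ : ℝ) (B : Finset (Fin n)) {A1 A2 : Finset (Fin n) → Prop}
    (h1 : ∀ J K, J ⊆ B → K ⊆ Bᶜ → (A1 (J ∪ K) ↔ A1 J))
    (h2 : ∀ J K, J ⊆ B → K ⊆ Bᶜ → (A2 (J ∪ K) ↔ A2 K)) :
    prN ρ (fun I => A1 I ∧ A2 I) = prN ρ A1 * prN ρ A2 := by
  rw [pr_split ρ B h1 h2, pr_left ρ B h1, pr_right ρ B h2]

theorem pr_not {n : ℕ} (ρ : ℝ) (A : Finset (Fin n) → Prop) :
    prN ρ (fun I => ¬ A I) = 1 - prN ρ A := by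
  classical
  rw [← bern_sum (n := n) ρ]
  unfold prN
  rw [← Finset.sum_sub_distrib]
  refine Finset.sum_congr rfl fun I _ => ?_
  by_cases h : A I <;> simp [h]

theorem pr_sub {n : ℕ} (ρ : ℝ) (B : Finset (Fin n)) : prN ρ (fun I => B ⊆ I) = ρ ^ B.card := by
  classical
  rw [pr_left ρ B (A1 := fun I => B ⊆ I)]
  · rw [Finset.sum_eq_single B]
    · rw [if_pos (Subset.refl B), bA, Nat.sub_self, pow_zero, mul_one, mul_one]
    · intro J hJ hne
      rw [if_neg, mul_zero]
      exact fun h => hne (Subset.antisymm (mem_powerset.1 hJ) h)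
    · intro h
      exact absurd (mem_powerset_self B) h
  · intro J K hJ hK
    constructor
    · intro h v hv
      rcases mem_union.1 (h hv) with h1 | h1
      · exact h1
      · exact absurd hv (mem_compl.1 (hK h1))
    · exact fun h => h.trans subset_union_left

theorem pr_disj {n : ℕ} (ρ : ℝ) (B : Finset (Fin n)) :
    prN ρ (fun I => Disjoint B I) = (1 - ρ) ^ B.card := by
  classical
  rw [pr_left ρ B (A1 := fun I => Disjoint B I)]
  · rw [Finset.sum_eq_single ∅]
    · rw [if_pos (disjoint_empty_right B), bA, card_empty, Nat.sub_zero, pow_zero, mul_one,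
        one_mul]
    · intro J hJ hne
      rw [if_neg, mul_zero]
      intro h
      obtain ⟨v, hv⟩ := Finset.nonempty_iff_ne_empty.2 hne
      exact Finset.disjoint_left.1 h (mem_powerset.1 hJ hv) hv
    · intro h
      exact absurd (empty_mem_powerset B) h
  · intro J K hJ hK
    constructor
    · exact fun h => h.mono_right subset_union_left
    · intro h
      rw [disjoint_union_right]
      refine ⟨h, Finset.disjoint_left.2 fun v hv hv' => ?_⟩
      exact mem_compl.1 (hK hv') hv

end BernAux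

open BernAux in
/-- (M8) Events that depend on given vertices. -/
theorem stBern : StBern := by
  classical
  intro n ρ h0 h1
  refine ⟨pr_sub ρ, pr_disj ρ, fun ι s B b => ?_⟩
  induction s using Finset.induction_on with
  | empty =>
    intro _ _
    rw [card_empty, pow_zero]
    exact prN_le_one h0 h1 _
  | insert a s ha ih =>
    intro hb hd
    have ih' := ih (fun i hi => hb i (mem_insert_of_mem hi))
      (fun i hi j hj => hd i (mem_insert_of_mem hi) j (mem_insert_of_mem hj))
    have e : (fun I : Finset (Fin n) => ∀ i ∈ insert a s, ¬ Disjoint (B i) I) =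
        fun I => (¬ Disjoint (B a) I) ∧ ∀ i ∈ s, ¬ Disjoint (B i) I := by
      funext I
      rw [forall_mem_insert]
    rw [e, pr_indep ρ (B a), pr_not, pr_disj, card_insert_of_notMem ha, pow_succ, mul_comm]
    · refine mul_le_mul ih' ?_ ?_ ?_
      · have h2 : (1 - ρ) ^ b ≤ (1 - ρ) ^ (B a).card :=
          pow_le_pow_of_le_one (by linarith) (by linarith) (hb a (mem_insert_self a s))
        linarith
      · have h2 : (1 - ρ) ^ (B a).card ≤ 1 := pow_le_one₀ (by linarith) (by linarith)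
        linarith
      · have h2 : (1 - ρ) ^ b ≤ 1 := pow_le_one₀ (by linarith) (by linarith)
        have h3 : 0 ≤ 1 - (1 - ρ) ^ b := by linarith
        positivity
    · intro J K hJ hK
      rw [not_iff_not, disjoint_union_right]
      refine ⟨fun h => h.1, fun h => ⟨h, Finset.disjoint_left.2 fun v hv hv' => ?_⟩⟩
      exact mem_compl.1 (hK hv') hv
    · intro J K hJ hK
      refine forall₂_congr fun i hi => ?_
      rw [not_iff_not, disjoint_union_right]
      refine ⟨fun h => h.2, fun h => ⟨Finset.disjoint_left.2 fun v hv hv' => ?_, h⟩⟩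
      have h2 := hd a (mem_insert_self a s) i (mem_insert_of_mem hi) (by
        rintro rfl
        exact ha hi)
      exact Finset.disjoint_left.1 h2 (hJ hv') hv

end Pool.Agent.Lib.MP_cff830_lc.MR
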