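import Pool.Agent.Lib.MP_cff830_lc.MR.Stmts59

/-!
# Monotone circuits over relaxations of vertex cover: closures
-/

set_option autoImplicit false

namespace Pool.Agent.Lib.MP_cff830_lc.MR

open Finset

namespace ClosAux

theorem step {n t : ℕ} {ρ δ : ℝ} (h0 : 0 ≤ ρ) (h1 : ρ ≤ 1) (hδ : 0 ≤ δ) (S : Finset ℝ) :
    ∀ (N : ℕ) (g : Finset (Sym2 (Fin n)) → ℝ), MonoFn t g → (∀ K ∈ terms n t, g K ∈ S) →
      (∑ K ∈ terms n t, (S.filter fun x => g K < x).card) ≤ N →
      ∃ g' : Finset (Sym2 (Fin n)) → ℝ, MonoFn t g' ∧ Closed ρ δ t g' ∧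
        (∀ E ∈ terms n t, g E ≤ g' E) ∧
        prN ρ (fun I => ∃ K ∈ terms n t, In K (negG I) ∧
          ∀ K' ∈ terms n t, In K' (negG I) → g K' < g' K) ≤ N * δ := by
  classical
  intro N
  induction N with
  | zero =>
    intro g hmono hS hN
    refine ⟨g, hmono, fun E hE K hK _ => ?_, fun E _ => le_rfl, ?_⟩
    · by_contra hcon
      have h2 := Finset.sum_eq_zero_iff.1 (Nat.le_zero.1 hN) E hE
      rw [Finset.card_eq_zero, Finset.filter_eq_empty_iff] at h2
      exact h2 (hS K hK) (not_le.1 hcon)
    · have h2 : (univ.filter fun I : Finset (Fin n) => ∃ K ∈ terms n t, In K (negG I) ∧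
          ∀ K' ∈ terms n t, In K' (negG I) → g K' < g K) = ∅ := by
        rw [Finset.filter_eq_empty_iff]
        rintro I _ ⟨K, hK, hKI, h⟩
        exact lt_irrefl _ (h K hK hKI)
      rw [prN_eq, h2, Finset.sum_empty]
      simp
  | succ N ih =>
    intro g hmono hS hN
    by_cases hc : Closed ρ δ t g
    · refine ⟨g, hmono, hc, fun E _ => le_rfl, ?_⟩
      have h2 : (univ.filter fun I : Finset (Fin n) => ∃ K ∈ terms n t, In K (negG I) ∧
          ∀ K' ∈ terms n t, In K' (negG I) → g K' < g K) = ∅ := by
        rw [Finset.filter_eq_empty_iff]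
        rintro I _ ⟨K, hK, hKI, h⟩
        exact lt_irrefl _ (h K hK hKI)
      rw [prN_eq, h2, Finset.sum_empty]
      positivity
    · have h2 : ∃ E ∈ terms n t, ∃ K ∈ terms n t, prN ρ (fun I => In E (negG I) ∧
          ∀ K' ∈ terms n t, In K' (negG I) → g K' < g K) ≤ δ ∧ g E < g K := by
        by_contra hcon
        push Not at hcon
        exact hc hcon
      obtain ⟨E, hE, K, hK, hp, hlt⟩ := h2
      set g1 : Finset (Sym2 (Fin n)) → ℝ := fun E' => if E ⊆ E' then max (g E') (g K) else g E'
        with hg1
      have hle1 : ∀ E', g E' ≤ g1 E' := by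
        intro E'
        simp only [hg1]
        split_ifs
        · exact le_max_left _ _
        · exact le_rfl
      have hmono1 : MonoFn t g1 := by
        intro A hA B hB hAB
        simp only [hg1]
        by_cases h3 : E ⊆ A
        · rw [if_pos h3, if_pos (h3.trans hAB)]
          exact max_le_max (hmono A hA B hB hAB) le_rfl
        · rw [if_neg h3]
          split_ifs
          · exact (hmono A hA B hB hAB).trans (le_max_left _ _)
          · exact hmono A hA B hB hAB
      have hS1 : ∀ A ∈ terms n t, g1 A ∈ S := by
        intro A hA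
        simp only [hg1]
        split_ifs
        · rcases max_choice (g A) (g K) with h | h
          · rw [h]; exact hS A hA
          · rw [h]; exact hS K hK
        · exact hS A hA
      have hsum : ∑ A ∈ terms n t, (S.filter fun x => g1 A < x).card <
          ∑ A ∈ terms n t, (S.filter fun x => g A < x).card := by
        refine Finset.sum_lt_sum (fun A _ => ?_) ⟨E, hE, ?_⟩
        · refine Finset.card_le_card fun x hx => ?_
          rw [Finset.mem_filter] at hx ⊢
          exact ⟨hx.1, lt_of_le_of_lt (hle1 A) hx.2⟩
        · refine Finset.card_lt_card ?_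
          rw [Finset.ssubset_iff_of_subset]
          · refine ⟨g K, Finset.mem_filter.2 ⟨hS K hK, hlt⟩, ?_⟩
            rw [Finset.mem_filter, not_and, not_lt]
            intro _
            simp only [hg1, if_pos (Finset.Subset.refl E)]
            exact le_max_right _ _
          · intro x hx
            rw [Finset.mem_filter] at hx ⊢
            exact ⟨hx.1, lt_of_le_of_lt (hle1 E) hx.2⟩
      obtain ⟨g', hm', hc', hle', hp'⟩ := ih g1 hmono1 hS1 (by omega)
      refine ⟨g', hm', hc', fun A hA => (hle1 A).trans (hle' A hA), ?_⟩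
      calc prN ρ (fun I => ∃ K ∈ terms n t, In K (negG I) ∧
            ∀ K' ∈ terms n t, In K' (negG I) → g K' < g' K)
          ≤ prN ρ (fun I => (∃ K ∈ terms n t, In K (negG I) ∧
              ∀ K' ∈ terms n t, In K' (negG I) → g1 K' < g' K) ∨
              (In E (negG I) ∧ ∀ K' ∈ terms n t, In K' (negG I) → g K' < g K)) := by
            refine prN_mono h0 h1 fun I h => ?_
            obtain ⟨A, hA, hAI, h⟩ := h
            by_contra hcon
            rw [not_or] at hcon
            obtain ⟨h3, h4⟩ := hcon
            push Not at h3 h4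
            obtain ⟨B, hB, hBI, hAB⟩ := h3 A hA hAI
            simp only [hg1] at hAB
            split_ifs at hAB with hEB
            · have hBK : g K < g' A ∨ g' A ≤ g B := by
                by_contra hno
                rw [not_or, not_lt, not_le] at hno
                have h5 := h B hB hBI
                rcases le_max_iff.1 hAB with h6 | h6
                · exact absurd h5 (not_lt.2 h6)
                · obtain ⟨D, hD, hDI, hKD⟩ := h4 (fun e he => hBI e (hEB he))
                  have h7 := h D hD hDI
                  linarith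
              rcases hBK with h5 | h5
              · rcases le_max_iff.1 hAB with h6 | h6
                · exact absurd (h B hB hBI) (not_lt.2 h6)
                · exact absurd h5 (not_lt.2 h6)
              · exact absurd (h B hB hBI) (not_lt.2 h5)
            · exact absurd (h B hB hBI) (not_lt.2 hAB)
        _ ≤ N * δ + δ := (prN_or h0 h1 _ _).trans (add_le_add hp' hp)
        _ = ((N + 1 : ℕ) : ℝ) * δ := by push_cast; ring

theorem choose_le {n : ℕ} (hn : 1 ≤ n) : n.choose 2 + 1 ≤ n ^ 2 := by
  obtain ⟨m, rfl⟩ : ∃ m, n = m + 1 := ⟨n - 1, by omega⟩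
  have h : (m + 1).choose 2 ≤ (m + 1) * m := by
    rw [Nat.choose_two_right, Nat.add_sub_cancel]
    exact Nat.div_le_self _ _
  nlinarith

theorem card_terms {n : ℕ} (hn : 1 ≤ n) : ∀ t : ℕ, (terms n t).card ≤ n ^ (2 * t) := by
  classical
  intro t
  induction t with
  | zero =>
    have h : terms n 0 ⊆ {∅} := by
      intro E hE
      rw [Finset.mem_singleton, ← Finset.card_eq_zero]
      have := (mem_terms.1 hE).2
      omega
    simpa using Finset.card_le_card h
  | succ t ih =>
    set P : Finset (Sym2 (Fin n)) := univ.filter fun e => ¬ e.IsDiag with hP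
    have hPc : P.card = n.choose 2 := by
      have h := Sym2.card_subtype_not_diag (α := Fin n)
      rw [Fintype.card_fin, Fintype.card_subtype] at h
      exact h
    have hsub : terms n (t + 1) ⊆ (terms n t ×ˢ Finset.insertNone P).image fun q =>
        match q.2 with
        | none => q.1
        | some e => insert e q.1 := by
      intro E hE
      obtain ⟨h1, h2⟩ := mem_terms.1 hE
      rw [Finset.mem_image]
      by_cases h3 : E.card ≤ t
      · exact ⟨(E, none), Finset.mem_product.2 ⟨mem_terms.2 ⟨h1, h3⟩, by simp⟩, rfl⟩
      · have h4 : E.Nonempty := by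
          rw [← Finset.card_pos]
          omega
        obtain ⟨e, he⟩ := h4
        refine ⟨(E.erase e, some e), Finset.mem_product.2 ⟨mem_terms.2
          ⟨fun e' he' => h1 e' (Finset.mem_of_mem_erase he'), ?_⟩, ?_⟩, ?_⟩
        · rw [Finset.card_erase_of_mem he]
          omega
        · rw [Finset.some_mem_insertNone, hP, Finset.mem_filter]
          exact ⟨mem_univ _, h1 e he⟩
        · exact Finset.insert_erase he
    calc (terms n (t + 1)).card ≤ (terms n t ×ˢ Finset.insertNone P).card :=
          (Finset.card_le_card hsub).trans Finset.card_image_le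
      _ = (terms n t).card * (n.choose 2 + 1) := by
          rw [Finset.card_product, Finset.card_insertNone, hPc]
      _ ≤ n ^ (2 * t) * n ^ 2 := Nat.mul_le_mul ih (choose_le hn)
      _ = n ^ (2 * (t + 1)) := by rw [← pow_add]; ring_nf

end ClosAux

/-- (M12) -/
theorem stClos : StClos := by
  classical
  refine ⟨fun n t ρ δ g h0 h1 hδ hg => ?_, fun n t hn => ClosAux.card_terms hn t⟩
  obtain ⟨g', h2, h3, h4, h5⟩ := ClosAux.step h0 h1 hδ ((terms n t).image g)
    ((terms n t).card * (terms n t).card) g hg (fun K hK => Finset.mem_image_of_mem g hK) (by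
      calc ∑ K ∈ terms n t, (((terms n t).image g).filter fun x => g K < x).card
          ≤ ∑ _K ∈ terms n t, (terms n t).card := Finset.sum_le_sum fun K _ =>
            (Finset.card_filter_le _ _).trans Finset.card_image_le
        _ = (terms n t).card * (terms n t).card := by rw [Finset.sum_const, smul_eq_mul])
  refine ⟨g', h2, h3, h4, h5.trans (le_of_eq ?_)⟩
  push_cast
  ring

end Pool.Agent.Lib.MP_cff830_lc.MR
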