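import Pool.Agent.Lib.MP_cff830_lc.MR.StmtsX59

/-!
# Monotone circuits over relaxations of vertex cover: few dense subgraphs (count for X2)
-/

set_option autoImplicit false

namespace Pool.Agent.Lib.MP_cff830_lc.MR

open Finset

/-- The set of pairs coded by `u` vertices and `f` pairs of their numbers. -/
def cntT {n : ℕ} (u f : ℕ) (x : (Fin u → Fin n) × (Fin f → Fin u × Fin u)) :
    Finset (Sym2 (Fin n)) :=
  univ.image fun i : Fin f => s(x.1 (x.2 i).1, x.1 (x.2 i).2)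

theorem cntT_surj {n : ℕ} (u : ℕ) (F : Finset (Sym2 (Fin n))) (hF : F.Nonempty)
    (hu : (vs F).card ≤ u) : ∃ x, cntT u F.card x = F := by
  classical
  have hv0 : (vs F).Nonempty := by
    obtain ⟨e, he⟩ := hF
    induction e using Sym2.ind with
    | _ a b => exact ⟨a, mem_vs.2 ⟨_, he, Sym2.mem_mk_left a b⟩⟩
  obtain ⟨v0, hv0'⟩ := hv0
  let e := (vs F).equivFin
  let g : Fin u → Fin n := fun i =>
    if h : (i : ℕ) < (vs F).card then (e.symm ⟨i, h⟩ : Fin n) else v0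
  have hg : ∀ v ∈ vs F, ∃ i : Fin u, g i = v := by
    intro v hv
    refine ⟨⟨e ⟨v, hv⟩, (e ⟨v, hv⟩).isLt.trans_le hu⟩, ?_⟩
    have h1 : ((e ⟨v, hv⟩ : Fin (vs F).card) : ℕ) < (vs F).card := (e ⟨v, hv⟩).isLt
    simp only [g, h1, dif_pos]
    have h2 : (⟨((e ⟨v, hv⟩ : Fin (vs F).card) : ℕ), h1⟩ : Fin (vs F).card) = e ⟨v, hv⟩ := rfl
    rw [h2, Equiv.symm_apply_apply]
  have hp : ∀ a ∈ F, ∃ p : Fin u × Fin u, s(g p.1, g p.2) = a := by
    intro a ha
    induction a using Sym2.ind with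
    | _ x y =>
      obtain ⟨i, hi⟩ := hg x (mem_vs.2 ⟨_, ha, Sym2.mem_mk_left x y⟩)
      obtain ⟨j, hj⟩ := hg y (mem_vs.2 ⟨_, ha, Sym2.mem_mk_right x y⟩)
      exact ⟨(i, j), by rw [hi, hj]⟩
  choose p hp using hp
  refine ⟨(g, fun i => p (F.equivFin.symm i) (F.equivFin.symm i).2), ?_⟩
  ext a
  unfold cntT
  rw [mem_image]
  constructor
  · rintro ⟨i, -, rfl⟩
    rw [hp]
    exact (F.equivFin.symm i).2
  · intro ha
    refine ⟨F.equivFin ⟨a, ha⟩, mem_univ _, ?_⟩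
    rw [hp, Equiv.symm_apply_apply]

theorem cnt_num (n D t f u : ℕ) (hn0 : 0 < n) (hD : 0 < D) (hf1 : 1 ≤ f) (hft : f ≤ t)
    (hu : 3 * u ≤ 2 * f) (hn : (D * t ^ 2) ^ 12 ≤ n) :
    8 * t * (n ^ u * (D * (u * u)) ^ f) ≤ n ^ f := by
  rcases Nat.eq_zero_or_pos u with h0 | h0
  · rw [h0, Nat.mul_zero, zero_pow (by omega)]
    simp
  have hf2 : 2 ≤ f := by omega
  have ht2 : 2 ≤ t := hf2.trans hft
  set s := D * t ^ 2 with hs
  have hst : t ^ 2 ≤ s := Nat.le_mul_of_pos_left _ hD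
  have hs4 : 4 ≤ s := le_trans (by nlinarith) hst
  have h1 : D * (u * u) ≤ s := by
    rw [hs]
    refine Nat.mul_le_mul_left _ ?_
    have : u ≤ t := by omega
    nlinarith
  have h2 : 8 * t ≤ s ^ 3 := by
    have a1 : 8 * t ≤ t ^ 2 * 4 := by nlinarith
    have a2 : t ^ 2 * 4 ≤ s * s := Nat.mul_le_mul hst hs4
    have a3 : s * s ≤ s ^ 3 := by
      rw [show s ^ 3 = s * s * s by ring]
      exact Nat.le_mul_of_pos_right _ (by omega)
    exact a1.trans (a2.trans a3)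
  have h3 : 8 * t * s ^ f ≤ (s ^ 4) ^ f := by
    calc 8 * t * s ^ f ≤ (8 * t) ^ f * s ^ f :=
          Nat.mul_le_mul_right _ (Nat.le_self_pow (by omega) _)
      _ = (8 * t * s) ^ f := by rw [mul_pow (8 * t)]
      _ ≤ (s ^ 3 * s) ^ f := Nat.pow_le_pow_left (Nat.mul_le_mul_right _ h2) _
      _ = (s ^ 4) ^ f := by rw [← pow_succ]
  have h4 : (s ^ 4) ^ f ≤ n ^ (f - u) := by
    calc (s ^ 4) ^ f = s ^ (4 * f) := by rw [← pow_mul]
      _ ≤ s ^ (12 * (f - u)) := Nat.pow_le_pow_right (by omega) (by omega)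
      _ = (s ^ 12) ^ (f - u) := by rw [← pow_mul]
      _ ≤ n ^ (f - u) := Nat.pow_le_pow_left hn _
  calc 8 * t * (n ^ u * (D * (u * u)) ^ f) ≤ 8 * t * (n ^ u * s ^ f) :=
        Nat.mul_le_mul_left _ (Nat.mul_le_mul_left _ (Nat.pow_le_pow_left h1 _))
    _ = n ^ u * (8 * t * s ^ f) := by ring
    _ ≤ n ^ u * n ^ (f - u) := Nat.mul_le_mul_left _ (h3.trans h4)
    _ = n ^ f := by
        rw [← pow_add]
        congr 1
        omega

open Classical in
/-- The colourings in which the coded set has `f` pairs, all of colour `0`. -/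
noncomputable def cntC (n r u f : ℕ) (x : (Fin u → Fin n) × (Fin f → Fin u × Fin u)) :
    Finset (Sym2 (Fin n) → Fin (r + 1)) :=
  univ.filter fun ω => (cntT u f x).card = f ∧ ∀ e ∈ cntT u f x, ω e = 0

theorem cntC_sum (n r u f : ℕ) : (∑ x, (cntC n r u f x).card) * (r + 1) ^ f ≤
    n ^ u * (u * u) ^ f * (r + 1) ^ (Fintype.card (Sym2 (Fin n))) := by
  classical
  have h1 : ∀ x, (cntC n r u f x).card * (r + 1) ^ f ≤
      (r + 1) ^ (Fintype.card (Sym2 (Fin n))) := by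
    intro x
    by_cases hT : (cntT u f x).card = f
    · have h := GSI.count_pi r ({0} : Finset (Fin (r + 1))) (cntT u f x)
      rw [hT, card_singleton, one_pow, one_mul] at h
      rw [← h]
      refine Nat.mul_le_mul_right _ (card_le_card fun ω hω => ?_)
      unfold cntC at hω
      rw [mem_filter] at hω ⊢
      exact ⟨mem_univ _, fun e he => mem_singleton.2 (hω.2.2 e he)⟩
    · have : cntC n r u f x = ∅ := by
        unfold cntC
        simp [hT]
      rw [this, card_empty, Nat.zero_mul]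
      exact Nat.zero_le _
  rw [sum_mul]
  refine (sum_le_sum fun x _ => h1 x).trans ?_
  rw [sum_const, smul_eq_mul, card_univ, Fintype.card_prod, Fintype.card_fun,
    Fintype.card_fun, Fintype.card_prod]
  simp only [Fintype.card_fin]
  exact le_rfl

open Classical in
/-- At most one colouring in eight has a nonempty set `F` of at most `t` pairs of colour `0` with
`3 * (vs F).card ≤ 2 * F.card`. -/
theorem cntX (n r D t : ℕ) (hD : n ≤ D * (r + 1)) (hn : (D * t ^ 2) ^ 12 ≤ n) :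
    8 * (univ.filter fun ω : Sym2 (Fin n) → Fin (r + 1) => ∃ F : Finset (Sym2 (Fin n)),
      F.Nonempty ∧ In F (GSI.Gr ω) ∧ F.card ≤ t ∧ 3 * (vs F).card ≤ 2 * F.card).card ≤
      Fintype.card (Sym2 (Fin n) → Fin (r + 1)) := by
  set Q := Fintype.card (Sym2 (Fin n)) with hQ
  have hR : Fintype.card (Sym2 (Fin n) → Fin (r + 1)) = (r + 1) ^ Q := by
    rw [Fintype.card_fun, Fintype.card_fin]
  rw [hR]
  set B := univ.filter fun ω : Sym2 (Fin n) → Fin (r + 1) => ∃ F : Finset (Sym2 (Fin n)),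
      F.Nonempty ∧ In F (GSI.Gr ω) ∧ F.card ≤ t ∧ 3 * (vs F).card ≤ 2 * F.card with hB
  rcases Nat.eq_zero_or_pos B.card with hB0 | hB0
  · rw [hB0]
    exact Nat.zero_le _
  have hex : ∃ F : Finset (Sym2 (Fin n)), F.Nonempty ∧ F.card ≤ t := by
    obtain ⟨ω, hω⟩ := card_pos.1 hB0
    obtain ⟨F, h1, -, h2, -⟩ := (mem_filter.1 hω).2
    exact ⟨F, h1, h2⟩
  obtain ⟨F0, hF0, hF0t⟩ := hex
  have ht1 : 1 ≤ t := (card_pos.2 hF0).trans_le hF0t
  have hn0 : 0 < n := by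
    obtain ⟨e, -⟩ := hF0
    induction e using Sym2.ind with
    | _ a b => exact a.pos
  have hD0 : 0 < D := by
    rcases Nat.eq_zero_or_pos D with h | h
    · rw [h] at hD
      omega
    · exact h
  let C : (f : ℕ) → ((Fin (2 * f / 3) → Fin n) × (Fin f → Fin (2 * f / 3) × Fin (2 * f / 3))) →
      Finset (Sym2 (Fin n) → Fin (r + 1)) := fun f x => cntC n r (2 * f / 3) f x
  have hcov : B ⊆ (Icc 1 t).biUnion fun f => univ.biUnion fun x => C f x := by
    intro ω hω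
    obtain ⟨F, h1, h2, h3, h4⟩ := (mem_filter.1 hω).2
    have h5 : (vs F).card ≤ 2 * F.card / 3 := by
      rw [Nat.le_div_iff_mul_le (by norm_num)]
      omega
    obtain ⟨x, hx⟩ := cntT_surj (2 * F.card / 3) F h1 h5
    refine mem_biUnion.2 ⟨F.card, mem_Icc.2 ⟨card_pos.2 h1, h3⟩, ?_⟩
    refine mem_biUnion.2 ⟨x, mem_univ _, ?_⟩
    show ω ∈ cntC n r _ _ x
    unfold cntC
    refine mem_filter.2 ⟨mem_univ _, by rw [hx], fun e he => ?_⟩
    rw [hx] at he
    have h6 := h2 e he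
    unfold GSI.Gr at h6
    rw [SimpleGraph.edgeSet_fromEdgeSet] at h6
    exact h6.1
  have hA : ∀ f ∈ Icc 1 t, 8 * t * ∑ x, (C f x).card ≤ (r + 1) ^ Q := by
    intro f hf
    rw [mem_Icc] at hf
    have hu3 : 3 * (2 * f / 3) ≤ 2 * f := by omega
    have h2 := cntC_sum n r (2 * f / 3) f
    rw [← hQ] at h2
    have hpos : 0 < n ^ f := Nat.pow_pos hn0
    refine Nat.le_of_mul_le_mul_right ?_ hpos
    show 8 * t * (∑ x, (cntC n r (2 * f / 3) f x).card) * n ^ f ≤ (r + 1) ^ Q * n ^ f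
    generalize ∑ x, (cntC n r (2 * f / 3) f x).card = A at h2 ⊢
    calc 8 * t * A * n ^ f
        ≤ 8 * t * A * (D * (r + 1)) ^ f :=
          Nat.mul_le_mul_left _ (Nat.pow_le_pow_left hD _)
      _ = 8 * t * D ^ f * (A * (r + 1) ^ f) := by
          rw [mul_pow]
          ring
      _ ≤ 8 * t * D ^ f * (n ^ (2 * f / 3) * ((2 * f / 3) * (2 * f / 3)) ^ f * (r + 1) ^ Q) :=
          Nat.mul_le_mul_left _ h2
      _ = 8 * t * (n ^ (2 * f / 3) * (D * ((2 * f / 3) * (2 * f / 3))) ^ f) * (r + 1) ^ Q := by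
          rw [mul_pow D]
          ring
      _ ≤ n ^ f * (r + 1) ^ Q :=
          Nat.mul_le_mul_right _ (cnt_num n D t f (2 * f / 3) hn0 hD0 hf.1 hf.2 hu3 hn)
      _ = (r + 1) ^ Q * n ^ f := Nat.mul_comm _ _
  have h7 : B.card ≤ ∑ f ∈ Icc 1 t, ∑ x, (C f x).card :=
    (card_le_card hcov).trans (card_biUnion_le.trans (sum_le_sum fun f _ => card_biUnion_le))
  refine Nat.le_of_mul_le_mul_left (c := t) ?_ (by omega)
  calc t * (8 * B.card) = 8 * t * B.card := by ring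
    _ ≤ 8 * t * ∑ f ∈ Icc 1 t, ∑ x, (C f x).card := Nat.mul_le_mul_left _ h7
    _ = ∑ f ∈ Icc 1 t, 8 * t * ∑ x, (C f x).card := by rw [mul_sum]
    _ ≤ ∑ _f ∈ Icc 1 t, (r + 1) ^ Q := sum_le_sum hA
    _ = t * (r + 1) ^ Q := by
        rw [sum_const, Nat.card_Icc, smul_eq_mul, Nat.add_sub_cancel]

end Pool.Agent.Lib.MP_cff830_lc.MR
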