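import Pool.Agent.Lib.MP_cff830_lc.MR.StmtsX59

/-!
# Monotone circuits over relaxations of vertex cover: 3-colourings of sparse graphs
-/

set_option autoImplicit false

namespace Pool.Agent.Lib.MP_cff830_lc.MR

open Finset

namespace ColAux

open Classical in
theorem exists_low {n : ℕ} (E : Finset (Sym2 (Fin n)))
    (h : ∀ F : Finset (Sym2 (Fin n)), F ⊆ E → F.Nonempty → 2 * F.card < 3 * (vs F).card)
    (U : Finset (Fin n)) (hU : U.Nonempty) :
    ∃ v ∈ U, (U.filter fun u => (gr E).Adj v u).card ≤ 2 := by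
  by_contra hcon
  push Not at hcon
  set F : Finset (Sym2 (Fin n)) := E.filter fun e => ¬ e.IsDiag ∧ ∀ v ∈ e, v ∈ U with hF
  have hadj : ∀ v ∈ U, ∀ u, (gr F).Adj v u ↔ u ∈ U ∧ (gr E).Adj v u := by
    intro v hv u
    unfold gr
    rw [SimpleGraph.fromEdgeSet_adj, SimpleGraph.fromEdgeSet_adj, Finset.mem_coe, Finset.mem_coe,
      hF, mem_filter, Sym2.mk_isDiag_iff]
    constructor
    · rintro ⟨⟨h1, h2, h3⟩, h4⟩
      exact ⟨h3 u (Sym2.mem_mk_right v u), h1, h4⟩
    · rintro ⟨h1, h2, h3⟩
      refine ⟨⟨h2, h3, ?_⟩, h3⟩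
      intro x hx
      rcases Sym2.mem_iff.1 hx with rfl | rfl
      · exact hv
      · exact h1
  have hdeg : ∀ v ∈ U, 3 ≤ (gr F).degree v := by
    intro v hv
    have h1 := hcon v hv
    rw [← SimpleGraph.card_neighborFinset_eq_degree]
    have h2 : (gr F).neighborFinset v = U.filter fun u => (gr E).Adj v u := by
      ext u
      rw [SimpleGraph.mem_neighborFinset, hadj v hv u, mem_filter]
    rw [h2]
    exact h1
  have hsub : vs F ⊆ U := by
    intro v hv
    unfold vs at hv
    rw [mem_filter] at hv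
    obtain ⟨-, e, he, hve⟩ := hv
    rw [hF, mem_filter] at he
    exact he.2.2 v hve
  have hne : F.Nonempty := by
    obtain ⟨v, hv⟩ := hU
    have h1 := hcon v hv
    have h2 : (U.filter fun u => (gr E).Adj v u).Nonempty := by
      rw [← Finset.card_pos]
      omega
    obtain ⟨u, hu⟩ := h2
    rw [mem_filter] at hu
    have h3 := (hadj v hv u).2 hu
    unfold gr at h3
    rw [SimpleGraph.fromEdgeSet_adj] at h3
    exact ⟨_, Finset.mem_coe.1 h3.1⟩
  have h1 := h F (filter_subset _ _) hne
  have h2 : 3 * U.card ≤ ∑ v, (gr F).degree v := by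
    calc 3 * U.card = ∑ v ∈ U, 3 := by rw [sum_const, smul_eq_mul, mul_comm]
      _ ≤ ∑ v ∈ U, (gr F).degree v := sum_le_sum hdeg
      _ ≤ ∑ v, (gr F).degree v :=
        sum_le_sum_of_subset_of_nonneg (subset_univ _) fun _ _ _ => Nat.zero_le _
  have h3 := (gr F).sum_degrees_eq_twice_card_edges
  have h4 : (gr F).edgeFinset.card ≤ F.card := by
    apply card_le_card
    intro e he
    rw [SimpleGraph.mem_edgeFinset] at he
    unfold gr at he
    rw [SimpleGraph.edgeSet_fromEdgeSet] at he
    exact Finset.mem_coe.1 he.1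
  have h5 := card_le_card hsub
  omega

theorem exists_colour {n : ℕ} (E : Finset (Sym2 (Fin n)))
    (h : ∀ F : Finset (Sym2 (Fin n)), F ⊆ E → F.Nonempty → 2 * F.card < 3 * (vs F).card) :
    ∀ (m : ℕ) (U : Finset (Fin n)), U.card = m →
      ∃ c : Fin n → Fin 3, ∀ u ∈ U, ∀ v ∈ U, (gr E).Adj u v → c u ≠ c v := by
  classical
  intro m
  induction m with
  | zero =>
    intro U hU
    rw [card_eq_zero] at hU
    subst hU
    exact ⟨fun _ => 0, by simp⟩
  | succ m ih =>
    intro U hU
    have hne : U.Nonempty := by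
      rw [← card_pos]
      omega
    obtain ⟨v, hv, hlow⟩ := exists_low E h U hne
    obtain ⟨c, hc⟩ := ih (U.erase v) (by rw [card_erase_of_mem hv]; omega)
    have h1 : ((U.filter fun u => (gr E).Adj v u).image c).card < (univ : Finset (Fin 3)).card :=
      lt_of_le_of_lt (le_trans card_image_le hlow) (by simp)
    obtain ⟨a, -, ha⟩ := exists_mem_notMem_of_card_lt_card h1
    have ha' : ∀ u ∈ U, (gr E).Adj v u → c u ≠ a := by
      intro u hu huv heq
      exact ha (mem_image.2 ⟨u, mem_filter.2 ⟨hu, huv⟩, heq⟩)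
    refine ⟨Function.update c v a, ?_⟩
    intro x hx y hy hxy
    by_cases hxv : x = v
    · subst hxv
      have hyx : y ≠ x := hxy.ne'
      rw [Function.update_self, Function.update_of_ne hyx]
      exact (ha' y hy hxy).symm
    · by_cases hyv : y = v
      · subst hyv
        rw [Function.update_self, Function.update_of_ne hxv]
        exact ha' x hx hxy.symm
      · rw [Function.update_of_ne hxv, Function.update_of_ne hyv]
        exact hc x (mem_erase.2 ⟨hxv, hx⟩) y (mem_erase.2 ⟨hyv, hy⟩) hxy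

end ColAux

theorem stCol : StCol := by
  intro n E h
  obtain ⟨c, hc⟩ := ColAux.exists_colour E h _ univ rfl
  exact ⟨SimpleGraph.Coloring.mk c fun {u v} huv => hc u (mem_univ _) v (mem_univ _) huv⟩

end Pool.Agent.Lib.MP_cff830_lc.MR
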