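import Pool.Agent.Lib.MP_cff830_lc.MR.Stmts59

/-!
# Monotone circuits over relaxations of vertex cover: few vertices on short cycles (M2)
-/

set_option autoImplicit false

namespace Pool.Agent.Lib.MP_cff830_lc.MR

open Finset

/-- The pairs of consecutive vertices of a closed sequence. -/
def cycT {n : ℕ} (l : ℕ) (f : Fin l → Fin n) : Finset (Sym2 (Fin n)) :=
  univ.image fun i : Fin l => s(f i, f ⟨(i.val + 1) % l, Nat.mod_lt _ i.pos⟩)

theorem cyc_exists_seq {n r : ℕ} (ω : Sym2 (Fin n) → Fin (r + 1)) (v : Fin n)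
    (p : (GSI.Gr ω).Walk v v) (hp : p.IsCycle) :
    ∃ f : Fin p.length → Fin n, (∀ h : 0 < p.length, f ⟨0, h⟩ = v) ∧ (cycT p.length f).card = p.length ∧
      ∀ e ∈ cycT p.length f, ω e = 0 := by
  classical
  have hstep : ∀ i : Fin p.length, p.getVert ((i.val + 1) % p.length) = p.getVert (i.val + 1) := by
    intro i
    by_cases h : i.val + 1 < p.length
    · rw [Nat.mod_eq_of_lt h]
    · have h1 : i.val + 1 = p.length := by omega
      rw [h1, Nat.mod_self, SimpleGraph.Walk.getVert_zero, SimpleGraph.Walk.getVert_length]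
  refine ⟨fun i => p.getVert i.val, fun h => p.getVert_zero, ?_, ?_⟩
  · refine le_antisymm (card_image_le.trans (by simp)) ?_
    have h1 : p.edges.toFinset ⊆ cycT p.length fun i => p.getVert i.val := by
      intro e he
      rw [List.mem_toFinset] at he
      induction e using Sym2.ind with
      | _ x y =>
        obtain ⟨i, hi, h⟩ := (SimpleGraph.Walk.mk_mem_edges_iff_exists p).1 he
        unfold cycT
        rw [mem_image]
        refine ⟨⟨i, hi⟩, mem_univ _, ?_⟩
        have h2 := hstep ⟨i, hi⟩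
        simp only at h2 ⊢
        rw [h2, h]
    have h2 := card_le_card h1
    rw [List.toFinset_card_of_nodup hp.edges_nodup, SimpleGraph.Walk.length_edges] at h2
    exact h2
  · intro e he
    unfold cycT at he
    rw [mem_image] at he
    obtain ⟨i, -, rfl⟩ := he
    have h1 := p.adj_getVert_succ i.isLt
    have h2 := hstep i
    simp only at h2 ⊢
    rw [h2]
    unfold GSI.Gr at h1
    rw [SimpleGraph.fromEdgeSet_adj] at h1
    exact h1.1

theorem stCyc : StCyc := by
  classical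
  intro n r D t hn
  set Q := Fintype.card (Sym2 (Fin n)) with hQ
  let F : (Sym2 (Fin n) → Fin (r + 1)) → (l : ℕ) → Finset (Fin l → Fin n) := fun ω l =>
    univ.filter fun f => (cycT l f).card = l ∧ ∀ e ∈ cycT l f, ω e = 0
  have key : ∀ ω : Sym2 (Fin n) → Fin (r + 1), (univ.filter fun v : Fin n =>
      ∃ p : (GSI.Gr ω).Walk v v, p.IsCycle ∧ p.length ≤ t).card ≤
        ∑ l ∈ range (t + 1), (F ω l).card := by
    intro ω
    rw [← card_sigma]
    have hex : ∀ v : Fin n, ∃ x : (Σ l : ℕ, (Fin l → Fin n)),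
        (∃ p : (GSI.Gr ω).Walk v v, p.IsCycle ∧ p.length ≤ t) →
          x ∈ (range (t + 1)).sigma (F ω) ∧ 0 < x.1 ∧ ∀ h : 0 < x.1, x.2 ⟨0, h⟩ = v := by
      intro v
      by_cases hv : ∃ p : (GSI.Gr ω).Walk v v, p.IsCycle ∧ p.length ≤ t
      · obtain ⟨p, hp, hpt⟩ := hv
        obtain ⟨f, h0, hf1, hf2⟩ := cyc_exists_seq ω v p hp
        refine ⟨⟨p.length, f⟩, fun _ => ⟨?_, by have := hp.three_le_length; simp only; omega, h0⟩⟩
        rw [mem_sigma]
        refine ⟨mem_range.2 (by simp only; omega), ?_⟩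
        exact mem_filter.2 ⟨mem_univ _, hf1, hf2⟩
      · exact ⟨⟨0, fun i => i.elim0⟩, fun h => absurd h hv⟩
    choose g hg using hex
    refine card_le_card_of_injOn g ?_ ?_
    · intro v hv
      exact (hg v (mem_filter.1 hv).2).1
    · intro v hv u hu hvu
      obtain ⟨-, h1, h2⟩ := hg v (mem_filter.1 hv).2
      obtain ⟨-, h3, h4⟩ := hg u (mem_filter.1 hu).2
      have h5 : ∀ x y : (Σ l : ℕ, (Fin l → Fin n)), x = y → ∀ (hx : 0 < x.1) (hy : 0 < y.1),
          x.2 ⟨0, hx⟩ = y.2 ⟨0, hy⟩ := by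
        rintro x y rfl hx hy
        rfl
      rw [← h2 h1, ← h4 h3]
      exact h5 _ _ hvu h1 h3
  have hcount : ∀ l ∈ range (t + 1), ∑ ω : Sym2 (Fin n) → Fin (r + 1), (F ω l).card ≤
      D ^ l * (r + 1) ^ Q := by
    intro l _
    have hpos : 0 < (r + 1) ^ l := Nat.pow_pos (Nat.succ_pos r)
    have hf : ∀ f : Fin l → Fin n, (univ.filter fun ω : Sym2 (Fin n) → Fin (r + 1) =>
        (cycT l f).card = l ∧ ∀ e ∈ cycT l f, ω e = 0).card * (r + 1) ^ l ≤ (r + 1) ^ Q := by
      intro f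
      by_cases hT : (cycT l f).card = l
      · have h := GSI.count_pi r ({0} : Finset (Fin (r + 1))) (cycT l f)
        rw [hT] at h
        simp only [mem_singleton, card_singleton, one_pow, one_mul] at h
        simp only [hT, true_and]
        exact h.le
      · simp [hT]
    have hswap : ∑ ω : Sym2 (Fin n) → Fin (r + 1), (F ω l).card =
        ∑ f : Fin l → Fin n, (univ.filter fun ω : Sym2 (Fin n) → Fin (r + 1) =>
          (cycT l f).card = l ∧ ∀ e ∈ cycT l f, ω e = 0).card := by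
      simp only [F, card_filter]
      rw [sum_comm]
    rw [hswap]
    refine Nat.le_of_mul_le_mul_right ?_ hpos
    rw [sum_mul]
    calc ∑ f : Fin l → Fin n, (univ.filter fun ω : Sym2 (Fin n) → Fin (r + 1) =>
          (cycT l f).card = l ∧ ∀ e ∈ cycT l f, ω e = 0).card * (r + 1) ^ l
        ≤ ∑ _f : Fin l → Fin n, (r + 1) ^ Q := sum_le_sum fun f _ => hf f
      _ = n ^ l * (r + 1) ^ Q := by
          rw [sum_const, card_univ, Fintype.card_fun, Fintype.card_fin, Fintype.card_fin,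
            smul_eq_mul]
      _ ≤ (D * (r + 1)) ^ l * (r + 1) ^ Q := Nat.mul_le_mul_right _ (Nat.pow_le_pow_left hn l)
      _ = D ^ l * (r + 1) ^ Q * (r + 1) ^ l := by rw [mul_pow]; ring
  calc ∑ ω : Sym2 (Fin n) → Fin (r + 1), (univ.filter fun v : Fin n =>
      ∃ p : (GSI.Gr ω).Walk v v, p.IsCycle ∧ p.length ≤ t).card
      ≤ ∑ ω : Sym2 (Fin n) → Fin (r + 1), ∑ l ∈ range (t + 1), (F ω l).card :=
        sum_le_sum fun ω _ => key ω
    _ = ∑ l ∈ range (t + 1), ∑ ω : Sym2 (Fin n) → Fin (r + 1), (F ω l).card := sum_comm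
    _ ≤ ∑ l ∈ range (t + 1), D ^ l * (r + 1) ^ Q := sum_le_sum hcount
    _ = (∑ l ∈ range (t + 1), D ^ l) * (r + 1) ^ Q := by rw [sum_mul]

end Pool.Agent.Lib.MP_cff830_lc.MR
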