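import Mathlib
import Pool.Agent.Lib.MP_cff830_lc.Defs

/-!
# Monotone circuits over relaxations of vertex cover: the definitions of the statement
-/

set_option autoImplicit false

namespace Pool.Agent.Lib.MP_cff830_lc.MR

open Finset

/-- The minimum weight of a vertex cover of `G`, for real weights `w`. -/
noncomputable def minCover {V : Type} (G : SimpleGraph V) (w : V → ℝ) : ℝ :=
  sInf {m | ∃ C : Finset V, IsVertexCover G C ∧ m = ∑ v ∈ C, w v}

/-- The value of the standard linear programme, with the edge constraints. -/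
noncomputable def edgeLP {V : Type} [Fintype V] (G : SimpleGraph V) (w : V → ℝ) : ℝ :=
  sInf {m | ∃ x : V → ℝ, ((∀ v, 0 ≤ x v) ∧ ∀ a b, G.Adj a b → 1 ≤ x a + x b) ∧
    m = ∑ v, w v * x v}

/-- The value of the linear programme with the edge and triangle constraints. -/
noncomputable def triangleLP {V : Type} [Fintype V] (G : SimpleGraph V) (w : V → ℝ) : ℝ :=
  sInf {m | ∃ x : V → ℝ, ((∀ v, 0 ≤ x v) ∧ (∀ a b, G.Adj a b → 1 ≤ x a + x b) ∧
    ∀ a b c, G.Adj a b → G.Adj b c → G.Adj a c → 2 ≤ x a + x b + x c) ∧ m = ∑ v, w v * x v}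

/-- The `0/1` vectors of the vertex covers of `G`. -/
def coverVectors {V : Type} (G : SimpleGraph V) : Set (V → ℝ) :=
  {y | (∀ v, y v = 0 ∨ y v = 1) ∧ ∀ u v, G.Adj u v → y u = 1 ∨ y v = 1}

/-- Feasible points of `LP_k`: `x ≥ 0`, and for every set `S` of at most `k` vertices the
restriction of `x` to `S` is a convex combination of vertex covers of the graph induced on `S`; so
`x` satisfies all inequalities on at most `k` coordinates that are valid for these covers. -/
def LocallyFeasible {V : Type} (G : SimpleGraph V) (k : ℕ) (x : V → ℝ) : Prop :=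
  (∀ v, 0 ≤ x v) ∧ ∀ S : Set V, S.ncard ≤ k →
    (fun v : S => x v) ∈ convexHull ℝ (coverVectors (G.induce S))

/-- The value of `LP_k`: minimise `∑ v, w v * x v` over its feasible points. -/
noncomputable def localLP {V : Type} [Fintype V] (G : SimpleGraph V) (k : ℕ) (w : V → ℝ) : ℝ :=
  sInf {m | ∃ x : V → ℝ, LocallyFeasible G k x ∧ m = ∑ v, w v * x v}

/-- The matrix of the moments of order at most two. Rows and columns are indexed by the empty set
(`none`) and the vertices; the entry of two vertices `x` and `y` is the probability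
`μ {x, y} {x, y}` that both are in the cover, the entry of `none` and `x` is `μ {x} {x}`, and the
entry of `none` and `none` is `μ ∅ ∅`, which is `1`. -/
def momentMatrix {V : Type} [DecidableEq V] (μ : Finset V → Finset V → ℝ) :
    Matrix (Option V) (Option V) ℝ :=
  fun a b => μ (a.toFinset ∪ b.toFinset) (a.toFinset ∪ b.toFinset)

/-- Solutions of level `k` of the Sherali-Adams SDP relaxation of vertex cover. For a set `S` of at
most `k` vertices `μ S` is a probability distribution on the subsets of `S`, supported on the sets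
`U` that cover every edge with both ends in `S`; for `S ⊆ T` the distribution `μ S` is the marginal
of `μ T`; the matrix of the moments of order at most two is positive semidefinite. -/
structure IsSolution {V : Type} [Fintype V] [DecidableEq V] (G : SimpleGraph V) (k : ℕ)
    (μ : Finset V → Finset V → ℝ) : Prop where
  nonneg : ∀ S U, 0 ≤ μ S U
  total : ∀ S, S.card ≤ k → ∑ U ∈ S.powerset, μ S U = 1
  consistent : ∀ S T, S ⊆ T → T.card ≤ k → ∀ U, U ⊆ S →
    μ S U = ∑ W ∈ T.powerset with W ∩ S = U, μ T W
  cover : ∀ S, S.card ≤ k → ∀ U, U ⊆ S → μ S U ≠ 0 → ∀ x ∈ S, ∀ y ∈ S, G.Adj x y →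
    x ∈ U ∨ y ∈ U
  psd : (momentMatrix μ).PosSemidef

/-- The value of level `k` of the Sherali-Adams SDP hierarchy: minimise the expected weight
`∑ v, w v * μ {v} {v}` over the solutions `μ`. -/
noncomputable def sdpValue {V : Type} [Fintype V] [DecidableEq V] (G : SimpleGraph V) (k : ℕ)
    (w : V → ℝ) : ℝ :=
  sInf {m | ∃ μ : Finset V → Finset V → ℝ, IsSolution G k μ ∧ m = ∑ v, w v * μ {v} {v}}

/-- The relaxations that the circuits may use, for given weights `w`: `R` is the value of the
standard linear programme, or any function between the value of the linear programme with the edge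
and triangle constraints and the value of level `k` of the Sherali-Adams SDP hierarchy. -/
def IsRelaxation {n : ℕ} (k : ℕ) (w : Fin n → ℝ) (R : SimpleGraph (Fin n) → ℝ) : Prop :=
  (∀ G, R G = edgeLP G w) ∨ ∀ G, triangleLP G w ≤ R G ∧ R G ≤ sdpValue G k w

/-- Nondecreasing functions of the subgraph induced on some set `S` of at most `n ^ (1 / 3)`
vertices: `g G ≤ g G'` whenever all edges of `G` inside `S` are edges of `G'`. -/
def IsLocal {n : ℕ} (g : SimpleGraph (Fin n) → ℝ) : Prop :=
  ∃ S : Finset (Fin n), S.card ^ 3 ≤ n ∧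
    ∀ G G' : SimpleGraph (Fin n), (∀ u ∈ S, ∀ v ∈ S, G.Adj u v → G'.Adj u v) → g G ≤ g G'

/-- The inputs of the circuits: relaxations, for some nonnegative weights, and nondecreasing
functions of small induced subgraphs (for instance whether two given vertices are adjacent). -/
def IsLeaf {n : ℕ} (k : ℕ) (g : SimpleGraph (Fin n) → ℝ) : Prop :=
  (∃ w : Fin n → ℝ, (∀ v, 0 ≤ w v) ∧ IsRelaxation k w g) ∨ IsLocal g

/-- What gate number `i` of a circuit with gates `F 0, ..., F (s-1)` may use: an input or the output
of a gate with smaller number. -/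
def IsSignal {n s : ℕ} (k : ℕ) (F : Fin s → SimpleGraph (Fin n) → ℝ) (i : ℕ)
    (g : SimpleGraph (Fin n) → ℝ) : Prop :=
  IsLeaf k g ∨ ∃ j : Fin s, (j : ℕ) < i ∧ g = F j

/-- `F 0, ..., F (s-1)` are the functions computed by the gates of a monotone real circuit whose
input is a graph with the vertices `0, ..., n-1`: every gate is an arbitrary nondecreasing function
`φ` of two real numbers. -/
def IsCircuit {n s : ℕ} (k : ℕ) (F : Fin s → SimpleGraph (Fin n) → ℝ) : Prop :=
  ∀ i : Fin s, ∃ (φ : ℝ → ℝ → ℝ) (g h : SimpleGraph (Fin n) → ℝ),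
    (∀ a a' b b', a ≤ a' → b ≤ b' → φ a b ≤ φ a' b') ∧ IsSignal k F i g ∧ IsSignal k F i h ∧
      F i = fun G => φ (g G) (h G)

end Pool.Agent.Lib.MP_cff830_lc.MR
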