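import Pool.Agent.Lib.MP_cff830_lc.MR.Stmts59

/-!
# Monotone circuits over relaxations of vertex cover: the dichotomy for weights (M11)
-/

set_option autoImplicit false

namespace Pool.Agent.Lib.MP_cff830_lc.MR

open Finset

namespace DichAux

theorem wt_insert_compl {n : ℕ} (w : Fin n → ℝ) (S : Finset (Fin n)) {v : Fin n} (hv : v ∉ S) :
    wt w (insert v S)ᶜ = wt w Sᶜ - w v := by
  unfold wt
  have h : insert v (insert v S)ᶜ = Sᶜ := by
    ext u
    simp only [mem_insert, mem_compl, not_or]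
    constructor
    · rintro (h | h)
      · rw [h]; exact hv
      · exact h.2
    · intro h
      by_cases huv : u = v
      · exact Or.inl huv
      · exact Or.inr ⟨huv, h⟩
  rw [← h, sum_insert (by simp)]
  ring

/-- If every small set leaves a heavy vertex, there are top sets of every small size. -/
theorem top {n L : ℕ} {w : Fin n → ℝ} {η : ℝ}
    (h : ∀ S : Finset (Fin n), S.card ≤ L → ∃ v, v ∉ S ∧ η * wt w Sᶜ < w v) :
    ∀ i : ℕ, i ≤ L → ∃ B : Finset (Fin n), B.card = i ∧ ∀ v ∈ B, ∀ u, u ∉ B → w u ≤ w v := by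
  intro i
  induction i with
  | zero => intro _; exact ⟨∅, rfl, by simp⟩
  | succ i ih =>
    intro hi
    obtain ⟨B, hB, hT⟩ := ih (by omega)
    obtain ⟨v0, hv0, -⟩ := h B (by omega)
    obtain ⟨v, hv, hmax⟩ := exists_max_image Bᶜ w ⟨v0, mem_compl.2 hv0⟩
    have hvB : v ∉ B := mem_compl.1 hv
    refine ⟨insert v B, by rw [card_insert_of_notMem hvB, hB], ?_⟩
    intro x hx u hu
    rw [mem_insert, not_or] at hu
    rcases mem_insert.1 hx with rfl | hx
    · exact hmax u (mem_compl.2 hu.2)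
    · exact hT x hx u hu.2

/-- Adding heavy vertices one by one decreases the weight of the rest. -/
theorem shrink {n L : ℕ} {w : Fin n → ℝ} {η : ℝ} (hη1 : η ≤ 1)
    (h : ∀ S : Finset (Fin n), S.card ≤ L → ∃ v, v ∉ S ∧ η * wt w Sᶜ < w v)
    (B : Finset (Fin n)) (W : ℝ) (hW : wt w Bᶜ ≤ (1 - η) * W) :
    ∀ j : ℕ, B.card + j ≤ L → ∃ S : Finset (Fin n), B ⊆ S ∧ S.card = B.card + j ∧
      wt w Sᶜ ≤ (1 - η) ^ (j + 1) * W := by
  intro j
  induction j with
  | zero => intro _; exact ⟨B, Subset.refl _, rfl, by simpa using hW⟩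
  | succ j ih =>
    intro hj
    obtain ⟨S, hBS, hc, hwS⟩ := ih (by omega)
    obtain ⟨v, hv, hlt⟩ := h S (by omega)
    refine ⟨insert v S, hBS.trans (subset_insert v S), by
      rw [card_insert_of_notMem hv, hc]; omega, ?_⟩
    rw [wt_insert_compl w S hv]
    have h1 : wt w Sᶜ - w v ≤ (1 - η) * wt w Sᶜ := by linarith
    have h2 : (1 - η) * wt w Sᶜ ≤ (1 - η) * ((1 - η) ^ (j + 1) * W) :=
      mul_le_mul_of_nonneg_left hwS (by linarith)
    calc wt w Sᶜ - w v ≤ (1 - η) * ((1 - η) ^ (j + 1) * W) := h1.trans h2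
      _ = (1 - η) ^ (j + 1 + 1) * W := by ring

end DichAux

/-- (M11) The dichotomy for weights. -/
theorem stDich : StDich := by
  intro n M L w η hw hη hη1 hML _ hexp
  by_contra hcon
  rw [not_or] at hcon
  obtain ⟨h1, h2⟩ := hcon
  have h : ∀ S : Finset (Fin n), S.card ≤ L → ∃ v, v ∉ S ∧ η * wt w Sᶜ < w v := by
    intro S hS
    by_contra hno
    push Not at hno
    exact h1 ⟨S, hS, hno⟩
  obtain ⟨T, hT, htop⟩ := DichAux.top h M hML.le
  obtain ⟨v0, hv0, hlt0⟩ := h T (by omega)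
  obtain ⟨v, hv, hmax⟩ := exists_max_image Tᶜ w ⟨v0, mem_compl.2 hv0⟩
  have hvT : v ∉ T := mem_compl.1 hv
  have hlt : η * wt w Tᶜ < w v := hlt0.trans_le (hmax v0 (mem_compl.2 hv0))
  have hcB : (insert v T).card = M + 1 := by rw [card_insert_of_notMem hvT, hT]
  have hW : wt w (insert v T)ᶜ ≤ (1 - η) * wt w Tᶜ := by
    rw [DichAux.wt_insert_compl w T hvT]; linarith
  obtain ⟨S, hBS, hcS, hwS⟩ := DichAux.shrink hη1 h (insert v T) (wt w Tᶜ) hW (L - (M + 1))
    (by rw [hcB]; omega)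
  have hW0 : 0 ≤ wt w Tᶜ := sum_nonneg fun u _ => hw u
  have hpow : (1 - η) ^ (L - (M + 1) + 1) ≤ η := by
    have e : L - (M + 1) + 1 = L - M := by omega
    rw [e]
    have h3 : (1 - η) ^ (L - M) ≤ (Real.exp (-η)) ^ (L - M) :=
      pow_le_pow_left₀ (by linarith) (by linarith [Real.add_one_le_exp (-η)]) _
    have h4 : (Real.exp (-η)) ^ (L - M) = Real.exp (-(η * ((L : ℝ) - M))) := by
      rw [← Real.exp_nat_mul, Nat.cast_sub hML.le]
      congr 1; ring
    rw [h4] at h3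
    exact h3.trans hexp
  have hfin : wt w Sᶜ < w v :=
    (hwS.trans (mul_le_mul_of_nonneg_right hpow hW0)).trans_lt hlt
  refine h2 ⟨S, insert v T, by rw [hcS, hcB]; omega, hBS, by omega, ?_⟩
  intro u hu
  rcases mem_insert.1 hu with rfl | hu
  · exact hfin.le
  · exact hfin.le.trans (htop u hu v hvT)

end Pool.Agent.Lib.MP_cff830_lc.MR
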