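import Pool.Agent.Lib.MP_cff830_lc.MR.Stmts59

/-!
# Monotone circuits over relaxations of vertex cover: approximation of circuits
-/

set_option autoImplicit false

namespace Pool.Agent.Lib.MP_cff830_lc.MR

open Finset

namespace GatesAux

theorem prN_false {n : ℕ} (ρ : ℝ) : prN ρ (fun _ : Finset (Fin n) => False) = 0 := by
  classical
  unfold prN
  simp

theorem prP_false {Ω : Type} [Fintype Ω] : prP (fun _ : Ω => False) = 0 := by
  classical
  unfold prP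
  simp

theorem empty_mem_terms (n t : ℕ) : (∅ : Finset (Sym2 (Fin n))) ∈ terms n t := by
  rw [mem_terms]
  exact ⟨fun e he => absurd he (notMem_empty e), by simp⟩

theorem mem_terms_of_subset {n t : ℕ} {E E' : Finset (Sym2 (Fin n))} (h : E ∈ terms n t)
    (hs : E' ⊆ E) : E' ∈ terms n t := by
  rw [mem_terms] at h ⊢
  exact ⟨fun e he => h.1 e (hs he), (card_le_card hs).trans h.2⟩

theorem mem_jump {n t : ℕ} {g : Finset (Sym2 (Fin n)) → ℝ} {E : Finset (Sym2 (Fin n))} :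
    E ∈ jump t g ↔ E ∈ terms n t ∧ ∀ E' : Finset (Sym2 (Fin n)), E' ⊂ E → g E' < g E := by
  classical
  unfold jump
  rw [mem_filter]

/-- A term of value at least `c` contains such a term in `jump`. -/
theorem exists_jump {n t : ℕ} {g : Finset (Sym2 (Fin n)) → ℝ} {c : ℝ} :
    ∀ (d : ℕ) (E : Finset (Sym2 (Fin n))), E.card ≤ d → E ∈ terms n t → c ≤ g E →
      ∃ E' ∈ jump t g, E' ⊆ E ∧ c ≤ g E' := by
  intro d
  induction d with
  | zero =>
    intro E hd hE hc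
    refine ⟨E, mem_jump.2 ⟨hE, fun E' h => ?_⟩, Subset.refl _, hc⟩
    have h0 : E = ∅ := card_eq_zero.1 (Nat.le_zero.1 hd)
    rw [h0] at h
    exact absurd h (not_ssubset_empty _)
  | succ d ih =>
    intro E hd hE hc
    by_cases hm : ∃ E' : Finset (Sym2 (Fin n)), E' ⊂ E ∧ c ≤ g E'
    · obtain ⟨E', hss, hc'⟩ := hm
      have hlt : E'.card < E.card := card_lt_card hss
      obtain ⟨E'', h1, h2, h3⟩ := ih E' (by omega) (mem_terms_of_subset hE hss.1) hc'
      exact ⟨E'', h1, h2.trans hss.1, h3⟩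
    · push Not at hm
      exact ⟨E, mem_jump.2 ⟨hE, fun E' h => (hm E' h).trans_le hc⟩, Subset.refl _, hc⟩

/-- The positive error at a gate. -/
theorem gate_error {n t m : ℕ} {κ : ℝ} {Ω : Type} [Fintype Ω] [Nonempty Ω]
    (H : Ω → SimpleGraph (Fin n)) (hκ0 : 0 ≤ κ) (hκ1 : κ ≤ 1)
    (hH : ∀ E : Finset (Sym2 (Fin n)), prP (fun ω => In E (H ω)) ≤ κ ^ E.card)
    (A B : Finset (Finset (Sym2 (Fin n)))) [DecidableEq (Sym2 (Fin n))]
    (hAm : A.card ≤ m) (hBm : B.card ≤ m) :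
    prP (fun ω => ∃ p ∈ (A ×ˢ B).filter fun p => t + 1 ≤ (p.1 ∪ p.2).card,
      In (p.1 ∪ p.2) (H ω)) ≤ (m : ℝ) ^ 2 * κ ^ (t + 1) := by
  have hprod : ((A ×ˢ B).filter fun p => t + 1 ≤ (p.1 ∪ p.2).card).card ≤ m * m := by
    refine (card_filter_le _ _).trans ?_
    rw [card_product]
    exact Nat.mul_le_mul hAm hBm
  calc prP (fun ω => ∃ p ∈ (A ×ˢ B).filter fun p => t + 1 ≤ (p.1 ∪ p.2).card,
          In (p.1 ∪ p.2) (H ω))
      ≤ ∑ p ∈ (A ×ˢ B).filter fun p => t + 1 ≤ (p.1 ∪ p.2).card,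
          prP (fun ω => In (p.1 ∪ p.2) (H ω)) := prP_exists _ _
    _ ≤ ∑ p ∈ (A ×ˢ B).filter fun p => t + 1 ≤ (p.1 ∪ p.2).card, κ ^ (t + 1) := by
        refine sum_le_sum fun p hp => (hH _).trans ?_
        exact pow_le_pow_of_le_one hκ0 hκ1 (mem_filter.1 hp).2
    _ = (((A ×ˢ B).filter fun p => t + 1 ≤ (p.1 ∪ p.2).card).card : ℝ) * κ ^ (t + 1) := by
        rw [sum_const, nsmul_eq_mul]
    _ ≤ (m : ℝ) ^ 2 * κ ^ (t + 1) := by
        refine mul_le_mul_of_nonneg_right ?_ (pow_nonneg hκ0 _)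
        rw [pow_two]
        exact_mod_cast hprod

/-- A function of terms that approximates a function of graphs, up to exceptional tests. -/
def Approx {n : ℕ} (t : ℕ) {Ω : Type} (H : Ω → SimpleGraph (Fin n)) (P : Ω → Prop)
    (Q : Finset (Fin n) → Prop) (f : SimpleGraph (Fin n) → ℝ)
    (g : Finset (Sym2 (Fin n)) → ℝ) : Prop :=
  (∀ ω, ¬ P ω → ∃ E ∈ terms n t, In E (H ω) ∧ f (H ω) ≤ g E) ∧
    ∀ I, ¬ Q I → ∀ E ∈ terms n t, In E (negG I) → g E ≤ f (negG I)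

/-- A weak approximation can be closed. -/
theorem close_step (hC : StClos) {n t : ℕ} {ρ δ : ℝ} (h0 : 0 ≤ ρ) (h1 : ρ ≤ 1) (hδ : 0 ≤ δ)
    {Ω : Type} (H : Ω → SimpleGraph (Fin n)) {P : Ω → Prop} {Q : Finset (Fin n) → Prop}
    {f : SimpleGraph (Fin n) → ℝ} {g : Finset (Sym2 (Fin n)) → ℝ} (hg : MonoFn t g)
    (h : Approx t H P Q f g) :
    ∃ (Q' : Finset (Fin n) → Prop) (g' : Finset (Sym2 (Fin n)) → ℝ), MonoFn t g' ∧
      Closed ρ δ t g' ∧ prN ρ Q' ≤ ((terms n t).card : ℝ) ^ 2 * δ ∧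
      Approx t H P (fun I => Q I ∨ Q' I) f g' := by
  obtain ⟨g', hm, hcl, hle, hpr⟩ := hC.1 n t ρ δ g h0 h1 hδ hg
  refine ⟨_, g', hm, hcl, hpr, fun ω hω => ?_, fun I hI E hE hEG => ?_⟩
  · obtain ⟨E, hE, hEG, hf⟩ := h.1 ω hω
    exact ⟨E, hE, hEG, hf.trans (hle E hE)⟩
  · rw [not_or] at hI
    by_contra hlt
    refine hI.2 ⟨E, hE, hEG, fun K' hK' hKG => ?_⟩
    exact (h.2 I hI.1 K' hK' hKG).trans_lt (not_le.1 hlt)

/-- Adjacency of two vertices. -/
theorem adj_leaf {n t : ℕ} (ht : 1 ≤ t) {Ω : Type} (H : Ω → SimpleGraph (Fin n)) (u v : Fin n)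
    (f : SimpleGraph (Fin n) → ℝ) (hf1 : ∀ G, G.Adj u v → f G = 1)
    (hf0 : ∀ G, ¬ G.Adj u v → f G = 0) :
    ∃ g : Finset (Sym2 (Fin n)) → ℝ, MonoFn t g ∧
      Approx t H (fun _ => False) (fun _ => False) f g := by
  classical
  refine ⟨fun E => if s(u, v) ∈ E then 1 else 0, ?_, fun ω _ => ?_, fun I _ E _ hEG => ?_⟩
  · intro E _ E' _ hs
    by_cases h : s(u, v) ∈ E
    · simp [h, hs h]
    · simp only [h, if_false]
      split_ifs <;> norm_num
  · by_cases h : (H ω).Adj u v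
    · refine ⟨{s(u, v)}, ?_, ?_, ?_⟩
      · rw [mem_terms]
        refine ⟨fun e he => ?_, by simpa using ht⟩
        rw [mem_singleton] at he
        rw [he]
        simpa using h.ne
      · intro e he
        rw [mem_singleton] at he
        rw [he]
        exact h
      · rw [hf1 _ h]
        simp
    · refine ⟨∅, empty_mem_terms n t, fun e he => absurd he (notMem_empty e), ?_⟩
      rw [hf0 _ h]
      simp
  · by_cases h : (negG I).Adj u v
    · rw [hf1 _ h]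
      simp only
      split_ifs <;> norm_num
    · have hn : s(u, v) ∉ E := fun he => h (hEG _ he)
      rw [hf0 _ h]
      simp [hn]

/-- Values of relaxations. -/
theorem rel_leaf {n t : ℕ} {ρ δ₁ : ℝ} (h0 : 0 ≤ ρ) (h1 : ρ ≤ 1) (hδ₁ : 0 ≤ δ₁)
    {Ω : Type} (H : Ω → SimpleGraph (Fin n)) (R : SimpleGraph (Fin n) → ℝ) :
    ∃ (g : Finset (Sym2 (Fin n)) → ℝ) (Q : Finset (Fin n) → Prop), MonoFn t g ∧
      prN ρ Q ≤ ((terms n t).card : ℝ) * δ₁ ∧
      Approx t H (fun ω => ∀ E ∈ terms n t, In E (H ω) →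
        δ₁ < prN ρ fun I => In E (negG I) ∧ R (negG I) < R (H ω)) Q R g := by
  classical
  -- the values
  set S : Finset (Sym2 (Fin n)) → Finset ℝ := fun E =>
    ((univ : Finset (SimpleGraph (Fin n))).image R).filter fun x =>
      prN ρ (fun I => In E (negG I) ∧ R (negG I) < x) ≤ δ₁ with hS
  have hne0 : ((univ : Finset (SimpleGraph (Fin n))).image R).Nonempty :=
    ⟨R ⊥, mem_image_of_mem R (mem_univ _)⟩
  have hne : ∀ E, (S E).Nonempty := by
    intro E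
    refine ⟨((univ : Finset (SimpleGraph (Fin n))).image R).min' hne0, mem_filter.2
      ⟨min'_mem _ _, le_trans (prN_mono h0 h1 (B := fun _ => False) ?_) ?_⟩⟩
    · rintro I ⟨_, hlt⟩
      have := min'_le ((univ : Finset (SimpleGraph (Fin n))).image R) (R (negG I))
        (mem_image_of_mem R (mem_univ _))
      linarith
    · rw [prN_false]
      exact hδ₁
  refine ⟨fun E => (S E).max' (hne E), fun I => ∃ E ∈ terms n t, In E (negG I) ∧
    R (negG I) < (S E).max' (hne E), ?_, ?_, fun ω hω => ?_, fun I hI E hE hEG => ?_⟩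
  · intro E _ E' _ hs
    refine max'_subset (hne E) fun x hx => ?_
    rw [hS, mem_filter] at hx ⊢
    refine ⟨hx.1, le_trans (prN_mono h0 h1 ?_) hx.2⟩
    rintro I ⟨h1, h2⟩
    exact ⟨h1.mono hs, h2⟩
  · refine (prN_exists h0 h1 (terms n t) _).trans ?_
    refine (sum_le_sum fun E _ => ?_ : _ ≤ ∑ _E ∈ terms n t, δ₁).trans ?_
    · exact (mem_filter.1 (max'_mem (S E) (hne E))).2
    · rw [sum_const, nsmul_eq_mul]
  · push Not at hω
    obtain ⟨E, hE, hEG, hpr⟩ := hω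
    refine ⟨E, hE, hEG, le_max' _ _ (mem_filter.2 ⟨mem_image_of_mem R (mem_univ _), hpr⟩)⟩
  · by_contra hlt
    exact hI ⟨E, hE, hEG, not_le.1 hlt⟩

end GatesAux

end Pool.Agent.Lib.MP_cff830_lc.MR
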