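import Pool.Agent.Lib.MP_cff830_lc.MR.StmtsX59
import Pool.Agent.Lib.MP_cff830_lc.MR.Gates

/-!
# Monotone circuits over relaxations of vertex cover: approximation of circuits, exponential size
-/

set_option autoImplicit false

namespace Pool.Agent.Lib.MP_cff830_lc.MR

open Finset

namespace GatesXAux

open GatesAux

/-- A geometric sum. -/
theorem geom_tail {x : ℝ} (h0 : 0 ≤ x) (h1 : x ≤ 1 / 2) (t d : ℕ) :
    ∑ i ∈ range (t + 1), (if d ≤ i then x ^ i else 0) ≤ 2 * x ^ d := by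
  have key : ∀ m : ℕ, ∑ i ∈ range m, (if d ≤ i then x ^ i else 0) ≤
      2 * x ^ d - (if d ≤ m then 2 * x ^ m else 0) := by
    intro m
    induction m with
    | zero =>
      rw [range_zero, sum_empty]
      by_cases h : d ≤ 0
      · rw [if_pos h, Nat.le_zero.1 h]
        simp
      · rw [if_neg h]
        have : 0 ≤ x ^ d := pow_nonneg h0 d
        linarith
    | succ m ih =>
      rw [sum_range_succ]
      by_cases h : d ≤ m
      · rw [if_pos h] at ih ⊢
        rw [if_pos (by omega : d ≤ m + 1), pow_succ]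
        have h2 : 0 ≤ x ^ m := pow_nonneg h0 m
        have h3 : x ^ m * x ≤ x ^ m * (1 / 2) := mul_le_mul_of_nonneg_left h1 h2
        linarith
      · rw [if_neg h] at ih ⊢
        by_cases h3 : d ≤ m + 1
        · rw [if_pos h3]
          have h4 : d = m + 1 := by omega
          have h5 : 0 ≤ x ^ (m + 1) := pow_nonneg h0 _
          rw [h4] at ih ⊢
          have h6 : ∑ i ∈ range m, (if m + 1 ≤ i then x ^ i else 0) = 0 := by
            refine sum_eq_zero fun i hi => ?_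
            rw [mem_range] at hi
            rw [if_neg (by omega)]
          rw [h6]
          linarith
        · rw [if_neg h3]
          linarith
  have h2 := key (t + 1)
  have h3 : 0 ≤ (if d ≤ t + 1 then 2 * x ^ (t + 1) else 0) := by
    split_ifs
    · exact mul_nonneg zero_le_two (pow_nonneg h0 _)
    · exact le_rfl
  linarith

open Classical in
/-- The sum over the second jump. -/
theorem inner {n t B : ℕ} {κ : ℝ} (hκ0 : 0 ≤ κ) {g : Finset (Sym2 (Fin n)) → ℝ}
    (hB : ∀ (J : Finset (Sym2 (Fin n))) (i : ℕ),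
      ((jump t g).filter fun E => J ⊆ E ∧ (E \ J).card = i).card ≤ B ^ i)
    (hx : B * κ ≤ 1 / 2) (E : Finset (Sym2 (Fin n))) (hE : E.card ≤ t) :
    ∑ E' ∈ jump t g, (if t + 1 ≤ (E ∪ E').card then κ ^ (E ∪ E').card else 0) ≤
      2 ^ E.card * (κ ^ E.card * (2 * (B * κ) ^ (t + 1 - E.card))) := by
  have hcard : ∀ E' : Finset (Sym2 (Fin n)), (E ∪ E').card = E.card + (E' \ E).card := by
    intro E'
    rw [← union_sdiff_self_eq_union, card_union_of_disjoint disjoint_sdiff]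
  have hmaps : ∀ E' ∈ jump t g, (E ∩ E', (E' \ E).card) ∈ E.powerset ×ˢ range (t + 1) := by
    intro E' hE'
    rw [mem_product, mem_powerset, mem_range]
    refine ⟨inter_subset_left, ?_⟩
    have h1 := (mem_terms.1 (mem_jump.1 hE').1).2
    have h2 := card_le_card (sdiff_subset (s := E') (t := E))
    simp only
    omega
  rw [← sum_fiberwise_of_maps_to hmaps]
  rw [sum_product]
  have h0 : 0 ≤ (B : ℝ) * κ := mul_nonneg (Nat.cast_nonneg _) hκ0
  have step : ∀ J ∈ E.powerset, ∑ i ∈ range (t + 1),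
      ∑ E' ∈ (jump t g).filter (fun E' => (E ∩ E', (E' \ E).card) = (J, i)),
        (if t + 1 ≤ (E ∪ E').card then κ ^ (E ∪ E').card else 0) ≤
      κ ^ E.card * (2 * (B * κ) ^ (t + 1 - E.card)) := by
    intro J _
    have h1 : ∀ i ∈ range (t + 1),
        ∑ E' ∈ (jump t g).filter (fun E' => (E ∩ E', (E' \ E).card) = (J, i)),
          (if t + 1 ≤ (E ∪ E').card then κ ^ (E ∪ E').card else 0) ≤
        κ ^ E.card * (if t + 1 - E.card ≤ i then (B * κ) ^ i else 0) := by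
      intro i _
      have h2 : ∀ E' ∈ (jump t g).filter (fun E' => (E ∩ E', (E' \ E).card) = (J, i)),
          (if t + 1 ≤ (E ∪ E').card then κ ^ (E ∪ E').card else 0) ≤
          (if t + 1 - E.card ≤ i then κ ^ (E.card + i) else 0) := by
        intro E' hE'
        rw [mem_filter, Prod.mk.injEq] at hE'
        rw [hcard, hE'.2.2]
        by_cases h3 : t + 1 ≤ E.card + i
        · rw [if_pos h3, if_pos (by omega)]
        · rw [if_neg h3, if_neg (by omega)]
      refine (sum_le_sum h2).trans ?_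
      rw [sum_const, nsmul_eq_mul]
      by_cases h3 : t + 1 - E.card ≤ i
      · rw [if_pos h3, if_pos h3]
        have h4 : ((jump t g).filter (fun E' => (E ∩ E', (E' \ E).card) = (J, i))).card ≤
            B ^ i := by
          refine (card_le_card fun E' hE' => ?_).trans (hB J i)
          rw [mem_filter, Prod.mk.injEq] at hE'
          rw [mem_filter]
          obtain ⟨h5, h6, h7⟩ := hE'
          refine ⟨h5, ?_, ?_⟩
          · rw [← h6]
            exact inter_subset_right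
          · rw [← h6, ← h7]
            congr 1
            ext e
            simp only [mem_sdiff, mem_inter]
            tauto
        have h5 : (((jump t g).filter (fun E' => (E ∩ E', (E' \ E).card) = (J, i))).card : ℝ) ≤
            (B : ℝ) ^ i := by exact_mod_cast h4
        calc (((jump t g).filter (fun E' => (E ∩ E', (E' \ E).card) = (J, i))).card : ℝ) *
              κ ^ (E.card + i) ≤ (B : ℝ) ^ i * κ ^ (E.card + i) :=
              mul_le_mul_of_nonneg_right h5 (pow_nonneg hκ0 _)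
          _ = κ ^ E.card * (B * κ) ^ i := by rw [pow_add, mul_pow]; ring
      · rw [if_neg h3, if_neg h3]
        simp
    refine (sum_le_sum h1).trans ?_
    rw [← mul_sum]
    exact mul_le_mul_of_nonneg_left (geom_tail h0 hx t _) (pow_nonneg hκ0 _)
  refine (sum_le_sum step).trans ?_
  rw [sum_const, card_powerset, nsmul_eq_mul]
  push_cast
  exact le_rfl

open Classical in
/-- The positive error at a gate. -/
theorem gate_error {n t B : ℕ} {κ : ℝ} {Ω : Type} [Fintype Ω] [Nonempty Ω]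
    (H : Ω → SimpleGraph (Fin n)) (hκ0 : 0 ≤ κ)
    (hH : ∀ E : Finset (Sym2 (Fin n)), prP (fun ω => In E (H ω)) ≤ κ ^ E.card)
    (hx : B * κ ≤ 1 / 2) {g₁ g₂ : Finset (Sym2 (Fin n)) → ℝ}
    (hB₁ : ∀ (J : Finset (Sym2 (Fin n))) (i : ℕ),
      ((jump t g₁).filter fun E => J ⊆ E ∧ (E \ J).card = i).card ≤ B ^ i)
    (hB₂ : ∀ (J : Finset (Sym2 (Fin n))) (i : ℕ),
      ((jump t g₂).filter fun E => J ⊆ E ∧ (E \ J).card = i).card ≤ B ^ i) :
    prP (fun ω => ∃ p ∈ (jump t g₁ ×ˢ jump t g₂).filter fun p => t + 1 ≤ (p.1 ∪ p.2).card,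
      In (p.1 ∪ p.2) (H ω)) ≤ (4 * B * κ) ^ (t + 1) := by
  have h0 : 0 ≤ (B : ℝ) * κ := mul_nonneg (Nat.cast_nonneg _) hκ0
  have h1 : prP (fun ω => ∃ p ∈ (jump t g₁ ×ˢ jump t g₂).filter
      fun p => t + 1 ≤ (p.1 ∪ p.2).card, In (p.1 ∪ p.2) (H ω)) ≤
      ∑ E ∈ jump t g₁, ∑ E' ∈ jump t g₂,
        (if t + 1 ≤ (E ∪ E').card then κ ^ (E ∪ E').card else 0) := by
    refine (prP_exists _ _).trans ?_
    rw [sum_filter, sum_product]
    refine sum_le_sum fun E _ => sum_le_sum fun E' _ => ?_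
    simp only
    split_ifs
    · exact hH _
    · exact le_rfl
  refine h1.trans ?_
  have h2 : ∀ E ∈ jump t g₁, ∑ E' ∈ jump t g₂,
      (if t + 1 ≤ (E ∪ E').card then κ ^ (E ∪ E').card else 0) ≤
      2 ^ E.card * (κ ^ E.card * (2 * (B * κ) ^ (t + 1 - E.card))) := by
    intro E hE
    exact inner hκ0 hB₂ hx E (mem_terms.1 (mem_jump.1 hE).1).2
  refine (sum_le_sum h2).trans ?_
  have hmaps : ∀ E ∈ jump t g₁, E.card ∈ range (t + 1) := by
    intro E hE
    rw [mem_range]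
    have := (mem_terms.1 (mem_jump.1 hE).1).2
    omega
  rw [← sum_fiberwise_of_maps_to hmaps]
  have h3 : ∀ j ∈ range (t + 1), ∑ E ∈ (jump t g₁).filter (fun E => E.card = j),
      (2 : ℝ) ^ E.card * (κ ^ E.card * (2 * (B * κ) ^ (t + 1 - E.card))) ≤
      2 ^ j * (2 * (B * κ) ^ (t + 1)) := by
    intro j hj
    rw [mem_range] at hj
    have h4 : ∀ E ∈ (jump t g₁).filter (fun E => E.card = j),
        (2 : ℝ) ^ E.card * (κ ^ E.card * (2 * (B * κ) ^ (t + 1 - E.card))) =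
        2 ^ j * (κ ^ j * (2 * (B * κ) ^ (t + 1 - j))) := by
      intro E hE
      rw [(mem_filter.1 hE).2]
    rw [sum_congr rfl h4, sum_const, nsmul_eq_mul]
    have h5 : ((jump t g₁).filter (fun E => E.card = j)).card ≤ B ^ j := by
      refine (card_le_card fun E hE => ?_).trans (hB₁ ∅ j)
      rw [mem_filter] at hE ⊢
      refine ⟨hE.1, empty_subset _, ?_⟩
      rw [sdiff_empty]
      exact hE.2
    have h6 : (((jump t g₁).filter (fun E => E.card = j)).card : ℝ) ≤ (B : ℝ) ^ j := by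
      exact_mod_cast h5
    have h7 : 0 ≤ (2 : ℝ) ^ j * (κ ^ j * (2 * (B * κ) ^ (t + 1 - j))) := by positivity
    calc (((jump t g₁).filter (fun E => E.card = j)).card : ℝ) *
          (2 ^ j * (κ ^ j * (2 * (B * κ) ^ (t + 1 - j))))
        ≤ (B : ℝ) ^ j * (2 ^ j * (κ ^ j * (2 * (B * κ) ^ (t + 1 - j)))) :=
          mul_le_mul_of_nonneg_right h6 h7
      _ = 2 ^ j * (2 * ((B * κ) ^ j * (B * κ) ^ (t + 1 - j))) := by rw [mul_pow]; ring
      _ = 2 ^ j * (2 * (B * κ) ^ (t + 1)) := by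
          rw [← pow_add]
          congr 3
          omega
  refine (sum_le_sum h3).trans ?_
  rw [← sum_mul]
  have h8 : ∑ j ∈ range (t + 1), (2 : ℝ) ^ j = 2 ^ (t + 1) - 1 := by
    rw [geom_sum_eq (by norm_num)]
    norm_num
  rw [h8]
  have h9 : (4 * B * κ) ^ (t + 1) = 2 ^ (t + 1) * (2 ^ (t + 1) * (B * κ) ^ (t + 1)) := by
    rw [← mul_pow, ← mul_pow]
    congr 1
    ring
  rw [h9]
  have h10 : (2 : ℝ) ≤ 2 ^ (t + 1) := by
    calc (2 : ℝ) = 2 ^ 1 := by norm_num
      _ ≤ 2 ^ (t + 1) := pow_le_pow_right₀ (by norm_num) (by omega)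
  have h11 : 0 ≤ (B * κ) ^ (t + 1) := pow_nonneg h0 _
  have h12 : 2 * (B * κ) ^ (t + 1) ≤ 2 ^ (t + 1) * (B * κ) ^ (t + 1) :=
    mul_le_mul_of_nonneg_right h10 h11
  have h13 : (0 : ℝ) ≤ 2 * (B * κ) ^ (t + 1) := by positivity
  have h14 : (2 : ℝ) ^ (t + 1) - 1 ≤ 2 ^ (t + 1) := by linarith
  calc ((2 : ℝ) ^ (t + 1) - 1) * (2 * (B * κ) ^ (t + 1))
      ≤ 2 ^ (t + 1) * (2 * (B * κ) ^ (t + 1)) := mul_le_mul_of_nonneg_right h14 h13
    _ ≤ 2 ^ (t + 1) * (2 ^ (t + 1) * (B * κ) ^ (t + 1)) :=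
        mul_le_mul_of_nonneg_left h12 (by positivity)

end GatesXAux

open GatesAux in
theorem stGatesY (hC : StClos) : StGatesY := by
  classical
  intro n k t B s ρ δ δ₁ κ a Ω _ _ H F ht h0 h1 hδ hδ₁ hκ0 hκ1 hx ha hH hm hT hF
  set Tc : ℝ := ((terms n t).card : ℝ) with hTc
  have hTc1 : 1 ≤ Tc := by
    rw [hTc]
    exact_mod_cast card_pos.2 ⟨∅, empty_mem_terms n t⟩
  have hTT : Tc ≤ Tc ^ 2 := by nlinarith
  have hT2 : 0 ≤ Tc ^ 2 := by positivity
  have hmk : 0 ≤ (4 * B * κ) ^ (t + 1) := by positivity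
  suffices key : ∀ i : ℕ, i ≤ s → ∃ (P : Ω → Prop) (Q : Finset (Fin n) → Prop),
      prP P ≤ i * (2 * a + (4 * B * κ) ^ (t + 1)) ∧
      prN ρ Q ≤ i * (3 * (Tc ^ 2 * (δ + δ₁))) ∧
      ∀ j : Fin s, (j : ℕ) < i → ∃ g : Finset (Sym2 (Fin n)) → ℝ, MonoFn t g ∧
        Closed ρ δ t g ∧ Approx t H P Q (F j) g by
    obtain ⟨P, Q, hP, hQ, hall⟩ := key s le_rfl
    refine ⟨P, Q, hP, hQ, fun o => ?_⟩
    obtain ⟨g, _, _, hg⟩ := hall o o.2
    exact ⟨g, hg.1, hg.2⟩
  intro i
  induction i with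
  | zero =>
    intro _
    refine ⟨fun _ => False, fun _ => False, ?_, ?_, fun j hj => absurd hj (Nat.not_lt_zero _)⟩
    · rw [prP_false]
      simp
    · rw [prN_false]
      simp
  | succ i ih =>
    intro hi
    obtain ⟨P, Q, hP, hQ, hall⟩ := ih (by omega)
    -- the signals
    have hsig : ∀ f : SimpleGraph (Fin n) → ℝ, IsSignal k F i f →
        ∃ (P' : Ω → Prop) (Q' : Finset (Fin n) → Prop) (g : Finset (Sym2 (Fin n)) → ℝ),
          prP P' ≤ a ∧ prN ρ Q' ≤ Tc ^ 2 * (δ + δ₁) ∧ MonoFn t g ∧ Closed ρ δ t g ∧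
          Approx t H (fun ω => P ω ∨ P' ω) (fun I => Q I ∨ Q' I) f g := by
      rintro f (hleaf | ⟨j, hj, rfl⟩)
      · obtain ⟨g, Q₀, hg, hQ₀, hap⟩ := rel_leaf (t := t) h0 h1 hδ₁ H f
        obtain ⟨Q₁, g', hg', hcl, hQ₁, hap'⟩ := close_step hC h0 h1 hδ H hg hap
        refine ⟨_, fun I => Q₀ I ∨ Q₁ I, g', hT f hleaf, ?_, hg', hcl, ?_, ?_⟩
        · refine (prN_or h0 h1 _ _).trans ?_
          nlinarith [mul_le_mul_of_nonneg_right hTT hδ₁]
        · intro ω hω
          exact hap'.1 ω fun h => hω (Or.inr h)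
        · intro I hI
          exact hap'.2 I fun h => hI (Or.inr h)
      · obtain ⟨g, hg, hcl, hap⟩ := hall j hj
        refine ⟨fun _ => False, fun _ => False, g, ?_, ?_, hg, hcl, ?_, ?_⟩
        · rw [prP_false]
          exact ha
        · rw [prN_false]
          positivity
        · intro ω hω
          exact hap.1 ω fun h => hω (Or.inl h)
        · intro I hI
          exact hap.2 I fun h => hI (Or.inl h)
    obtain ⟨φ, f₁, f₂, hφ, hf₁, hf₂, hFi⟩ := hF ⟨i, by omega⟩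
    obtain ⟨P₁, Q₁, g₁, hP₁, hQ₁, hg₁, hc₁, ha₁⟩ := hsig f₁ hf₁
    obtain ⟨P₂, Q₂, g₂, hP₂, hQ₂, hg₂, hc₂, ha₂⟩ := hsig f₂ hf₂
    -- the gate
    set PE : Ω → Prop := fun ω => ∃ p ∈ (jump t g₁ ×ˢ jump t g₂).filter
      fun p => t + 1 ≤ (p.1 ∪ p.2).card, In (p.1 ∪ p.2) (H ω) with hPE
    have hPEle : prP PE ≤ (4 * B * κ) ^ (t + 1) :=
      GatesXAux.gate_error H hκ0 hH hx (hm g₁ hc₁) (hm g₂ hc₂)
    have hgm : MonoFn t fun E => φ (g₁ E) (g₂ E) := by
      intro E hE E' hE' hs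
      exact hφ _ _ _ _ (hg₁ E hE E' hE' hs) (hg₂ E hE E' hE' hs)
    have hap : Approx t H (fun ω => (P ω ∨ P₁ ω) ∨ P₂ ω ∨ PE ω)
        (fun I => (Q I ∨ Q₁ I) ∨ Q₂ I) (F ⟨i, by omega⟩) fun E => φ (g₁ E) (g₂ E) := by
      refine ⟨fun ω hω => ?_, fun I hI E hE hEG => ?_⟩
      · simp only [not_or] at hω
        obtain ⟨⟨hω0, hω1⟩, hω2, hω3⟩ := hω
        obtain ⟨E, hE, hEG, hEf⟩ := ha₁.1 ω (by simp only [not_or]; exact ⟨hω0, hω1⟩)
        obtain ⟨E', hE', hEG', hEf'⟩ := ha₂.1 ω (by simp only [not_or]; exact ⟨hω0, hω2⟩)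
        obtain ⟨K, hK, hKE, hKf⟩ := exists_jump E.card E le_rfl hE hEf
        obtain ⟨K', hK', hKE', hKf'⟩ := exists_jump E'.card E' le_rfl hE' hEf'
        have hKt := (mem_jump.1 hK).1
        have hKt' := (mem_jump.1 hK').1
        have hin : In (K ∪ K') (H ω) := by
          intro e he
          rcases mem_union.1 he with he | he
          · exact hEG e (hKE he)
          · exact hEG' e (hKE' he)
        have hcard : (K ∪ K').card ≤ t := by
          by_contra hlt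
          exact hω3 ⟨(K, K'), mem_filter.2 ⟨mem_product.2 ⟨hK, hK'⟩, by
            simp only
            omega⟩, hin⟩
        have hterm : K ∪ K' ∈ terms n t := by
          rw [mem_terms]
          refine ⟨fun e he => ?_, hcard⟩
          rcases mem_union.1 he with he | he
          · exact (mem_terms.1 hKt).1 e he
          · exact (mem_terms.1 hKt').1 e he
        refine ⟨K ∪ K', hterm, hin, ?_⟩
        rw [hFi]
        exact hφ _ _ _ _ (hKf.trans (hg₁ K hKt _ hterm subset_union_left))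
          (hKf'.trans (hg₂ K' hKt' _ hterm subset_union_right))
      · simp only [not_or] at hI
        obtain ⟨⟨hI0, hI1⟩, hI2⟩ := hI
        rw [hFi]
        exact hφ _ _ _ _ (ha₁.2 I (by simp only [not_or]; exact ⟨hI0, hI1⟩) E hE hEG)
          (ha₂.2 I (by simp only [not_or]; exact ⟨hI0, hI2⟩) E hE hEG)
    obtain ⟨Q₃, g', hg', hcl, hQ₃, hap'⟩ := close_step hC h0 h1 hδ H hgm hap
    refine ⟨fun ω => (P ω ∨ P₁ ω) ∨ P₂ ω ∨ PE ω, fun I => ((Q I ∨ Q₁ I) ∨ Q₂ I) ∨ Q₃ I,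
      ?_, ?_, fun j hj => ?_⟩
    · have e1 := prP_or (fun ω => P ω ∨ P₁ ω) fun ω => P₂ ω ∨ PE ω
      have e2 := prP_or P P₁
      have e3 := prP_or P₂ PE
      push_cast
      linarith
    · have e1 := prN_or h0 h1 (fun I => (Q I ∨ Q₁ I) ∨ Q₂ I) Q₃
      have e2 := prN_or h0 h1 (fun I => Q I ∨ Q₁ I) Q₂
      have e3 := prN_or h0 h1 Q Q₁
      have e4 := mul_nonneg hT2 hδ₁
      push_cast
      nlinarith
    · rcases Nat.lt_succ_iff_lt_or_eq.1 hj with h | h
      · obtain ⟨g, hg, hcl', hapj⟩ := hall j h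
        refine ⟨g, hg, hcl', fun ω hω => ?_, fun I hI => ?_⟩
        · exact hapj.1 ω fun h => hω (Or.inl (Or.inl h))
        · exact hapj.2 I fun h => hI (Or.inl (Or.inl (Or.inl h)))
      · have hji : j = ⟨i, by omega⟩ := Fin.ext h
        rw [hji]
        exact ⟨g', hg', hcl, hap'⟩

end Pool.Agent.Lib.MP_cff830_lc.MR
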