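import Pool.Agent.Lib.MP_cff830_lc.MR.Stmts59

/-!
# Monotone circuits over relaxations of vertex cover: large deviations
-/

set_option autoImplicit false

namespace Pool.Agent.Lib.MP_cff830_lc.MR

open Finset

namespace HoefAux

variable {n : ℕ}

theorem mgf (ρ : ℝ) (a b : Fin n → ℝ) :
    ∑ I : Finset (Fin n), bern ρ I * ((∏ v ∈ I, a v) * ∏ v ∈ univ \ I, b v) =
      ∏ v, (ρ * a v + (1 - ρ) * b v) := by
  rw [Finset.prod_add, powerset_univ]
  refine Finset.sum_congr rfl fun I _ => ?_
  rw [Finset.prod_mul_distrib, Finset.prod_mul_distrib, prod_const, prod_const,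
    card_sdiff_of_subset (subset_univ I), card_univ, Fintype.card_fin]
  unfold bern
  ring

/-- Markov for a nonnegative function. -/
theorem markov {ρ : ℝ} (h0 : 0 ≤ ρ) (h1 : ρ ≤ 1) (A : Finset (Fin n) → Prop)
    (g : Finset (Fin n) → ℝ) (hg : ∀ I, 0 ≤ g I) (hA : ∀ I, A I → 1 ≤ g I) :
    prN ρ A ≤ ∑ I, bern ρ I * g I := by
  classical
  unfold prN
  refine Finset.sum_le_sum fun I _ => ?_
  have h := bern_nonneg h0 h1 I
  split_ifs with hI
  · nlinarith [hA I hI]
  · exact mul_nonneg h (hg I)

theorem exp_le {y : ℝ} (h0 : 0 ≤ y) (h1 : y ≤ 1) : Real.exp y ≤ 1 + y + y ^ 2 := by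
  have h := Real.abs_exp_sub_one_sub_id_le (x := y) (by rw [abs_of_nonneg h0]; exact h1)
  rw [abs_le] at h
  linarith [h.2]

theorem factor_le {p y : ℝ} (hp0 : 0 ≤ p) (h0 : 0 ≤ y) (h1 : y ≤ 1) :
    p * Real.exp y + (1 - p) ≤ Real.exp (p * (y + y ^ 2)) := by
  have h2 := exp_le h0 h1
  have h3 := Real.add_one_le_exp (p * (y + y ^ 2))
  nlinarith

/-- The main computation. -/
theorem bound {p l η : ℝ} {w : Fin n → ℝ} {T : Finset (Fin n)} (hp0 : 0 ≤ p) (hp1 : p ≤ 1)
    (hl0 : 0 < l) (hl1 : l ≤ 1) (hη : 0 < η) (hw : ∀ v, 0 ≤ w v)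
    (hT : ∀ v ∈ T, w v ≤ η * wt w T) (hW : 0 < wt w T) :
    Real.exp (-(l / (2 * η * wt w T) * ((p + l) * wt w T))) *
      ∏ v, (p * (if v ∈ T then Real.exp (l / (2 * η * wt w T) * w v) else 1) + (1 - p)) ≤
      Real.exp (-(l ^ 2 / (4 * η))) := by
  set W := wt w T with hWdef
  set c := l / (2 * η * W) with hc
  have hc0 : 0 < c := by positivity
  have hcW : c * (η * W) = l / 2 := by
    rw [hc]
    field_simp
  have hy : ∀ v ∈ T, 0 ≤ c * w v ∧ c * w v ≤ l / 2 := by
    intro v hv
    refine ⟨mul_nonneg hc0.le (hw v), ?_⟩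
    rw [← hcW]
    exact mul_le_mul_of_nonneg_left (hT v hv) hc0.le
  have h1 : ∏ v, (p * (if v ∈ T then Real.exp (c * w v) else 1) + (1 - p)) ≤
      ∏ v, (if v ∈ T then Real.exp (p * (1 + l / 2) * (c * w v)) else 1) := by
    refine Finset.prod_le_prod ?_ ?_
    · intro v _
      split_ifs
      · have := Real.exp_pos (c * w v)
        nlinarith
      · linarith
    · intro v _
      split_ifs with hv
      · obtain ⟨h2, h3⟩ := hy v hv
        refine (factor_le hp0 h2 (by linarith)).trans (Real.exp_le_exp.2 ?_)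
        have h4 : c * w v + (c * w v) ^ 2 ≤ (1 + l / 2) * (c * w v) := by nlinarith
        nlinarith
      · linarith
  have h2 : ∏ v, (if v ∈ T then Real.exp (p * (1 + l / 2) * (c * w v)) else 1) =
      Real.exp (p * (1 + l / 2) * (c * W)) := by
    rw [Finset.prod_ite_mem, univ_inter, ← Real.exp_sum, ← mul_sum, ← mul_sum]
    rfl
  rw [h2] at h1
  refine (mul_le_mul_of_nonneg_left h1 (Real.exp_pos _).le).trans ?_
  rw [← Real.exp_add]
  refine Real.exp_le_exp.2 ?_
  have h3 : c * W = l / (2 * η) := by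
    rw [hc]
    field_simp
  have h4 : -(c * ((p + l) * W)) + p * (1 + l / 2) * (c * W) =
      (c * W) * (p * l / 2 - l) := by ring
  rw [h4, h3]
  have h5 : -(l ^ 2 / (4 * η)) = l / (2 * η) * (-(l / 2)) := by
    field_simp
    ring
  rw [h5]
  refine mul_le_mul_of_nonneg_left ?_ (by positivity)
  nlinarith

theorem tail {p l η : ℝ} {w : Fin n → ℝ} {T : Finset (Fin n)} (hW : 0 < wt w T) (hl0 : 0 < l)
    (hη : 0 < η) (X : Finset (Fin n)) (h : (p + l) * wt w T < wt w X) :
    1 ≤ Real.exp (-(l / (2 * η * wt w T) * ((p + l) * wt w T))) *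
      Real.exp (l / (2 * η * wt w T) * wt w X) := by
  rw [← Real.exp_add]
  refine Real.one_le_exp ?_
  have hc0 : 0 < l / (2 * η * wt w T) := by positivity
  nlinarith

end HoefAux

open HoefAux in
/-- (M9) Large deviations. -/
theorem stHoef : StHoef := by
  intro n ρ l η w T h0 h1 hl0 hl1 hη hw hT
  have hle : ∀ X ⊆ T, wt w X ≤ wt w T := fun X hX =>
    Finset.sum_le_sum_of_subset_of_nonneg hX fun v _ _ => hw v
  have hW0 : 0 ≤ wt w T := Finset.sum_nonneg fun v _ => hw v
  rcases hW0.eq_or_lt with hW | hW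
  · constructor
    · refine le_trans (le_of_eq ?_) (Real.exp_pos _).le
      classical
      unfold prN
      refine Finset.sum_eq_zero fun I _ => if_neg ?_
      have := hle (T ∩ I) inter_subset_left
      rw [← hW] at this ⊢
      simpa using this
    · refine le_trans (le_of_eq ?_) (Real.exp_pos _).le
      classical
      unfold prN
      refine Finset.sum_eq_zero fun I _ => if_neg ?_
      have := hle (T \ I) sdiff_subset
      rw [← hW] at this ⊢
      simpa using this
  · constructor
    · refine le_trans (markov h0 h1 _ (fun I =>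
        Real.exp (-(l / (2 * η * wt w T) * ((ρ + l) * wt w T))) *
          Real.exp (l / (2 * η * wt w T) * wt w (T ∩ I))) (fun I => by positivity)
        (fun I hI => tail hW hl0 hη _ hI)) ?_
      refine le_trans (le_of_eq ?_) (bound h0 h1 hl0 hl1 hη hw hT hW)
      have h := mgf ρ (fun v : Fin n => if v ∈ T then Real.exp (l / (2 * η * wt w T) * w v) else 1)
        (fun _ => 1)
      simp only [mul_one] at h
      rw [← h, Finset.mul_sum]
      refine Finset.sum_congr rfl fun I _ => ?_
      rw [prod_const_one, mul_one, Finset.prod_ite_mem, ← Real.exp_sum, ← mul_sum, inter_comm T I]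
      unfold wt
      ring
    · refine le_trans (markov h0 h1 _ (fun I =>
        Real.exp (-(l / (2 * η * wt w T) * ((1 - ρ + l) * wt w T))) *
          Real.exp (l / (2 * η * wt w T) * wt w (T \ I))) (fun I => by positivity)
        (fun I hI => tail hW hl0 hη _ hI)) ?_
      refine le_trans (le_of_eq ?_) (bound (p := 1 - ρ) (by linarith) (by linarith) hl0 hl1 hη hw
        hT hW)
      have h := mgf ρ (fun _ => 1)
        (fun v : Fin n => if v ∈ T then Real.exp (l / (2 * η * wt w T) * w v) else 1)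
      simp only [mul_one] at h
      have h' : ∀ v : Fin n, (1 - ρ) * (if v ∈ T then
          Real.exp (l / (2 * η * wt w T) * w v) else 1) + (1 - (1 - ρ)) =
          ρ + (1 - ρ) * (if v ∈ T then Real.exp (l / (2 * η * wt w T) * w v) else 1) := by
        intro v
        ring
      simp only [h']
      rw [← h, Finset.mul_sum]
      refine Finset.sum_congr rfl fun I _ => ?_
      have h2 : (univ \ I) ∩ T = T \ I := by
        ext v
        simp [and_comm]
      rw [prod_const_one, one_mul, Finset.prod_ite_mem, ← Real.exp_sum, ← mul_sum, h2]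
      unfold wt
      ring

end Pool.Agent.Lib.MP_cff830_lc.MR
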