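import Pool.Agent.Lib.MP_cff830_lc.MR.StmtsX59

/-!
# Monotone circuits over relaxations of vertex cover: closed functions have few jumps (spread families)
-/

set_option autoImplicit false

namespace Pool.Agent.Lib.MP_cff830_lc.MR

open Finset

namespace JumpXAux

/-- A set of `s` pairs is the set of the pairs of `s` pairs of coordinates. -/
theorem exists_coord {n s : ℕ} (F : Finset (Sym2 (Fin n))) (h : F.card = s) :
    ∃ f : Fin s × Bool → Fin n, (∀ i, s(f (i, false), f (i, true)) ∈ F) ∧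
      ∀ e ∈ F, ∃ i, e = s(f (i, false), f (i, true)) := by
  classical
  have hp : ∀ x : Sym2 (Fin n), ∃ p : Fin n × Fin n, x = s(p.1, p.2) := by
    intro x
    induction x with
    | _ a b => exact ⟨(a, b), rfl⟩
  choose p hp using hp
  let e := F.equivFinOfCardEq h
  refine ⟨fun c => if c.2 then (p (e.symm c.1)).2 else (p (e.symm c.1)).1, fun i => ?_,
    fun x hx => ⟨e ⟨x, hx⟩, ?_⟩⟩
  · have h1 := hp (e.symm i : Sym2 (Fin n))
    simp only [Bool.false_eq_true, if_false, if_true]
    rw [← h1]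
    exact (e.symm i).2
  · have h1 := hp x
    simpa using h1

/-- A large family of functions contains a nonempty subfamily, given by prescribed values on a
proper subset `Z` of the coordinates, whose values outside `Z` are spread. -/
theorem exists_spread {ι C α : Type} [Fintype C] [DecidableEq C] [DecidableEq α] {K : ℕ}
    (Φ : Finset ι) (f : ι → C → α) (hf : ∀ E ∈ Φ, ∀ E' ∈ Φ, f E = f E' → E = E')
    (hK : K ^ Fintype.card C < Φ.card) :
    ∃ (Z : Finset C) (a : C → α) (Ψ : Finset ι), Z ≠ univ ∧ Ψ.Nonempty ∧ Ψ ⊆ Φ ∧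
      (∀ E ∈ Ψ, ∀ z ∈ Z, f E z = a z) ∧
      ∀ S : Finset α, (Ψ.filter fun E => S ⊆ Zᶜ.image (f E)).card * K ^ S.card ≤
        Fintype.card C ^ S.card * Ψ.card := by
  classical
  set fam : Finset C → (C → α) → Finset ι := fun Z a => Φ.filter fun E => ∀ z ∈ Z, f E z = a z
    with hfam
  have hmem : ∀ Z a E, E ∈ fam Z a ↔ E ∈ Φ ∧ ∀ z ∈ Z, f E z = a z := by
    intro Z a E
    rw [hfam]
    exact mem_filter
  set S₀ : Finset (Finset C) := univ.filter fun Z => ∃ a, K ^ (Fintype.card C - Z.card) <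
    (fam Z a).card with hS₀
  have hΦ : Φ.Nonempty := card_pos.1 (lt_of_le_of_lt (Nat.zero_le _) hK)
  have h0 : S₀.Nonempty := by
    obtain ⟨E, _⟩ := hΦ
    refine ⟨∅, ?_⟩
    rw [hS₀, mem_filter]
    refine ⟨mem_univ _, f E, ?_⟩
    have h : fam ∅ (f E) = Φ := by
      ext E'
      rw [hmem]
      exact ⟨fun h => h.1, fun h => ⟨h, fun z hz => absurd hz (notMem_empty _)⟩⟩
    rw [h, card_empty, Nat.sub_zero]
    exact hK
  obtain ⟨Z, hZ, hmax⟩ := exists_max_image S₀ card h0
  rw [hS₀, mem_filter] at hZ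
  obtain ⟨_, a, ha⟩ := hZ
  have hmax' : ∀ Z' : Finset C, Z.card < Z'.card → ∀ a', (fam Z' a').card ≤
      K ^ (Fintype.card C - Z'.card) := by
    intro Z' hZ' a'
    by_contra hcon
    push Not at hcon
    have h1 : Z' ∈ S₀ := by
      rw [hS₀, mem_filter]
      exact ⟨mem_univ _, a', hcon⟩
    have h2 := hmax _ h1
    omega
  refine ⟨Z, a, fam Z a, ?_, ?_, fun E hE => ((hmem _ _ _).1 hE).1,
    fun E hE => ((hmem _ _ _).1 hE).2, fun S => ?_⟩
  · rintro rfl
    rw [card_univ, Nat.sub_self, pow_zero] at ha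
    have h1 : (fam univ a).card ≤ 1 := by
      rw [card_le_one]
      intro E hE E' hE'
      rw [hmem] at hE hE'
      refine hf E hE.1 E' hE'.1 ?_
      funext z
      rw [hE.2 z (mem_univ _), hE'.2 z (mem_univ _)]
    omega
  · exact card_pos.1 (lt_of_le_of_lt (Nat.zero_le _) ha)
  · rcases S.eq_empty_or_nonempty with rfl | hS
    · simp
    set B : (S → C) → Finset ι := fun σ => (fam Z a).filter fun E => ∀ x : S, σ x ∉ Z ∧
      f E (σ x) = x with hB
    have hBm : ∀ σ E, E ∈ B σ ↔ E ∈ fam Z a ∧ ∀ x : S, σ x ∉ Z ∧ f E (σ x) = x := by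
      intro σ E
      rw [hB]
      exact mem_filter
    have h1 : ((fam Z a).filter fun E => S ⊆ Zᶜ.image (f E)) ⊆ univ.biUnion B := by
      intro E hE
      rw [mem_filter] at hE
      have h2 : ∀ x : S, ∃ c : C, c ∉ Z ∧ f E c = x := by
        intro x
        obtain ⟨c, hc, hcx⟩ := mem_image.1 (hE.2 x.2)
        exact ⟨c, mem_compl.1 hc, hcx⟩
      choose σ hσ using h2
      exact mem_biUnion.2 ⟨σ, mem_univ _, (hBm σ E).2 ⟨hE.1, hσ⟩⟩
    have h2 : ∀ σ, (B σ).card * K ^ S.card ≤ K ^ (Fintype.card C - Z.card) := by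
      intro σ
      rcases (B σ).eq_empty_or_nonempty with h3 | ⟨E₁, hE₁⟩
      · rw [h3, card_empty, zero_mul]
        exact Nat.zero_le _
      have h3 := (hBm σ E₁).1 hE₁
      have hinj : Function.Injective σ := by
        intro x y hxy
        have h4 := (h3.2 x).2
        rw [hxy, (h3.2 y).2] at h4
        exact (Subtype.ext h4).symm
      have hdis : Disjoint Z (univ.image σ) := by
        rw [disjoint_right]
        intro c hc
        obtain ⟨x, _, rfl⟩ := mem_image.1 hc
        exact (h3.2 x).1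
      have hcard : (Z ∪ univ.image σ).card = Z.card + S.card := by
        rw [card_union_of_disjoint hdis, card_image_of_injective _ hinj, card_univ,
          Fintype.card_coe]
      have hle : Z.card + S.card ≤ Fintype.card C := by
        rw [← hcard]
        exact card_le_univ _
      have hpos : 0 < S.card := card_pos.2 hS
      have h5 : (B σ).card ≤ K ^ (Fintype.card C - (Z.card + S.card)) := by
        rw [← hcard]
        refine (card_le_card fun E hE => ?_).trans
          (hmax' (Z ∪ univ.image σ) (by rw [hcard]; omega) (f E₁))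
        have h6 := (hBm σ E).1 hE
        rw [hmem] at h6 h3 ⊢
        refine ⟨h6.1.1, fun z hz => ?_⟩
        rcases mem_union.1 hz with hz | hz
        · rw [h6.1.2 z hz, h3.1.2 z hz]
        · obtain ⟨x, _, rfl⟩ := mem_image.1 hz
          rw [(h6.2 x).2, (h3.2 x).2]
      calc (B σ).card * K ^ S.card ≤ K ^ (Fintype.card C - (Z.card + S.card)) * K ^ S.card :=
            Nat.mul_le_mul_right _ h5
        _ = K ^ (Fintype.card C - Z.card) := by
            rw [← pow_add]
            congr 1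
            omega
    calc ((fam Z a).filter fun E => S ⊆ Zᶜ.image (f E)).card * K ^ S.card
        ≤ (∑ σ : S → C, (B σ).card) * K ^ S.card :=
          Nat.mul_le_mul_right _ ((card_le_card h1).trans card_biUnion_le)
      _ = ∑ σ : S → C, (B σ).card * K ^ S.card := by rw [sum_mul]
      _ ≤ ∑ _σ : S → C, K ^ (Fintype.card C - Z.card) := sum_le_sum fun σ _ => h2 σ
      _ = Fintype.card C ^ S.card * K ^ (Fintype.card C - Z.card) := by
          rw [sum_const, card_univ, smul_eq_mul, Fintype.card_fun, Fintype.card_coe]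
      _ ≤ Fintype.card C ^ S.card * (fam Z a).card := Nat.mul_le_mul_left _ ha.le

end JumpXAux

open JumpXAux in
theorem stJump (h : StSpread) : StJump := by
  classical
  intro n t N K ρ δ g hρ0 hρ hN hδ hK hg J s
  have hmem : ∀ E, E ∈ jump t g ↔ E ∈ terms n t ∧ ∀ E', E' ⊂ E → g E' < g E := by
    intro E
    unfold jump
    rw [mem_filter]
  have hterm : ∀ E ∈ jump t g, (∀ e ∈ E, ¬ e.IsDiag) ∧ E.card ≤ t := fun E hE =>
    mem_terms.1 ((hmem E).1 hE).1
  set Φ := (jump t g).filter fun E => J ⊆ E ∧ (E \ J).card = s with hΦ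
  have hΦm : ∀ E, E ∈ Φ ↔ E ∈ jump t g ∧ J ⊆ E ∧ (E \ J).card = s := by
    intro E
    rw [hΦ, mem_filter]
  by_contra hcon
  push Not at hcon
  -- coordinates
  have hcoord : ∀ E : Finset (Sym2 (Fin n)), ∃ f : Fin s × Bool → Fin n, E ∈ Φ →
      (∀ i, s(f (i, false), f (i, true)) ∈ E \ J) ∧
      ∀ e ∈ E \ J, ∃ i, e = s(f (i, false), f (i, true)) := by
    intro E
    by_cases hE : E ∈ Φ
    · obtain ⟨f, hf⟩ := exists_coord (E \ J) ((hΦm E).1 hE).2.2
      exact ⟨f, fun _ => hf⟩
    · by_cases hn : Nonempty (Fin n)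
      · exact ⟨fun _ => hn.some, fun h => absurd h hE⟩
      · have hs : s = 0 := by
          obtain ⟨E', hE'⟩ := card_pos.1 (lt_of_le_of_lt (Nat.zero_le _) hcon)
          have h1 := ((hΦm E').1 hE').2.2
          rw [← h1, card_eq_zero, eq_empty_iff_forall_notMem]
          intro e
          induction e with
          | _ a b => exact fun _ => hn ⟨a⟩
        subst hs
        exact ⟨fun c => c.1.elim0, fun h => absurd h hE⟩
  choose f hf using hcoord
  have hinj : ∀ E ∈ Φ, ∀ E' ∈ Φ, f E = f E' → E = E' := by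
    have h1 : ∀ E ∈ Φ, ∀ E' ∈ Φ, f E = f E' → E ⊆ E' := by
      intro E hE E' hE' hEE e he
      by_cases heJ : e ∈ J
      · exact ((hΦm E').1 hE').2.1 heJ
      · obtain ⟨i, hi⟩ := (hf E hE).2 e (mem_sdiff.2 ⟨he, heJ⟩)
        rw [hi, hEE]
        exact (mem_sdiff.1 ((hf E' hE').1 i)).1
    exact fun E hE E' hE' hEE => Subset.antisymm (h1 E hE E' hE' hEE) (h1 E' hE' E hE hEE.symm)
  have hcC : Fintype.card (Fin s × Bool) = 2 * s := by
    rw [Fintype.card_prod, Fintype.card_fin, Fintype.card_bool, mul_comm]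
  obtain ⟨Z, a, Ψ, hZ, hΨ, hΨΦ, hΨa, hspread⟩ := exists_spread (K := K) Φ f hinj
    (by rw [hcC]; exact hcon)
  have hst : s ≤ t := by
    obtain ⟨E, hE⟩ := hΨ
    have h1 := (hΦm E).1 (hΨΦ hE)
    rw [← h1.2.2]
    exact (card_le_card sdiff_subset).trans (hterm E h1.1).2
  obtain ⟨M, hM, hMmin⟩ := exists_min_image Ψ g hΨ
  -- the smaller term
  set full : Finset (Fin s) := univ.filter fun i => (i, false) ∈ Z ∧ (i, true) ∈ Z with hfull
  set E₀ : Finset (Sym2 (Fin n)) := J ∪ full.image fun i => s(a (i, false), a (i, true)) with hE₀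
  have hsub : E₀ ⊆ M := by
    intro e he
    rcases mem_union.1 he with he | he
    · exact ((hΦm M).1 (hΨΦ hM)).2.1 he
    · obtain ⟨i, hi, rfl⟩ := mem_image.1 he
      rw [hfull, mem_filter] at hi
      rw [← hΨa M hM _ hi.2.1, ← hΨa M hM _ hi.2.2]
      exact (mem_sdiff.1 ((hf M (hΨΦ hM)).1 i)).1
  have hfc : full.card < s := by
    obtain ⟨c, hc⟩ : ∃ c, c ∉ Z := by
      by_contra hcon'
      push Not at hcon'
      exact hZ (eq_univ_iff_forall.2 hcon')
    have h1 : full ⊂ univ := by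
      refine (Finset.ssubset_univ_iff).2 fun h2 => ?_
      have h3 : c.1 ∈ full := by
        rw [h2]
        exact mem_univ _
      rw [hfull, mem_filter] at h3
      rcases c with ⟨i, b⟩
      cases b
      · exact hc h3.2.1
      · exact hc h3.2.2
    have h2 := card_lt_card h1
    rwa [card_univ, Fintype.card_fin] at h2
  have hne : E₀ ≠ M := by
    intro h1
    have h2 : M \ J ⊆ full.image fun i => s(a (i, false), a (i, true)) := by
      intro e he
      rw [← h1, mem_sdiff, hE₀, mem_union] at he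
      rcases he.1 with h3 | h3
      · exact absurd h3 he.2
      · exact h3
    have h3 := (card_le_card h2).trans card_image_le
    rw [((hΦm M).1 (hΨΦ hM)).2.2] at h3
    omega
  have hssub : E₀ ⊂ M := (Finset.ssubset_iff_subset_ne).2 ⟨hsub, hne⟩
  have hMj := (hΦm M).1 (hΨΦ hM)
  have hE₀t : E₀ ∈ terms n t := by
    have h1 := hterm M hMj.1
    exact mem_terms.2 ⟨fun e he => h1.1 e (hsub he), (card_le_card hsub).trans h1.2⟩
  have h1ρ : ρ ≤ 1 := by linarith
  have hprob : prN ρ (fun I => In E₀ (negG I) ∧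
      ∀ K' ∈ terms n t, In K' (negG I) → g K' < g M) ≤ δ := by
    refine (prN_mono hρ0.le h1ρ (B := fun I => ∀ E ∈ Ψ, ¬ Disjoint (Zᶜ.image (f E)) I) ?_).trans
      ((h n N (2 * t) K ρ (Finset (Sym2 (Fin n))) Ψ (fun E => Zᶜ.image (f E)) hρ0 hρ hN ?_ hΨ ?_
        ?_).trans hδ)
    · rintro I ⟨hI1, hI2⟩ E hE hdis
      have hEl := (hΦm E).1 (hΨΦ hE)
      refine absurd (hI2 E ((hmem E).1 hEl.1).1 fun e he => ?_) (not_lt.2 (hMmin E hE))
      by_cases heJ : e ∈ J
      · exact hI1 e (mem_union_left _ heJ)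
      obtain ⟨i, hi⟩ := (hf E (hΨΦ hE)).2 e (mem_sdiff.2 ⟨he, heJ⟩)
      by_cases hin : i ∈ full
      · refine hI1 e (mem_union_right _ (mem_image.2 ⟨i, hin, ?_⟩))
        rw [hfull, mem_filter] at hin
        rw [hi, hΨa E hE _ hin.2.1, hΨa E hE _ hin.2.2]
      · have hor : f E (i, false) ∉ I ∨ f E (i, true) ∉ I := by
          by_contra hcon'
          push Not at hcon'
          refine hin ?_
          rw [hfull, mem_filter]
          refine ⟨mem_univ _, ?_, ?_⟩
          · by_contra h5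
            exact (disjoint_left.1 hdis (mem_image.2 ⟨_, mem_compl.2 h5, rfl⟩)) hcon'.1
          · by_contra h5
            exact (disjoint_left.1 hdis (mem_image.2 ⟨_, mem_compl.2 h5, rfl⟩)) hcon'.2
        have hd := (hterm E hEl.1).1 e he
        rw [hi] at hd ⊢
        rw [SimpleGraph.mem_edgeSet, negG_adj]
        exact ⟨fun hvy => hd (Sym2.mk_isDiag_iff.2 hvy), hor⟩
    · calc 4 * N * (2 * t) ^ 2 = 16 * N * t ^ 2 := by ring
        _ ≤ K := hK
    · intro E hE
      refine card_image_le.trans ((card_le_univ _).trans ?_)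
      rw [hcC]
      omega
    · intro S
      refine (hspread S).trans (Nat.mul_le_mul_right _ (Nat.pow_le_pow_left ?_ _))
      rw [hcC]
      omega
  have h1 : g M ≤ g E₀ := hg E₀ hE₀t M ((hmem M).1 hMj.1).1 hprob
  have h2 : g E₀ < g M := ((hmem M).1 hMj.1).2 E₀ hssub
  exact absurd h2 (not_lt.2 h1)

end Pool.Agent.Lib.MP_cff830_lc.MR
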