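import Pool.Agent.Lib.MP_cff830_lc.MR.StmtsX59
import Pool.Agent.Lib.MP_cff830_lc.MR.Leaf

/-!
# Monotone circuits over relaxations of vertex cover, exponential size: the leaves
-/

set_option autoImplicit false

namespace Pool.Agent.Lib.MP_cff830_lc.MR

open Finset

open LeafAux

/-- (X7) -/
theorem stLeafX (hUp : StUp) (hRel : StRel) (hLow : StLowX) (hBe : StBern)
    (hHo : StHoef) (hSm : StSmall) (hDi : StDich) : StLeafX := by
  classical
  intro n k t M L r ε η κ δ₁ Ω _ _ H hk ht hε hε1 hη hη1 hr hκ hM hML hL hexp hδ1 hδ2 hsp h3c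
    hsol w R hw hR
  obtain ⟨hlA, hlB, hlC, hlV, hlD, hlE⟩ := hLow n w hw
  set ρ : ℝ := 1 / 2 - ε / 2 with hρ
  have hρ0 : 0 ≤ ρ := by rw [hρ]; linarith
  have hρ1 : ρ ≤ 1 / 2 := by rw [hρ]; linarith
  have hρ2 : ρ ≤ 1 := by linarith
  rcases hDi n M L w η hw hη (by linarith) hML hL hexp with ⟨S, hS, hSw⟩ | ⟨S, B, hS, hBS, hBc, hBw⟩
  · obtain ⟨hs1, hs2⟩ := hSm n κ Ω H hκ hsp S L hS
    have h1 := hs1 t
    have h2 := hs2 r (ε / 8) η w (by positivity) hw hSw (by linarith)
    have h3 : (2 * (L : ℝ) * κ / (ε / 8)) ^ r = (16 * L * κ / ε) ^ r := by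
      congr 1
      field_simp
      ring
    rw [h3] at h2
    refine le_trans (prP_mono ?_) ((prP_or _ _).trans (add_le_add h1 h2))
    intro ω hω
    by_contra hcon
    rw [not_or, not_lt, not_lt] at hcon
    obtain ⟨hc1, hc2⟩ := hcon
    have hEt := edgesIn_term hc1
    have hEI := edgesIn_in (H ω) S
    have hES := edgesIn_inside (H ω) S
    have hcol := h3c ω (edgesIn (H ω) S) hEI hc1
    have hbad := hω _ hEt hEI
    set E := edgesIn (H ω) S with hE
    set W := wt w Sᶜ with hW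
    have hW0 : 0 ≤ W := wt_nonneg hw _
    -- the value on the positive test
    obtain ⟨C₀, hC1, hC2, hC3⟩ := hlE (H ω) S
    obtain ⟨μ, hμ1, hμ2⟩ := hsol ω
    have hup := hUp n k (H ω) μ _ hμ1 hμ2 w hw S C₀ hC1 hC2
    have hup2 : sdpValue (H ω) k w ≤ minCover (gr E) w + (1 / 2 + ε / 4) * W := by
      rw [← hW] at hup
      have h4 : (1 / 2 + ε / 8) * W + ε / 8 * W = (1 / 2 + ε / 4) * W := by ring
      linarith
    obtain ⟨-, hr2, -, hr4, hr5, hr6, -, -, hr9, hr10, -⟩ := hRel n (H ω) w hw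
    refine absurd hbad (not_lt.2 (le_trans (prN_mono hρ0 hρ2 ?_)
      ((hHo n ρ (ε / 8) η w Sᶜ hρ0 hρ2 (by positivity) (by linarith) hη hw (fun v hv =>
        hSw v (Finset.mem_compl.1 hv))).1.trans hδ1)))
    rintro I ⟨hEN, hRI⟩
    by_contra hI
    rw [not_lt, ← hW] at hI
    have hsplit := wt_split w Sᶜ I
    rw [← hW] at hsplit
    have hWI : (1 / 2 + 3 * ε / 8) * W ≤ wt w (Sᶜ \ I) := by
      have h4 : (ρ + ε / 8) * W + (1 / 2 + 3 * ε / 8) * W = W := by rw [hρ]; ring
      linarith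
    refine absurd hRI (not_lt.2 ?_)
    rcases hR with hR | hR
    · rw [hR, hR]
      refine hlC I _ ?_ hr5 hr6
      have h4 := hlD S I E hES hEN
      have h5 := wt_compl w S I
      have h6 : (1 / 2 + ε / 4) * W ≤ (1 / 2 + 3 * ε / 8) * W :=
        mul_le_mul_of_nonneg_right (by linarith) hW0
      have h7 := hr10 k hk
      linarith
    · refine (hR (H ω)).2.trans (hup2.trans (le_trans ?_ (hR (negG I)).1))
      refine le_trans ?_ (hlA S I E η hη.le hES hcol hEN hSw)
      rw [← hW]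
      have h4 : (1 / 2 + ε / 4) * W + 2 * η * W ≤ min (2 / 3 * W) (wt w (Sᶜ \ I)) := by
        have h5 : 2 * η * W ≤ ε / 8 * W := mul_le_mul_of_nonneg_right (by linarith) hW0
        refine le_min ?_ ?_
        · have h6 : (1 / 2 + ε / 4) * W + ε / 8 * W ≤ 2 / 3 * W := by
            have h7 : (1 / 2 + ε / 4) * W + ε / 8 * W = (1 / 2 + 3 * ε / 8) * W := by ring
            rw [h7]
            exact mul_le_mul_of_nonneg_right (by linarith) hW0
          linarith
        · have h7 : (1 / 2 + ε / 4) * W + ε / 8 * W = (1 / 2 + 3 * ε / 8) * W := by ring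
          linarith
      linarith
  · obtain ⟨hs1, -⟩ := hSm n κ Ω H hκ hsp S L hS
    have h1 := hs1 t
    have h2 : 0 ≤ (16 * L * κ / ε) ^ r := by positivity
    refine le_trans (prP_mono ?_) (h1.trans (by linarith))
    intro ω hω
    by_contra hc1
    rw [not_lt] at hc1
    have hEt := edgesIn_term hc1
    have hEI := edgesIn_in (H ω) S
    have hES := edgesIn_inside (H ω) S
    have hcol := h3c ω (edgesIn (H ω) S) hEI hc1
    have hbad := hω _ hEt hEI
    set E := edgesIn (H ω) S with hE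
    set W := wt w Sᶜ with hW
    -- the value on the positive test
    obtain ⟨C₀, hC1, hC2, hC3⟩ := hlE (H ω) S
    obtain ⟨-, hr2, -, hr4, hr5, hr6, hr7, -, hr9, -⟩ := hRel n (H ω) w hw
    have hcov : IsVertexCover (H ω) (C₀ ∪ Sᶜ) := by
      intro u v huv
      rw [Finset.mem_union, Finset.mem_union, Finset.mem_compl, Finset.mem_compl]
      by_cases hu : u ∈ S
      · by_cases hv : v ∈ S
        · rcases hC2 u hu v hv huv with h | h
          · exact Or.inl (Or.inl h)
          · exact Or.inr (Or.inl h)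
        · exact Or.inr (Or.inr hv)
      · exact Or.inl (Or.inr hu)
    have hmc : minCover (H ω) w ≤ minCover (gr E) w + W := by
      refine (hr7 _ hcov).trans ((wt_union hw _ _).trans ?_)
      rw [← hW]
      linarith
    -- the vertices of large weight outside `E`
    have hvs : (vs E).card ≤ 2 * t := (card_vs E).trans (Nat.mul_le_mul_left 2 hc1)
    have hB' : M + 1 - 2 * t ≤ (B \ vs E).card := by
      have h3 := Finset.le_card_sdiff (vs E) B
      omega
    obtain ⟨hb1, -, -⟩ := hBe n ρ hρ0 hρ2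
    have hpr : prN ρ (fun I => B \ vs E ⊆ I) ≤ δ₁ := by
      rw [hb1]
      calc ρ ^ (B \ vs E).card ≤ (1 / 2 : ℝ) ^ (B \ vs E).card := pow_le_pow_left₀ hρ0 hρ1 _
        _ ≤ (1 / 2 : ℝ) ^ (M + 1 - 2 * t) :=
            pow_le_pow_of_le_one (by norm_num) (by norm_num) hB'
        _ ≤ δ₁ := hδ2
    refine absurd hbad (not_lt.2 (le_trans (prN_mono hρ0 hρ2 ?_) hpr))
    rintro I ⟨hEN, hRI⟩
    by_contra hI
    obtain ⟨v, hv, hvI⟩ := Finset.not_subset.1 hI
    have h3 : 1 < (B \ vs E).card := by omega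
    obtain ⟨v', hv', hne⟩ := Finset.exists_mem_ne h3 v
    obtain ⟨hvB, hvE⟩ := Finset.mem_sdiff.1 hv
    obtain ⟨hvB', hvE'⟩ := Finset.mem_sdiff.1 hv'
    have h4 := hlB I E v v' hcol hEN hvE hvE' hne.symm hvI
    have h5 : W ≤ min (w v) (w v') := le_min (hBw v hvB) (hBw v' hvB')
    have h6 : minCover (H ω) w ≤ triangleLP (negG I) w := by linarith
    refine absurd hRI (not_lt.2 ?_)
    rcases hR with hR | hR
    · rw [hR, hR]
      refine hlC I _ ?_ hr5 hr6
      have h7 := hlV I E v hEN hvE hvI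
      have h8 := hBw v hvB
      linarith
    · exact (hR (H ω)).2.trans ((hr9 k).trans (h6.trans (hR (negG I)).1))

end Pool.Agent.Lib.MP_cff830_lc.MR
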