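import Pool.Agent.Lib.MP_cff830_lc.MR.StmtsX59
import Pool.Agent.Lib.MP_cff830_lc.MR.Leaf
import Pool.Agent.Lib.MP_cff830_lc.MR.Gates

/-!
# Monotone circuits over relaxations of vertex cover: the leaves, with the local functions
-/

set_option autoImplicit false

namespace Pool.Agent.Lib.MP_cff830_lc.MR

open Finset

open LeafAux GatesAux

/-- (X7) with the local functions. -/
theorem stLeafY (hX : StLeafX) (hSm : StSmall) : StLeafY := by
  classical
  intro n k t M L r ε η κ δ₁ Ω _ _ H hk ht hε hε1 hη hη1 hr hκ hM hML hL hexp hδ1 hδ2 hsp h3c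
    hsol R hR
  rcases hR with ⟨w, hw, hrel⟩ | ⟨S, hS, hmono⟩
  · refine (hX n k t M L r ε η κ δ₁ Ω H hk ht hε hε1 hη hη1 hr hκ hM hML hL hexp hδ1 hδ2 hsp h3c
      hsol w R hw hrel).trans ?_
    have h0 : 0 ≤ ((n : ℝ) ^ (2 / 3 : ℝ) * κ) ^ (t + 1) := by positivity
    linarith
  · have hδ0 : 0 < δ₁ := lt_of_lt_of_le (Real.exp_pos _) hδ1
    have h1 := (hSm n κ Ω H hκ hsp S S.card le_rfl).1 t
    have h2 : (S.card : ℝ) ^ 2 ≤ (n : ℝ) ^ (2 / 3 : ℝ) := by
      have h3 : (S.card : ℝ) ^ 3 ≤ n := by exact_mod_cast hS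
      calc (S.card : ℝ) ^ 2 = ((S.card : ℝ) ^ 3) ^ (2 / 3 : ℝ) := by
            rw [← Real.rpow_natCast, ← Real.rpow_natCast, ← Real.rpow_mul (Nat.cast_nonneg _)]
            norm_num
        _ ≤ (n : ℝ) ^ (2 / 3 : ℝ) := Real.rpow_le_rpow (by positivity) h3 (by norm_num)
    have h5 : prP (fun ω => t < (edgesIn (H ω) S).card) ≤
        ((n : ℝ) ^ (2 / 3 : ℝ) * κ) ^ (t + 1) :=
      h1.trans (pow_le_pow_left₀ (by positivity) (mul_le_mul_of_nonneg_right h2 hκ) _)
    refine le_trans (prP_mono ?_) (h5.trans ?_)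
    · intro ω hω
      by_contra hcon
      have hcon := not_lt.1 hcon
      refine absurd (hω _ (edgesIn_term hcon) (edgesIn_in (H ω) S)) (not_lt.2 ?_)
      refine (prN_mono (B := fun _ => False) (by linarith) (by linarith) ?_).trans
        ((prN_false _).le.trans hδ0.le)
      rintro I ⟨hEN, hRI⟩
      refine absurd hRI (not_lt.2 (hmono _ _ fun u hu v hv huv => ?_))
      have h6 : s(u, v) ∈ edgesIn (H ω) S := by
        unfold edgesIn
        rw [Finset.mem_filter]
        refine ⟨Finset.mem_univ _, huv, fun x hx => ?_⟩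
        rcases Sym2.mem_iff.1 hx with rfl | rfl
        · exact hu
        · exact hv
      exact hEN _ h6
    · have h0 : 0 ≤ ((L : ℝ) ^ 2 * κ) ^ (t + 1) := by positivity
      have h7 : 0 ≤ (16 * L * κ / ε) ^ r := by positivity
      linarith

end Pool.Agent.Lib.MP_cff830_lc.MR
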