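import Pool.Agent.Lib.MP_cff830_lc.MR.Stmts59

/-!
# Lower bounds on the negative tests
-/

set_option autoImplicit false

namespace Pool.Agent.Lib.MP_cff830_lc.MR

open Finset

namespace LowAux

variable {n : ℕ}

theorem le_edgeLP {G : SimpleGraph (Fin n)} {w : Fin n → ℝ} {b : ℝ}
    (h : ∀ x : Fin n → ℝ, (∀ v, 0 ≤ x v) → (∀ a b, G.Adj a b → 1 ≤ x a + x b) →
      b ≤ ∑ v, w v * x v) : b ≤ edgeLP G w := by
  unfold edgeLP
  apply le_csInf
  · exact ⟨_, fun _ => 1, ⟨fun _ => zero_le_one, fun _ _ _ => by norm_num⟩, rfl⟩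
  · rintro m ⟨x, ⟨h0, h1⟩, rfl⟩
    exact h x h0 h1

theorem le_triangleLP {G : SimpleGraph (Fin n)} {w : Fin n → ℝ} {b : ℝ}
    (h : ∀ x : Fin n → ℝ, (∀ v, 0 ≤ x v) → (∀ a b, G.Adj a b → 1 ≤ x a + x b) →
      (∀ a b c, G.Adj a b → G.Adj b c → G.Adj a c → 2 ≤ x a + x b + x c) →
      b ≤ ∑ v, w v * x v) : b ≤ triangleLP G w := by
  unfold triangleLP
  apply le_csInf
  · exact ⟨_, fun _ => 1, ⟨fun _ => zero_le_one, fun _ _ _ => by norm_num,
      fun _ _ _ _ _ _ => by norm_num⟩, rfl⟩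
  · rintro m ⟨x, ⟨h0, h1, h2⟩, rfl⟩
    exact h x h0 h1 h2

theorem coverSet_finite (G : SimpleGraph (Fin n)) (w : Fin n → ℝ) :
    {m | ∃ C : Finset (Fin n), IsVertexCover G C ∧ m = ∑ v ∈ C, w v}.Finite := by
  refine (Set.finite_range fun C : Finset (Fin n) => ∑ v ∈ C, w v).subset ?_
  rintro m ⟨C, _, rfl⟩
  exact ⟨C, rfl⟩

theorem minCover_le {G : SimpleGraph (Fin n)} {w : Fin n → ℝ} {C : Finset (Fin n)}
    (hC : IsVertexCover G C) : minCover G w ≤ wt w C :=
  csInf_le (coverSet_finite G w).bddBelow ⟨C, hC, rfl⟩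

theorem exists_minCover (G : SimpleGraph (Fin n)) (w : Fin n → ℝ) :
    ∃ C : Finset (Fin n), IsVertexCover G C ∧ minCover G w = wt w C := by
  have hne : {m | ∃ C : Finset (Fin n), IsVertexCover G C ∧ m = ∑ v ∈ C, w v}.Nonempty :=
    ⟨_, univ, fun u v _ => Or.inl (mem_univ u), rfl⟩
  obtain ⟨C, hC, h⟩ := hne.csInf_mem (coverSet_finite G w)
  exact ⟨C, hC, h⟩

theorem gr_adj {E : Finset (Sym2 (Fin n))} {a b : Fin n} :
    (gr E).Adj a b ↔ s(a, b) ∈ E ∧ a ≠ b := by
  unfold gr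
  rw [SimpleGraph.fromEdgeSet_adj, Finset.mem_coe]

theorem negG_of_mem {E : Finset (Sym2 (Fin n))} {I : Finset (Fin n)} (hE : In E (negG I))
    {a b : Fin n} (h : s(a, b) ∈ E) : (negG I).Adj a b := by
  have := hE _ h
  rwa [SimpleGraph.mem_edgeSet] at this

/-- The part of the sum over the vertices of `E`. -/
theorem cover_part (h : StRound) {E : Finset (Sym2 (Fin n))} {I : Finset (Fin n)}
    {w x : Fin n → ℝ} (hw : ∀ v, 0 ≤ w v) (hc : (gr E).Colorable 2) (hE : In E (negG I))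
    (h0 : ∀ v, 0 ≤ x v) (h1 : ∀ a b, (negG I).Adj a b → 1 ≤ x a + x b) :
    minCover (gr E) w ≤ ∑ v ∈ vs E, w v * x v :=
  h.1 n E w x hw hc h0 fun a b hab => h1 a b (negG_of_mem hE (gr_adj.1 hab).1)

theorem wt_mono {w : Fin n → ℝ} (hw : ∀ v, 0 ≤ w v) {A B : Finset (Fin n)} (h : A ⊆ B) :
    wt w A ≤ wt w B :=
  sum_le_sum_of_subset_of_nonneg h fun v _ _ => hw v

theorem wt_sdiff (w : Fin n → ℝ) (T I : Finset (Fin n)) :
    wt w (T \ I) = ∑ v ∈ T, w v * (if v ∈ I then 0 else 1) := by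
  unfold wt
  rw [sdiff_eq_filter, sum_filter]
  refine sum_congr rfl fun v _ => ?_
  by_cases hv : v ∈ I <;> simp [hv]

/-- The weight outside the vertices of the term. -/
theorem keyA {w x : Fin n → ℝ} (hw : ∀ v, 0 ≤ w v) (hx : ∀ v, 0 ≤ x v)
    {I T : Finset (Fin n)} {η : ℝ} (hη : 0 ≤ η)
    (h2 : ∀ a b c, a ≠ b → b ≠ c → a ≠ c → a ∉ I → b ∉ I → 2 ≤ x a + x b + x c)
    (hT : ∀ v ∈ T, w v ≤ η * wt w T) :
    min (2 / 3 * wt w T) (wt w (T \ I)) - 2 * η * wt w T ≤ ∑ v ∈ T, w v * x v := by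
  have hsum : 0 ≤ ∑ v ∈ T, w v * x v := sum_nonneg fun v _ => mul_nonneg (hw v) (hx v)
  have hW : 0 ≤ wt w T := sum_nonneg fun v _ => hw v
  have hηW : 0 ≤ η * wt w T := mul_nonneg hη hW
  rcases (T \ I).eq_empty_or_nonempty with h | h
  · have h3 : wt w (T \ I) = 0 := by rw [h]; rfl
    have h4 := min_le_right (2 / 3 * wt w T) (wt w (T \ I))
    linarith
  obtain ⟨a, ha, hamin⟩ := exists_min_image (T \ I) x h
  rw [mem_sdiff] at ha
  rcases ((T \ I).erase a).eq_empty_or_nonempty with h' | h'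
  · have h3 : wt w (T \ I) = w a := by
      have h5 := add_sum_erase (T \ I) w (mem_sdiff.2 ha)
      rw [h', sum_empty, add_zero] at h5
      exact h5.symm
    have h4 := min_le_right (2 / 3 * wt w T) (wt w (T \ I))
    have h5 := hT a ha.1
    linarith
  obtain ⟨b, hb, hbmin⟩ := exists_min_image ((T \ I).erase a) x h'
  rw [mem_erase, mem_sdiff] at hb
  obtain ⟨hba, hbT, hbI⟩ := hb
  have hab : x a ≤ x b := hamin b (mem_sdiff.2 ⟨hbT, hbI⟩)
  -- the convex combination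
  obtain ⟨s, hs0, hs1, hs⟩ : ∃ s : ℝ, 0 ≤ s ∧ s ≤ 1 ∧ ∀ v ∈ (T.erase a).erase b,
      (1 - s) * (2 / 3) + s * (if v ∈ I then 0 else 1) ≤ x v := by
    have hc1 : ∀ v ∈ (T.erase a).erase b, 2 - 2 * x b ≤ x v := by
      intro v hv
      rw [mem_erase, mem_erase] at hv
      have := h2 a b v (Ne.symm hba) (Ne.symm hv.1) (Ne.symm hv.2.1) ha.2 hbI
      linarith
    have hc2 : ∀ v ∈ (T.erase a).erase b, v ∉ I → x b ≤ x v := by
      intro v hv hvI
      rw [mem_erase, mem_erase] at hv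
      exact hbmin v (mem_erase.2 ⟨hv.2.1, mem_sdiff.2 ⟨hv.2.2, hvI⟩⟩)
    rcases le_total (x b) (2 / 3) with hb1 | hb1
    · refine ⟨0, le_rfl, zero_le_one, fun v hv => ?_⟩
      have := hc1 v hv
      linarith
    rcases le_total (x b) 1 with hb2 | hb2
    · refine ⟨3 * x b - 2, by linarith, by linarith, fun v hv => ?_⟩
      by_cases hvI : v ∈ I
      · rw [if_pos hvI]
        have := hc1 v hv
        linarith
      · rw [if_neg hvI]
        have := hc2 v hv hvI
        linarith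
    · refine ⟨1, zero_le_one, le_rfl, fun v hv => ?_⟩
      by_cases hvI : v ∈ I
      · rw [if_pos hvI]
        have := hx v
        linarith
      · rw [if_neg hvI]
        have := hc2 v hv hvI
        linarith
  have haT : a ∈ T := ha.1
  have hbT' : b ∈ T.erase a := mem_erase.2 ⟨hba, hbT⟩
  have e1 := add_sum_erase T (fun v => w v * x v) haT
  have e2 := add_sum_erase (T.erase a) (fun v => w v * x v) hbT'
  have f1 := add_sum_erase T
    (fun v => w v * ((1 - s) * (2 / 3) + s * (if v ∈ I then 0 else 1))) haT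
  have f2 := add_sum_erase (T.erase a)
    (fun v => w v * ((1 - s) * (2 / 3) + s * (if v ∈ I then 0 else 1))) hbT'
  have g : ∑ v ∈ (T.erase a).erase b, w v * ((1 - s) * (2 / 3) + s * (if v ∈ I then 0 else 1)) ≤
      ∑ v ∈ (T.erase a).erase b, w v * x v :=
    sum_le_sum fun v hv => mul_le_mul_of_nonneg_left (hs v hv) (hw v)
  have tot : ∑ v ∈ T, w v * ((1 - s) * (2 / 3) + s * (if v ∈ I then 0 else 1)) =
      (1 - s) * (2 / 3 * wt w T) + s * wt w (T \ I) := by
    rw [wt_sdiff, wt, mul_sum, mul_sum, mul_sum, ← sum_add_distrib]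
    refine sum_congr rfl fun v _ => ?_
    ring
  simp only [if_neg ha.2, if_neg hbI] at e1 e2 f1 f2
  have p1 : 0 ≤ w a * x a := mul_nonneg (hw a) (hx a)
  have p2 : 0 ≤ w b * x b := mul_nonneg (hw b) (hx b)
  have q1 : w a * ((1 - s) * (2 / 3) + s * 1) ≤ w a :=
    mul_le_of_le_one_right (hw a) (by linarith)
  have q2 : w b * ((1 - s) * (2 / 3) + s * 1) ≤ w b :=
    mul_le_of_le_one_right (hw b) (by linarith)
  have r1 := hT a haT
  have r2 := hT b hbT
  have m1 : min (2 / 3 * wt w T) (wt w (T \ I)) ≤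
      (1 - s) * (2 / 3 * wt w T) + s * wt w (T \ I) := by
    have u1 := mul_le_mul_of_nonneg_left (min_le_left (2 / 3 * wt w T) (wt w (T \ I)))
      (by linarith : 0 ≤ 1 - s)
    have u2 := mul_le_mul_of_nonneg_left (min_le_right (2 / 3 * wt w T) (wt w (T \ I))) hs0
    have u3 : (1 - s) * min (2 / 3 * wt w T) (wt w (T \ I)) +
        s * min (2 / 3 * wt w T) (wt w (T \ I)) = min (2 / 3 * wt w T) (wt w (T \ I)) := by ring
    linarith
  linarith

/-- The complement of an independent set, for the edge constraints. -/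
theorem keyC {w x : Fin n → ℝ} (hw : ∀ v, 0 ≤ w v) (hx : ∀ v, 0 ≤ x v) {I : Finset (Fin n)}
    {b : ℝ} (h1 : ∀ u v, (negG I).Adj u v → 1 ≤ x u + x v) (hb1 : b ≤ wt w Iᶜ)
    (hb2 : b ≤ wt w univ / 2) (hb3 : ∀ v, b ≤ wt w univ - w v) : b ≤ ∑ v, w v * x v := by
  rcases (Iᶜ).eq_empty_or_nonempty with h | h
  · have h3 : wt w Iᶜ = 0 := by rw [h]; rfl
    have hsum : 0 ≤ ∑ v, w v * x v := sum_nonneg fun v _ => mul_nonneg (hw v) (hx v)
    linarith
  obtain ⟨a, ha, hamin⟩ := exists_min_image Iᶜ x h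
  rw [mem_compl] at ha
  have key : ∀ v, v ≠ a → 1 - x a ≤ x v := by
    intro v hv
    have := h1 a v ⟨Ne.symm hv, Or.inl ha⟩
    linarith
  have hsplit : wt w Iᶜ + wt w I = wt w univ := sum_compl_add_sum I w
  have hIc : 0 ≤ wt w Iᶜ := sum_nonneg fun v _ => hw v
  have hI : 0 ≤ wt w I := sum_nonneg fun v _ => hw v
  rcases le_total (x a) (1 / 2) with h2 | h2
  · have e1 := add_sum_erase univ (fun v => w v * x v) (mem_univ a)
    have e2 := add_sum_erase univ w (mem_univ a)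
    have g : ∑ v ∈ univ.erase a, w v * (1 - x a) ≤ ∑ v ∈ univ.erase a, w v * x v :=
      sum_le_sum fun v hv => mul_le_mul_of_nonneg_left (key v (ne_of_mem_erase hv)) (hw v)
    rw [← sum_mul] at g
    have h3 := hb3 a
    have hu : wt w univ = ∑ v, w v := rfl
    have h4 : ∑ v ∈ univ.erase a, w v = wt w univ - w a := by rw [hu]; linarith
    rw [h4] at g
    have h5 : 0 ≤ x a := hx a
    have u1 := mul_le_mul_of_nonneg_left h3 (by linarith : 0 ≤ 1 - 2 * x a)
    have u2 := mul_le_mul_of_nonneg_left hb2 (by linarith : 0 ≤ 2 * x a)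
    nlinarith
  · have e := sum_compl_add_sum I (fun v => w v * x v)
    rcases le_total (x a) 1 with h3 | h3
    · have g1 : ∑ v ∈ Iᶜ, w v * x a ≤ ∑ v ∈ Iᶜ, w v * x v :=
        sum_le_sum fun v hv => mul_le_mul_of_nonneg_left (hamin v hv) (hw v)
      have g2 : ∑ v ∈ I, w v * (1 - x a) ≤ ∑ v ∈ I, w v * x v :=
        sum_le_sum fun v hv => mul_le_mul_of_nonneg_left
          (key v fun hva => ha (hva ▸ hv)) (hw v)
      rw [← sum_mul] at g1 g2
      have u1 := mul_le_mul_of_nonneg_left hb1 (by linarith : 0 ≤ 2 * x a - 1)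
      have u2 := mul_le_mul_of_nonneg_left hb2 (by linarith : 0 ≤ 2 - 2 * x a)
      have w1 : ∑ v ∈ Iᶜ, w v = wt w Iᶜ := rfl
      have w2 : ∑ v ∈ I, w v = wt w I := rfl
      rw [w1] at g1
      rw [w2] at g2
      nlinarith
    · have g1 : ∑ v ∈ Iᶜ, w v * 1 ≤ ∑ v ∈ Iᶜ, w v * x v :=
        sum_le_sum fun v hv => mul_le_mul_of_nonneg_left (h3.trans (hamin v hv)) (hw v)
      have g2 : 0 ≤ ∑ v ∈ I, w v * x v := sum_nonneg fun v _ => mul_nonneg (hw v) (hx v)
      rw [← sum_mul, mul_one] at g1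
      have w1 : ∑ v ∈ Iᶜ, w v = wt w Iᶜ := rfl
      linarith

end LowAux

open LowAux in
theorem stLow (h : StRound) : StLow := by
  intro n w hw
  refine ⟨?_, ?_, ?_, ?_, ?_⟩
  · intro S I E η hη hS hc hE hη2
    refine le_triangleLP fun x h0 h1 h2 => ?_
    have c := cover_part h hw hc hE h0 h1
    have hsub : vs E ⊆ S := by
      intro v hv
      obtain ⟨e, he, hve⟩ := mem_vs.1 hv
      exact hS e he v hve
    have c2 : ∑ v ∈ vs E, w v * x v ≤ ∑ v ∈ S, w v * x v :=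
      sum_le_sum_of_subset_of_nonneg hsub fun v _ _ => mul_nonneg (hw v) (h0 v)
    have k := keyA (I := I) (T := Sᶜ) hw h0 hη
      (fun a b c hab hbc hac haI hbI => h2 a b c ⟨hab, Or.inl haI⟩ ⟨hbc, Or.inl hbI⟩
        ⟨hac, Or.inl haI⟩) (fun v hv => hη2 v (mem_compl.1 hv))
    have e := sum_compl_add_sum S (fun v => w v * x v)
    linarith
  · intro I E v v' hc hE hv hv' hvv hvI
    refine le_edgeLP fun x h0 h1 => ?_
    have c := cover_part h hw hc hE h0 h1
    have k : min (w v) (w v') ≤ w v * x v + w v' * x v' := by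
      have h3 := h1 v v' ⟨hvv, Or.inl hvI⟩
      have u1 := mul_le_mul_of_nonneg_right (min_le_left (w v) (w v')) (h0 v)
      have u2 := mul_le_mul_of_nonneg_right (min_le_right (w v) (w v')) (h0 v')
      have u3 : 0 ≤ min (w v) (w v') := le_min (hw v) (hw v')
      have u4 := mul_le_mul_of_nonneg_left h3 u3
      linarith
    have c2 : ∑ u ∈ insert v (insert v' (vs E)), w u * x u ≤ ∑ u, w u * x u :=
      sum_le_sum_of_subset_of_nonneg (subset_univ _) fun u _ _ => mul_nonneg (hw u) (h0 u)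
    rw [sum_insert, sum_insert hv'] at c2
    · linarith
    · rw [mem_insert, not_or]
      exact ⟨hvv, hv⟩
  · intro I b hb1 hb2 hb3
    exact le_edgeLP fun x h0 h1 => keyC hw h0 h1 hb1 hb2 hb3
  · intro S I E hS hE
    refine minCover_le fun u v huv => ?_
    rw [gr_adj] at huv
    have h3 := negG_of_mem hE huv.1
    have hu : u ∈ S := hS _ huv.1 u (Sym2.mem_mk_left u v)
    have hv : v ∈ S := hS _ huv.1 v (Sym2.mem_mk_right u v)
    rcases h3.2 with h4 | h4
    · exact Or.inl (mem_sdiff.2 ⟨hu, h4⟩)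
    · exact Or.inr (mem_sdiff.2 ⟨hv, h4⟩)
  · classical
    intro G S
    obtain ⟨C, hC, hm⟩ := exists_minCover (gr (edgesIn G S)) w
    refine ⟨C ∩ S, inter_subset_right, fun x hx y hy hxy => ?_, ?_⟩
    · have hadj : (gr (edgesIn G S)).Adj x y := by
        rw [gr_adj]
        refine ⟨?_, hxy.ne⟩
        unfold edgesIn
        rw [mem_filter]
        refine ⟨mem_univ _, ?_, ?_⟩
        · rw [SimpleGraph.mem_edgeSet]
          exact hxy
        · intro z hz
          rcases Sym2.mem_iff.1 hz with rfl | rfl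
          · exact hx
          · exact hy
      rcases hC x y hadj with h3 | h3
      · exact Or.inl (mem_inter.2 ⟨h3, hx⟩)
      · exact Or.inr (mem_inter.2 ⟨h3, hy⟩)
    · rw [hm]
      exact wt_mono hw inter_subset_left

end Pool.Agent.Lib.MP_cff830_lc.MR
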