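import Pool.Agent.Lib.MP_cff830_lc.MR.StmtsX59
import Pool.Agent.Lib.MP_cff830_lc.MR.Low

/-!
# Lower bounds on the negative tests, for 3-colourable terms
-/

set_option autoImplicit false

namespace Pool.Agent.Lib.MP_cff830_lc.MR

open Finset

namespace LowXAux

open LowAux

variable {n : ℕ}

theorem sum_ind (w : Fin n → ℝ) {U : Finset (Fin n)} {a : Fin n} (ha : a ∈ U) :
    ∑ v ∈ U, w v * (if v = a then 1 else 0) = w a := by
  simp [ha]

/-- A convex combination of four lower bounds. -/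
theorem comb {w x : Fin n → ℝ} (hw : ∀ v, 0 ≤ w v) {U I : Finset (Fin n)} {b : ℝ}
    {v₁ v₂ : Fin n} (hv₁ : v₁ ∈ U) (hv₂ : v₂ ∈ U) (hb₁ : b ≤ wt w U - w v₁)
    (hb₂ : b ≤ wt w U - w v₂) (hb : b ≤ 2 / 3 * wt w U) (hbI : b ≤ wt w (U \ I))
    (l₁ l₂ l₃ l₄ : ℝ) (h₁ : 0 ≤ l₁) (h₂ : 0 ≤ l₂) (h₃ : 0 ≤ l₃) (h₄ : 0 ≤ l₄)
    (hs : l₁ + l₂ + l₃ + l₄ = 1)
    (hx : ∀ v ∈ U, l₁ * (1 - (if v = v₁ then 1 else 0)) + l₂ * (2 / 3) +
      l₃ * (if v ∈ I then 0 else 1) +
      l₄ * (1 - (if v = v₁ then 1 else 0) / 2 - (if v = v₂ then 1 else 0) / 2) ≤ x v) :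
    b ≤ ∑ v ∈ U, w v * x v := by
  have e : ∑ v ∈ U, w v * (l₁ * (1 - (if v = v₁ then 1 else 0)) + l₂ * (2 / 3) +
      l₃ * (if v ∈ I then 0 else 1) +
      l₄ * (1 - (if v = v₁ then 1 else 0) / 2 - (if v = v₂ then 1 else 0) / 2)) =
      l₁ * (wt w U - w v₁) + l₂ * (2 / 3 * wt w U) + l₃ * wt w (U \ I) +
        l₄ * (wt w U - w v₁ / 2 - w v₂ / 2) := by
    have e1 := sum_ind w hv₁
    have e2 := sum_ind w hv₂
    have e3 := wt_sdiff w U I
    have e4 : wt w U = ∑ v ∈ U, w v := rfl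
    rw [e3, e4]
    calc ∑ v ∈ U, w v * (l₁ * (1 - (if v = v₁ then 1 else 0)) + l₂ * (2 / 3) +
          l₃ * (if v ∈ I then 0 else 1) +
          l₄ * (1 - (if v = v₁ then 1 else 0) / 2 - (if v = v₂ then 1 else 0) / 2))
        = ∑ v ∈ U, ((l₁ + l₂ * (2 / 3) + l₄) * w v -
            (l₁ + l₄ / 2) * (w v * (if v = v₁ then 1 else 0)) -
            l₄ / 2 * (w v * (if v = v₂ then 1 else 0)) +
            l₃ * (w v * (if v ∈ I then 0 else 1))) := by
          refine sum_congr rfl fun v _ => ?_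
          ring
      _ = (l₁ + l₂ * (2 / 3) + l₄) * ∑ v ∈ U, w v - (l₁ + l₄ / 2) * w v₁ - l₄ / 2 * w v₂ +
            l₃ * ∑ v ∈ U, w v * (if v ∈ I then 0 else 1) := by
          rw [sum_add_distrib, sum_sub_distrib, sum_sub_distrib, ← mul_sum, ← mul_sum, ← mul_sum,
            ← mul_sum, e1, e2]
      _ = _ := by ring
  have g : ∑ v ∈ U, w v * (l₁ * (1 - (if v = v₁ then 1 else 0)) + l₂ * (2 / 3) +
      l₃ * (if v ∈ I then 0 else 1) +
      l₄ * (1 - (if v = v₁ then 1 else 0) / 2 - (if v = v₂ then 1 else 0) / 2)) ≤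
      ∑ v ∈ U, w v * x v :=
    sum_le_sum fun v hv => mul_le_mul_of_nonneg_left (hx v hv) (hw v)
  have u1 := mul_le_mul_of_nonneg_left hb₁ h₁
  have u2 := mul_le_mul_of_nonneg_left hb h₂
  have u3 := mul_le_mul_of_nonneg_left hbI h₃
  have u4 := mul_le_mul_of_nonneg_left
    (by linarith : b ≤ wt w U - w v₁ / 2 - w v₂ / 2) h₄
  have u5 : l₁ * b + l₂ * b + l₃ * b + l₄ * b = b := by
    rw [← add_mul, ← add_mul, ← add_mul, hs, one_mul]
  linarith

/-- Both ends of a pair of `E` are in `vs E`. -/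
theorem ends_mem {E : Finset (Sym2 (Fin n))} {a b : Fin n} (h : (gr E).Adj a b) :
    a ∈ vs E ∧ b ∈ vs E :=
  ⟨mem_vs.2 ⟨_, (gr_adj.1 h).1, Sym2.mem_mk_left a b⟩,
    mem_vs.2 ⟨_, (gr_adj.1 h).1, Sym2.mem_mk_right a b⟩⟩

theorem cover_sdiff {E : Finset (Sym2 (Fin n))} {I : Finset (Fin n)} (hE : In E (negG I)) :
    IsVertexCover (gr E) (vs E \ I) := by
  intro a b hab
  obtain ⟨ha, hb⟩ := ends_mem hab
  rcases (negG_of_mem hE (gr_adj.1 hab).1).2 with h | h
  · exact Or.inl (mem_sdiff.2 ⟨ha, h⟩)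
  · exact Or.inr (mem_sdiff.2 ⟨hb, h⟩)

theorem cover_erase {E : Finset (Sym2 (Fin n))} (v : Fin n) :
    IsVertexCover (gr E) ((vs E).erase v) := by
  intro a b hab
  obtain ⟨ha, hb⟩ := ends_mem hab
  by_cases h : a = v
  · exact Or.inr (mem_erase.2 ⟨fun h' => hab.ne (h.trans h'.symm), hb⟩)
  · exact Or.inl (mem_erase.2 ⟨h, ha⟩)

theorem minCover_le_sub {E : Finset (Sym2 (Fin n))} {w : Fin n → ℝ} {v : Fin n} (hv : v ∈ vs E) :
    minCover (gr E) w ≤ wt w (vs E) - w v := by
  have h1 := minCover_le (w := w) (cover_erase (E := E) v)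
  have h2 := add_sum_erase (vs E) w hv
  unfold wt at h1 ⊢
  linarith

theorem minCover_colour {E : Finset (Sym2 (Fin n))} {w : Fin n → ℝ} (hc : (gr E).Colorable 3) :
    minCover (gr E) w ≤ 2 / 3 * wt w (vs E) := by
  classical
  obtain ⟨c⟩ := hc
  have h1 : ∀ i : Fin 3, minCover (gr E) w ≤ ∑ v ∈ vs E, if c v ≠ i then w v else 0 := by
    intro i
    rw [← sum_filter]
    refine minCover_le (C := (vs E).filter fun v => c v ≠ i) ?_
    intro a b hab
    obtain ⟨ha, hb⟩ := ends_mem hab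
    by_cases h : c a = i
    · exact Or.inr (mem_filter.2 ⟨hb, fun h' => c.valid hab (h.trans h'.symm)⟩)
    · exact Or.inl (mem_filter.2 ⟨ha, h⟩)
  have h2 : ∑ _i : Fin 3, minCover (gr E) w ≤
      ∑ i : Fin 3, ∑ v ∈ vs E, if c v ≠ i then w v else 0 := sum_le_sum fun i _ => h1 i
  rw [sum_comm, sum_const, card_univ, Fintype.card_fin, nsmul_eq_mul] at h2
  have h3 : ∀ v ∈ vs E, (∑ i : Fin 3, if c v ≠ i then w v else 0) = 2 * w v := by
    intro v _
    generalize c v = j
    rw [Fin.sum_univ_three]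
    fin_cases j <;> simp <;> ring
  rw [sum_congr rfl h3, ← mul_sum] at h2
  have h4 : wt w (vs E) = ∑ v ∈ vs E, w v := rfl
  rw [h4]
  push_cast at h2
  linarith

/-- The part of the sum over the vertices of a 3-colourable term. -/
theorem cover_part3 {E : Finset (Sym2 (Fin n))} {I : Finset (Fin n)} {w x : Fin n → ℝ}
    (hw : ∀ v, 0 ≤ w v) (hc : (gr E).Colorable 3) (hE : In E (negG I)) (h0 : ∀ v, 0 ≤ x v)
    (h1 : ∀ a b, (negG I).Adj a b → 1 ≤ x a + x b)
    (h2 : ∀ a b c, (negG I).Adj a b → (negG I).Adj b c → (negG I).Adj a c →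
      2 ≤ x a + x b + x c) :
    minCover (gr E) w ≤ ∑ v ∈ vs E, w v * x v := by
  have hI := minCover_le (w := w) (cover_sdiff hE)
  have h3 := minCover_colour (w := w) hc
  have he : ∀ v ∈ vs E, minCover (gr E) w ≤ wt w (vs E) - w v := fun v hv => minCover_le_sub hv
  have hsum : 0 ≤ ∑ v ∈ vs E, w v * x v := sum_nonneg fun v _ => mul_nonneg (hw v) (h0 v)
  rcases (vs E \ I).eq_empty_or_nonempty with h | h
  · have h4 : wt w (vs E \ I) = 0 := by rw [h]; rfl
    linarith
  obtain ⟨a, ha, hamin⟩ := exists_min_image (vs E \ I) x h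
  have haU : a ∈ vs E := (mem_sdiff.1 ha).1
  have haI : a ∉ I := (mem_sdiff.1 ha).2
  -- the neighbours of `a`
  have ka : ∀ v, v ≠ a → 1 - x a ≤ x v := by
    intro v hv
    have := h1 a v ⟨Ne.symm hv, Or.inl haI⟩
    linarith
  by_cases hbig : 1 ≤ x a
  · refine comb hw haU haU (he a haU) (he a haU) h3 hI 0 0 1 0 le_rfl le_rfl zero_le_one le_rfl
      (by norm_num) fun v hv => ?_
    by_cases hvI : v ∈ I
    · have := h0 v
      simp only [if_pos hvI]
      linarith
    · have := hamin v (mem_sdiff.2 ⟨hv, hvI⟩)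
      simp only [if_neg hvI]
      linarith
  push Not at hbig
  rcases ((vs E \ I).erase a).eq_empty_or_nonempty with h' | h'
  · refine comb hw haU haU (he a haU) (he a haU) h3 hI (1 - x a) 0 (x a) 0 (by linarith) le_rfl
      (h0 a) le_rfl (by ring) fun v hv => ?_
    by_cases hva : v = a
    · subst hva
      simp only [if_true, if_neg haI]
      linarith
    · have hvI : v ∈ I := by
        by_contra hvI
        have : v ∈ (vs E \ I).erase a := mem_erase.2 ⟨hva, mem_sdiff.2 ⟨hv, hvI⟩⟩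
        rw [h'] at this
        exact notMem_empty _ this
      have := ka v hva
      simp only [if_neg hva, if_pos hvI]
      linarith
  obtain ⟨b, hb, hbmin⟩ := exists_min_image ((vs E \ I).erase a) x h'
  rw [mem_erase, mem_sdiff] at hb
  obtain ⟨hba, hbU, hbI⟩ := hb
  have hab : x a ≤ x b := hamin b (mem_sdiff.2 ⟨hbU, hbI⟩)
  have hab1 := ka b hba
  -- the other vertices
  have k1 : ∀ v, v ≠ a → v ≠ b → 2 - x a - x b ≤ x v := by
    intro v hva hvb
    have := h2 a b v ⟨Ne.symm hba, Or.inl haI⟩ ⟨Ne.symm hvb, Or.inl hbI⟩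
      ⟨Ne.symm hva, Or.inl haI⟩
    linarith
  have k2 : ∀ v ∈ vs E, v ≠ a → v ∉ I → x b ≤ x v := by
    intro v hv hva hvI
    exact hbmin v (mem_erase.2 ⟨hva, mem_sdiff.2 ⟨hv, hvI⟩⟩)
  rcases le_total 1 (x b) with hb1 | hb1
  · refine comb hw haU hbU (he a haU) (he b hbU) h3 hI (1 - x a) 0 (x a) 0 (by linarith) le_rfl
      (h0 a) le_rfl (by ring) fun v hv => ?_
    by_cases hva : v = a
    · subst hva
      simp only [if_true, if_neg haI]
      linarith
    · by_cases hvI : v ∈ I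
      · have := ka v hva
        simp only [if_neg hva, if_pos hvI]
        linarith
      · have := k2 v hv hva hvI
        simp only [if_neg hva, if_neg hvI]
        linarith
  rcases le_total 2 (x a + 2 * x b) with hc2 | hc2
  · refine comb hw haU hbU (he a haU) (he b hbU) h3 hI (x b - x a) (3 * (1 - x b))
      (x a + 2 * x b - 2) 0 (by linarith) (by linarith) (by linarith) le_rfl (by ring)
      fun v hv => ?_
    by_cases hva : v = a
    · subst hva
      simp only [if_true, if_neg haI]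
      linarith
    · by_cases hvI : v ∈ I
      · have hvb : v ≠ b := fun h => hbI (h ▸ hvI)
        have := k1 v hva hvb
        simp only [if_neg hva, if_pos hvI]
        linarith
      · have := k2 v hv hva hvI
        simp only [if_neg hva, if_neg hvI]
        linarith
  · refine comb hw haU hbU (he a haU) (he b hbU) h3 hI (x b - x a) (3 * (x a + x b - 1))
      0 (2 * (2 - x a - 2 * x b)) (by linarith) (by linarith) le_rfl (by linarith) (by ring)
      fun v hv => ?_
    by_cases hva : v = a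
    · subst hva
      simp only [if_true, if_neg (Ne.symm hba)]
      linarith
    · by_cases hvb : v = b
      · subst hvb
        simp only [if_neg hva, if_true]
        linarith
      · have := k1 v hva hvb
        simp only [if_neg hva, if_neg hvb]
        linarith

end LowXAux

open LowAux LowXAux in
theorem stLowX : StLowX := by
  intro n w hw
  refine ⟨?_, ?_, ?_, ?_, ?_, ?_⟩
  · intro S I E η hη hS hc hE hη2
    refine le_triangleLP fun x h0 h1 h2 => ?_
    have c := cover_part3 hw hc hE h0 h1 h2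
    have hsub : vs E ⊆ S := by
      intro v hv
      obtain ⟨e, he, hve⟩ := mem_vs.1 hv
      exact hS e he v hve
    have c2 : ∑ v ∈ vs E, w v * x v ≤ ∑ v ∈ S, w v * x v :=
      sum_le_sum_of_subset_of_nonneg hsub fun v _ _ => mul_nonneg (hw v) (h0 v)
    have k := keyA (I := I) (T := Sᶜ) hw h0 hη
      (fun a b c hab hbc hac haI hbI => h2 a b c ⟨hab, Or.inl haI⟩ ⟨hbc, Or.inl hbI⟩
        ⟨hac, Or.inl haI⟩) (fun v hv => hη2 v (mem_compl.1 hv))
    have e := sum_compl_add_sum S (fun v => w v * x v)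
    linarith
  · intro I E v v' hc hE hv hv' hvv hvI
    refine le_triangleLP fun x h0 h1 h2 => ?_
    have c := cover_part3 hw hc hE h0 h1 h2
    have k : min (w v) (w v') ≤ w v * x v + w v' * x v' := by
      have h3 := h1 v v' ⟨hvv, Or.inl hvI⟩
      have u1 := mul_le_mul_of_nonneg_right (min_le_left (w v) (w v')) (h0 v)
      have u2 := mul_le_mul_of_nonneg_right (min_le_right (w v) (w v')) (h0 v')
      have u3 : 0 ≤ min (w v) (w v') := le_min (hw v) (hw v')
      have u4 := mul_le_mul_of_nonneg_left h3 u3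
      linarith
    have c2 : ∑ u ∈ insert v (insert v' (vs E)), w u * x u ≤ ∑ u, w u * x u :=
      sum_le_sum_of_subset_of_nonneg (subset_univ _) fun u _ _ => mul_nonneg (hw u) (h0 u)
    rw [sum_insert, sum_insert hv'] at c2
    · linarith
    · rw [mem_insert, not_or]
      exact ⟨hvv, hv⟩
  · intro I b hb1 hb2 hb3
    exact le_edgeLP fun x h0 h1 => keyC hw h0 h1 hb1 hb2 hb3
  · intro I E v hE hv hvI
    have h1 := minCover_le (w := w) (cover_sdiff hE)
    have h2 : insert v (vs E \ I) ⊆ Iᶜ := by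
      intro u hu
      rw [mem_compl]
      rcases mem_insert.1 hu with rfl | hu
      · exact hvI
      · exact (mem_sdiff.1 hu).2
    have h3 := wt_mono hw h2
    have h4 : v ∉ vs E \ I := fun h => hv (mem_sdiff.1 h).1
    unfold wt at h1 h3 ⊢
    rw [sum_insert h4] at h3
    linarith
  · intro S I E hS hE
    refine minCover_le fun u v huv => ?_
    rw [gr_adj] at huv
    have h3 := negG_of_mem hE huv.1
    have hu : u ∈ S := hS _ huv.1 u (Sym2.mem_mk_left u v)
    have hv : v ∈ S := hS _ huv.1 v (Sym2.mem_mk_right u v)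
    rcases h3.2 with h4 | h4
    · exact Or.inl (mem_sdiff.2 ⟨hu, h4⟩)
    · exact Or.inr (mem_sdiff.2 ⟨hv, h4⟩)
  · classical
    intro G S
    obtain ⟨C, hC, hm⟩ := exists_minCover (gr (edgesIn G S)) w
    refine ⟨C ∩ S, inter_subset_right, fun x hx y hy hxy => ?_, ?_⟩
    · have hadj : (gr (edgesIn G S)).Adj x y := by
        rw [gr_adj]
        refine ⟨?_, hxy.ne⟩
        unfold edgesIn
        rw [mem_filter]
        refine ⟨mem_univ _, ?_, ?_⟩
        · rw [SimpleGraph.mem_edgeSet]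
          exact hxy
        · intro z hz
          rcases Sym2.mem_iff.1 hz with rfl | rfl
          · exact hx
          · exact hy
      rcases hC x y hadj with h3 | h3
      · exact Or.inl (mem_inter.2 ⟨h3, hx⟩)
      · exact Or.inr (mem_inter.2 ⟨h3, hy⟩)
    · rw [hm]
      exact wt_mono hw inter_subset_left

end Pool.Agent.Lib.MP_cff830_lc.MR
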