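import Pool.Agent.Lib.MP_cff830_lc.MR.StmtsX59

/-!
# Monotone circuits over relaxations of vertex cover, absolute exponent: assembly
-/

set_option autoImplicit false

namespace Pool.Agent.Lib.MP_cff830_lc.MR

open Finset

namespace MainYAux

theorem wt_one {n : ℕ} (A : Finset (Fin n)) : wt (fun _ => (1 : ℝ)) A = A.card := by
  unfold wt
  rw [Finset.sum_const, nsmul_eq_mul, mul_one]

theorem card_vs {n : ℕ} (E : Finset (Sym2 (Fin n))) : (vs E).card ≤ 2 * E.card := by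
  classical
  have h : vs E ⊆ E.biUnion fun e => e.toFinset := by
    intro v hv
    obtain ⟨e, he, hve⟩ := mem_vs.1 hv
    exact Finset.mem_biUnion.2 ⟨e, he, Sym2.mem_toFinset.2 hve⟩
  calc (vs E).card ≤ (E.biUnion fun e => e.toFinset).card := Finset.card_le_card h
    _ ≤ ∑ e ∈ E, e.toFinset.card := Finset.card_biUnion_le
    _ ≤ ∑ e ∈ E, 2 := by
        refine Finset.sum_le_sum fun e _ => ?_
        rw [Sym2.card_toFinset]
        split_ifs <;> omega
    _ = 2 * E.card := by rw [Finset.sum_const, smul_eq_mul, mul_comm]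

theorem in_of_disjoint {n t : ℕ} {E : Finset (Sym2 (Fin n))} (hE : E ∈ terms n t)
    {I : Finset (Fin n)} (h : Disjoint (vs E) I) : In E (negG I) := by
  intro e he
  have h1 := (mem_terms.1 hE).1 e he
  induction e using Sym2.ind with
  | _ u v =>
    rw [SimpleGraph.mem_edgeSet, negG_adj]
    refine ⟨fun h2 => h1 (by rw [h2]; exact rfl), Or.inl fun hu => ?_⟩
    exact Finset.disjoint_left.1 h (mem_vs.2 ⟨_, he, Sym2.mem_mk_left u v⟩) hu

theorem cover_negG {n : ℕ} (I : Finset (Fin n)) : IsVertexCover (negG I) Iᶜ := by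
  intro u v huv
  rw [negG_adj] at huv
  rw [Finset.mem_compl, Finset.mem_compl]
  exact huv.2

theorem gap_of_approx {n : ℕ} (hRel : StRel) {ε e : ℝ} (hε : 0 < ε) (he0 : 0 < e)
    (he : e ≤ ε / 8) (he1 : e ≤ 1 / 4) (hn : 0 < (n : ℝ)) {F : SimpleGraph (Fin n) → ℝ}
    (hF : ∀ G, minCover G (fun _ => 1) ≤ F G ∧ F G ≤ (2 - ε) * minCover G fun _ => 1)
    (G G' : SimpleGraph (Fin n)) (hG : (1 - e) * (n : ℝ) ≤ minCover G fun _ => 1)
    (hG' : minCover G' (fun _ => 1) ≤ (1 / 2 + e) * (n : ℝ)) : F G' < F G := by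
  have h1 := (hF G).1
  have h2 := (hF G').2
  have h3 : 0 ≤ minCover G' fun _ => 1 := by
    obtain ⟨h4, -, -, h5, -⟩ := hRel n G' (fun _ => 1) fun _ => zero_le_one
    exact h4.trans h5
  have h4 : (2 - ε) * (minCover G' fun _ => 1) ≤ (1 - 2 * e) * n := by
    rcases le_total 0 (2 - ε) with h5 | h5
    · refine (mul_le_mul_of_nonneg_left hG' h5).trans ?_
      rw [← mul_assoc]
      refine mul_le_mul_of_nonneg_right ?_ hn.le
      nlinarith
    · refine (mul_nonpos_of_nonpos_of_nonneg h5 h3).trans ?_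
      exact mul_nonneg (by linarith) hn.le
  have h5 : (1 - 2 * e) * (n : ℝ) < (1 - e) * n := mul_lt_mul_of_pos_right (by linarith) hn
  linarith

theorem main (hPos : StPosX) (hRel : StRel) (hBern : StBern) (hHoef : StHoef)
    (hClos : StClos) (hJump : StJump) (hGates : StGatesY) (hLeaf : StLeafY) (hNum : StNumY)
    (ε : ℝ) (hε : 0 < ε) : ∃ C : ℕ, ∀ k n : ℕ, 2 ≤ k → 2 ^ (C * k ^ 2) ≤ n →
    ∀ (s : ℕ) (F : Fin s → SimpleGraph (Fin n) → ℝ), IsCircuit k F → ∀ o : Fin s,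
      ((∀ G, minCover G (fun _ => 1) ≤ F o G ∧ F o G ≤ (2 - ε) * minCover G fun _ => 1) ∨
        ∀ G G', (1 - ε) * (n : ℝ) ≤ minCover G (fun _ => 1) →
          minCover G' (fun _ => 1) ≤ (1 / 2 + ε) * (n : ℝ) → F o G' < F o G) →
        (2 : ℝ) ^ ((n : ℝ) ^ (1 / 30 : ℝ)) ≤ (s : ℝ) := by
  classical
  set e : ℝ := min (ε / 8) (1 / 4) with he
  have he0 : 0 < e := lt_min (by positivity) (by norm_num)
  have he1 : e ≤ 1 / 4 := min_le_right _ _
  have he3 : e ≤ ε / 8 := min_le_left _ _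
  have he2 : e ≤ ε := by linarith
  obtain ⟨C, hC⟩ := hPos (e / 8) (by positivity)
  obtain ⟨C', hc⟩ := hNum e C he0 he1
  refine ⟨C', fun k n hk hn => ?_⟩
  obtain ⟨t, M, L, r, N, K, η, κ, δ, hκ, hδ, ht, hCn, hκ1, hη0, hη1, hη2, hM, hML, hL, hL2, hδ1,
    hδ2, hN, hδ3, hK, hK2, hs⟩ := hc k n hk hn
  have hn1 : 1 ≤ n := le_trans (Nat.one_le_pow _ _ (by positivity)) hCn
  have hnR : (0 : ℝ) < n := by exact_mod_cast hn1
  obtain ⟨Ω, iΩ, iN, H, hsp, h3c, hsol, hcov⟩ := hC k n t (by omega) ht hCn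
  rw [← hκ] at hsp
  have hκ0 : 0 ≤ κ := by rw [hκ]; positivity
  have hδ0 : 0 ≤ δ := by rw [hδ]; positivity
  -- covers of the positive tests
  have hgood : ∀ ω, (∀ U : Finset (Fin n), IsVertexCover (H ω) U →
      (1 - e / 8) * (n : ℝ) ≤ (U.card : ℝ)) → (1 - e) * (n : ℝ) ≤ minCover (H ω) fun _ => 1 := by
    intro ω hω
    obtain ⟨-, -, -, -, -, -, -, ⟨U, hU1, hU2⟩, -⟩ :=
      hRel n (H ω) (fun _ => 1) fun _ => zero_le_one
    rw [← hU2, wt_one]
    refine le_trans ?_ (hω U hU1)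
    exact mul_le_mul_of_nonneg_right (by linarith) hnR.le
  · intro s F hF o hor
    have hgap : ∀ G G', (1 - e) * (n : ℝ) ≤ minCover G (fun _ => 1) →
        minCover G' (fun _ => 1) ≤ (1 / 2 + e) * (n : ℝ) → F o G' < F o G := by
      rcases hor with h | h
      · exact gap_of_approx hRel hε he0 he3 he1 hnR h
      · intro G G' hG hG'
        refine h G G' (le_trans ?_ hG) (hG'.trans ?_)
        · exact mul_le_mul_of_nonneg_right (by linarith) hnR.le
        · exact mul_le_mul_of_nonneg_right (by linarith) hnR.le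
    by_contra hcon
    push Not at hcon
    obtain ⟨hs1, hs2⟩ := hs s hcon
    set ρ : ℝ := 1 / 2 - e / 2 with hρ
    have hρ3 : 0 < ρ := by rw [hρ]; linarith
    have hρ0 : 0 ≤ ρ := hρ3.le
    have hρ1 : ρ ≤ 1 / 2 := by rw [hρ]; linarith
    have hρ2 : ρ ≤ 1 := by linarith
    obtain ⟨P, Q, hP, hQ, hsig⟩ := hGates n k t (K ^ 2) s ρ δ δ κ
      (((L : ℝ) ^ 2 * κ) ^ (t + 1) + (16 * L * κ / e) ^ r +
        ((n : ℝ) ^ (2 / 3 : ℝ) * κ) ^ (t + 1)) Ω H F ht hρ0 hρ2 hδ0 hδ0 hκ0 hκ1 hK2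
      (by positivity) hsp
      (fun g hg J i => by
        rw [← pow_mul]
        exact hJump n t N K ρ δ g hρ3 hρ1 hN hδ3 hK hg J i)
      (fun R hR => hLeaf n k t M L r e η κ δ Ω H hk ht he0 he1 hη0 hη1 hη2 hκ0 hM hML hL hL2
        hδ1 hδ2 hsp h3c hsol R hR) hF
    obtain ⟨g, hgP, hgQ⟩ := hsig o
    -- a positive test
    have hω : ∃ ω, (∀ U : Finset (Fin n), IsVertexCover (H ω) U →
        (1 - e / 8) * (n : ℝ) ≤ (U.card : ℝ)) ∧ ¬ P ω := by
      by_contra hno
      push Not at hno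
      have h1 := hcov.trans (prP_mono hno)
      linarith
    obtain ⟨ω, hω1, hω2⟩ := hω
    obtain ⟨E, hEt, -, hE2⟩ := hgP ω hω2
    -- the negative tests
    obtain ⟨-, hB, -⟩ := hBern n ρ hρ0 hρ2
    have h1 : (1 / 2 : ℝ) ^ (2 * t) ≤ prN ρ fun I => Disjoint (vs E) I := by
      rw [hB]
      calc (1 / 2 : ℝ) ^ (2 * t) ≤ (1 / 2 : ℝ) ^ (vs E).card :=
            pow_le_pow_of_le_one (by norm_num) (by norm_num)
              ((card_vs E).trans (Nat.mul_le_mul_left 2 (mem_terms.1 hEt).2))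
        _ ≤ (1 - ρ) ^ (vs E).card := pow_le_pow_left₀ (by norm_num) (by linarith) _
    have h2 := (hHoef n ρ (e / 2) (1 / n) (fun _ => 1) univ hρ0 hρ2 (by positivity)
      (by linarith) (by positivity) (fun _ => zero_le_one) (fun v _ => by
        rw [wt_one, card_univ, Fintype.card_fin]
        field_simp
        exact le_rfl)).2
    have h3 : prN ρ (fun I => Disjoint (vs E) I) ≤ prN ρ Q +
        Real.exp (-((e / 2) ^ 2 / (4 * (1 / (n : ℝ))))) := by
      refine le_trans (prN_mono hρ0 hρ2 ?_) ((prN_or hρ0 hρ2 Q fun I =>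
        (1 - ρ + e / 2) * wt (fun _ => (1 : ℝ)) (univ : Finset (Fin n)) <
          wt (fun _ => (1 : ℝ)) (univ \ I)).trans (add_le_add le_rfl h2))
      intro I hI
      by_cases hQI : Q I
      · exact Or.inl hQI
      · right
        have h4 : g E ≤ F o (negG I) := hgQ I hQI E hEt (in_of_disjoint hEt hI)
        have h5 : (1 / 2 + e) * (n : ℝ) < minCover (negG I) fun _ => 1 := by
          by_contra h6
          have h7 := hgap (H ω) (negG I) (hgood ω hω1) (not_lt.1 h6)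
          linarith
        obtain ⟨-, -, -, -, -, -, h6, -⟩ := hRel n (negG I) (fun _ => 1) fun _ => zero_le_one
        have h7 := h6 _ (cover_negG I)
        have h8 : (univ \ I : Finset (Fin n)) = Iᶜ := by
          ext v
          simp
        rw [h8, wt_one, wt_one] at *
        rw [card_univ, Fintype.card_fin]
        have h9 : (1 - ρ + e / 2) * (n : ℝ) ≤ (1 / 2 + e) * n :=
          mul_le_mul_of_nonneg_right (by rw [hρ]; linarith) hnR.le
        linarith
    have h4 : (e / 2) ^ 2 / (4 * (1 / (n : ℝ))) = (e / 2) ^ 2 * n / 4 := by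
      field_simp
    rw [h4] at h3
    have h5 : s * (3 * (((terms n t).card : ℝ) ^ 2 * (δ + δ))) ≤
        s * (3 * (((n : ℝ) ^ (2 * t)) ^ 2 * (δ + δ))) := by
      have h6 : ((terms n t).card : ℝ) ≤ (n : ℝ) ^ (2 * t) := by exact_mod_cast hClos.2 n t hn1
      have h7 : ((terms n t).card : ℝ) ^ 2 ≤ ((n : ℝ) ^ (2 * t)) ^ 2 :=
        pow_le_pow_left₀ (by positivity) h6 2
      refine mul_le_mul_of_nonneg_left (mul_le_mul_of_nonneg_left
        (mul_le_mul_of_nonneg_right h7 (by linarith)) (by norm_num)) (by positivity)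
    linarith

end MainYAux


/-- The main theorem, from the modules. -/
theorem stMRY (hPos : StPosX) (hRel : StRel) (hBern : StBern) (hHoef : StHoef)
    (hClos : StClos) (hJump : StJump) (hGates : StGatesY) (hLeaf : StLeafY) (hNum : StNumY) :
    StMRY := by
  refine ⟨MainYAux.main hPos hRel hBern hHoef hClos hJump hGates hLeaf hNum, ?_, ?_⟩
  · intro n k w hw R hR G
    obtain ⟨h1, h2, h3, h4, -, -, -, -, h5, -⟩ := hRel n G w hw
    rcases hR with hR | hR
    · rw [hR G]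
      exact ⟨h4, h3⟩
    · obtain ⟨h6, h7⟩ := hR G
      exact ⟨h7.trans (h5 k), by linarith⟩
  · intro n j k w hw hj hjk
    refine ⟨Or.inr fun G => ?_, Or.inr fun G => ?_⟩
    · obtain ⟨-, -, -, -, -, -, -, -, -, -, h1, h2, h3⟩ := hRel n G w hw
      exact ⟨h3 j hj, (h2 j).trans (h1 j k hjk)⟩
    · obtain ⟨-, -, -, -, -, -, -, -, -, -, h1, h2, h3⟩ := hRel n G w hw
      exact ⟨(h3 j hj).trans (h2 j), h1 j k hjk⟩

end Pool.Agent.Lib.MP_cff830_lc.MR
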