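import Pool.Agent.Lib.MP_cff830_lc.MR.Stmts59

/-!
# Monotone circuits over relaxations of vertex cover: closed functions have few jumps
-/

set_option autoImplicit false

namespace Pool.Agent.Lib.MP_cff830_lc.MR

open Finset

namespace MinAux

variable {n : ℕ}

open Classical in
/-- The pairs of `E` inside `Y`. -/
noncomputable def ins (Y : Finset (Fin n)) (E : Finset (Sym2 (Fin n))) : Finset (Sym2 (Fin n)) :=
  E.filter fun e => ∀ v ∈ e, v ∈ Y

open Classical in
/-- The members of `Φ` with all vertices in `Y` whose pairs inside `Y` are given. -/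
noncomputable def link (Φ : Finset (Finset (Sym2 (Fin n)))) (Y : Finset (Fin n))
    (E₀ : Finset (Sym2 (Fin n))) : Finset (Finset (Sym2 (Fin n))) :=
  Φ.filter fun E => Y ⊆ vs E ∧ ins Y E = E₀

theorem mem_ins {Y : Finset (Fin n)} {E : Finset (Sym2 (Fin n))} {e : Sym2 (Fin n)} :
    e ∈ ins Y E ↔ e ∈ E ∧ ∀ v ∈ e, v ∈ Y := by
  unfold ins
  rw [mem_filter]

theorem mem_link {Φ : Finset (Finset (Sym2 (Fin n)))} {Y : Finset (Fin n)}
    {E₀ E : Finset (Sym2 (Fin n))} :
    E ∈ link Φ Y E₀ ↔ E ∈ Φ ∧ Y ⊆ vs E ∧ ins Y E = E₀ := by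
  unfold link
  rw [mem_filter]

theorem ins_subset (Y : Finset (Fin n)) (E : Finset (Sym2 (Fin n))) : ins Y E ⊆ E :=
  fun _ he => (mem_ins.1 he).1

theorem vs_card (E : Finset (Sym2 (Fin n))) : (vs E).card ≤ 2 * E.card := by
  classical
  have h : vs E ⊆ E.biUnion fun e => e.toFinset := by
    intro v hv
    obtain ⟨e, he, hve⟩ := mem_vs.1 hv
    exact mem_biUnion.2 ⟨e, he, Sym2.mem_toFinset.2 hve⟩
  refine (card_le_card h).trans (card_biUnion_le.trans ?_)
  refine (sum_le_sum (g := fun _ => 2) fun e _ => ?_).trans (by simp [mul_comm])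
  rw [Sym2.card_toFinset]
  split_ifs <;> omega

theorem ins_eq_self {Y : Finset (Fin n)} {E : Finset (Sym2 (Fin n))} (h : vs E ⊆ Y) :
    ins Y E = E := by
  ext e
  rw [mem_ins]
  exact ⟨fun h => h.1, fun he => ⟨he, fun v hv => h (mem_vs.2 ⟨e, he, hv⟩)⟩⟩

/-- Few members of a link contain one more given vertex. -/
theorem card_through {Φ : Finset (Finset (Sym2 (Fin n)))} {Y : Finset (Fin n)}
    {E₀ : Finset (Sym2 (Fin n))} {a : ℕ} (hd : ∀ E ∈ Φ, ∀ e ∈ E, ¬ e.IsDiag) (u : Fin n)
    (ha : ∀ E₁, (link Φ (insert u Y) E₁).card ≤ a) [DecidablePred fun E => u ∈ vs E] :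
    ((link Φ Y E₀).filter fun E => u ∈ vs E).card ≤ a * 2 ^ Y.card := by
  classical
  set B := (link Φ Y E₀).filter fun E => u ∈ vs E with hB
  have hBm : ∀ E, E ∈ B ↔ (E ∈ Φ ∧ Y ⊆ vs E ∧ ins Y E = E₀) ∧ u ∈ vs E := by
    intro E
    rw [hB, mem_filter, mem_link]
  have h1 : B.card ≤ a * (B.image fun E => ins (insert u Y) E).card := by
    refine card_le_mul_card_image B a fun E₁ _ => ?_
    refine (card_le_card fun E hE => ?_).trans (ha E₁)
    rw [mem_filter, hBm] at hE
    obtain ⟨⟨⟨h1, h2, _⟩, h3⟩, h4⟩ := hE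
    exact mem_link.2 ⟨h1, insert_subset h3 h2, h4⟩
  have h2 : (B.image fun E => ins (insert u Y) E).card ≤ 2 ^ Y.card := by
    rw [← card_powerset]
    refine (card_le_card (t := Y.powerset.image fun T => E₀ ∪ T.image fun y => s(u, y)) ?_).trans
      card_image_le
    intro E₁ hE₁
    obtain ⟨E, hE, rfl⟩ := mem_image.1 hE₁
    obtain ⟨⟨hEΦ, h2, h3⟩, h4⟩ := (hBm E).1 hE
    refine mem_image.2 ⟨Y.filter fun y => s(u, y) ∈ E, mem_powerset.2 (filter_subset _ _), ?_⟩
    ext e
    rw [mem_union, mem_image, mem_ins, ← h3, mem_ins]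
    constructor
    · rintro (⟨h5, h6⟩ | ⟨y, h5, rfl⟩)
      · exact ⟨h5, fun v hv => mem_insert_of_mem (h6 v hv)⟩
      · rw [mem_filter] at h5
        refine ⟨h5.2, fun v hv => ?_⟩
        rcases Sym2.mem_iff.1 hv with rfl | rfl
        · exact mem_insert_self _ _
        · exact mem_insert_of_mem h5.1
    · rintro ⟨h5, h6⟩
      by_cases h7 : ∀ v ∈ e, v ∈ Y
      · exact Or.inl ⟨h5, h7⟩
      · right
        push Not at h7
        obtain ⟨v, hv, hvY⟩ := h7
        have hvu : v = u := by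
          rcases mem_insert.1 (h6 v hv) with h | h
          · exact h
          · exact absurd h hvY
        subst hvu
        obtain ⟨y, rfl⟩ := Sym2.mem_iff_exists.1 hv
        refine ⟨y, mem_filter.2 ⟨?_, h5⟩, rfl⟩
        rcases mem_insert.1 (h6 y (Sym2.mem_mk_right v y)) with h | h
        · exact absurd (Sym2.mk_isDiag_iff.2 h.symm) (hd E hEΦ _ h5)
        · exact h
  exact h1.trans (Nat.mul_le_mul_left a h2)

/-- The combinatorial part: a large family of small sets of pairs contains `p` members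
with the same pairs `E₀` inside some `Y`, different from `E₀`, and with pairwise disjoint remaining
vertex sets. -/
theorem exists_sunflower {Φ : Finset (Finset (Sym2 (Fin n)))} {t p K : ℕ} (ht1 : 1 ≤ t)
    (hd : ∀ E ∈ Φ, ∀ e ∈ E, ¬ e.IsDiag) (ht : ∀ E ∈ Φ, E.card ≤ t)
    (hK : p * (2 * t) * 2 ^ (2 * t) < K) (hΦ : K ^ (2 * t) < Φ.card) :
    ∃ (Y : Finset (Fin n)) (E₀ : Finset (Sym2 (Fin n))),
      ∃ s : Finset (Finset (Sym2 (Fin n))), s ⊆ link Φ Y E₀ ∧ s.card = p ∧ (∀ E ∈ s, E ≠ E₀) ∧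
        ∀ E ∈ s, ∀ E' ∈ s, E ≠ E' → Disjoint (vs E \ Y) (vs E' \ Y) := by
  classical
  have hK0 : 0 < K := by omega
  set S : Finset (Finset (Fin n)) := univ.filter fun Y => ∃ E₀, K ^ (2 * t - Y.card) <
    (link Φ Y E₀).card with hS
  have hS0 : S.Nonempty := by
    refine ⟨∅, ?_⟩
    rw [hS, mem_filter]
    refine ⟨mem_univ _, ∅, ?_⟩
    have h : link Φ ∅ ∅ = Φ := by
      ext E
      rw [mem_link]
      refine ⟨fun h => h.1, fun h => ⟨h, empty_subset _, ?_⟩⟩
      ext e
      rw [mem_ins]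
      constructor
      · rintro ⟨_, h2⟩
        exact absurd (h2 _ (Sym2.out_fst_mem e)) (notMem_empty _)
      · intro h2
        exact absurd h2 (notMem_empty _)
    rw [h, card_empty]
    exact hΦ
  obtain ⟨Y, hY, hmax⟩ := exists_max_image S card hS0
  rw [hS, mem_filter] at hY
  obtain ⟨_, E₀, hE₀⟩ := hY
  have hrest : ∀ E ∈ link Φ Y E₀, E ≠ E₀ → (vs E \ Y).Nonempty := by
    intro E hE hne
    by_contra hcon
    rw [not_nonempty_iff_eq_empty, sdiff_eq_empty_iff_subset] at hcon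
    exact hne (by rw [← (mem_link.1 hE).2.2, ins_eq_self hcon])
  have hvs : ∀ E ∈ link Φ Y E₀, (vs E).card ≤ 2 * t := fun E hE =>
    (vs_card E).trans (Nat.mul_le_mul_left 2 (ht E (mem_link.1 hE).1))
  have h1K : 1 ≤ K ^ (2 * t - Y.card) := Nat.one_le_pow _ _ hK0
  have hYt : Y.card < 2 * t := by
    obtain ⟨E, hE, hne⟩ : ∃ E ∈ link Φ Y E₀, E ≠ E₀ := by
      by_contra hcon
      push Not at hcon
      have h3 : link Φ Y E₀ ⊆ {E₀} := fun E hE => mem_singleton.2 (hcon E hE)
      have h6 := card_le_card h3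
      rw [card_singleton] at h6
      omega
    have h1 : Y ⊂ vs E := by
      refine ⟨(mem_link.1 hE).2.1, fun h => ?_⟩
      obtain ⟨x, hx⟩ := hrest E hE hne
      rw [mem_sdiff] at hx
      exact hx.2 (h hx.1)
    exact (card_lt_card h1).trans_le (hvs E hE)
  set a := K ^ (2 * t - Y.card - 1) with ha
  have ha1 : 1 ≤ a := Nat.one_le_pow _ _ hK0
  have hthr : ∀ u, u ∉ Y → ((link Φ Y E₀).filter fun E => u ∈ vs E).card ≤ a * 2 ^ (2 * t) := by
    intro u hu
    refine (card_through hd u (a := a) fun E₁ => ?_).trans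
      (Nat.mul_le_mul_left a (Nat.pow_le_pow_right (by norm_num) hYt.le))
    by_contra hcon
    push Not at hcon
    have h1 : insert u Y ∈ S := by
      rw [hS, mem_filter]
      refine ⟨mem_univ _, E₁, ?_⟩
      rw [card_insert_of_notMem hu, ← Nat.sub_sub]
      exact hcon
    have h2 := hmax _ h1
    rw [card_insert_of_notMem hu] at h2
    omega
  refine ⟨Y, E₀, ?_⟩
  have key : ∀ q : ℕ, q ≤ p → ∃ s : Finset (Finset (Sym2 (Fin n))), s ⊆ link Φ Y E₀ ∧
      s.card = q ∧ (∀ E ∈ s, E ≠ E₀) ∧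
      ∀ E ∈ s, ∀ E' ∈ s, E ≠ E' → Disjoint (vs E \ Y) (vs E' \ Y) := by
    intro q
    induction q with
    | zero =>
      intro _
      exact ⟨∅, empty_subset _, card_empty, fun E hE => absurd hE (notMem_empty _),
        fun E hE => absurd hE (notMem_empty _)⟩
    | succ q ih =>
      intro hq
      obtain ⟨s, hs1, hs2, hs0, hs3⟩ := ih (by omega)
      set U := s.biUnion fun E => vs E \ Y with hU
      have hUc : U.card ≤ q * (2 * t) := by
        rw [hU, ← hs2]
        refine card_biUnion_le.trans ?_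
        refine (sum_le_sum (g := fun _ => 2 * t) fun E hE => ?_).trans (by simp)
        exact (card_le_card sdiff_subset).trans (hvs E (hs1 hE))
      have hUY : ∀ u ∈ U, u ∉ Y := by
        intro u hu
        rw [hU, mem_biUnion] at hu
        obtain ⟨E, _, hE⟩ := hu
        exact (mem_sdiff.1 hE).2
      obtain ⟨E, hE, hne, hEU⟩ : ∃ E ∈ link Φ Y E₀, E ≠ E₀ ∧ Disjoint (vs E \ Y) U := by
        by_contra hcon
        push Not at hcon
        have h1 : link Φ Y E₀ ⊆
            insert E₀ (U.biUnion fun u => (link Φ Y E₀).filter fun E => u ∈ vs E) := by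
          intro E hE
          by_cases hne : E = E₀
          · rw [hne]
            exact mem_insert_self _ _
          · have h2 := hcon E hE hne
            rw [not_disjoint_iff] at h2
            obtain ⟨u, h3, h4⟩ := h2
            exact mem_insert_of_mem
              (mem_biUnion.2 ⟨u, h4, mem_filter.2 ⟨hE, (mem_sdiff.1 h3).1⟩⟩)
        have h2 : (link Φ Y E₀).card ≤ U.card * (a * 2 ^ (2 * t)) + 1 := by
          refine (card_le_card h1).trans ((card_insert_le _ _).trans
            (Nat.add_le_add_right (card_biUnion_le.trans ?_) 1))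
          refine (sum_le_sum fun u hu => hthr u (hUY u hu)).trans (by simp)
        have h30 : 1 ≤ (2 * t) * (a * 2 ^ (2 * t)) := by
          have : 1 ≤ a * 2 ^ (2 * t) := Nat.mul_pos ha1 (by positivity)
          exact Nat.mul_pos (by omega) this
        have h3 : U.card * (a * 2 ^ (2 * t)) + 1 ≤ a * (p * (2 * t) * 2 ^ (2 * t)) := by
          calc U.card * (a * 2 ^ (2 * t)) + 1
              ≤ (q * (2 * t)) * (a * 2 ^ (2 * t)) + (2 * t) * (a * 2 ^ (2 * t)) :=
                Nat.add_le_add (Nat.mul_le_mul_right _ hUc) h30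
            _ = ((q + 1) * (2 * t)) * (a * 2 ^ (2 * t)) := by ring
            _ ≤ (p * (2 * t)) * (a * 2 ^ (2 * t)) :=
                Nat.mul_le_mul_right _ (Nat.mul_le_mul_right _ hq)
            _ = a * (p * (2 * t) * 2 ^ (2 * t)) := by ring
        have h4 : a * (p * (2 * t) * 2 ^ (2 * t)) ≤ a * K := Nat.mul_le_mul_left a hK.le
        have h5 : a * K = K ^ (2 * t - Y.card) := by
          rw [ha, ← pow_succ]
          congr 1
          omega
        omega
      have hEs : E ∉ s := by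
        intro h
        obtain ⟨x, hx⟩ := hrest E hE hne
        have h1 : x ∈ U := by
          rw [hU, mem_biUnion]
          exact ⟨E, h, hx⟩
        exact (disjoint_left.1 hEU hx) h1
      have hdis : ∀ E' ∈ s, Disjoint (vs E \ Y) (vs E' \ Y) := by
        intro E' hE'
        refine disjoint_of_subset_right ?_ hEU
        intro x hx
        rw [hU, mem_biUnion]
        exact ⟨E', hE', hx⟩
      refine ⟨insert E s, insert_subset hE hs1, by rw [card_insert_of_notMem hEs, hs2], ?_, ?_⟩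
      · intro E₁ h1
        rcases mem_insert.1 h1 with h1' | h1'
        · rw [h1']
          exact hne
        · exact hs0 E₁ h1'
      intro E₁ h1 E₂ h2 h12
      rcases mem_insert.1 h1 with h1' | h1' <;> rcases mem_insert.1 h2 with h2' | h2'
      · exact absurd (h1'.trans h2'.symm) h12
      · rw [h1']
        exact hdis E₂ h2'
      · rw [h2']
        exact (hdis E₁ h1').symm
      · exact hs3 E₁ h1' E₂ h2' h12
  exact key p le_rfl

end MinAux

open MinAux in
theorem stMin (h : StBern) : StMin := by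
  classical
  intro n t p K ρ δ g ht1 hp1 hρ0 hρ hδ hK hg
  by_contra hcon
  push Not at hcon
  have hmem : ∀ E, E ∈ jump t g ↔ E ∈ terms n t ∧ ∀ E', E' ⊂ E → g E' < g E := by
    intro E
    unfold jump
    rw [mem_filter]
  have hterm : ∀ E ∈ jump t g, (∀ e ∈ E, ¬ e.IsDiag) ∧ E.card ≤ t := fun E hE =>
    mem_terms.1 ((hmem E).1 hE).1
  obtain ⟨Y, E₀, s, hs1, hs2, hs0, hs3⟩ := exists_sunflower
    (Φ := jump t g) (t := t) (p := p) (K := K) ht1 (fun E hE => (hterm E hE).1)
    (fun E hE => (hterm E hE).2) hK hcon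
  have hsne : s.Nonempty := by
    rw [← card_pos, hs2]
    exact hp1
  obtain ⟨M, hM, hMmin⟩ := exists_min_image s g hsne
  have hMl := mem_link.1 (hs1 hM)
  have hsub : E₀ ⊆ M := by
    rw [← hMl.2.2]
    exact ins_subset _ _
  have hssub : E₀ ⊂ M := (Finset.ssubset_iff_subset_ne).2 ⟨hsub, (hs0 M hM).symm⟩
  have hE₀t : E₀ ∈ terms n t := by
    have h1 := hterm M hMl.1
    exact mem_terms.2 ⟨fun e he => h1.1 e (hsub he), (card_le_card hsub).trans h1.2⟩
  have h1ρ : ρ ≤ 1 := by linarith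
  have hprob : prN ρ (fun I => In E₀ (negG I) ∧
      ∀ K' ∈ terms n t, In K' (negG I) → g K' < g M) ≤ δ := by
    refine (prN_mono hρ0 h1ρ (B := fun I => ∀ E ∈ s, ¬ Disjoint (vs E \ Y) I) ?_).trans
      (((h n ρ hρ0 h1ρ).2.2 (Finset (Sym2 (Fin n))) s (fun E => vs E \ Y) (2 * t) ?_ ?_).trans ?_)
    · rintro I ⟨hI1, hI2⟩ E hE hdis
      have hEl := mem_link.1 (hs1 hE)
      refine absurd (hI2 E ((hmem E).1 hEl.1).1 fun e he => ?_) (not_lt.2 (hMmin E hE))
      by_cases hin : ∀ v ∈ e, v ∈ Y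
      · refine hI1 e ?_
        rw [← hEl.2.2]
        exact mem_ins.2 ⟨he, hin⟩
      · push Not at hin
        obtain ⟨v, hv, hvY⟩ := hin
        have hvI : v ∉ I := disjoint_left.1 hdis (mem_sdiff.2 ⟨mem_vs.2 ⟨e, he, hv⟩, hvY⟩)
        obtain ⟨y, rfl⟩ := Sym2.mem_iff_exists.1 hv
        rw [SimpleGraph.mem_edgeSet, negG_adj]
        refine ⟨fun hvy => ?_, Or.inl hvI⟩
        exact (hterm E hEl.1).1 _ he (Sym2.mk_isDiag_iff.2 hvy)
    · intro E hE
      exact (card_le_card sdiff_subset).trans ((vs_card E).trans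
        (Nat.mul_le_mul_left 2 (hterm E (mem_link.1 (hs1 hE)).1).2))
    · exact hs3
    · rw [hs2]
      refine le_trans (pow_le_pow_left₀ ?_ ?_ p) hδ
      · have : (1 - ρ) ^ (2 * t) ≤ 1 := pow_le_one₀ (by linarith) (by linarith)
        linarith
      · have : (1 / 2 : ℝ) ^ (2 * t) ≤ (1 - ρ) ^ (2 * t) :=
          pow_le_pow_left₀ (by norm_num) (by linarith) _
        linarith
  have h1 : g M ≤ g E₀ := hg E₀ hE₀t M ((hmem M).1 hMl.1).1 hprob
  have h2 : g E₀ < g M := ((hmem M).1 hMl.1).2 E₀ hssub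
  exact absurd h2 (not_lt.2 h1)

end Pool.Agent.Lib.MP_cff830_lc.MR
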