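import Pool.Agent.Lib.MP_cff830_lc.MR.Stmts59

/-!
# Monotone circuits over relaxations of vertex cover: the choice of the parameters
-/

set_option autoImplicit false

namespace Pool.Agent.Lib.MP_cff830_lc.MR

open Finset

namespace NumAux

lemma growth (A : ℝ) : ∃ Λ : ℝ, 2 ≤ Λ ∧ ∀ X : ℝ, Λ ≤ X → A * X ^ 4 ≤ (2 : ℝ) ^ (X / 32) := by
  have h2 : 0 < Real.log 2 / 32 := by
    have := Real.log_pos (by norm_num : (1 : ℝ) < 2)
    positivity
  have h := isLittleO_pow_exp_pos_mul_atTop (k := 4) h2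
  have hA : 0 < 1 / (|A| + 1) := by positivity
  have h3 := h.bound hA
  rw [Filter.eventually_atTop] at h3
  obtain ⟨a, ha⟩ := h3
  refine ⟨max a 2, le_max_right _ _, fun X hX => ?_⟩
  have h4 := ha X ((le_max_left _ _).trans hX)
  have hX2 : 2 ≤ X := (le_max_right _ _).trans hX
  rw [Real.norm_of_nonneg (by positivity), Real.norm_of_nonneg (Real.exp_pos _).le] at h4
  have h5 : (2 : ℝ) ^ (X / 32) = Real.exp (Real.log 2 / 32 * X) := by
    rw [Real.rpow_def_of_pos (by norm_num)]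
    congr 1
    ring
  rw [h5]
  have h6 : (|A| + 1) * X ^ 4 ≤ Real.exp (Real.log 2 / 32 * X) := by
    have h7 : 0 < |A| + 1 := by positivity
    calc (|A| + 1) * X ^ 4 ≤ (|A| + 1) * (1 / (|A| + 1) * Real.exp (Real.log 2 / 32 * X)) :=
          mul_le_mul_of_nonneg_left h4 h7.le
      _ = Real.exp (Real.log 2 / 32 * X) := by
          field_simp
  refine le_trans ?_ h6
  have h8 : A ≤ |A| + 1 := (le_abs_self A).trans (by linarith)
  exact mul_le_mul_of_nonneg_right h8 (by positivity)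

/-- `s` times a product, in powers of `y`. -/
lemma small_prod {s z y : ℝ} {t a : ℕ} (hs : 0 ≤ s) (hz : 0 ≤ z) (hy : 2 ≤ y)
    (hst : s ≤ (y ^ 4) ^ (t + 1)) (hzt : z * y ^ a ≤ 1) (ha : 8 ≤ a) :
    s * z ^ (t + 1) ≤ 1 / 16 := by
  have hy0 : 0 < y := by linarith
  have h1 : (z * y ^ a) ^ (t + 1) ≤ 1 := pow_le_one₀ (by positivity) hzt
  have h2 : z ^ (t + 1) * (y ^ a) ^ (t + 1) ≤ 1 := by rwa [mul_pow] at h1
  have h3 : (y ^ 8) ^ (t + 1) ≤ (y ^ a) ^ (t + 1) :=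
    pow_le_pow_left₀ (by positivity) (pow_le_pow_right₀ (by linarith) ha) _
  have h4 : z ^ (t + 1) * (y ^ 8) ^ (t + 1) ≤ 1 :=
    (mul_le_mul_of_nonneg_left h3 (by positivity)).trans h2
  have h5 : s * z ^ (t + 1) * (y ^ 4) ^ (t + 1) ≤ 1 := by
    calc s * z ^ (t + 1) * (y ^ 4) ^ (t + 1)
        ≤ (y ^ 4) ^ (t + 1) * z ^ (t + 1) * (y ^ 4) ^ (t + 1) := by
          apply mul_le_mul_of_nonneg_right _ (by positivity)
          exact mul_le_mul_of_nonneg_right hst (by positivity)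
      _ = z ^ (t + 1) * (y ^ 8) ^ (t + 1) := by
          have : (y ^ 8) ^ (t + 1) = (y ^ 4) ^ (t + 1) * (y ^ 4) ^ (t + 1) := by
            rw [← mul_pow]
            ring
          rw [this]
          ring
      _ ≤ 1 := h4
  have h6 : (16 : ℝ) ≤ (y ^ 4) ^ (t + 1) := by
    have h7 : (16 : ℝ) ≤ y ^ 4 := by
      calc (16 : ℝ) = 2 ^ 4 := by norm_num
        _ ≤ y ^ 4 := pow_le_pow_left₀ (by norm_num) hy 4
    calc (16 : ℝ) ≤ y ^ 4 := h7
      _ = (y ^ 4) ^ 1 := (pow_one _).symm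
      _ ≤ (y ^ 4) ^ (t + 1) := pow_le_pow_right₀ (by linarith) (by omega)
  have h8 : 0 ≤ s * z ^ (t + 1) := by positivity
  have h9 : s * z ^ (t + 1) * 16 ≤ 1 := (mul_le_mul_of_nonneg_left h6 h8).trans h5
  linarith

end NumAux

open NumAux

/-- (M16) -/
theorem stNum : StNum := by
  intro ε C hε hε4
  obtain ⟨A₁, hA₁⟩ : ∃ A₁ : ℝ, A₁ = 12 + (2000 / ε ^ 2) ^ 2 := ⟨_, rfl⟩
  obtain ⟨A, hA⟩ : ∃ A : ℝ, A = 16 / ε * A₁ + 64 / ε ^ 2 := ⟨_, rfl⟩
  obtain ⟨Λ, hΛ2, hΛ⟩ := growth A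
  obtain ⟨b, hb⟩ : ∃ b : ℝ, b = 1 / (32 * (C + 1)) := ⟨_, rfl⟩
  have hC0 : (0 : ℝ) ≤ C := Nat.cast_nonneg C
  have hb0 : 0 < b := by rw [hb]; positivity
  have hb32 : b ≤ 1 / 32 := by
    rw [hb]
    apply one_div_le_one_div_of_le (by norm_num)
    linarith
  have hbC : 32 * (C * b) ≤ 1 := by
    rw [hb]
    have h1 : (0 : ℝ) < 32 * (C + 1) := by positivity
    rw [mul_one_div, ← mul_div_assoc, div_le_one h1]
    linarith
  obtain ⟨c, hc⟩ : ∃ c : ℝ, c = min (b / 8) (4 / Λ) := ⟨_, rfl⟩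
  have hΛ0 : 0 < Λ := by linarith
  have hc0 : 0 < c := by
    rw [hc]
    exact lt_min (by positivity) (by positivity)
  have hcb : c ≤ b / 8 := hc ▸ min_le_left _ _
  have hcΛ : c ≤ 4 / Λ := hc ▸ min_le_right _ _
  refine ⟨c, hc0, fun k n hk hn => ?_⟩
  have hkr : (2 : ℝ) ≤ k := by exact_mod_cast hk
  have hk4 : (4 : ℝ) ≤ (k : ℝ) ^ 2 := by nlinarith
  have hk0 : (0 : ℝ) < (k : ℝ) ^ 2 := by linarith
  have hn0 : (0 : ℝ) < n := lt_of_lt_of_le (Real.rpow_pos_of_pos (by norm_num) _) hn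
  obtain ⟨X, hX⟩ : ∃ X : ℝ, X = Real.logb 2 n := ⟨_, rfl⟩
  have hnX : (n : ℝ) = 2 ^ X := by
    rw [hX, Real.rpow_logb (by norm_num) (by norm_num) hn0]
  have hkX : (k : ℝ) ^ 2 / c ≤ X := by
    rw [hX]
    exact (Real.le_logb_iff_rpow_le (by norm_num) hn0).2 hn
  have hkcX : (k : ℝ) ^ 2 ≤ c * X := by
    rw [div_le_iff₀ hc0] at hkX
    linarith
  have hXΛ : Λ ≤ X := by
    have h1 : 4 ≤ c * X := hk4.trans hkcX
    have h2 : 4 * Λ ≤ 4 * X := by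
      have h3 : c * Λ ≤ 4 := by rwa [le_div_iff₀ hΛ0] at hcΛ
      have hX0 : 0 ≤ X := by
        by_contra h
        push Not at h
        have := mul_neg_of_pos_of_neg hc0 h
        linarith
      calc 4 * Λ ≤ (c * X) * Λ := mul_le_mul_of_nonneg_right h1 hΛ0.le
        _ = (c * Λ) * X := by ring
        _ ≤ 4 * X := mul_le_mul_of_nonneg_right h3 hX0
    linarith
  have hX2 : 2 ≤ X := hΛ2.trans hXΛ
  have hX0 : 0 < X := by linarith
  have hX1 : 1 ≤ X := by linarith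
  obtain ⟨y, hy⟩ : ∃ y : ℝ, y = (2 : ℝ) ^ (X / 32) := ⟨_, rfl⟩
  have hy0 : 0 < y := by rw [hy]; exact Real.rpow_pos_of_pos (by norm_num) _
  have hyn : (n : ℝ) = y ^ 32 := by
    rw [hy, ← Real.rpow_natCast, ← Real.rpow_mul (by norm_num), hnX]
    congr 1
    push_cast
    ring
  have hAy : A * X ^ 4 ≤ y := hy ▸ hΛ X hXΛ
  -- sizes of the constants
  have he1 : 16 ≤ 1 / ε ^ 2 := by
    rw [le_div_iff₀ (by positivity)]
    nlinarith
  have hA₁12 : 12 ≤ A₁ := by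
    have h1 := sq_nonneg (2000 / ε ^ 2)
    linarith only [h1, hA₁]
  have he2 : 64 ≤ 16 / ε := by
    rw [le_div_iff₀ hε]
    linarith
  have h640 : (0 : ℝ) ≤ 64 / ε ^ 2 := by positivity
  have hA16 : 16 / ε * A₁ ≤ A := by linarith only [h640, hA]
  have hA15 : 15 ≤ A := by
    have h2 : (64 : ℝ) * 12 ≤ 16 / ε * A₁ := mul_le_mul he2 hA₁12 (by norm_num) (by positivity)
    linarith only [h2, hA16]
  have hA1A : A₁ ≤ A := by
    have h2 : 1 * A₁ ≤ 16 / ε * A₁ :=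
      mul_le_mul_of_nonneg_right (by linarith only [he2]) (by linarith only [hA₁12])
    linarith only [h2, hA16]
  have hA64 : 64 / ε ^ 2 ≤ A := by
    have h1 : 0 ≤ 16 / ε * A₁ := mul_nonneg (by positivity) (by linarith only [hA₁12])
    linarith only [h1, hA]
  have hX4 : 1 ≤ X ^ 4 := one_le_pow₀ hX1
  have hy2 : 2 ≤ y := by
    have : 15 * 1 ≤ A * X ^ 4 := mul_le_mul hA15 hX4 (by norm_num) (by linarith)
    linarith
  -- the parameter `t`
  obtain ⟨t, ht⟩ : ∃ t : ℕ, t = ⌊b * X / (k : ℝ) ^ 2⌋₊ := ⟨_, rfl⟩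
  have hz0 : 0 ≤ b * X / (k : ℝ) ^ 2 := by positivity
  have hz8 : 8 ≤ b * X / (k : ℝ) ^ 2 := by
    rw [le_div_iff₀ hk0]
    have h1 : 8 * c ≤ b := by linarith
    calc 8 * (k : ℝ) ^ 2 ≤ 8 * (c * X) := by linarith
      _ = (8 * c) * X := by ring
      _ ≤ b * X := mul_le_mul_of_nonneg_right h1 hX0.le
  have ht8 : 8 ≤ t := by
    rw [ht]
    exact Nat.le_floor (by exact_mod_cast hz8)
  have ht1 : 1 ≤ t := by omega
  have ht1r : (1 : ℝ) ≤ t := by exact_mod_cast ht1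
  have htle : (t : ℝ) ≤ b * X / (k : ℝ) ^ 2 := ht ▸ Nat.floor_le hz0
  have htlt : b * X / (k : ℝ) ^ 2 < t + 1 := ht ▸ Nat.lt_floor_add_one _
  have htk : (t : ℝ) * (k : ℝ) ^ 2 ≤ b * X := by rwa [le_div_iff₀ hk0] at htle
  have ht4 : 4 * (t : ℝ) ≤ b * X := by
    have : (t : ℝ) * 4 ≤ t * (k : ℝ) ^ 2 := mul_le_mul_of_nonneg_left hk4 (by positivity)
    linarith
  have ht128 : 128 * (t : ℝ) ≤ X := by
    have h1 : b * X ≤ 1 / 32 * X := mul_le_mul_of_nonneg_right hb32 hX0.le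
    linarith
  have htX : (t : ℝ) ≤ X := by linarith
  -- `κ`
  have hCk : (C : ℝ) * (k : ℝ) ^ 2 ≤ X / 8 := by
    have h1 : (C : ℝ) * (k : ℝ) ^ 2 ≤ C * (c * X) := mul_le_mul_of_nonneg_left hkcX hC0
    have h2 : (C : ℝ) * c ≤ C * b := mul_le_mul_of_nonneg_left (by linarith) hC0
    have h3 : (C : ℝ) * (c * X) ≤ (C * b) * X := by
      calc (C : ℝ) * (c * X) = (C * c) * X := by ring
        _ ≤ (C * b) * X := mul_le_mul_of_nonneg_right h2 hX0.le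
    have h4 : (C * b) * X ≤ 1 / 32 * X := mul_le_mul_of_nonneg_right (by linarith) hX0.le
    linarith
  obtain ⟨κ, hκ⟩ : ∃ κ : ℝ, κ = (2 : ℝ) ^ (C * k ^ 2) / n := ⟨_, rfl⟩
  have hκ0 : 0 < κ := by rw [hκ]; positivity
  have h2Ck : (2 : ℝ) ^ (C * k ^ 2) ≤ y ^ 4 := by
    rw [hy, ← Real.rpow_natCast, ← Real.rpow_natCast, ← Real.rpow_mul (by norm_num)]
    apply Real.rpow_le_rpow_of_exponent_le (by norm_num)
    push_cast
    linarith
  have hκy : κ * y ^ 28 ≤ 1 := by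
    rw [hκ, div_mul_eq_mul_div, div_le_one hn0, hyn]
    calc (2 : ℝ) ^ (C * k ^ 2) * y ^ 28 ≤ y ^ 4 * y ^ 28 :=
          mul_le_mul_of_nonneg_right h2Ck (by positivity)
      _ = y ^ 32 := by ring
  have hκ1 : κ ≤ 1 := by
    have h1 : (1 : ℝ) ≤ y ^ 28 := one_le_pow₀ (by linarith only [hy2])
    have h2 : κ * 1 ≤ κ * y ^ 28 := mul_le_mul_of_nonneg_left h1 hκ0.le
    linarith only [h2, hκy]
  have hpow : (2 ^ (C * k ^ 2)) ^ (t + 1) ≤ n := by
    have h1 : ((2 : ℝ) ^ (C * k ^ 2)) ^ (t + 1) ≤ n := by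
      rw [← pow_mul, ← Real.rpow_natCast, hnX]
      apply Real.rpow_le_rpow_of_exponent_le (by norm_num)
      push_cast
      have h2 : (t : ℝ) + 1 ≤ 2 * t := by linarith
      calc (C : ℝ) * (k : ℝ) ^ 2 * (t + 1) ≤ C * (k : ℝ) ^ 2 * (2 * t) :=
            mul_le_mul_of_nonneg_left h2 (by positivity)
        _ = 2 * C * (t * (k : ℝ) ^ 2) := by ring
        _ ≤ 2 * C * (b * X) := mul_le_mul_of_nonneg_left htk (by positivity)
        _ = 2 * (C * b) * X := by ring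
        _ ≤ 1 * X := mul_le_mul_of_nonneg_right (by linarith) hX0.le
        _ = X := one_mul X
    exact_mod_cast h1
  -- logarithms
  have hl2 : Real.log 2 ≤ 1 := by
    have := Real.log_two_lt_d9
    linarith
  have hl2' : 1 / 2 ≤ Real.log 2 := by
    have := Real.log_two_gt_d9
    linarith
  obtain ⟨ℓ, hℓ⟩ : ∃ ℓ : ℝ, ℓ = Real.log n := ⟨_, rfl⟩
  have hℓX : ℓ = X * Real.log 2 := by
    rw [hℓ, hnX, Real.log_rpow (by norm_num)]
  have hℓle : ℓ ≤ X := by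
    rw [hℓX]
    calc X * Real.log 2 ≤ X * 1 := mul_le_mul_of_nonneg_left hl2 hX0.le
      _ = X := mul_one X
  have hℓ1 : 1 ≤ ℓ := by
    rw [hℓX]
    calc (1 : ℝ) = 2 * (1 / 2) := by norm_num
      _ ≤ X * Real.log 2 := mul_le_mul hX2 hl2' (by norm_num) hX0.le
  have hℓ0 : 0 < ℓ := by linarith
  -- `η`
  obtain ⟨η, hη⟩ : ∃ η : ℝ, η = ε ^ 2 / (2000 * t * ℓ) := ⟨_, rfl⟩
  have htℓ : 0 < 2000 * t * ℓ := by positivity
  have hη0 : 0 < η := by rw [hη]; positivity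
  have hηinv : η⁻¹ = 2000 * t * ℓ / ε ^ 2 := by rw [hη, inv_div]
  have hηr : ((2 * t + 2 : ℕ) : ℝ) * η ≤ ε / 16 := by
    push_cast
    have h1 : (2 * (t : ℝ) + 2) * η ≤ 4 * t * η :=
      mul_le_mul_of_nonneg_right (by linarith) hη0.le
    have h2 : 4 * (t : ℝ) * η = ε ^ 2 / (500 * ℓ) := by
      rw [hη]
      field_simp
      ring
    have h3 : ε ^ 2 / (500 * ℓ) ≤ ε ^ 2 / 500 := by
      apply div_le_div_of_nonneg_left (by positivity) (by norm_num)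
      linarith
    have h4 : ε ^ 2 / 500 ≤ ε / 16 := by
      have h5 : ε * ε ≤ ε * (1 / 4) := mul_le_mul_of_nonneg_left hε4 hε.le
      rw [sq]
      linarith only [h5, hε]
    linarith only [h1, h2, h3, h4]
  have hηe : η ≤ ε / 16 := by
    have h1 : (1 : ℝ) ≤ ((2 * t + 2 : ℕ) : ℝ) := by
      have : 1 ≤ 2 * t + 2 := by omega
      exact_mod_cast this
    have h2 : 1 * η ≤ ((2 * t + 2 : ℕ) : ℝ) * η := mul_le_mul_of_nonneg_right h1 hη0.le
    linarith only [h2, hηr]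
  have hη1 : η < 1 := by linarith
  have hηi1 : 1 < η⁻¹ := (one_lt_inv₀ hη0).2 hη1
  have hηiX : η⁻¹ ≤ 2000 / ε ^ 2 * X ^ 2 := by
    rw [hηinv]
    have h1 : (t : ℝ) * ℓ ≤ X * X := mul_le_mul htX hℓle hℓ0.le hX0.le
    calc 2000 * t * ℓ / ε ^ 2 = 2000 / ε ^ 2 * (t * ℓ) := by ring
      _ ≤ 2000 / ε ^ 2 * (X * X) := mul_le_mul_of_nonneg_left h1 (by positivity)
      _ = 2000 / ε ^ 2 * X ^ 2 := by ring
  have hlog0 : 0 < Real.log η⁻¹ := Real.log_pos hηi1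
  have hlogle : Real.log η⁻¹ ≤ η⁻¹ :=
    (Real.log_le_sub_one_of_pos (by positivity)).trans (by linarith)
  -- `M` and `L`
  obtain ⟨d, hd⟩ : ∃ d : ℕ, d = ⌈η⁻¹ * Real.log η⁻¹⌉₊ := ⟨_, rfl⟩
  have hdge : η⁻¹ * Real.log η⁻¹ ≤ d := hd ▸ Nat.le_ceil _
  have hdlt : (d : ℝ) < η⁻¹ * Real.log η⁻¹ + 1 := hd ▸ Nat.ceil_lt_add_one (by positivity)
  have hd0 : 0 < d := by
    rw [hd]
    exact Nat.ceil_pos.2 (by positivity)
  have hdX : (d : ℝ) ≤ (2000 / ε ^ 2) ^ 2 * X ^ 4 + 1 := by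
    have h1 : η⁻¹ * Real.log η⁻¹ ≤ η⁻¹ * η⁻¹ := mul_le_mul_of_nonneg_left hlogle (by positivity)
    have h2 : η⁻¹ * η⁻¹ ≤ (2000 / ε ^ 2 * X ^ 2) * (2000 / ε ^ 2 * X ^ 2) :=
      mul_le_mul hηiX hηiX (by positivity) (by positivity)
    have h3 : (2000 / ε ^ 2 * X ^ 2) * (2000 / ε ^ 2 * X ^ 2) = (2000 / ε ^ 2) ^ 2 * X ^ 4 := by
      ring
    linarith
  obtain ⟨q, hq⟩ : ∃ q : ℕ, q = ⌈8 * t * X⌉₊ := ⟨_, rfl⟩
  have hqge : 8 * t * X ≤ q := hq ▸ Nat.le_ceil _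
  have hqlt : (q : ℝ) < 8 * t * X + 1 := hq ▸ Nat.ceil_lt_add_one (by positivity)
  have hq0 : 1 ≤ q := by
    rw [hq]
    exact Nat.one_le_ceil_iff.2 (by positivity)
  have hqX : (q : ℝ) ≤ 8 * X ^ 2 + 1 := by
    have h1 : (t : ℝ) * X ≤ X * X := mul_le_mul_of_nonneg_right htX hX0.le
    have h2 : X ^ 2 = X * X := sq X
    linarith only [h1, h2, hqlt]
  have hLX : ((q + 2 * t + d : ℕ) : ℝ) ≤ A₁ * X ^ 4 := by
    push_cast
    have h1 : X ^ 2 ≤ X ^ 4 := pow_le_pow_right₀ hX1 (by norm_num)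
    have h2 : X ≤ X ^ 4 := by
      calc X = X ^ 1 := (pow_one X).symm
        _ ≤ X ^ 4 := pow_le_pow_right₀ hX1 (by norm_num)
    have h3 : A₁ * X ^ 4 = 12 * X ^ 4 + (2000 / ε ^ 2) ^ 2 * X ^ 4 := by rw [hA₁]; ring
    linarith
  obtain ⟨L, hL⟩ : ∃ L : ℕ, L = q + 2 * t + d := ⟨_, rfl⟩
  have hLX' : (L : ℝ) ≤ A₁ * X ^ 4 := hL ▸ hLX
  have hLy : (L : ℝ) ≤ y :=
    hLX'.trans ((mul_le_mul_of_nonneg_right hA1A (by positivity)).trans hAy)
  have hLy' : 16 * (L : ℝ) / ε ≤ y := by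
    calc 16 * (L : ℝ) / ε = 16 / ε * L := by ring
      _ ≤ 16 / ε * (A₁ * X ^ 4) := mul_le_mul_of_nonneg_left hLX' (by positivity)
      _ = 16 / ε * A₁ * X ^ 4 := by ring
      _ ≤ A * X ^ 4 := mul_le_mul_of_nonneg_right hA16 (by positivity)
      _ ≤ y := hAy
  have hyn' : y ≤ n := by
    rw [hyn]
    calc y = y ^ 1 := (pow_one y).symm
      _ ≤ y ^ 32 := pow_le_pow_right₀ (by linarith only [hy2]) (by norm_num)
  have hL0 : (0 : ℝ) ≤ L := Nat.cast_nonneg L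
  -- `p` and `K`
  obtain ⟨p, hp⟩ : ∃ p : ℕ, p = ⌈(4 : ℝ) ^ t * (6 * t * ℓ)⌉₊ := ⟨_, rfl⟩
  have hpge : (4 : ℝ) ^ t * (6 * t * ℓ) ≤ p := hp ▸ Nat.le_ceil _
  have hplt : (p : ℝ) < (4 : ℝ) ^ t * (6 * t * ℓ) + 1 := hp ▸ Nat.ceil_lt_add_one (by positivity)
  have h4t : (1 : ℝ) ≤ 4 ^ t := one_le_pow₀ (by norm_num)
  have hpX : (p : ℝ) ≤ 4 ^ t * (7 * X ^ 2) := by
    have h1 : (t : ℝ) * ℓ ≤ X ^ 2 := by
      rw [sq]
      exact mul_le_mul htX hℓle hℓ0.le hX0.le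
    have h2 : (4 : ℝ) ^ t * (6 * t * ℓ) ≤ 4 ^ t * (6 * X ^ 2) :=
      mul_le_mul_of_nonneg_left (by linarith only [h1]) (by positivity)
    have h3 : (1 : ℝ) ≤ 4 ^ t * X ^ 2 := by
      calc (1 : ℝ) = 1 * 1 := by norm_num
        _ ≤ 4 ^ t * X ^ 2 := mul_le_mul h4t (one_le_pow₀ hX1) (by norm_num) (by positivity)
    linarith only [h2, h3, hplt]
  obtain ⟨K, hK⟩ : ∃ K : ℕ, K = p * (2 * t) * 2 ^ (2 * t) + 1 := ⟨_, rfl⟩
  have h24 : (2 : ℝ) ^ (2 * t) = 4 ^ t := by rw [pow_mul]; norm_num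
  have h16y : (4 : ℝ) ^ t * 4 ^ t ≤ y := by
    have h1 : (4 : ℝ) ^ t * 4 ^ t = 2 ^ (4 * t) := by
      rw [← mul_pow, pow_mul]
      norm_num
    rw [h1, hy, ← Real.rpow_natCast]
    apply Real.rpow_le_rpow_of_exponent_le (by norm_num)
    push_cast
    linarith
  have hKX : (K : ℝ) ≤ y ^ 2 := by
    have h1 : (K : ℝ) = p * (2 * t) * 4 ^ t + 1 := by
      rw [hK]
      push_cast
      rw [h24]
    have h2 : (p : ℝ) * (2 * t) * 4 ^ t ≤ 4 ^ t * (7 * X ^ 2) * (2 * X) * 4 ^ t := by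
      apply mul_le_mul_of_nonneg_right _ (by positivity)
      exact mul_le_mul hpX (by linarith) (by positivity) (by positivity)
    have h3 : (4 : ℝ) ^ t * (7 * X ^ 2) * (2 * X) * 4 ^ t = (4 ^ t * 4 ^ t) * (14 * X ^ 3) := by
      ring
    have h4 : ((4 : ℝ) ^ t * 4 ^ t) * (14 * X ^ 3) ≤ y * (14 * X ^ 3) :=
      mul_le_mul_of_nonneg_right h16y (by positivity)
    have h5 : (1 : ℝ) ≤ y * X ^ 3 := by
      calc (1 : ℝ) = 1 * 1 := by norm_num
        _ ≤ y * X ^ 3 := mul_le_mul (by linarith) (one_le_pow₀ hX1) (by norm_num) (by linarith)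
    have h6 : 15 * X ^ 3 ≤ y := by
      have h7 : X ^ 3 ≤ X ^ 4 := pow_le_pow_right₀ hX1 (by norm_num)
      calc 15 * X ^ 3 ≤ 15 * X ^ 4 := by linarith
        _ ≤ A * X ^ 4 := mul_le_mul_of_nonneg_right hA15 (by positivity)
        _ ≤ y := hAy
    have h8 : y * (15 * X ^ 3) ≤ y * y := mul_le_mul_of_nonneg_left h6 hy0.le
    have h9 : y ^ 2 = y * y := sq y
    linarith
  have hK0 : (0 : ℝ) ≤ K := Nat.cast_nonneg K
  -- `δ`
  obtain ⟨δ, hδ⟩ : ∃ δ : ℝ, δ = ((n : ℝ) ^ (6 * t))⁻¹ := ⟨_, rfl⟩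
  have hδe : δ = Real.exp (-(6 * t * ℓ)) := by
    have h1 : 6 * (t : ℝ) * ℓ = ((6 * t : ℕ) : ℝ) * Real.log n := by
      rw [hℓ]
      push_cast
      ring
    rw [hδ, Real.exp_neg, h1, Real.exp_nat_mul, Real.exp_log hn0]
  have hδ2 : δ = (1 / 2 : ℝ) ^ (6 * t * X) := by
    rw [hδe, hℓX, Real.rpow_def_of_pos (by norm_num)]
    congr 1
    rw [one_div, Real.log_inv]
    ring
  refine ⟨t, q + 2 * t, L, 2 * t + 2, p, K, η, κ, δ, hκ, hδ, ht1, hpow, hκ1, hη0, hηe, hηr,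
    by omega, by omega, ?_, ?_, ?_, ?_, ?_, ?_, ?_, fun s hs => ?_⟩
  · exact_mod_cast hLy.trans hyn'
  · -- exp(-η (L - M)) ≤ η
    have h1 : ((L : ℝ) - ((q + 2 * t : ℕ) : ℝ)) = d := by
      rw [hL]
      push_cast
      ring
    rw [h1]
    have h2 : Real.log η⁻¹ ≤ η * d := by
      calc Real.log η⁻¹ = η * (η⁻¹ * Real.log η⁻¹) := by
            rw [← mul_assoc, mul_inv_cancel₀ hη0.ne', one_mul]
        _ ≤ η * d := mul_le_mul_of_nonneg_left hdge hη0.le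
    calc Real.exp (-(η * d)) ≤ Real.exp (-(Real.log η⁻¹)) := Real.exp_le_exp.2 (by linarith)
      _ = η := by rw [Real.log_inv, neg_neg, Real.exp_log hη0]
  · -- exp(-(ε/8)²/(4η)) ≤ δ
    rw [hδe]
    apply Real.exp_le_exp.2
    have h1 : (ε / 8) ^ 2 / (4 * η) = 2000 / 256 * (t * ℓ) := by
      rw [hη]
      field_simp
      ring
    rw [h1]
    have h2 : 0 ≤ (t : ℝ) * ℓ := by positivity
    linarith
  · -- (1/2)^(M+1-2t) ≤ δ
    rw [hδ2, ← Real.rpow_natCast]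
    apply Real.rpow_le_rpow_of_exponent_ge (by norm_num) (by norm_num)
    have h1 : q + 2 * t + 1 - 2 * t = q + 1 := by omega
    rw [h1]
    push_cast
    have h2 : 0 ≤ (t : ℝ) * X := by positivity
    linarith
  · -- 1 ≤ p
    rw [hp]
    exact Nat.one_le_ceil_iff.2 (by positivity)
  · -- (1 - (1/2)^(2t))^p ≤ δ
    have h1 : (1 / 2 : ℝ) ^ (2 * t) = (4 ^ t)⁻¹ := by
      rw [one_div, inv_pow, h24]
    rw [h1, hδe]
    have h2 : 1 - ((4 : ℝ) ^ t)⁻¹ ≤ Real.exp (-(4 ^ t)⁻¹) := by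
      have := Real.add_one_le_exp (-((4 : ℝ) ^ t)⁻¹)
      linarith
    have h3 : 0 ≤ 1 - ((4 : ℝ) ^ t)⁻¹ := by
      have : ((4 : ℝ) ^ t)⁻¹ ≤ 1 := inv_le_one_of_one_le₀ h4t
      linarith
    calc (1 - ((4 : ℝ) ^ t)⁻¹) ^ p ≤ Real.exp (-(4 ^ t)⁻¹) ^ p := pow_le_pow_left₀ h3 h2 p
      _ = Real.exp (p * -(4 ^ t)⁻¹) := (Real.exp_nat_mul _ _).symm
      _ ≤ Real.exp (-(6 * t * ℓ)) := by
          apply Real.exp_le_exp.2
          have h4 : 6 * t * ℓ ≤ p * ((4 : ℝ) ^ t)⁻¹ := by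
            rw [← div_eq_mul_inv, le_div_iff₀ (by positivity)]
            linarith
          linarith
  · rw [hK]
    omega
  · -- the last two inequalities
    have hs0 : (0 : ℝ) ≤ s := Nat.cast_nonneg s
    have hst : (s : ℝ) ≤ (y ^ 4) ^ (t + 1) := by
      refine hs.le.trans ?_
      have e1 : ((2 : ℝ) ^ X) ^ (c * X / (k : ℝ) ^ 2) = 2 ^ (X * (c * X / (k : ℝ) ^ 2)) :=
        (Real.rpow_mul (by norm_num) _ _).symm
      have e2 : (((2 : ℝ) ^ (X / 32)) ^ 4) ^ (t + 1) =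
          2 ^ (X / 32 * ((4 * (t + 1) : ℕ) : ℝ)) := by
        rw [Real.rpow_mul (by norm_num), Real.rpow_natCast, pow_mul]
      rw [← hX, hnX, hy, e1, e2]
      apply Real.rpow_le_rpow_of_exponent_le (by norm_num)
      push_cast
      have h1 : c * X / (k : ℝ) ^ 2 ≤ ((t : ℝ) + 1) / 8 := by
        have h2 : c * X / (k : ℝ) ^ 2 ≤ (b / 8 * X) / (k : ℝ) ^ 2 := by
          apply div_le_div_of_nonneg_right _ hk0.le
          exact mul_le_mul_of_nonneg_right hcb hX0.le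
        have h3 : (b / 8 * X) / (k : ℝ) ^ 2 = (b * X / (k : ℝ) ^ 2) / 8 := by ring
        linarith
      calc X * (c * X / (k : ℝ) ^ 2) ≤ X * (((t : ℝ) + 1) / 8) :=
            mul_le_mul_of_nonneg_left h1 hX0.le
        _ = X / 32 * (4 * ((t : ℝ) + 1)) := by ring
    constructor
    · have h1 : (s : ℝ) * ((L : ℝ) ^ 2 * κ) ^ (t + 1) ≤ 1 / 16 := by
        refine small_prod (a := 26) hs0 (by positivity) hy2 hst ?_ (by norm_num)
        have h2 : (L : ℝ) ^ 2 ≤ y ^ 2 := pow_le_pow_left₀ hL0 hLy 2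
        calc (L : ℝ) ^ 2 * κ * y ^ 26 ≤ y ^ 2 * κ * y ^ 26 := by
              apply mul_le_mul_of_nonneg_right _ (by positivity)
              exact mul_le_mul_of_nonneg_right h2 hκ0.le
          _ = κ * y ^ 28 := by ring
          _ ≤ 1 := hκy
      have h3 : (s : ℝ) * (16 * L * κ / ε) ^ (2 * t + 2) ≤ 1 / 16 := by
        have h4 : 2 * t + 2 = 2 * (t + 1) := by ring
        rw [h4, pow_mul]
        refine small_prod (a := 54) hs0 (by positivity) hy2 hst ?_ (by norm_num)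
        have h5 : 16 * (L : ℝ) * κ / ε ≤ y * κ := by
          calc 16 * (L : ℝ) * κ / ε = 16 * (L : ℝ) / ε * κ := by ring
            _ ≤ y * κ := mul_le_mul_of_nonneg_right hLy' hκ0.le
        calc (16 * (L : ℝ) * κ / ε) ^ 2 * y ^ 54 ≤ (y * κ) ^ 2 * y ^ 54 := by
              apply mul_le_mul_of_nonneg_right _ (by positivity)
              exact pow_le_pow_left₀ (by positivity) h5 2
          _ = (κ * y ^ 28) ^ 2 := by ring
          _ ≤ 1 := pow_le_one₀ (by positivity) hκy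
      have h6 : (s : ℝ) * (((K : ℝ) ^ (2 * t)) ^ 2 * κ ^ (t + 1)) ≤ 1 / 16 := by
        have h7 : ((K : ℝ) ^ (2 * t)) ^ 2 ≤ (y ^ 8) ^ (t + 1) := by
          calc ((K : ℝ) ^ (2 * t)) ^ 2 = (K : ℝ) ^ (4 * t) := by
                rw [← pow_mul]
                congr 1
                ring
            _ ≤ (y ^ 2) ^ (4 * t) := pow_le_pow_left₀ hK0 hKX _
            _ = (y ^ 8) ^ t := by
                rw [← pow_mul, ← pow_mul]
                congr 1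
                ring
            _ ≤ (y ^ 8) ^ (t + 1) := pow_le_pow_right₀ (one_le_pow₀ (by linarith only [hy2])) (by omega)
        have h8 : (s : ℝ) * (y ^ 8 * κ) ^ (t + 1) ≤ 1 / 16 := by
          refine small_prod (a := 20) hs0 (by positivity) hy2 hst ?_ (by norm_num)
          calc y ^ 8 * κ * y ^ 20 = κ * y ^ 28 := by ring
            _ ≤ 1 := hκy
        refine le_trans ?_ h8
        rw [mul_pow]
        apply mul_le_mul_of_nonneg_left _ hs0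
        exact mul_le_mul_of_nonneg_right h7 (by positivity)
      have h9 : (s : ℝ) * (2 * (((L : ℝ) ^ 2 * κ) ^ (t + 1) + (16 * L * κ / ε) ^ (2 * t + 2)) +
          ((K : ℝ) ^ (2 * t)) ^ 2 * κ ^ (t + 1)) = 2 * ((s : ℝ) * ((L : ℝ) ^ 2 * κ) ^ (t + 1)) +
          2 * ((s : ℝ) * (16 * L * κ / ε) ^ (2 * t + 2)) +
          (s : ℝ) * (((K : ℝ) ^ (2 * t)) ^ 2 * κ ^ (t + 1)) := by ring
      rw [h9]
      linarith only [h1, h3, h6]
    · -- second inequality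
      have hn1 : (1 : ℝ) ≤ n := by linarith only [hy2, hyn']
      have hy32 : (64 : ℝ) ≤ n := by
        rw [hyn]
        calc (64 : ℝ) = 2 ^ 6 := by norm_num
          _ ≤ y ^ 6 := pow_le_pow_left₀ (by norm_num) hy2 6
          _ ≤ y ^ 32 := pow_le_pow_right₀ (by linarith only [hy2]) (by norm_num)
      have h1 : (s : ℝ) ≤ (n : ℝ) ^ t := by
        refine hst.trans ?_
        rw [hyn, ← pow_mul, ← pow_mul]
        exact pow_le_pow_right₀ (by linarith only [hy2]) (by omega)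
      have h6 : (s : ℝ) * (3 * (((n : ℝ) ^ (2 * t)) ^ 2 * (δ + δ))) ≤ 6 * ((n : ℝ) ^ t)⁻¹ := by
        have h4 : ((n : ℝ) ^ (2 * t)) ^ 2 * (δ + δ) = 2 * ((n : ℝ) ^ t * (n : ℝ) ^ t)⁻¹ := by
          rw [hδ]
          have h5 : (n : ℝ) ^ (6 * t) = ((n : ℝ) ^ (2 * t)) ^ 2 * ((n : ℝ) ^ t * (n : ℝ) ^ t) := by
            rw [← pow_mul, ← pow_add, ← pow_add]
            congr 1
            ring
          rw [h5]
          field_simp
          norm_num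
        rw [h4]
        calc (s : ℝ) * (3 * (2 * ((n : ℝ) ^ t * (n : ℝ) ^ t)⁻¹))
            ≤ (n : ℝ) ^ t * (3 * (2 * ((n : ℝ) ^ t * (n : ℝ) ^ t)⁻¹)) :=
              mul_le_mul_of_nonneg_right h1 (by positivity)
          _ = 6 * ((n : ℝ) ^ t)⁻¹ := by
              field_simp
              norm_num
      have h8 : 6 * ((n : ℝ) ^ t)⁻¹ < 1 / 2 * (1 / 2 : ℝ) ^ (2 * t) := by
        have h10 : (1 / 2 : ℝ) ^ (2 * t) = ((4 : ℝ) ^ t)⁻¹ := by
          rw [one_div, inv_pow, h24]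
        rw [h10]
        have h11 : (16 : ℝ) * 4 ^ t ≤ (n : ℝ) ^ t := by
          have h12 : (64 : ℝ) ^ t ≤ (n : ℝ) ^ t := pow_le_pow_left₀ (by norm_num) hy32 t
          have h13 : (64 : ℝ) ^ t = 16 ^ t * 4 ^ t := by
            rw [← mul_pow]
            norm_num
          have h14 : (16 : ℝ) ≤ 16 ^ t := by
            calc (16 : ℝ) = 16 ^ 1 := (pow_one _).symm
              _ ≤ 16 ^ t := pow_le_pow_right₀ (by norm_num) ht1
          have h15 : (16 : ℝ) * 4 ^ t ≤ 16 ^ t * 4 ^ t :=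
            mul_le_mul_of_nonneg_right h14 (by positivity)
          linarith only [h12, h13, h15]
        have h16 : ((n : ℝ) ^ t)⁻¹ ≤ ((16 : ℝ) * 4 ^ t)⁻¹ :=
          inv_anti₀ (by positivity) h11
        have h17 : ((16 : ℝ) * 4 ^ t)⁻¹ = 1 / 16 * (4 ^ t)⁻¹ := by
          rw [mul_inv]
          norm_num
        have h18 : (0 : ℝ) < (4 ^ t)⁻¹ := by positivity
        linarith only [h16, h17, h18]
      have h19 : Real.exp (-((ε / 2) ^ 2 * n / 4)) ≤ 1 / 2 * (1 / 2 : ℝ) ^ (2 * t) := by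
        have h20 : 64 / ε ^ 2 * X ≤ n := by
          have h21 : X ≤ X ^ 4 := by
            calc X = X ^ 1 := (pow_one X).symm
              _ ≤ X ^ 4 := pow_le_pow_right₀ hX1 (by norm_num)
          calc 64 / ε ^ 2 * X ≤ 64 / ε ^ 2 * X ^ 4 :=
                mul_le_mul_of_nonneg_left h21 (by positivity)
            _ ≤ A * X ^ 4 := mul_le_mul_of_nonneg_right hA64 (by positivity)
            _ ≤ y := hAy
            _ ≤ n := hyn'
        have h22 : 4 * X ≤ (ε / 2) ^ 2 * n / 4 := by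
          have h23 : (ε / 2) ^ 2 * (64 / ε ^ 2 * X) / 4 = 4 * X := by
            field_simp
            norm_num
          have h24' : (ε / 2) ^ 2 * (64 / ε ^ 2 * X) ≤ (ε / 2) ^ 2 * n :=
            mul_le_mul_of_nonneg_left h20 (by positivity)
          linarith
        have h25 : (1 / 2 : ℝ) * (1 / 2 : ℝ) ^ (2 * t) = Real.exp (-((2 * t + 1) * Real.log 2)) := by
          have h26 : (1 / 2 : ℝ) * (1 / 2 : ℝ) ^ (2 * t) = (2 ^ (2 * t + 1))⁻¹ := by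
            rw [← pow_succ', one_div, inv_pow]
          have h29 : (2 * (t : ℝ) + 1) * Real.log 2 = ((2 * t + 1 : ℕ) : ℝ) * Real.log 2 := by
            push_cast
            ring
          rw [h26, Real.exp_neg, h29, Real.exp_nat_mul, Real.exp_log (by norm_num)]
        rw [h25]
        apply Real.exp_le_exp.2
        have h27 : (2 * (t : ℝ) + 1) * Real.log 2 ≤ (2 * t + 1) * 1 :=
          mul_le_mul_of_nonneg_left hl2 (by positivity)
        linarith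
      have h28 : (1 / 2 : ℝ) ^ (2 * t) =
          1 / 2 * (1 / 2 : ℝ) ^ (2 * t) + 1 / 2 * (1 / 2 : ℝ) ^ (2 * t) := by ring
      rw [h28]
      linarith only [h6, h8, h19]

end Pool.Agent.Lib.MP_cff830_lc.MR
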