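import Pool.Agent.Lib.MP_cff830_lc.MR.StmtsX59

/-!
# Monotone circuits over relaxations of vertex cover, exponential size: the choice of the parameters,
with an absolute exponent
-/

set_option autoImplicit false

namespace Pool.Agent.Lib.MP_cff830_lc.MR

open Finset

namespace NumYAux

lemma growth (A : ℝ) :
    ∃ Λ : ℝ, 2 ≤ Λ ∧ ∀ X : ℝ, Λ ≤ X → A * X ^ 4 ≤ (2 : ℝ) ^ (X / 29) := by
  have h2 : 0 < Real.log 2 / 29 := by
    have := Real.log_pos (by norm_num : (1 : ℝ) < 2)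
    positivity
  have h := isLittleO_pow_exp_pos_mul_atTop (k := 4) h2
  have hA : 0 < 1 / (|A| + 1) := by positivity
  have h3 := h.bound hA
  rw [Filter.eventually_atTop] at h3
  obtain ⟨a, ha⟩ := h3
  refine ⟨max a 2, le_max_right _ _, fun X hX => ?_⟩
  have h4 := ha X ((le_max_left _ _).trans hX)
  have hX2 : 2 ≤ X := (le_max_right _ _).trans hX
  rw [Real.norm_of_nonneg (by positivity), Real.norm_of_nonneg (Real.exp_pos _).le] at h4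
  have h5 : (2 : ℝ) ^ (X / 29) = Real.exp (Real.log 2 / 29 * X) := by
    rw [Real.rpow_def_of_pos (by norm_num)]
    congr 1
    ring
  rw [h5]
  have h6 : (|A| + 1) * X ^ 4 ≤ Real.exp (Real.log 2 / 29 * X) := by
    have h7 : 0 < |A| + 1 := by positivity
    calc (|A| + 1) * X ^ 4 ≤ (|A| + 1) * (1 / (|A| + 1) * Real.exp (Real.log 2 / 29 * X)) :=
          mul_le_mul_of_nonneg_left h4 h7.le
      _ = Real.exp (Real.log 2 / 29 * X) := by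
          field_simp
  refine le_trans ?_ h6
  have h8 : A ≤ |A| + 1 := (le_abs_self A).trans (by linarith)
  exact mul_le_mul_of_nonneg_right h8 (by positivity)

/-- `s` times a power of a small number -/
lemma small_pow {s z : ℝ} {t : ℕ} (hs : s ≤ 2 ^ (t + 1)) (hz : 0 ≤ z) (hz1 : z ≤ 1 / 32) :
    s * z ^ (t + 1) ≤ 1 / 16 := by
  calc s * z ^ (t + 1) ≤ 2 ^ (t + 1) * z ^ (t + 1) :=
        mul_le_mul_of_nonneg_right hs (by positivity)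
    _ = (2 * z) ^ (t + 1) := (mul_pow _ _ _).symm
    _ ≤ (2 * z) ^ 1 := pow_le_pow_of_le_one (by positivity) (by linarith) (by omega)
    _ ≤ 1 / 16 := by rw [pow_one]; linarith

/-- a product of a power of `y` with `κ` is small -/
lemma small_kap {κ y z : ℝ} {a : ℕ} (hκ : 0 ≤ κ) (hy : 2 ≤ y) (hκy : κ * y ^ 28 ≤ 1)
    (hz : z ≤ y ^ a) (ha : a ≤ 20) : z * κ ≤ 1 / 32 := by
  have hy1 : 1 ≤ y := by linarith
  obtain ⟨m, hm⟩ : ∃ m : ℕ, m = 20 := ⟨_, rfl⟩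
  rw [← hm] at ha
  have h1 : z ≤ y ^ m := hz.trans (pow_le_pow_right₀ hy1 ha)
  have h2 : z * κ ≤ y ^ m * κ := mul_le_mul_of_nonneg_right h1 hκ
  have h3 : (32 : ℝ) ≤ y ^ 8 := by
    calc (32 : ℝ) ≤ 2 ^ 8 := by norm_num
      _ ≤ y ^ 8 := pow_le_pow_left₀ (by norm_num) hy 8
  have h4 : 0 ≤ y ^ m * κ := by positivity
  have h5 : y ^ m * κ * 32 ≤ y ^ m * κ * y ^ 8 := mul_le_mul_of_nonneg_left h3 h4
  have h6 : y ^ m * κ * y ^ 8 = κ * y ^ 28 := by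
    rw [hm]
    ring
  linarith

/-- the choice of `η`, `M`, `L`, `N`, `K` -/
lemma choice {ε y X : ℝ} {t x n : ℕ} (hε : 0 < ε) (hε4 : ε ≤ 1 / 4) (hX : 2 ≤ X)
    (hnX : (n : ℝ) = 2 ^ X)
    (hAy : (400 + 2 * (2000 / ε ^ 2) ^ 2 + 64 / ε ^ 2) * X ^ 4 ≤ y)
    (ht1 : 1 ≤ t) (hty : (t : ℝ) ≤ y) (hx : X ≤ x) (hx2 : (x : ℝ) ≤ 2 * X) :
    ∃ (M L N K : ℕ) (η : ℝ), 0 < η ∧ η ≤ ε / 16 ∧ ((2 * t + 2 : ℕ) : ℝ) * η ≤ ε / 16 ∧
      2 * t + 1 ≤ M ∧ M < L ∧ (L : ℝ) ≤ y ^ 3 ∧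
      Real.exp (-(η * ((L : ℝ) - M))) ≤ η ∧
      Real.exp (-((ε / 8) ^ 2 / (4 * η))) ≤ ((n : ℝ) ^ (6 * t))⁻¹ ∧
      (1 / 2 : ℝ) ^ (M + 1 - 2 * t) ≤ ((n : ℝ) ^ (6 * t))⁻¹ ∧ 1 ≤ N ∧
      (1 / 2 : ℝ) ^ N ≤ ((n : ℝ) ^ (6 * t))⁻¹ ∧ 16 * N * t ^ 2 ≤ K ∧ (K : ℝ) ≤ y ^ 4 := by
  have hX0 : 0 < X := by linarith only [hX]
  have hX1 : 1 ≤ X := by linarith only [hX]
  have hx1r : (1 : ℝ) ≤ x := hX1.trans hx
  have hx1 : 1 ≤ x := by exact_mod_cast hx1r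
  have ht1r : (1 : ℝ) ≤ t := by exact_mod_cast ht1
  have ht0 : (0 : ℝ) < t := by linarith only [ht1r]
  have htx : 1 ≤ t * x := Nat.one_le_iff_ne_zero.2 (Nat.mul_ne_zero (by omega) (by omega))
  have hy1 : 1 ≤ y := ht1r.trans hty
  have hy0 : 0 < y := by linarith only [hy1]
  -- powers of `1 / 2`
  have hn6 : ∀ m : ℕ, 6 * (t : ℝ) * X ≤ m → (1 / 2 : ℝ) ^ m ≤ ((n : ℝ) ^ (6 * t))⁻¹ := by
    intro m hm
    rw [one_div, inv_pow]
    have h1 : (n : ℝ) ^ (6 * t) ≤ 2 ^ m := by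
      rw [hnX, ← Real.rpow_natCast, ← Real.rpow_natCast, ← Real.rpow_mul (by norm_num)]
      apply Real.rpow_le_rpow_of_exponent_le (by norm_num)
      push_cast
      linarith only [hm]
    have h2 : (0 : ℝ) < (n : ℝ) ^ (6 * t) := by
      rw [hnX]
      positivity
    exact inv_anti₀ h2 h1
  have htX : (t : ℝ) * X ≤ t * x := mul_le_mul_of_nonneg_left hx ht0.le
  -- `η`
  obtain ⟨η, hη⟩ : ∃ η : ℝ, η = ε ^ 2 / (2000 * t * X) := ⟨_, rfl⟩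
  have hη0 : 0 < η := by rw [hη]; positivity
  have hηinv : η⁻¹ = 2000 * t * X / ε ^ 2 := by rw [hη, inv_div]
  have hηr : ((2 * t + 2 : ℕ) : ℝ) * η ≤ ε / 16 := by
    push_cast
    have h1 : (2 * (t : ℝ) + 2) * η ≤ 4 * t * η :=
      mul_le_mul_of_nonneg_right (by linarith only [ht1r]) hη0.le
    have h2 : 4 * (t : ℝ) * η = ε ^ 2 / (500 * X) := by
      rw [hη]
      field_simp
      ring
    have h3 : ε ^ 2 / (500 * X) ≤ ε ^ 2 / 500 := by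
      apply div_le_div_of_nonneg_left (by positivity) (by norm_num)
      linarith only [hX1]
    have h4 : ε ^ 2 / 500 ≤ ε / 16 := by
      have h5 : ε * ε ≤ ε * (1 / 4) := mul_le_mul_of_nonneg_left hε4 hε.le
      rw [sq]
      linarith only [h5, hε]
    linarith only [h1, h2, h3, h4]
  have hηe : η ≤ ε / 16 := by
    have h1 : (1 : ℝ) ≤ ((2 * t + 2 : ℕ) : ℝ) := by
      have : 1 ≤ 2 * t + 2 := by omega
      exact_mod_cast this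
    have h2 : 1 * η ≤ ((2 * t + 2 : ℕ) : ℝ) * η := mul_le_mul_of_nonneg_right h1 hη0.le
    linarith only [h2, hηr]
  have hη1 : η < 1 := by linarith only [hηe, hε4]
  have hηi1 : 1 < η⁻¹ := (one_lt_inv₀ hη0).2 hη1
  -- the difference `L - M`
  obtain ⟨q, hq⟩ : ∃ q : ℕ, q = ⌈η⁻¹ ^ 2⌉₊ := ⟨_, rfl⟩
  have hqge : η⁻¹ ^ 2 ≤ q := hq ▸ Nat.le_ceil _
  have hqlt : (q : ℝ) < η⁻¹ ^ 2 + 1 := hq ▸ Nat.ceil_lt_add_one (by positivity)
  have hq0 : 0 < q := by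
    rw [hq]
    exact Nat.ceil_pos.2 (by positivity)
  have hB0 : (0 : ℝ) ≤ 2000 / ε ^ 2 := by positivity
  have hηi2 : η⁻¹ ^ 2 ≤ (2000 / ε ^ 2) ^ 2 * X ^ 2 * y ^ 2 := by
    rw [hηinv]
    have h1 : 2000 * (t : ℝ) * X / ε ^ 2 = (2000 / ε ^ 2) * X * t := by ring
    rw [h1, mul_pow, mul_pow]
    exact mul_le_mul_of_nonneg_left (pow_le_pow_left₀ ht0.le hty 2) (by positivity)
  have hX24 : X ^ 2 ≤ X ^ 4 := pow_le_pow_right₀ hX1 (by norm_num)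
  have hX14 : X ≤ X ^ 4 := by
    calc X = X ^ 1 := (pow_one X).symm
      _ ≤ X ^ 4 := pow_le_pow_right₀ hX1 (by norm_num)
  have hX04 : (1 : ℝ) ≤ X ^ 4 := one_le_pow₀ hX1
  have hyy : y ≤ y ^ 2 := by
    calc y = y ^ 1 := (pow_one y).symm
      _ ≤ y ^ 2 := pow_le_pow_right₀ hy1 (by norm_num)
  have hy21 : (1 : ℝ) ≤ y ^ 2 := one_le_pow₀ hy1
  have hy20 : (0 : ℝ) ≤ y ^ 2 := by positivity
  obtain ⟨B, hB⟩ : ∃ B : ℝ, B = (2000 / ε ^ 2) ^ 2 := ⟨_, rfl⟩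
  have hBn : 0 ≤ B := hB ▸ sq_nonneg _
  have hE0 : (0 : ℝ) ≤ 64 / ε ^ 2 := by positivity
  rw [← hB] at hAy hηi2
  have hBX : 0 ≤ B * X ^ 4 := by positivity
  have hEX : 0 ≤ 64 / ε ^ 2 * X ^ 4 := by positivity
  have hAy2 : 400 * X ^ 4 + 2 * (B * X ^ 4) ≤ y := by
    have : (400 + 2 * B + 64 / ε ^ 2) * X ^ 4 =
        400 * X ^ 4 + 2 * (B * X ^ 4) + 64 / ε ^ 2 * X ^ 4 := by ring
    linarith only [this, hAy, hEX]
  have htxr : (t : ℝ) * x ≤ y * (2 * X) := mul_le_mul hty hx2 (by linarith only [hx1r]) hy0.le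
  have hyX : y * X ≤ y ^ 2 * X ^ 4 := mul_le_mul hyy hX14 hX0.le hy20
  -- `M` and `L`
  obtain ⟨M, hM⟩ : ∃ M : ℕ, M = 8 * (t * x) + 2 * t := ⟨_, rfl⟩
  have hLM : ((M + q : ℕ) : ℝ) ≤ y ^ 3 := by
    push_cast
    have hMr : (M : ℝ) = 8 * ((t : ℝ) * x) + 2 * t := by rw [hM]; push_cast; ring
    have h1 : (M : ℝ) ≤ 16 * (y ^ 2 * X ^ 4) + 2 * (y ^ 2 * X ^ 4) := by
      have h2 : y ≤ y ^ 2 * X ^ 4 := by
        calc y ≤ y ^ 2 * 1 := by rw [mul_one]; exact hyy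
          _ ≤ y ^ 2 * X ^ 4 := mul_le_mul_of_nonneg_left hX04 hy20
      rw [hMr]
      linarith only [htxr, hyX, h2, hty]
    have h3 : B * X ^ 2 * y ^ 2 ≤ B * X ^ 4 * y ^ 2 :=
      mul_le_mul_of_nonneg_right (mul_le_mul_of_nonneg_left hX24 hBn) hy20
    have h4 : (1 : ℝ) ≤ y ^ 2 * X ^ 4 := by
      calc (1 : ℝ) = 1 * 1 := (mul_one 1).symm
        _ ≤ y ^ 2 * X ^ 4 := mul_le_mul hy21 hX04 zero_le_one hy20
    have h5 : y ^ 2 * (400 * X ^ 4 + 2 * (B * X ^ 4)) ≤ y ^ 2 * y :=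
      mul_le_mul_of_nonneg_left hAy2 hy20
    have h6 : y ^ 2 * (400 * X ^ 4 + 2 * (B * X ^ 4)) =
        400 * (y ^ 2 * X ^ 4) + 2 * (B * X ^ 4 * y ^ 2) := by ring
    have h7 : y ^ 2 * y = y ^ 3 := by ring
    have h8 : 0 ≤ B * X ^ 4 * y ^ 2 := by positivity
    linarith only [h1, h3, h4, h5, h6, h7, h8, hqlt, hηi2]
  have hexp : Real.exp (-(η * (((M + q : ℕ) : ℝ) - M))) ≤ η := by
    push_cast
    have h1 : η⁻¹ ≤ η * ((M : ℝ) + q - M) := by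
      calc η⁻¹ = η * η⁻¹ ^ 2 := by field_simp
        _ ≤ η * ((M : ℝ) + q - M) := by
            apply mul_le_mul_of_nonneg_left _ hη0.le
            linarith only [hqge]
    calc Real.exp (-(η * ((M : ℝ) + q - M))) ≤ Real.exp (-η⁻¹) := by
          apply Real.exp_le_exp.2
          linarith only [h1]
      _ = (Real.exp η⁻¹)⁻¹ := Real.exp_neg _
      _ ≤ (η⁻¹)⁻¹ := by
          apply inv_anti₀ (by positivity)
          have := Real.add_one_le_exp η⁻¹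
          linarith only [this]
      _ = η := inv_inv η
  have hexp2 : Real.exp (-((ε / 8) ^ 2 / (4 * η))) ≤ ((n : ℝ) ^ (6 * t))⁻¹ := by
    have h1 : (ε / 8) ^ 2 / (4 * η) = 2000 / 256 * (t * X) := by
      rw [hη]
      field_simp
      ring
    have h2 : (n : ℝ) ^ (6 * t) ≤ Real.exp (2000 / 256 * (t * X)) := by
      have h3 : (n : ℝ) ≤ Real.exp X := by
        rw [hnX, Real.rpow_def_of_pos (by norm_num)]
        apply Real.exp_le_exp.2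
        have hl2 : Real.log 2 ≤ 1 := by
          have := Real.log_two_lt_d9
          linarith only [this]
        calc Real.log 2 * X ≤ 1 * X := mul_le_mul_of_nonneg_right hl2 hX0.le
          _ = X := one_mul X
      calc (n : ℝ) ^ (6 * t) ≤ Real.exp X ^ (6 * t) :=
            pow_le_pow_left₀ (Nat.cast_nonneg n) h3 _
        _ = Real.exp (((6 * t : ℕ) : ℝ) * X) := (Real.exp_nat_mul X (6 * t)).symm
        _ ≤ Real.exp (2000 / 256 * (t * X)) := by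
            apply Real.exp_le_exp.2
            push_cast
            have h4 : 0 ≤ (t : ℝ) * X := by positivity
            linarith only [h4]
    rw [h1, Real.exp_neg]
    have h5 : (0 : ℝ) < (n : ℝ) ^ (6 * t) := by
      rw [hnX]
      positivity
    exact inv_anti₀ h5 h2
  refine ⟨M, M + q, 6 * (t * x), 16 * (6 * (t * x)) * t ^ 2, η, hη0, hηe, hηr, by omega, by omega,
    hLM, hexp, hexp2, ?_, by omega, ?_, le_refl _, ?_⟩
  · have h1 : M + 1 - 2 * t = 8 * (t * x) + 1 := by omega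
    rw [h1]
    apply hn6
    push_cast
    have h4 : 0 ≤ (t : ℝ) * x := by positivity
    linarith only [htX, h4]
  · apply hn6
    push_cast
    linarith only [htX]
  · push_cast
    have h1 : (t : ℝ) ^ 2 ≤ y ^ 2 := pow_le_pow_left₀ ht0.le hty 2
    have h2 : 16 * (6 * ((t : ℝ) * x)) * t ^ 2 ≤ 16 * (6 * (y * (2 * X))) * y ^ 2 := by
      apply mul_le_mul _ h1 (by positivity) (by positivity)
      linarith only [htxr]
    have h3 : 192 * X ≤ y := by linarith only [hAy2, hBX, hX14, hX0]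
    have h4 : y ^ 3 * (192 * X) ≤ y ^ 3 * y := mul_le_mul_of_nonneg_left h3 (by positivity)
    calc 16 * (6 * ((t : ℝ) * x)) * t ^ 2 ≤ 16 * (6 * (y * (2 * X))) * y ^ 2 := h2
      _ = y ^ 3 * (192 * X) := by ring
      _ ≤ y ^ 3 * y := h4
      _ = y ^ 4 := by ring

/-- the final inequality on the negative tests -/
lemma last {ε y s : ℝ} {t n : ℕ} (hε : 0 < ε) (hn : (n : ℝ) = y ^ 29) (hy : 64 / ε ^ 2 ≤ y)
    (hy400 : 400 ≤ y) (ht1 : 1 ≤ t) (hty : (t : ℝ) ≤ y) (hs : s ≤ 2 ^ (t + 1)) :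
    s * (3 * (((n : ℝ) ^ (2 * t)) ^ 2 * (((n : ℝ) ^ (6 * t))⁻¹ + ((n : ℝ) ^ (6 * t))⁻¹))) +
      Real.exp (-((ε / 2) ^ 2 * n / 4)) < (1 / 2 : ℝ) ^ (2 * t) := by
  have hy0 : 0 < y := by linarith only [hy400]
  have hy1 : 1 ≤ y := by linarith only [hy400]
  have hn0 : (0 : ℝ) < n := by rw [hn]; positivity
  have hny : y ≤ n := by
    rw [hn]
    calc y = y ^ 1 := (pow_one y).symm
      _ ≤ y ^ 29 := pow_le_pow_right₀ hy1 (by norm_num)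
  have ht1r : (1 : ℝ) ≤ t := by exact_mod_cast ht1
  -- the first term
  have h1 : ((n : ℝ) ^ (2 * t)) ^ 2 * (((n : ℝ) ^ (6 * t))⁻¹ + ((n : ℝ) ^ (6 * t))⁻¹) =
      2 * ((n : ℝ)⁻¹ ^ 2) ^ t := by
    have h2 : (n : ℝ) ^ (6 * t) = ((n : ℝ) ^ (2 * t)) ^ 2 * (n : ℝ) ^ (2 * t) := by
      rw [← pow_mul, ← pow_add]
      congr 1
      ring
    have h3 : (n : ℝ) ^ (2 * t) ≠ 0 := by positivity
    rw [h2, ← pow_mul (n : ℝ)⁻¹ 2 t, inv_pow]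
    field_simp
    ring
  have hz : (n : ℝ)⁻¹ ^ 2 ≤ 1 / 200 := by
    have h2 : (n : ℝ)⁻¹ ≤ 1 / 400 := by
      rw [one_div]
      exact inv_anti₀ (by norm_num) (hy400.trans hny)
    have h3 : (n : ℝ)⁻¹ ^ 2 ≤ (1 / 400) ^ 2 := pow_le_pow_left₀ (by positivity) h2 2
    linarith only [h3]
  have h5 : s * (3 * (2 * ((n : ℝ)⁻¹ ^ 2) ^ t)) ≤ 1 / 2 * (1 / 2 : ℝ) ^ (2 * t) := by
    have h6 : s * ((n : ℝ)⁻¹ ^ 2) ^ t ≤ 2 ^ (t + 1) * (1 / 200 : ℝ) ^ t :=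
      mul_le_mul hs (pow_le_pow_left₀ (by positivity) hz t) (by positivity) (by positivity)
    have h7 : (2 : ℝ) ^ (t + 1) * (1 / 200 : ℝ) ^ t = 2 * (1 / 100 : ℝ) ^ t := by
      rw [pow_succ, mul_comm ((2 : ℝ) ^ t) 2, mul_assoc, ← mul_pow]
      norm_num
    have h8 : (1 / 2 : ℝ) ^ (2 * t) = (1 / 4 : ℝ) ^ t := by
      rw [pow_mul]
      norm_num
    have h9 : (1 / 100 : ℝ) ^ t = (1 / 25 : ℝ) ^ t * (1 / 4 : ℝ) ^ t := by
      rw [← mul_pow]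
      norm_num
    have h10 : (1 / 25 : ℝ) ^ t ≤ 1 / 25 := by
      calc (1 / 25 : ℝ) ^ t ≤ (1 / 25 : ℝ) ^ 1 :=
            pow_le_pow_of_le_one (by norm_num) (by norm_num) ht1
        _ = 1 / 25 := pow_one _
    have h11 : (0 : ℝ) < (1 / 4 : ℝ) ^ t := by positivity
    have h12 : (1 / 25 : ℝ) ^ t * (1 / 4 : ℝ) ^ t ≤ 1 / 25 * (1 / 4 : ℝ) ^ t :=
      mul_le_mul_of_nonneg_right h10 h11.le
    rw [h8]
    have h13 : s * (3 * (2 * ((n : ℝ)⁻¹ ^ 2) ^ t)) = 6 * (s * ((n : ℝ)⁻¹ ^ 2) ^ t) := by ring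
    linarith only [h6, h7, h9, h12, h13, h11]
  -- the second term
  have h20 : Real.exp (-((ε / 2) ^ 2 * n / 4)) < 1 / 2 * (1 / 2 : ℝ) ^ (2 * t) := by
    have h21 : 1 / 2 * (1 / 2 : ℝ) ^ (2 * t) = (2 ^ (2 * t + 1))⁻¹ := by
      rw [one_div, inv_pow, pow_succ, mul_inv]
      ring
    have h22 : (2 : ℝ) ^ (2 * t + 1) < Real.exp ((ε / 2) ^ 2 * n / 4) := by
      have h23 : (2 : ℝ) < Real.exp 1 := by
        have := Real.exp_one_gt_d9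
        linarith only [this]
      calc (2 : ℝ) ^ (2 * t + 1) < Real.exp 1 ^ (2 * t + 1) :=
            pow_lt_pow_left₀ h23 (by norm_num) (by omega)
        _ = Real.exp (((2 * t + 1 : ℕ) : ℝ) * 1) := (Real.exp_nat_mul 1 (2 * t + 1)).symm
        _ ≤ Real.exp ((ε / 2) ^ 2 * n / 4) := by
            apply Real.exp_le_exp.2
            push_cast
            have h24 : (ε / 2) ^ 2 * (n : ℝ) / 4 = ε ^ 2 * n / 16 := by ring
            have h25 : 64 ≤ y * ε ^ 2 := by rwa [div_le_iff₀ (by positivity)] at hy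
            have h26 : y * y ≤ n := by
              rw [hn]
              calc y * y = y ^ 2 := (sq y).symm
                _ ≤ y ^ 29 := pow_le_pow_right₀ hy1 (by norm_num)
            have h27 : ε ^ 2 * (y * y) ≤ ε ^ 2 * n :=
              mul_le_mul_of_nonneg_left h26 (by positivity)
            have h28 : 64 * y ≤ y * ε ^ 2 * y := mul_le_mul_of_nonneg_right h25 hy0.le
            have h29 : y * ε ^ 2 * y = ε ^ 2 * (y * y) := by ring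
            linarith only [h24, h27, h28, h29, hty, ht1r]
    rw [h21, Real.exp_neg]
    exact inv_strictAnti₀ (by positivity) h22
  rw [h1]
  linarith only [h5, h20]

end NumYAux

open NumYAux

/-- (X8), absolute exponent -/
theorem stNumY : StNumY := by
  intro ε C hε hε4
  obtain ⟨A, hA⟩ : ∃ A : ℝ, A = 400 + 2 * (2000 / ε ^ 2) ^ 2 + 64 / ε ^ 2 := ⟨_, rfl⟩
  obtain ⟨Λ, hΛ2, hΛ⟩ := growth A
  have hC0 : (0 : ℝ) ≤ C := Nat.cast_nonneg C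
  refine ⟨200 * (C + 1) + ⌈Λ⌉₊, fun k n hk hn => ?_⟩
  have hkr : (2 : ℝ) ≤ k := by exact_mod_cast hk
  have hk4 : (4 : ℝ) ≤ (k : ℝ) ^ 2 := by
    calc (4 : ℝ) = 2 ^ 2 := by norm_num
      _ ≤ (k : ℝ) ^ 2 := pow_le_pow_left₀ (by norm_num) hkr 2
  have hn0 : (0 : ℝ) < n := by
    have h1 : 0 < n := lt_of_lt_of_le (by positivity) hn
    exact_mod_cast h1
  obtain ⟨X, hX⟩ : ∃ X : ℝ, X = Real.logb 2 n := ⟨_, rfl⟩
  have hnX : (n : ℝ) = 2 ^ X := by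
    rw [hX, Real.rpow_logb (by norm_num) (by norm_num) hn0]
  have hkX : (200 * ((C : ℝ) + 1) + ⌈Λ⌉₊) * (k : ℝ) ^ 2 ≤ X := by
    have h1 : (2 : ℝ) ^ ((200 * (C + 1) + ⌈Λ⌉₊) * k ^ 2) ≤ n := by exact_mod_cast hn
    rw [hnX, ← Real.rpow_natCast, Real.rpow_le_rpow_left_iff (by norm_num)] at h1
    push_cast at h1
    exact h1
  have hΛc : Λ ≤ ⌈Λ⌉₊ := Nat.le_ceil Λ
  have hXΛ : Λ ≤ X := by
    have h1 : (⌈Λ⌉₊ : ℝ) * 1 ≤ ⌈Λ⌉₊ * (k : ℝ) ^ 2 :=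
      mul_le_mul_of_nonneg_left (by linarith only [hk4]) (Nat.cast_nonneg _)
    have h2 : 0 ≤ 200 * ((C : ℝ) + 1) * (k : ℝ) ^ 2 := by positivity
    linarith only [h1, h2, hkX, hΛc]
  have hX2 : 2 ≤ X := hΛ2.trans hXΛ
  have hX0 : 0 < X := by linarith only [hX2]
  have hX1 : 1 ≤ X := by linarith only [hX2]
  have hCk200 : (C : ℝ) * (k : ℝ) ^ 2 ≤ X / 200 := by
    have h1 : 0 ≤ (⌈Λ⌉₊ : ℝ) * (k : ℝ) ^ 2 := by positivity
    linarith only [h1, hkX, hk4]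
  obtain ⟨y, hy⟩ : ∃ y : ℝ, y = (2 : ℝ) ^ (X / 29) := ⟨_, rfl⟩
  have hy0 : 0 < y := by rw [hy]; exact Real.rpow_pos_of_pos (by norm_num) _
  have hyn : (n : ℝ) = y ^ 29 := by
    rw [hy, ← Real.rpow_natCast, ← Real.rpow_mul (by norm_num), hnX]
    congr 1
    push_cast
    ring
  have hAy : A * X ^ 4 ≤ y := hy ▸ hΛ X hXΛ
  rw [hA] at hAy
  have hX4 : (1 : ℝ) ≤ X ^ 4 := one_le_pow₀ hX1
  have hAy1 : 400 + 2 * (2000 / ε ^ 2) ^ 2 + 64 / ε ^ 2 ≤ y := by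
    refine le_trans ?_ hAy
    exact le_mul_of_one_le_right (by positivity) hX4
  have hB0 : (0 : ℝ) ≤ 2 * (2000 / ε ^ 2) ^ 2 := by positivity
  have hE0 : (0 : ℝ) ≤ 64 / ε ^ 2 := by positivity
  have hy400 : 400 ≤ y := by linarith only [hAy1, hB0, hE0]
  have hyE : 64 / ε ^ 2 ≤ y := by linarith only [hAy1, hB0]
  have hy1 : 1 ≤ y := by linarith only [hy400]
  have hy2 : 2 ≤ y := by linarith only [hy400]
  have hye : 16 / ε ≤ y := by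
    refine le_trans ?_ hyE
    rw [div_le_div_iff₀ hε (by positivity)]
    have h1 : ε * ε ≤ ε * (1 / 4) := mul_le_mul_of_nonneg_left hε4 hε.le
    rw [sq]
    linarith only [h1, hε]
  -- `t`
  obtain ⟨t, ht⟩ : ∃ t : ℕ, t = ⌊y⌋₊ := ⟨_, rfl⟩
  have ht1 : 1 ≤ t := by
    rw [ht]
    exact Nat.le_floor (by exact_mod_cast hy1)
  have hty : (t : ℝ) ≤ y := ht ▸ Nat.floor_le hy0.le
  have hyt : y < t + 1 := ht ▸ Nat.lt_floor_add_one _
  -- `κ`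
  obtain ⟨κ, hκ⟩ : ∃ κ : ℝ, κ = (2 : ℝ) ^ (C * k ^ 2) / n := ⟨_, rfl⟩
  have hκ0 : 0 < κ := by rw [hκ]; positivity
  have hCk : (C : ℝ) * (k : ℝ) ^ 2 ≤ X / 29 := by
    linarith only [hCk200, hX0]
  have h2Ck : (2 : ℝ) ^ (C * k ^ 2) ≤ y := by
    rw [hy, ← Real.rpow_natCast]
    apply Real.rpow_le_rpow_of_exponent_le (by norm_num)
    push_cast
    exact hCk
  have hκy : κ * y ^ 28 ≤ 1 := by
    rw [hκ, div_mul_eq_mul_div, div_le_one hn0, hyn]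
    calc (2 : ℝ) ^ (C * k ^ 2) * y ^ 28 ≤ y * y ^ 28 :=
          mul_le_mul_of_nonneg_right h2Ck (by positivity)
      _ = y ^ 29 := by ring
  have hκ1 : κ ≤ 1 := by
    have h1 : (1 : ℝ) ≤ y ^ 28 := one_le_pow₀ hy1
    have h2 : κ * 1 ≤ κ * y ^ 28 := mul_le_mul_of_nonneg_left h1 hκ0.le
    linarith only [h2, hκy]
  have h2Ck24 : ((2 : ℝ) ^ (C * k ^ 2)) ^ 24 ≤ y ^ 5 := by
    rw [hy, ← pow_mul, ← Real.rpow_natCast, ← Real.rpow_natCast, ← Real.rpow_mul (by norm_num)]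
    apply Real.rpow_le_rpow_of_exponent_le (by norm_num)
    push_cast
    linarith only [hCk200, hX0]
  have hpow : (2 ^ (C * k ^ 2) * t) ^ 24 ≤ n := by
    have h1 : ((2 : ℝ) ^ (C * k ^ 2) * t) ^ 24 ≤ n := by
      rw [mul_pow]
      calc ((2 : ℝ) ^ (C * k ^ 2)) ^ 24 * (t : ℝ) ^ 24 ≤ y ^ 5 * y ^ 24 :=
            mul_le_mul h2Ck24 (pow_le_pow_left₀ (Nat.cast_nonneg t) hty 24) (by positivity)
              (by positivity)
        _ = y ^ 29 := by ring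
        _ = n := hyn.symm
    exact_mod_cast h1
  -- the other parameters
  obtain ⟨x, hx⟩ : ∃ x : ℕ, x = ⌈X⌉₊ := ⟨_, rfl⟩
  have hxge : X ≤ x := hx ▸ Nat.le_ceil _
  have hxle : (x : ℝ) ≤ 2 * X := by
    have h1 : (x : ℝ) < X + 1 := hx ▸ Nat.ceil_lt_add_one hX0.le
    linarith only [h1, hX1]
  obtain ⟨M, L, N, K, η, p1, p2, p3, p4, p5, p6, p7, p8, p9, p10, p11, p12, p13⟩ :=
    choice hε hε4 hX2 hnX hAy ht1 hty hxge hxle
  have hK0 : (0 : ℝ) ≤ K := Nat.cast_nonneg K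
  have hL0 : (0 : ℝ) ≤ L := Nat.cast_nonneg L
  have hLn : L ≤ n := by
    have h1 : (L : ℝ) ≤ n := by
      rw [hyn]
      exact p6.trans (pow_le_pow_right₀ hy1 (by norm_num))
    exact_mod_cast h1
  -- three small numbers
  have hz1 : (L : ℝ) ^ 2 * κ ≤ 1 / 32 := by
    apply small_kap (a := 6) hκ0.le hy2 hκy _ (by norm_num)
    calc (L : ℝ) ^ 2 ≤ (y ^ 3) ^ 2 := pow_le_pow_left₀ hL0 p6 2
      _ = y ^ 6 := by ring
  have hz2 : 16 * (L : ℝ) * κ / ε ≤ 1 / 32 := by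
    have h1 : 16 * (L : ℝ) * κ / ε = (16 / ε * L) * κ := by ring
    rw [h1]
    apply small_kap (a := 4) hκ0.le hy2 hκy _ (by norm_num)
    calc 16 / ε * (L : ℝ) ≤ y * y ^ 3 := mul_le_mul hye p6 hL0 hy0.le
      _ = y ^ 4 := by ring
  have hK2 : (((K ^ 2 : ℕ) : ℕ) : ℝ) ≤ y ^ 8 := by
    push_cast
    calc (K : ℝ) ^ 2 ≤ (y ^ 4) ^ 2 := pow_le_pow_left₀ hK0 p13 2
      _ = y ^ 8 := by ring
  have hz3 : 4 * (((K ^ 2 : ℕ) : ℕ) : ℝ) * κ ≤ 1 / 32 := by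
    apply small_kap (a := 9) hκ0.le hy2 hκy _ (by norm_num)
    calc 4 * (((K ^ 2 : ℕ) : ℕ) : ℝ) ≤ y * y ^ 8 :=
          mul_le_mul (by linarith only [hy400]) hK2 (Nat.cast_nonneg _) hy0.le
      _ = y ^ 9 := by ring
  have hz4 : (n : ℝ) ^ (2 / 3 : ℝ) * κ ≤ 1 / 32 := by
    apply small_kap (a := 20) hκ0.le hy2 hκy _ (by norm_num)
    rw [hnX, hy, ← Real.rpow_natCast, ← Real.rpow_mul (by norm_num),
      ← Real.rpow_mul (by norm_num)]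
    apply Real.rpow_le_rpow_of_exponent_le (by norm_num)
    push_cast
    linarith only [hX0]
  have hK2κ : (((K ^ 2 : ℕ) : ℕ) : ℝ) * κ ≤ 1 / 2 := by
    have h1 : 0 ≤ (((K ^ 2 : ℕ) : ℕ) : ℝ) * κ := by positivity
    have h2 : 4 * (((K ^ 2 : ℕ) : ℕ) : ℝ) * κ = 4 * ((((K ^ 2 : ℕ) : ℕ) : ℝ) * κ) := by ring
    linarith only [h1, h2, hz3]
  refine ⟨t, M, L, 2 * t + 2, N, K, η, κ, ((n : ℝ) ^ (6 * t))⁻¹, hκ, rfl, ht1, hpow, hκ1, p1, p2,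
    p3, p4, p5, hLn, p7, p8, p9, p10, p11, p12, hK2κ, fun s hs => ?_⟩
  have hs2 : (s : ℝ) ≤ 2 ^ (t + 1) := by
    refine hs.le.trans ?_
    rw [← Real.rpow_natCast (2 : ℝ) (t + 1)]
    apply Real.rpow_le_rpow_of_exponent_le (by norm_num)
    have h1 : (n : ℝ) ^ (1 / 30 : ℝ) ≤ y := by
      rw [hnX, ← Real.rpow_mul (by norm_num), hy]
      apply Real.rpow_le_rpow_of_exponent_le (by norm_num)
      linarith only [hX0]
    push_cast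
    linarith only [h1, hyt]
  have hs0 : (0 : ℝ) ≤ s := Nat.cast_nonneg s
  refine ⟨?_, last hε hyn hyE hy400 ht1 hty hs2⟩
  have hn1 : 0 ≤ (L : ℝ) ^ 2 * κ := by positivity
  have hn2 : 0 ≤ 16 * (L : ℝ) * κ / ε := by positivity
  have hn3 : 0 ≤ 4 * (((K ^ 2 : ℕ) : ℕ) : ℝ) * κ := by positivity
  have e1 := small_pow hs2 hn1 hz1
  have e3 := small_pow hs2 hn3 hz3
  have e2 : (s : ℝ) * (16 * (L : ℝ) * κ / ε) ^ (2 * t + 2) ≤ 1 / 16 := by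
    refine le_trans ?_ (small_pow hs2 hn2 hz2)
    apply mul_le_mul_of_nonneg_left _ hs0
    exact pow_le_pow_of_le_one hn2 (by linarith only [hz2]) (by omega)
  have hn4 : 0 ≤ (n : ℝ) ^ (2 / 3 : ℝ) * κ := by positivity
  have e5 := small_pow hs2 hn4 hz4
  have e4 : (s : ℝ) * (2 * (((L : ℝ) ^ 2 * κ) ^ (t + 1) + (16 * L * κ / ε) ^ (2 * t + 2) +
      ((n : ℝ) ^ (2 / 3 : ℝ) * κ) ^ (t + 1)) +
      (4 * (((K ^ 2 : ℕ) : ℕ) : ℝ) * κ) ^ (t + 1)) =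
      2 * (s * ((L : ℝ) ^ 2 * κ) ^ (t + 1)) + 2 * (s * (16 * L * κ / ε) ^ (2 * t + 2)) +
        2 * (s * ((n : ℝ) ^ (2 / 3 : ℝ) * κ) ^ (t + 1)) +
        s * (4 * (((K ^ 2 : ℕ) : ℕ) : ℝ) * κ) ^ (t + 1) := by ring
  rw [e4]
  linarith only [e1, e2, e3, e5]

end Pool.Agent.Lib.MP_cff830_lc.MR
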