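import Pool.Agent.Lib.MP_cff830_lc.MR.Stmts59
import Pool.Agent.Lib.MP_cff830_lc.Pull
import Pool.Agent.Lib.MP_cff830_lc.Sparse

/-!
# Monotone circuits over relaxations of vertex cover: the positive tests
-/

set_option autoImplicit false

namespace Pool.Agent.Lib.MP_cff830_lc.MR

open Finset

namespace PosAux

/-! ### Solutions are pulled back -/

theorem sum_fib {V V₀ : Type} [Fintype V] [Fintype V₀] [DecidableEq V₀] (φ : V → V₀) (c : V → ℝ)
    (f : V₀ → ℝ) : ∑ y, (∑ x ∈ univ.filter (fun x => φ x = y), c x) * f y =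
      ∑ x, c x * f (φ x) := by
  rw [← Finset.sum_fiberwise (s := (univ : Finset V)) (g := φ) (f := fun x => c x * f (φ x))]
  refine Finset.sum_congr rfl fun y _ => ?_
  rw [Finset.sum_mul]
  refine Finset.sum_congr rfl fun x hx => ?_
  rw [(mem_filter.1 hx).2]

theorem isSol_pull {V V₀ : Type} [Fintype V] [DecidableEq V] [Fintype V₀] [DecidableEq V₀]
    {G : SimpleGraph V} {G₀ : SimpleGraph V₀} {k : ℕ} {μ : Finset V₀ → Finset V₀ → ℝ}
    (h : SDP.IsSol G₀ k μ) (φ : V → V₀) (hφ : ∀ u v, G.Adj u v → G₀.Adj (φ u) (φ v)) :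
    SDP.IsSol G k (Pull.pull φ μ) := by
  refine ⟨Pull.pull_nonneg φ μ h.nonneg, Pull.pull_total φ μ k h.total,
    fun S T hST hT U _ => Pull.pull_cons φ μ k h.consistent S T hST hT U,
    fun S hS U _ => Pull.pull_cover G G₀ φ hφ μ k h.cover S hS U, ?_⟩
  intro c₀ c
  have h1 := h.psd c₀ (fun y => ∑ x ∈ univ.filter (fun x => φ x = y), c x)
  have e1 : ∑ y, (∑ x ∈ univ.filter (fun x => φ x = y), c x) * μ {y} {y} =
      ∑ x, c x * Pull.pull φ μ {x} {x} := by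
    rw [sum_fib φ c (fun y => μ {y} {y})]
    refine Finset.sum_congr rfl fun x _ => ?_
    rw [Pull.pull_self, Finset.image_singleton]
  have e2 : ∑ y, ∑ z, (∑ x ∈ univ.filter (fun x => φ x = y), c x) *
      (∑ x ∈ univ.filter (fun x => φ x = z), c x) * μ {y, z} {y, z} =
      ∑ x, ∑ w, c x * c w * Pull.pull φ μ {x, w} {x, w} := by
    have e3 : ∀ y, ∑ z, (∑ x ∈ univ.filter (fun x => φ x = y), c x) *
        (∑ x ∈ univ.filter (fun x => φ x = z), c x) * μ {y, z} {y, z} =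
        (∑ x ∈ univ.filter (fun x => φ x = y), c x) * ∑ w, c w * μ {y, φ w} {y, φ w} := by
      intro y
      rw [← sum_fib φ c (fun z => μ {y, z} {y, z}), Finset.mul_sum]
      exact Finset.sum_congr rfl fun z _ => by ring
    rw [Finset.sum_congr rfl fun y _ => e3 y,
      sum_fib φ c (fun y => ∑ w, c w * μ {y, φ w} {y, φ w})]
    refine Finset.sum_congr rfl fun x _ => ?_
    rw [Finset.mul_sum]
    refine Finset.sum_congr rfl fun w _ => ?_
    rw [Pull.pull_self, Finset.image_insert, Finset.image_singleton]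
    ring
  rw [e1, e2] at h1
  exact h1

/-! ### Fibres -/

theorem exists_fib (n : ℕ) {V₀ : Type} [Fintype V₀] [DecidableEq V₀]
    (hN : 0 < Fintype.card V₀) : ∃ b : Fin n → V₀, ∀ x,
      (univ.filter fun v => b v = x).card ≤ n / Fintype.card V₀ + 1 := by
  set N := Fintype.card V₀ with hNdef
  have e : Fin N ≃ V₀ := (Fintype.equivFin V₀).symm
  refine ⟨fun v => e ⟨(v : ℕ) % N, Nat.mod_lt _ hN⟩, fun x => ?_⟩
  rw [← card_range (n / N + 1)]
  refine Finset.card_le_card_of_injOn (fun v : Fin n => (v : ℕ) / N) ?_ ?_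
  · intro v _
    rw [mem_coe, mem_range]
    exact Nat.lt_succ_of_le (Nat.div_le_div_right (by omega))
  · intro v hv v' hv' h
    rw [mem_coe, mem_filter] at hv hv'
    have h1 : (⟨(v : ℕ) % N, Nat.mod_lt _ hN⟩ : Fin N) = ⟨(v' : ℕ) % N, Nat.mod_lt _ hN⟩ :=
      e.injective (hv.2.trans hv'.2.symm)
    have h2 : (v : ℕ) % N = (v' : ℕ) % N := congrArg Fin.val h1
    have h3 := Nat.div_add_mod (v : ℕ) N
    have h4 := Nat.div_add_mod (v' : ℕ) N
    simp only at h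
    rw [h, h2, h4] at h3
    exact Fin.ext h3.symm

/-! ### Colourings -/

theorem card_col (n r : ℕ) : Fintype.card (Sym2 (Fin n) → Fin (r + 1)) =
    (r + 1) ^ (Fintype.card (Sym2 (Fin n))) := by
  rw [Fintype.card_fun, Fintype.card_fin]

theorem prP_col {n : ℕ} (r : ℕ) (E : Finset (Sym2 (Fin n))) :
    prP (fun ω : Sym2 (Fin n) → Fin (r + 1) => ∀ e ∈ E, ω e = 0) =
      (1 / ((r : ℝ) + 1)) ^ E.card := by
  classical
  rw [prP_eq, card_col]
  have h := GSI.count_pi r ({0} : Finset (Fin (r + 1))) E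
  simp only [mem_singleton, card_singleton, one_pow, one_mul] at h
  have h1 : ((r : ℝ) + 1) ^ E.card ≠ 0 := by positivity
  have h2 : ((r : ℝ) + 1) ^ (Fintype.card (Sym2 (Fin n))) ≠ 0 := by positivity
  have h3 : ((univ.filter fun ω : Sym2 (Fin n) → Fin (r + 1) => ∀ e ∈ E, ω e = 0).card : ℝ) *
      ((r : ℝ) + 1) ^ E.card = ((r : ℝ) + 1) ^ (Fintype.card (Sym2 (Fin n))) := by
    exact_mod_cast h
  rw [div_pow, one_pow]
  push_cast
  rw [div_eq_div_iff h2 h1, one_mul]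
  exact h3

/-! ### The graphs -/

open Classical in
/-- The vertices on short cycles. -/
noncomputable def Z {n r : ℕ} (t : ℕ) (ω : Sym2 (Fin n) → Fin (r + 1)) : Finset (Fin n) :=
  univ.filter fun v : Fin n => ∃ p : (GSI.Gr ω).Walk v v, p.IsCycle ∧ p.length ≤ t

/-- The positive tests. -/
def HG {n r : ℕ} {V₀ : Type} (F₀ : SimpleGraph V₀) (b : Fin n → V₀) (t : ℕ)
    (ω : Sym2 (Fin n) → Fin (r + 1)) : SimpleGraph (Fin n) where
  Adj u v := (GSI.Gr ω).Adj u v ∧ u ∉ Z t ω ∧ v ∉ Z t ω ∧ F₀.Adj (b u) (b v)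
  symm := ⟨fun _ _ h => ⟨h.1.symm, h.2.2.1, h.2.1, h.2.2.2.symm⟩⟩
  loopless := ⟨fun _ h => (GSI.Gr ω).loopless.irrefl _ h.1⟩

theorem HG_adj {n r : ℕ} {V₀ : Type} {F₀ : SimpleGraph V₀} {b : Fin n → V₀} {t : ℕ}
    {ω : Sym2 (Fin n) → Fin (r + 1)} {u v : Fin n} : (HG F₀ b t ω).Adj u v ↔
      (GSI.Gr ω).Adj u v ∧ u ∉ Z t ω ∧ v ∉ Z t ω ∧ F₀.Adj (b u) (b v) := Iff.rfl

theorem in_HG {n r : ℕ} {V₀ : Type} {F₀ : SimpleGraph V₀} {b : Fin n → V₀} {t : ℕ}
    {ω : Sym2 (Fin n) → Fin (r + 1)} {E : Finset (Sym2 (Fin n))} (h : In E (HG F₀ b t ω)) :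
    ∀ e ∈ E, ω e = 0 := by
  intro e he
  have h1 := h e he
  induction e using Sym2.ind with
  | _ x y =>
    rw [SimpleGraph.mem_edgeSet, HG_adj, GSI.Gr, SimpleGraph.fromEdgeSet_adj] at h1
    exact h1.1.1

theorem cyc_HG {n r : ℕ} {V₀ : Type} {F₀ : SimpleGraph V₀} {b : Fin n → V₀} {t : ℕ}
    {ω : Sym2 (Fin n) → Fin (r + 1)} (v : Fin n) (p : (HG F₀ b t ω).Walk v v)
    (hp : p.IsCycle) : t < p.length := by
  classical
  by_contra hlen
  push Not at hlen
  have hle : HG F₀ b t ω ≤ GSI.Gr ω := fun _ _ h => h.1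
  set p' := p.map (SimpleGraph.Hom.ofLE hle) with hp'
  have hcyc : p'.IsCycle :=
    (SimpleGraph.Walk.isCycle_map_iff_of_injective Function.injective_id).2 hp
  have hlen' : p'.length = p.length := SimpleGraph.Walk.length_map _ _
  have hv : v ∈ Z t ω := by
    unfold Z
    rw [mem_filter]
    exact ⟨mem_univ _, p', hcyc, by rw [hlen']; exact hlen⟩
  cases p with
  | nil => exact hp.ne_nil rfl
  | cons h q => exact h.2.1 hv

theorem cover_large {n r : ℕ} {V₀ : Type} [Fintype V₀] [DecidableEq V₀] (F₀ : SimpleGraph V₀)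
    (b : Fin n → V₀) (t s M : ℕ) (ω : Sym2 (Fin n) → Fin (r + 1)) (a : ℝ)
    (hb : ∀ x, (univ.filter fun v => b v = x).card ≤ M)
    (hF : ∀ U : Finset V₀, (∀ x y, F₀.Adj x y → x ∈ U ∨ y ∈ U) →
      (Fintype.card V₀ : ℝ) - a ≤ (U.card : ℝ))
    (hole : ¬ Sparse.HasHole s ω) (U : Finset (Fin n)) (hU : IsVertexCover (HG F₀ b t ω) U) :
    (n : ℝ) ≤ (U.card : ℝ) + ((Z t ω).card : ℝ) + a * M + Fintype.card V₀ * s := by
  classical
  set S : Finset (Fin n) := univ.filter fun v => v ∉ U ∧ v ∉ Z t ω with hS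
  set T : Finset V₀ := univ.filter fun x => s ≤ (S.filter fun v => b v = x).card with hT
  have hTs : ∀ x ∈ T, ∀ y ∈ T, ¬ F₀.Adj x y := by
    intro x hx y hy hxy
    obtain ⟨A, hA1, hA2⟩ := exists_subset_card_eq (mem_filter.1 hx).2
    obtain ⟨B, hB1, hB2⟩ := exists_subset_card_eq (mem_filter.1 hy).2
    refine hole ⟨A, B, hA2, hB2, ?_, ?_⟩
    · rw [Finset.disjoint_left]
      intro v hvA hvB
      have h1 := (mem_filter.1 (hA1 hvA)).2
      have h2 := (mem_filter.1 (hB1 hvB)).2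
      rw [← h1, ← h2] at hxy
      exact F₀.loopless.irrefl _ hxy
    · intro u hu v hv h0
      have h1 := mem_filter.1 (hA1 hu)
      have h2 := mem_filter.1 (hB1 hv)
      have h3 := (mem_filter.1 h1.1).2
      have h4 := (mem_filter.1 h2.1).2
      have h5 : (HG F₀ b t ω).Adj u v := by
        rw [HG_adj]
        refine ⟨?_, h3.2, h4.2, by rw [h1.2, h2.2]; exact hxy⟩
        rw [GSI.Gr, SimpleGraph.fromEdgeSet_adj]
        refine ⟨h0, fun hne => ?_⟩
        have h6 := h1.2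
        rw [hne, h2.2] at h6
        rw [h6] at hxy
        exact F₀.loopless.irrefl _ hxy
      rcases hU u v h5 with h6 | h6
      · exact h3.1 h6
      · exact h4.1 h6
  have hTa : (T.card : ℝ) ≤ a := by
    have h1 := hF Tᶜ (fun x y hxy => by
      by_contra hcon
      rw [not_or, mem_compl, mem_compl, not_not, not_not] at hcon
      exact hTs x hcon.1 y hcon.2 hxy)
    have h2 : (T.card : ℝ) + (Tᶜ.card : ℝ) = (Fintype.card V₀ : ℝ) := by
      exact_mod_cast Finset.card_add_card_compl T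
    linarith
  have h1 : S.card = ∑ x, (S.filter fun v => b v = x).card :=
    Finset.card_eq_sum_card_fiberwise fun v _ => mem_coe.2 (mem_univ _)
  have h2 : ∑ x, (S.filter fun v => b v = x).card ≤ ∑ x, ((if x ∈ T then M else 0) + s) := by
    refine sum_le_sum fun x _ => ?_
    by_cases hx : x ∈ T
    · rw [if_pos hx]
      have h3 : (S.filter fun v => b v = x).card ≤ M :=
        (card_le_card (filter_subset_filter _ (subset_univ _))).trans (hb x)
      omega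
    · rw [if_neg hx]
      have h3 : ¬ s ≤ (S.filter fun v => b v = x).card := fun h =>
        hx (mem_filter.2 ⟨mem_univ _, h⟩)
      omega
  have h3 : ∑ x, ((if x ∈ T then M else 0) + s) = T.card * M + Fintype.card V₀ * s := by
    rw [sum_add_distrib, sum_ite_mem, univ_inter, sum_const, smul_eq_mul, sum_const, card_univ,
      smul_eq_mul]
  have h4 : S.card ≤ T.card * M + Fintype.card V₀ * s := by
    rw [h1]
    exact h2.trans h3.le
  have h5 : n ≤ U.card + (Z t ω).card + S.card := by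
    have h6 : (univ : Finset (Fin n)) ⊆ U ∪ Z t ω ∪ S := by
      intro v _
      simp only [hS, mem_union, mem_filter, mem_univ, true_and]
      tauto
    have h7 := card_le_card h6
    rw [card_univ, Fintype.card_fin] at h7
    exact h7.trans ((card_union_le _ _).trans (Nat.add_le_add_right (card_union_le _ _) _))
  have h6 : (S.card : ℝ) ≤ T.card * M + Fintype.card V₀ * s := by exact_mod_cast h4
  have h7 : (n : ℝ) ≤ U.card + (Z t ω).card + S.card := by exact_mod_cast h5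
  have h8 : (T.card : ℝ) * M ≤ a * M := mul_le_mul_of_nonneg_right hTa (Nat.cast_nonneg _)
  linarith

/-! ### Probabilities -/

theorem prP_hole (n r s : ℕ) (hs : (2 * n + 2) * (r + 1) ≤ s * s) :
    prP (fun ω : Sym2 (Fin n) → Fin (r + 1) => Sparse.HasHole s ω) ≤ 1 / 4 := by
  classical
  have h := Sparse.card_hasHole r n s hs
  rw [prP_eq, card_col]
  have h1 : (0 : ℝ) < ((r + 1) ^ (Fintype.card (Sym2 (Fin n))) : ℕ) := by positivity
  rw [div_le_iff₀ h1]
  have h2 : (4 : ℝ) * ((univ.filter fun ω : Sym2 (Fin n) → Fin (r + 1) =>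
      Sparse.HasHole s ω).card : ℝ) ≤ (((r + 1) ^ (Fintype.card (Sym2 (Fin n))) : ℕ) : ℝ) := by
    have h3 : 4 * (univ.filter fun ω : Sym2 (Fin n) → Fin (r + 1) =>
      Sparse.HasHole s ω).card ≤ (r + 1) ^ (Fintype.card (Sym2 (Fin n))) := by
      convert h
    exact_mod_cast h3
  linarith

theorem geom (q t : ℕ) (hq : 2 ≤ q) : ∑ l ∈ range (t + 1), q ^ l ≤ 2 * q ^ t := by
  induction t with
  | zero => simp
  | succ t ih =>
    rw [sum_range_succ]
    have h1 : 2 * q ^ t ≤ q ^ (t + 1) := by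
      rw [pow_succ, mul_comm]
      exact Nat.mul_le_mul_left _ hq
    omega

theorem prP_Z (hC : StCyc) (n r D t : ℕ) (hD : n ≤ D * (r + 1)) (h2 : 2 ≤ D) (x : ℝ)
    (hx0 : 0 < x) (hx : 8 * (D : ℝ) ^ t ≤ x) :
    prP (fun ω : Sym2 (Fin n) → Fin (r + 1) => x < ((Z t ω).card : ℝ)) ≤ 1 / 4 := by
  classical
  have h := hC n r D t hD
  have h3 : ∑ ω : Sym2 (Fin n) → Fin (r + 1), (Z t ω).card ≤
      2 * D ^ t * (r + 1) ^ (Fintype.card (Sym2 (Fin n))) := by
    refine le_trans (le_of_eq ?_) (h.trans (Nat.mul_le_mul_right _ (geom D t h2)))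
    rfl
  rw [prP_eq, card_col]
  set Q : ℕ := (r + 1) ^ (Fintype.card (Sym2 (Fin n))) with hQ
  have hQ0 : (0 : ℝ) < (Q : ℝ) := by
    rw [hQ]
    positivity
  rw [div_le_iff₀ hQ0]
  set B := univ.filter fun ω : Sym2 (Fin n) → Fin (r + 1) => x < ((Z t ω).card : ℝ) with hB
  have h4 : (B.card : ℝ) * x ≤ ∑ ω : Sym2 (Fin n) → Fin (r + 1), ((Z t ω).card : ℝ) := by
    calc (B.card : ℝ) * x = ∑ ω ∈ B, x := by rw [sum_const, nsmul_eq_mul]
      _ ≤ ∑ ω ∈ B, ((Z t ω).card : ℝ) := sum_le_sum fun ω hω => (mem_filter.1 hω).2.le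
      _ ≤ ∑ ω, ((Z t ω).card : ℝ) :=
          sum_le_sum_of_subset_of_nonneg (subset_univ _) fun _ _ _ => Nat.cast_nonneg _
  have h5 : ∑ ω : Sym2 (Fin n) → Fin (r + 1), ((Z t ω).card : ℝ) ≤ 2 * (D : ℝ) ^ t * Q := by
    have h6 : ((∑ ω : Sym2 (Fin n) → Fin (r + 1), (Z t ω).card : ℕ) : ℝ) ≤
        ((2 * D ^ t * Q : ℕ) : ℝ) := by exact_mod_cast h3
    push_cast at h6
    exact h6
  have h6 : (B.card : ℝ) * x ≤ 1 / 4 * Q * x := by
    refine (h4.trans h5).trans ?_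
    have h7 : 2 * (D : ℝ) ^ t ≤ 1 / 4 * x := by linarith
    calc 2 * (D : ℝ) ^ t * Q ≤ 1 / 4 * x * Q := mul_le_mul_of_nonneg_right h7 hQ0.le
      _ = 1 / 4 * Q * x := by ring
  exact le_of_mul_le_mul_right h6 hx0

/-- The positive tests, for given parameters. -/
theorem main (hC : StCyc) (e : ℝ) (he : 0 < e) (he1 : e ≤ 1) (k n t D K : ℕ) (hk : 2 * D ≤ K)
    (ht : 1 ≤ t) (hn : K ^ (t + 1) ≤ n) {V₀ : Type} [Fintype V₀] [DecidableEq V₀]
    (F₀ : SimpleGraph V₀) (hN : 0 < Fintype.card V₀)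
    (hD : 1100 * (Fintype.card V₀ : ℝ) ^ 2 ≤ e ^ 2 * D)
    (hF : ∀ U : Finset V₀, (∀ x y, F₀.Adj x y → x ∈ U ∨ y ∈ U) →
      (1 - e / 8) * (Fintype.card V₀ : ℝ) ≤ (U.card : ℝ))
    (μ : Finset V₀ → Finset V₀ → ℝ) (hμ : SDP.IsSol F₀ k μ)
    (hμ1 : ∀ x, μ {x} {x} ≤ 1 / 2 + e / 8) :
    ∃ (Ω : Type) (_ : Fintype Ω) (_ : Nonempty Ω) (H : Ω → SimpleGraph (Fin n)),
      (∀ E : Finset (Sym2 (Fin n)),
        prP (fun ω => In E (H ω)) ≤ ((K : ℝ) / n) ^ E.card) ∧
      (∀ (ω : Ω) (v : Fin n) (p : (H ω).Walk v v), p.IsCycle → t < p.length) ∧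
      (∀ ω : Ω, ∃ μ : Finset (Fin n) → Finset (Fin n) → ℝ, SDP.IsSol (H ω) k μ ∧
        ∀ x, μ {x} {x} ≤ 1 / 2 + e / 8) ∧
      1 / 2 ≤ prP fun ω => ∀ U : Finset (Fin n), IsVertexCover (H ω) U →
        (1 - e) * (n : ℝ) ≤ (U.card : ℝ) := by
  classical
  set N : ℕ := Fintype.card V₀ with hNdef
  have hN1 : (1 : ℝ) ≤ N := by exact_mod_cast hN
  have he2 : e ^ 2 ≤ 1 := by nlinarith
  have hDr : 1100 * (N : ℝ) ^ 2 ≤ D := by nlinarith [Nat.cast_nonneg (α := ℝ) D]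
  have hD1100 : (1100 : ℝ) ≤ D := by nlinarith
  have hD1 : 1100 ≤ D := by exact_mod_cast hD1100
  have hK1 : 1 ≤ K := by omega
  have hKn : K ≤ n := (Nat.le_self_pow (by omega) K).trans hn
  have hDn : D ≤ n := by omega
  have hnr : (D : ℝ) ≤ n := by exact_mod_cast hDn
  have hn0 : (0 : ℝ) < n := by linarith
  have hND : (N : ℝ) ≤ D := by nlinarith
  have hNn : (N : ℝ) ≤ n := hND.trans hnr
  -- `r`
  obtain ⟨r, hr⟩ : ∃ r, r + 1 = n / D := by
    have : 1 ≤ n / D := (Nat.one_le_div_iff (by omega)).2 hDn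
    exact ⟨n / D - 1, by omega⟩
  have hr1 : D * (r + 1) ≤ n := by
    rw [hr]
    exact Nat.mul_div_le n D
  have hr2 : n ≤ 2 * D * (r + 1) := by
    have h1 : n < D * (n / D + 1) := by
      have h2 := Nat.div_add_mod n D
      have h3 := Nat.mod_lt n (show 0 < D by omega)
      rw [Nat.mul_add]
      omega
    rw [← hr] at h1
    have h2 : D * (r + 1 + 1) ≤ 2 * D * (r + 1) := by nlinarith
    omega
  obtain ⟨b, hb⟩ := exists_fib n (V₀ := V₀) hN
  -- `s`
  set x : ℝ := e * n / (8 * N) with hx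
  have hN0 : (0 : ℝ) < N := by linarith
  have hxN : x * (8 * N) = e * n := by
    rw [hx]
    field_simp
  have hen : 1100 * (N : ℝ) ≤ e * n := by
    have h1 : 1100 * (N : ℝ) ^ 2 ≤ e ^ 2 * n := hD.trans (by nlinarith)
    have h2 : e ^ 2 * n ≤ e * n := by nlinarith
    nlinarith
  have hx2 : 2 ≤ x := by
    rw [hx, le_div_iff₀ (by positivity)]
    nlinarith
  set s : ℕ := ⌊x⌋₊ with hs
  have hsx : (s : ℝ) ≤ x := Nat.floor_le (by linarith)
  have hsx2 : x / 2 ≤ s := by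
    have h1 : x < s + 1 := Nat.lt_floor_add_one x
    linarith
  have hss : (2 * n + 2) * (r + 1) ≤ s * s := by
    have h1 : (x / 2) * (x / 2) ≤ (s : ℝ) * s :=
      mul_le_mul hsx2 hsx2 (by linarith) (by linarith)
    have h2 : (D : ℝ) * ((r : ℝ) + 1) ≤ n := by exact_mod_cast hr1
    have h3 : 16 * (n : ℝ) * ((r : ℝ) + 1) ≤ x * x := by
      have h4 : x * x * (64 * (N : ℝ) ^ 2) = e ^ 2 * (n : ℝ) ^ 2 := by
        have : x * x * (64 * (N : ℝ) ^ 2) = (x * (8 * N)) ^ 2 := by ring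
        rw [this, hxN]
        ring
      have h5 : 16 * (n : ℝ) * ((r : ℝ) + 1) * D * (64 * (N : ℝ) ^ 2) ≤
          x * x * (64 * (N : ℝ) ^ 2) * D := by
        rw [h4]
        calc 16 * (n : ℝ) * ((r : ℝ) + 1) * D * (64 * (N : ℝ) ^ 2)
            = 1024 * (n : ℝ) * (N : ℝ) ^ 2 * (D * ((r : ℝ) + 1)) := by ring
          _ ≤ 1024 * (n : ℝ) * (N : ℝ) ^ 2 * n := mul_le_mul_of_nonneg_left h2 (by positivity)
          _ ≤ (n : ℝ) ^ 2 * (1100 * (N : ℝ) ^ 2) := by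
              have : 0 ≤ (n : ℝ) ^ 2 * (N : ℝ) ^ 2 := by positivity
              linarith
          _ ≤ (n : ℝ) ^ 2 * (e ^ 2 * D) := mul_le_mul_of_nonneg_left hD (by positivity)
          _ = e ^ 2 * (n : ℝ) ^ 2 * D := by ring
      have h6 : (0 : ℝ) < 64 * (N : ℝ) ^ 2 * D := by
        have : (0 : ℝ) < D := by linarith
        positivity
      refine le_of_mul_le_mul_right ?_ h6
      calc 16 * (n : ℝ) * ((r : ℝ) + 1) * (64 * (N : ℝ) ^ 2 * D)
          = 16 * (n : ℝ) * ((r : ℝ) + 1) * D * (64 * (N : ℝ) ^ 2) := by ring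
        _ ≤ x * x * (64 * (N : ℝ) ^ 2) * D := h5
        _ = x * x * (64 * (N : ℝ) ^ 2 * D) := by ring
    have h7 : (1 : ℝ) ≤ n := by linarith
    have h8 : (2 * (n : ℝ) + 2) * ((r : ℝ) + 1) ≤ s * s := by
      have h9 : (2 * (n : ℝ) + 2) * ((r : ℝ) + 1) ≤ 4 * n * ((r : ℝ) + 1) :=
        mul_le_mul_of_nonneg_right (by linarith) (by positivity)
      linarith
    exact_mod_cast h8
  refine ⟨Sym2 (Fin n) → Fin (r + 1), inferInstance, inferInstance, HG F₀ b t, ?_, ?_, ?_, ?_⟩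
  · intro E
    refine (prP_mono fun ω hω => in_HG hω).trans ?_
    rw [prP_col]
    refine pow_le_pow_left₀ (by positivity) ?_ _
    rw [div_le_div_iff₀ (by positivity) hn0, one_mul]
    have h1 : n ≤ K * (r + 1) := hr2.trans (Nat.mul_le_mul_right _ hk)
    exact_mod_cast h1
  · intro ω v p hp
    exact cyc_HG v p hp
  · intro ω
    refine ⟨Pull.pull b μ, isSol_pull hμ b fun u v h => h.2.2.2, fun y => ?_⟩
    rw [Pull.pull_self, Finset.image_singleton]
    exact hμ1 _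
  · -- the bad events
    have hb1 := prP_hole n r s hss
    have hb2 := prP_Z hC n r (2 * D) t hr2 (by omega) (e * n / 8) (by positivity) (by
      have h1 : ((2 * D : ℕ) : ℝ) ^ t ≤ (K : ℝ) ^ t :=
        pow_le_pow_left₀ (Nat.cast_nonneg _) (by exact_mod_cast hk) _
      have h2 : (K : ℝ) ^ t * K ≤ n := by
        rw [← pow_succ]
        exact_mod_cast hn
      have h3 : (64 : ℝ) ≤ e * K := by
        have h4 : (D : ℝ) ≤ K := by
          have : D ≤ K := by omega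
          exact_mod_cast this
        have h5 : 1100 ≤ e ^ 2 * D := le_trans (by nlinarith) hD
        have h6 : e ^ 2 * D ≤ e * K := by
          have h7 : e ^ 2 * D ≤ e * D := by nlinarith
          nlinarith
        linarith
      have h4 : (K : ℝ) ^ t * 64 ≤ (K : ℝ) ^ t * (e * K) :=
        mul_le_mul_of_nonneg_left h3 (by positivity)
      have h5 : (K : ℝ) ^ t * (e * K) ≤ e * n := by
        calc (K : ℝ) ^ t * (e * K) = e * ((K : ℝ) ^ t * K) := by ring
          _ ≤ e * n := mul_le_mul_of_nonneg_left h2 he.le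
      linarith)
    have hgood : prP (fun _ : Sym2 (Fin n) → Fin (r + 1) => True) ≤
        prP (fun ω : Sym2 (Fin n) → Fin (r + 1) => ∀ U : Finset (Fin n),
          IsVertexCover (HG F₀ b t ω) U → (1 - e) * (n : ℝ) ≤ (U.card : ℝ)) +
        (prP (fun ω : Sym2 (Fin n) → Fin (r + 1) => Sparse.HasHole s ω) +
          prP (fun ω : Sym2 (Fin n) → Fin (r + 1) => e * n / 8 < ((Z t ω).card : ℝ))) := by
      refine le_trans (prP_mono (B := fun ω => (∀ U : Finset (Fin n),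
          IsVertexCover (HG F₀ b t ω) U → (1 - e) * (n : ℝ) ≤ (U.card : ℝ)) ∨
          (Sparse.HasHole s ω ∨ e * n / 8 < ((Z t ω).card : ℝ))) ?_)
        ((prP_or _ _).trans (by
          have := prP_or (fun ω : Sym2 (Fin n) → Fin (r + 1) => Sparse.HasHole s ω)
            (fun ω => e * n / 8 < ((Z t ω).card : ℝ))
          linarith))
      intro ω _
      by_cases h1 : Sparse.HasHole s ω
      · exact Or.inr (Or.inl h1)
      by_cases h2 : e * n / 8 < ((Z t ω).card : ℝ)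
      · exact Or.inr (Or.inr h2)
      left
      intro U hU
      have h3 := cover_large F₀ b t s (n / N + 1) ω (e / 8 * N) hb (fun U hU => by
        have := hF U hU
        rw [← hNdef]
        linarith) h1 U hU
      rw [← hNdef] at h3
      have h4 : ((n / N + 1 : ℕ) : ℝ) * N ≤ n + N := by
        have h5 : (n / N + 1) * N ≤ n + N := by
          rw [Nat.add_mul, one_mul]
          exact Nat.add_le_add_right (Nat.div_mul_le_self n N) _
        exact_mod_cast h5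
      have h5 : e / 8 * N * ((n / N + 1 : ℕ) : ℝ) ≤ e / 8 * (n + n) := by
        calc e / 8 * N * ((n / N + 1 : ℕ) : ℝ) = e / 8 * (((n / N + 1 : ℕ) : ℝ) * N) := by ring
          _ ≤ e / 8 * (n + n) := mul_le_mul_of_nonneg_left (h4.trans (by linarith)) (by positivity)
      have h6 : (N : ℝ) * s ≤ e * n / 8 := by
        have h7 : (N : ℝ) * s ≤ N * x := mul_le_mul_of_nonneg_left hsx hN0.le
        have h8 : (N : ℝ) * x = e * n / 8 := by linarith
        linarith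
      have h7 : 0 ≤ e * n := by positivity
      push Not at h2
      linarith
    rw [prP_true] at hgood
    linarith

end PosAux

/-- (M3) -/
theorem stPos (hB : StBase) (hC : StCyc) : StPos := by
  intro ε hε
  set e : ℝ := min ε 1 with he
  have he0 : 0 < e := lt_min hε one_pos
  have he1 : e ≤ 1 := min_le_right _ _
  have heε : e ≤ ε := min_le_left _ _
  obtain ⟨C₁, hC₁⟩ := hB (e / 8) (by positivity)
  obtain ⟨C₂, hC₂⟩ : ∃ C₂ : ℕ, 1100 / e ^ 2 ≤ (2 : ℝ) ^ C₂ := by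
    obtain ⟨m, hm⟩ := pow_unbounded_of_one_lt (1100 / e ^ 2) (one_lt_two (α := ℝ))
    exact ⟨m, hm.le⟩
  refine ⟨2 * C₁ + C₂ + 1, fun k n t hk ht hn => ?_⟩
  obtain ⟨V₀, i1, i2, F₀, hN, hN2, hF, μ, hμ, hμ1⟩ := hC₁ k hk
  have hk2 : 1 ≤ k ^ 2 := Nat.one_le_pow _ _ hk
  have h1 : 2 * 2 ^ ((2 * C₁ + C₂) * k ^ 2) ≤ 2 ^ ((2 * C₁ + C₂ + 1) * k ^ 2) := by
    rw [← pow_succ']
    refine Nat.pow_le_pow_right (by omega) ?_
    have h3 : (2 * C₁ + C₂ + 1) * k ^ 2 = (2 * C₁ + C₂) * k ^ 2 + k ^ 2 := by ring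
    rw [h3]
    exact Nat.add_le_add_left hk2 _
  have h2 : 1100 * (Fintype.card V₀ : ℝ) ^ 2 ≤
      e ^ 2 * ((2 ^ ((2 * C₁ + C₂) * k ^ 2) : ℕ) : ℝ) := by
    have h3 : (Fintype.card V₀ : ℝ) ≤ (2 : ℝ) ^ (C₁ * k ^ 2) := by exact_mod_cast hN2
    have h4 : (Fintype.card V₀ : ℝ) ^ 2 ≤ (2 : ℝ) ^ (2 * C₁ * k ^ 2) := by
      calc (Fintype.card V₀ : ℝ) ^ 2 ≤ ((2 : ℝ) ^ (C₁ * k ^ 2)) ^ 2 :=
            pow_le_pow_left₀ (Nat.cast_nonneg _) h3 _
        _ = (2 : ℝ) ^ (2 * C₁ * k ^ 2) := by rw [← pow_mul]; congr 1; ring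
    have h5 : 1100 ≤ e ^ 2 * (2 : ℝ) ^ (C₂ * k ^ 2) := by
      have h6 : (2 : ℝ) ^ C₂ ≤ (2 : ℝ) ^ (C₂ * k ^ 2) :=
        pow_le_pow_right₀ one_le_two (Nat.le_mul_of_pos_right _ (by omega))
      have h7 : 1100 ≤ e ^ 2 * (2 : ℝ) ^ C₂ := by
        rw [div_le_iff₀ (by positivity)] at hC₂
        linarith
      exact h7.trans (mul_le_mul_of_nonneg_left h6 (by positivity))
    push_cast
    calc 1100 * (Fintype.card V₀ : ℝ) ^ 2
        ≤ (e ^ 2 * (2 : ℝ) ^ (C₂ * k ^ 2)) * (2 : ℝ) ^ (2 * C₁ * k ^ 2) :=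
          mul_le_mul h5 h4 (by positivity) (by positivity)
      _ = e ^ 2 * (2 : ℝ) ^ ((2 * C₁ + C₂) * k ^ 2) := by
          rw [Nat.add_mul, pow_add]
          ring
  obtain ⟨Ω, i3, i4, H, a1, a2, a3, a4⟩ := PosAux.main hC e he0 he1 k n t
    (2 ^ ((2 * C₁ + C₂) * k ^ 2)) (2 ^ ((2 * C₁ + C₂ + 1) * k ^ 2)) h1 ht hn F₀ hN h2 hF μ hμ hμ1
  refine ⟨Ω, i3, i4, H, ?_, a2, ?_, ?_⟩
  · intro E
    have := a1 E
    push_cast at this
    exact this
  · intro ω
    obtain ⟨ν, b1, b2⟩ := a3 ω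
    exact ⟨ν, b1, fun x => (b2 x).trans (by linarith)⟩
  · refine a4.trans (prP_mono fun ω h U hU => ?_)
    refine le_trans ?_ (h U hU)
    exact mul_le_mul_of_nonneg_right (by linarith) (Nat.cast_nonneg _)

end Pool.Agent.Lib.MP_cff830_lc.MR
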