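import Pool.Agent.Lib.MP_cff830_lc.MR.StmtsX59
import Pool.Agent.Lib.MP_cff830_lc.MR.Pos
import Pool.Agent.Lib.MP_cff830_lc.MR.CntX97

/-!
# Monotone circuits over relaxations of vertex cover: the positive tests, exponential size
-/

set_option autoImplicit false

namespace Pool.Agent.Lib.MP_cff830_lc.MR

open Finset

namespace PosXAux

open PosAux

/-! ### The graphs -/

/-- Some small set of pairs of the random graph is dense. -/
def Bad {n r : ℕ} (t : ℕ) (ω : Sym2 (Fin n) → Fin (r + 1)) : Prop :=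
  ∃ F : Finset (Sym2 (Fin n)), F.Nonempty ∧ (∀ e ∈ F, ¬ e.IsDiag ∧ ω e = 0) ∧ F.card ≤ t ∧
    3 * (vs F).card ≤ 2 * F.card

/-- The random graph has no dense small set of pairs. -/
def CntX : Prop := ∀ n r t K : ℕ, 1 ≤ t → 2 ≤ K → n ≤ K * (r + 1) → (K * t) ^ 24 ≤ n →
  prP (fun ω : Sym2 (Fin n) → Fin (r + 1) => Bad t ω) ≤ 1 / 8

/-- The positive tests. -/
def HX {n r : ℕ} {V₀ : Type} (F₀ : SimpleGraph V₀) (b : Fin n → V₀) (t : ℕ)
    (ω : Sym2 (Fin n) → Fin (r + 1)) : SimpleGraph (Fin n) where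
  Adj u v := (GSI.Gr ω).Adj u v ∧ ¬ Bad t ω ∧ F₀.Adj (b u) (b v)
  symm := ⟨fun _ _ h => ⟨h.1.symm, h.2.1, h.2.2.symm⟩⟩
  loopless := ⟨fun _ h => (GSI.Gr ω).loopless.irrefl _ h.1⟩

theorem HX_adj {n r : ℕ} {V₀ : Type} {F₀ : SimpleGraph V₀} {b : Fin n → V₀} {t : ℕ}
    {ω : Sym2 (Fin n) → Fin (r + 1)} {u v : Fin n} : (HX F₀ b t ω).Adj u v ↔
      (GSI.Gr ω).Adj u v ∧ ¬ Bad t ω ∧ F₀.Adj (b u) (b v) := Iff.rfl

theorem in_HX' {n r : ℕ} {V₀ : Type} {F₀ : SimpleGraph V₀} {b : Fin n → V₀} {t : ℕ}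
    {ω : Sym2 (Fin n) → Fin (r + 1)} {E : Finset (Sym2 (Fin n))} (h : In E (HX F₀ b t ω)) :
    ∀ e ∈ E, ¬ e.IsDiag ∧ ω e = 0 ∧ ¬ Bad t ω := by
  intro e he
  have h1 := h e he
  induction e using Sym2.ind with
  | _ x y =>
    rw [SimpleGraph.mem_edgeSet, HX_adj, GSI.Gr, SimpleGraph.fromEdgeSet_adj] at h1
    refine ⟨?_, h1.1.1, h1.2.1⟩
    rw [Sym2.mk_isDiag_iff]
    exact h1.1.2

theorem in_HX {n r : ℕ} {V₀ : Type} {F₀ : SimpleGraph V₀} {b : Fin n → V₀} {t : ℕ}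
    {ω : Sym2 (Fin n) → Fin (r + 1)} {E : Finset (Sym2 (Fin n))} (h : In E (HX F₀ b t ω)) :
    ∀ e ∈ E, ω e = 0 := fun e he => (in_HX' h e he).2.1

theorem col_HX (hCol : StCol) {n r : ℕ} {V₀ : Type} {F₀ : SimpleGraph V₀} {b : Fin n → V₀}
    {t : ℕ} {ω : Sym2 (Fin n) → Fin (r + 1)} {E : Finset (Sym2 (Fin n))}
    (h : In E (HX F₀ b t ω)) (ht : E.card ≤ t) : (gr E).Colorable 3 := by
  refine hCol n E fun F hF hne => ?_
  by_contra hcon
  push Not at hcon
  obtain ⟨e, he⟩ := hne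
  have h1 := in_HX' h e (hF he)
  exact h1.2.2 ⟨F, ⟨e, he⟩, fun e' he' => ⟨(in_HX' h e' (hF he')).1, (in_HX' h e' (hF he')).2.1⟩,
    (card_le_card hF).trans ht, hcon⟩

theorem cover_large {n r : ℕ} {V₀ : Type} [Fintype V₀] [DecidableEq V₀] (F₀ : SimpleGraph V₀)
    (b : Fin n → V₀) (t s M : ℕ) (ω : Sym2 (Fin n) → Fin (r + 1)) (a : ℝ)
    (hb : ∀ x, (univ.filter fun v => b v = x).card ≤ M)
    (hF : ∀ U : Finset V₀, (∀ x y, F₀.Adj x y → x ∈ U ∨ y ∈ U) →
      (Fintype.card V₀ : ℝ) - a ≤ (U.card : ℝ))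
    (hole : ¬ Sparse.HasHole s ω) (hbad : ¬ Bad t ω) (U : Finset (Fin n))
    (hU : IsVertexCover (HX F₀ b t ω) U) :
    (n : ℝ) ≤ (U.card : ℝ) + a * M + Fintype.card V₀ * s := by
  classical
  set S : Finset (Fin n) := univ.filter fun v => v ∉ U with hS
  set T : Finset V₀ := univ.filter fun x => s ≤ (S.filter fun v => b v = x).card with hT
  have hTs : ∀ x ∈ T, ∀ y ∈ T, ¬ F₀.Adj x y := by
    intro x hx y hy hxy
    obtain ⟨A, hA1, hA2⟩ := exists_subset_card_eq (mem_filter.1 hx).2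
    obtain ⟨B, hB1, hB2⟩ := exists_subset_card_eq (mem_filter.1 hy).2
    refine hole ⟨A, B, hA2, hB2, ?_, ?_⟩
    · rw [Finset.disjoint_left]
      intro v hvA hvB
      have h1 := (mem_filter.1 (hA1 hvA)).2
      have h2 := (mem_filter.1 (hB1 hvB)).2
      rw [← h1, ← h2] at hxy
      exact F₀.loopless.irrefl _ hxy
    · intro u hu v hv h0
      have h1 := mem_filter.1 (hA1 hu)
      have h2 := mem_filter.1 (hB1 hv)
      have h3 := (mem_filter.1 h1.1).2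
      have h4 := (mem_filter.1 h2.1).2
      have h5 : (HX F₀ b t ω).Adj u v := by
        rw [HX_adj]
        refine ⟨?_, hbad, by rw [h1.2, h2.2]; exact hxy⟩
        rw [GSI.Gr, SimpleGraph.fromEdgeSet_adj]
        refine ⟨h0, fun hne => ?_⟩
        have h6 := h1.2
        rw [hne, h2.2] at h6
        rw [h6] at hxy
        exact F₀.loopless.irrefl _ hxy
      rcases hU u v h5 with h6 | h6
      · exact h3 h6
      · exact h4 h6
  have hTa : (T.card : ℝ) ≤ a := by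
    have h1 := hF Tᶜ (fun x y hxy => by
      by_contra hcon
      rw [not_or, mem_compl, mem_compl, not_not, not_not] at hcon
      exact hTs x hcon.1 y hcon.2 hxy)
    have h2 : (T.card : ℝ) + (Tᶜ.card : ℝ) = (Fintype.card V₀ : ℝ) := by
      exact_mod_cast Finset.card_add_card_compl T
    linarith
  have h1 : S.card = ∑ x, (S.filter fun v => b v = x).card :=
    Finset.card_eq_sum_card_fiberwise fun v _ => mem_coe.2 (mem_univ _)
  have h2 : ∑ x, (S.filter fun v => b v = x).card ≤ ∑ x, ((if x ∈ T then M else 0) + s) := by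
    refine sum_le_sum fun x _ => ?_
    by_cases hx : x ∈ T
    · rw [if_pos hx]
      have h3 : (S.filter fun v => b v = x).card ≤ M :=
        (card_le_card (filter_subset_filter _ (subset_univ _))).trans (hb x)
      omega
    · rw [if_neg hx]
      have h3 : ¬ s ≤ (S.filter fun v => b v = x).card := fun h =>
        hx (mem_filter.2 ⟨mem_univ _, h⟩)
      omega
  have h3 : ∑ x, ((if x ∈ T then M else 0) + s) = T.card * M + Fintype.card V₀ * s := by
    rw [sum_add_distrib, sum_ite_mem, univ_inter, sum_const, smul_eq_mul, sum_const, card_univ,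
      smul_eq_mul]
  have h4 : S.card ≤ T.card * M + Fintype.card V₀ * s := by
    rw [h1]
    exact h2.trans h3.le
  have h5 : n ≤ U.card + S.card := by
    have h6 : (univ : Finset (Fin n)) ⊆ U ∪ S := by
      intro v _
      simp only [hS, mem_union, mem_filter, mem_univ, true_and]
      tauto
    have h7 := card_le_card h6
    rw [card_univ, Fintype.card_fin] at h7
    exact h7.trans (card_union_le _ _)
  have h6 : (S.card : ℝ) ≤ T.card * M + Fintype.card V₀ * s := by exact_mod_cast h4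
  have h7 : (n : ℝ) ≤ U.card + S.card := by exact_mod_cast h5
  have h8 : (T.card : ℝ) * M ≤ a * M := mul_le_mul_of_nonneg_right hTa (Nat.cast_nonneg _)
  linarith

/-! ### Probabilities -/

/-- The positive tests, for given parameters. -/
theorem main (hCol : StCol) (hcnt : CntX) (e : ℝ) (he : 0 < e) (he1 : e ≤ 1) (k n t D K : ℕ) (hk : 2 * D ≤ K)
    (ht : 1 ≤ t) (hn : (K * t) ^ 24 ≤ n) {V₀ : Type} [Fintype V₀] [DecidableEq V₀]
    (F₀ : SimpleGraph V₀) (hN : 0 < Fintype.card V₀)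
    (hD : 1100 * (Fintype.card V₀ : ℝ) ^ 2 ≤ e ^ 2 * D)
    (hF : ∀ U : Finset V₀, (∀ x y, F₀.Adj x y → x ∈ U ∨ y ∈ U) →
      (1 - e / 8) * (Fintype.card V₀ : ℝ) ≤ (U.card : ℝ))
    (μ : Finset V₀ → Finset V₀ → ℝ) (hμ : SDP.IsSol F₀ k μ)
    (hμ1 : ∀ x, μ {x} {x} ≤ 1 / 2 + e / 8) :
    ∃ (Ω : Type) (_ : Fintype Ω) (_ : Nonempty Ω) (H : Ω → SimpleGraph (Fin n)),
      (∀ E : Finset (Sym2 (Fin n)),
        prP (fun ω => In E (H ω)) ≤ ((K : ℝ) / n) ^ E.card) ∧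
      (∀ (ω : Ω) (E : Finset (Sym2 (Fin n))), In E (H ω) → E.card ≤ t → (gr E).Colorable 3) ∧
      (∀ ω : Ω, ∃ μ : Finset (Fin n) → Finset (Fin n) → ℝ, SDP.IsSol (H ω) k μ ∧
        ∀ x, μ {x} {x} ≤ 1 / 2 + e / 8) ∧
      1 / 2 ≤ prP fun ω => ∀ U : Finset (Fin n), IsVertexCover (H ω) U →
        (1 - e) * (n : ℝ) ≤ (U.card : ℝ) := by
  classical
  set N : ℕ := Fintype.card V₀ with hNdef
  have hN1 : (1 : ℝ) ≤ N := by exact_mod_cast hN
  have he2 : e ^ 2 ≤ 1 := by nlinarith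
  have hDr : 1100 * (N : ℝ) ^ 2 ≤ D := by nlinarith [Nat.cast_nonneg (α := ℝ) D]
  have hD1100 : (1100 : ℝ) ≤ D := by nlinarith
  have hD1 : 1100 ≤ D := by exact_mod_cast hD1100
  have hK1 : 1 ≤ K := by omega
  have hKn : K ≤ n := by
    refine le_trans ?_ hn
    exact (Nat.le_mul_of_pos_right K (by omega)).trans (Nat.le_self_pow (by omega) _)
  have hDn : D ≤ n := by omega
  have hnr : (D : ℝ) ≤ n := by exact_mod_cast hDn
  have hn0 : (0 : ℝ) < n := by linarith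
  have hND : (N : ℝ) ≤ D := by nlinarith
  have hNn : (N : ℝ) ≤ n := hND.trans hnr
  -- `r`
  obtain ⟨r, hr⟩ : ∃ r, r + 1 = n / D := by
    have : 1 ≤ n / D := (Nat.one_le_div_iff (by omega)).2 hDn
    exact ⟨n / D - 1, by omega⟩
  have hr1 : D * (r + 1) ≤ n := by
    rw [hr]
    exact Nat.mul_div_le n D
  have hr2 : n ≤ 2 * D * (r + 1) := by
    have h1 : n < D * (n / D + 1) := by
      have h2 := Nat.div_add_mod n D
      have h3 := Nat.mod_lt n (show 0 < D by omega)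
      rw [Nat.mul_add]
      omega
    rw [← hr] at h1
    have h2 : D * (r + 1 + 1) ≤ 2 * D * (r + 1) := by nlinarith
    omega
  obtain ⟨b, hb⟩ := exists_fib n (V₀ := V₀) hN
  -- `s`
  set x : ℝ := e * n / (8 * N) with hx
  have hN0 : (0 : ℝ) < N := by linarith
  have hxN : x * (8 * N) = e * n := by
    rw [hx]
    field_simp
  have hen : 1100 * (N : ℝ) ≤ e * n := by
    have h1 : 1100 * (N : ℝ) ^ 2 ≤ e ^ 2 * n := hD.trans (by nlinarith)
    have h2 : e ^ 2 * n ≤ e * n := by nlinarith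
    nlinarith
  have hx2 : 2 ≤ x := by
    rw [hx, le_div_iff₀ (by positivity)]
    nlinarith
  set s : ℕ := ⌊x⌋₊ with hs
  have hsx : (s : ℝ) ≤ x := Nat.floor_le (by linarith)
  have hsx2 : x / 2 ≤ s := by
    have h1 : x < s + 1 := Nat.lt_floor_add_one x
    linarith
  have hss : (2 * n + 2) * (r + 1) ≤ s * s := by
    have h1 : (x / 2) * (x / 2) ≤ (s : ℝ) * s :=
      mul_le_mul hsx2 hsx2 (by linarith) (by linarith)
    have h2 : (D : ℝ) * ((r : ℝ) + 1) ≤ n := by exact_mod_cast hr1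
    have h3 : 16 * (n : ℝ) * ((r : ℝ) + 1) ≤ x * x := by
      have h4 : x * x * (64 * (N : ℝ) ^ 2) = e ^ 2 * (n : ℝ) ^ 2 := by
        have : x * x * (64 * (N : ℝ) ^ 2) = (x * (8 * N)) ^ 2 := by ring
        rw [this, hxN]
        ring
      have h5 : 16 * (n : ℝ) * ((r : ℝ) + 1) * D * (64 * (N : ℝ) ^ 2) ≤
          x * x * (64 * (N : ℝ) ^ 2) * D := by
        rw [h4]
        calc 16 * (n : ℝ) * ((r : ℝ) + 1) * D * (64 * (N : ℝ) ^ 2)
            = 1024 * (n : ℝ) * (N : ℝ) ^ 2 * (D * ((r : ℝ) + 1)) := by ring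
          _ ≤ 1024 * (n : ℝ) * (N : ℝ) ^ 2 * n := mul_le_mul_of_nonneg_left h2 (by positivity)
          _ ≤ (n : ℝ) ^ 2 * (1100 * (N : ℝ) ^ 2) := by
              have : 0 ≤ (n : ℝ) ^ 2 * (N : ℝ) ^ 2 := by positivity
              linarith
          _ ≤ (n : ℝ) ^ 2 * (e ^ 2 * D) := mul_le_mul_of_nonneg_left hD (by positivity)
          _ = e ^ 2 * (n : ℝ) ^ 2 * D := by ring
      have h6 : (0 : ℝ) < 64 * (N : ℝ) ^ 2 * D := by
        have : (0 : ℝ) < D := by linarith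
        positivity
      refine le_of_mul_le_mul_right ?_ h6
      calc 16 * (n : ℝ) * ((r : ℝ) + 1) * (64 * (N : ℝ) ^ 2 * D)
          = 16 * (n : ℝ) * ((r : ℝ) + 1) * D * (64 * (N : ℝ) ^ 2) := by ring
        _ ≤ x * x * (64 * (N : ℝ) ^ 2) * D := h5
        _ = x * x * (64 * (N : ℝ) ^ 2 * D) := by ring
    have h7 : (1 : ℝ) ≤ n := by linarith
    have h8 : (2 * (n : ℝ) + 2) * ((r : ℝ) + 1) ≤ s * s := by
      have h9 : (2 * (n : ℝ) + 2) * ((r : ℝ) + 1) ≤ 4 * n * ((r : ℝ) + 1) :=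
        mul_le_mul_of_nonneg_right (by linarith) (by positivity)
      linarith
    exact_mod_cast h8
  refine ⟨Sym2 (Fin n) → Fin (r + 1), inferInstance, inferInstance, HX F₀ b t, ?_, ?_, ?_, ?_⟩
  · intro E
    refine (prP_mono fun ω hω => in_HX hω).trans ?_
    rw [prP_col]
    refine pow_le_pow_left₀ (by positivity) ?_ _
    rw [div_le_div_iff₀ (by positivity) hn0, one_mul]
    have h1 : n ≤ K * (r + 1) := hr2.trans (Nat.mul_le_mul_right _ hk)
    exact_mod_cast h1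
  · intro ω E hE ht
    exact col_HX hCol hE ht
  · intro ω
    refine ⟨Pull.pull b μ, isSol_pull hμ b fun u v h => h.2.2, fun y => ?_⟩
    rw [Pull.pull_self, Finset.image_singleton]
    exact hμ1 _
  · -- the bad events
    have hb1 := prP_hole n r s hss
    have hb2 : prP (fun ω : Sym2 (Fin n) → Fin (r + 1) => Bad t ω) ≤ 1 / 8 :=
      hcnt n r t K ht (by omega) (hr2.trans (Nat.mul_le_mul_right _ hk)) hn
    have hgood : prP (fun _ : Sym2 (Fin n) → Fin (r + 1) => True) ≤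
        prP (fun ω : Sym2 (Fin n) → Fin (r + 1) => ∀ U : Finset (Fin n),
          IsVertexCover (HX F₀ b t ω) U → (1 - e) * (n : ℝ) ≤ (U.card : ℝ)) +
        (prP (fun ω : Sym2 (Fin n) → Fin (r + 1) => Sparse.HasHole s ω) +
          prP (fun ω : Sym2 (Fin n) → Fin (r + 1) => Bad t ω)) := by
      refine le_trans (prP_mono (B := fun ω => (∀ U : Finset (Fin n),
          IsVertexCover (HX F₀ b t ω) U → (1 - e) * (n : ℝ) ≤ (U.card : ℝ)) ∨
          (Sparse.HasHole s ω ∨ Bad t ω)) ?_)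
        ((prP_or _ _).trans (by
          have := prP_or (fun ω : Sym2 (Fin n) → Fin (r + 1) => Sparse.HasHole s ω)
            (fun ω => Bad t ω)
          linarith))
      intro ω _
      by_cases h1 : Sparse.HasHole s ω
      · exact Or.inr (Or.inl h1)
      by_cases h2 : Bad t ω
      · exact Or.inr (Or.inr h2)
      left
      intro U hU
      have h3 := cover_large F₀ b t s (n / N + 1) ω (e / 8 * N) hb (fun U hU => by
        have := hF U hU
        rw [← hNdef]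
        linarith) h1 h2 U hU
      rw [← hNdef] at h3
      have h4 : ((n / N + 1 : ℕ) : ℝ) * N ≤ n + N := by
        have h5 : (n / N + 1) * N ≤ n + N := by
          rw [Nat.add_mul, one_mul]
          exact Nat.add_le_add_right (Nat.div_mul_le_self n N) _
        exact_mod_cast h5
      have h5 : e / 8 * N * ((n / N + 1 : ℕ) : ℝ) ≤ e / 8 * (n + n) := by
        calc e / 8 * N * ((n / N + 1 : ℕ) : ℝ) = e / 8 * (((n / N + 1 : ℕ) : ℝ) * N) := by ring
          _ ≤ e / 8 * (n + n) := mul_le_mul_of_nonneg_left (h4.trans (by linarith)) (by positivity)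
      have h6 : (N : ℝ) * s ≤ e * n / 8 := by
        have h7 : (N : ℝ) * s ≤ N * x := mul_le_mul_of_nonneg_left hsx hN0.le
        have h8 : (N : ℝ) * x = e * n / 8 := by linarith
        linarith
      have h7 : 0 ≤ e * n := by positivity
      linarith
    rw [prP_true] at hgood
    linarith

/-- The count of `CntX97.lean`. -/
theorem cntX : CntX := by
  classical
  intro n r t K ht _ hKr hn
  have h1 : (K * t ^ 2) ^ 12 ≤ n := by
    refine le_trans ?_ hn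
    rcases Nat.eq_zero_or_pos K with hK | hK
    · rw [hK]
      simp
    · have h2 : (K * t) ^ 24 = ((K * t) ^ 2) ^ 12 := by rw [← pow_mul]
      rw [h2]
      refine Nat.pow_le_pow_left ?_ 12
      rw [mul_pow]
      refine Nat.mul_le_mul_right _ ?_
      rw [pow_two]
      exact Nat.le_mul_of_pos_left K hK
  have h := MR.cntX n r K t hKr h1
  rw [prP_eq]
  have h3 : (0 : ℝ) < (Fintype.card (Sym2 (Fin n) → Fin (r + 1)) : ℝ) := by
    exact_mod_cast Fintype.card_pos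
  rw [div_le_iff₀ h3]
  have h4 : (univ.filter fun ω : Sym2 (Fin n) → Fin (r + 1) => Bad t ω).card ≤
      (univ.filter fun ω : Sym2 (Fin n) → Fin (r + 1) => ∃ F : Finset (Sym2 (Fin n)),
      F.Nonempty ∧ In F (GSI.Gr ω) ∧ F.card ≤ t ∧ 3 * (vs F).card ≤ 2 * F.card).card := by
    refine card_le_card fun ω hω => ?_
    rw [mem_filter] at hω ⊢
    obtain ⟨-, F, hne, hF, hcard, hd⟩ := hω
    refine ⟨mem_univ _, F, hne, fun e he => ?_, hcard, hd⟩
    have h5 := hF e he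
    induction e using Sym2.ind with
    | _ x y =>
      rw [SimpleGraph.mem_edgeSet, GSI.Gr, SimpleGraph.fromEdgeSet_adj]
      rw [Sym2.mk_isDiag_iff] at h5
      exact ⟨h5.2, h5.1⟩
  have h6 : (8 : ℝ) * ((univ.filter fun ω : Sym2 (Fin n) → Fin (r + 1) => Bad t ω).card : ℝ) ≤
      (Fintype.card (Sym2 (Fin n) → Fin (r + 1)) : ℝ) := by
    exact_mod_cast (Nat.mul_le_mul_left 8 h4).trans h
  linarith

end PosXAux

theorem stPosX (hB : StBase) (hC : StCol) : StPosX := by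
  intro ε hε
  set e : ℝ := min ε 1 with he
  have he0 : 0 < e := lt_min hε one_pos
  have he1 : e ≤ 1 := min_le_right _ _
  have heε : e ≤ ε := min_le_left _ _
  obtain ⟨C₁, hC₁⟩ := hB (e / 8) (by positivity)
  obtain ⟨C₂, hC₂⟩ : ∃ C₂ : ℕ, 1100 / e ^ 2 ≤ (2 : ℝ) ^ C₂ := by
    obtain ⟨m, hm⟩ := pow_unbounded_of_one_lt (1100 / e ^ 2) (one_lt_two (α := ℝ))
    exact ⟨m, hm.le⟩
  refine ⟨2 * C₁ + C₂ + 1, fun k n t hk ht hn => ?_⟩
  obtain ⟨V₀, i1, i2, F₀, hN, hN2, hF, μ, hμ, hμ1⟩ := hC₁ k hk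
  have hk2 : 1 ≤ k ^ 2 := Nat.one_le_pow _ _ hk
  have h1 : 2 * 2 ^ ((2 * C₁ + C₂) * k ^ 2) ≤ 2 ^ ((2 * C₁ + C₂ + 1) * k ^ 2) := by
    rw [← pow_succ']
    refine Nat.pow_le_pow_right (by omega) ?_
    have h3 : (2 * C₁ + C₂ + 1) * k ^ 2 = (2 * C₁ + C₂) * k ^ 2 + k ^ 2 := by ring
    rw [h3]
    exact Nat.add_le_add_left hk2 _
  have h2 : 1100 * (Fintype.card V₀ : ℝ) ^ 2 ≤
      e ^ 2 * ((2 ^ ((2 * C₁ + C₂) * k ^ 2) : ℕ) : ℝ) := by
    have h3 : (Fintype.card V₀ : ℝ) ≤ (2 : ℝ) ^ (C₁ * k ^ 2) := by exact_mod_cast hN2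
    have h4 : (Fintype.card V₀ : ℝ) ^ 2 ≤ (2 : ℝ) ^ (2 * C₁ * k ^ 2) := by
      calc (Fintype.card V₀ : ℝ) ^ 2 ≤ ((2 : ℝ) ^ (C₁ * k ^ 2)) ^ 2 :=
            pow_le_pow_left₀ (Nat.cast_nonneg _) h3 _
        _ = (2 : ℝ) ^ (2 * C₁ * k ^ 2) := by rw [← pow_mul]; congr 1; ring
    have h5 : 1100 ≤ e ^ 2 * (2 : ℝ) ^ (C₂ * k ^ 2) := by
      have h6 : (2 : ℝ) ^ C₂ ≤ (2 : ℝ) ^ (C₂ * k ^ 2) :=
        pow_le_pow_right₀ one_le_two (Nat.le_mul_of_pos_right _ (by omega))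
      have h7 : 1100 ≤ e ^ 2 * (2 : ℝ) ^ C₂ := by
        rw [div_le_iff₀ (by positivity)] at hC₂
        linarith
      exact h7.trans (mul_le_mul_of_nonneg_left h6 (by positivity))
    push_cast
    calc 1100 * (Fintype.card V₀ : ℝ) ^ 2
        ≤ (e ^ 2 * (2 : ℝ) ^ (C₂ * k ^ 2)) * (2 : ℝ) ^ (2 * C₁ * k ^ 2) :=
          mul_le_mul h5 h4 (by positivity) (by positivity)
      _ = e ^ 2 * (2 : ℝ) ^ ((2 * C₁ + C₂) * k ^ 2) := by
          rw [Nat.add_mul, pow_add]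
          ring
  obtain ⟨Ω, i3, i4, H, a1, a2, a3, a4⟩ := PosXAux.main hC PosXAux.cntX e he0 he1 k n t
    (2 ^ ((2 * C₁ + C₂) * k ^ 2)) (2 ^ ((2 * C₁ + C₂ + 1) * k ^ 2)) h1 ht hn F₀ hN h2 hF μ hμ hμ1
  refine ⟨Ω, i3, i4, H, ?_, a2, ?_, ?_⟩
  · intro E
    have := a1 E
    push_cast at this
    exact this
  · intro ω
    obtain ⟨ν, b1, b2⟩ := a3 ω
    exact ⟨ν, b1, fun x => (b2 x).trans (by linarith)⟩
  · refine a4.trans (prP_mono fun ω h U hU => ?_)
    refine le_trans ?_ (h U hU)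
    exact mul_le_mul_of_nonneg_right (by linarith) (Nat.cast_nonneg _)

end Pool.Agent.Lib.MP_cff830_lc.MR
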