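import Pool.Agent.Lib.MP_cff830_lc.MR.Defs

/-!
# Local linear programmes for vertex cover: the odd walk inequalities

Copies of `walk_lower` (`FracGS/Gap.lean`) and of some lemmas of `MP_cff830_lc/Local.lean`, without
the imports of that file.
-/

set_option autoImplicit false
set_option linter.unusedSectionVars false

namespace Pool.Agent.Lib.MP_cff830_lc.MR.RelLoc

open Finset Classical

/-- The sum over a walk, with the edge constraints. -/
theorem walk_lower {V : Type} (G : SimpleGraph V) (x : V → ℝ)
    (hE : ∀ u v, G.Adj u v → 1 ≤ x u + x v) {u v : V} (p : G.Walk u v) :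
    (p.length : ℝ) + x v ≤ 2 * (p.support.tail.map x).sum + x u := by
  induction p with
  | nil => simp
  | @cons u w v h p ih =>
    have h1 : (SimpleGraph.Walk.cons h p).support.tail = p.support := by simp
    have h2 : p.support = w :: p.support.tail := (SimpleGraph.Walk.cons_tail_support p).symm
    rw [h1, h2, List.map_cons, List.sum_cons, SimpleGraph.Walk.length_cons]
    have h3 := hE u w h
    push_cast
    linarith

theorem sum_map_isLinear {W : Type} (l : List W) :
    IsLinearMap ℝ (fun y : W → ℝ => (l.map y).sum) := by
  induction l with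
  | nil => exact ⟨fun _ _ => by simp, fun _ _ => by simp⟩
  | cons a l ih =>
    refine ⟨fun x y => ?_, fun c x => ?_⟩
    · have h1 := ih.1 x y
      simp only [List.map_cons, List.sum_cons, Pi.add_apply]
      rw [h1]
      ring
    · have h1 := ih.2 c x
      simp only [smul_eq_mul] at h1
      simp only [List.map_cons, List.sum_cons, Pi.smul_apply, smul_eq_mul]
      rw [h1]
      ring

/-- A lower bound for a sum of coordinates passes from the vertex covers to their convex hull. -/
theorem hull_le {W : Type} (H : SimpleGraph W) (l : List W) (c : ℝ)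
    (h : ∀ y ∈ coverVectors H, c ≤ (l.map y).sum) {x : W → ℝ}
    (hx : x ∈ convexHull ℝ (coverVectors H)) : c ≤ (l.map x).sum :=
  (convexHull_min (fun y hy => h y hy) (convex_halfSpace_ge (sum_map_isLinear l) c)) hx

/-- The odd walk inequality for vertex covers. -/
theorem cover_walk {W : Type} (H : SimpleGraph W) {y : W → ℝ} (hy : y ∈ coverVectors H)
    {v : W} (p : H.Walk v v) (hp : Odd p.length) :
    ((p.length : ℝ) + 1) / 2 ≤ (p.support.tail.map y).sum := by
  have hE : ∀ u v, H.Adj u v → (1 : ℝ) ≤ y u + y v := by
    intro u v huv
    rcases hy.2 u v huv with h | h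
    · rcases hy.1 v with h' | h' <;> rw [h, h'] <;> norm_num
    · rcases hy.1 u with h' | h' <;> rw [h, h'] <;> norm_num
  have h1 := walk_lower H y hE p
  have h2 : ∃ N : ℕ, (p.support.tail.map y).sum = N := by
    induction p.support.tail with
    | nil => exact ⟨0, by simp⟩
    | cons a l ih =>
      obtain ⟨N, hN⟩ := ih
      rw [List.map_cons, List.sum_cons, hN]
      rcases hy.1 a with ha | ha
      · exact ⟨N, by rw [ha]; ring⟩
      · exact ⟨N + 1, by rw [ha]; push_cast; ring⟩
  obtain ⟨N, hN⟩ := h2
  rw [hN] at h1 ⊢
  have h3 : p.length ≤ 2 * N := by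
    have : (p.length : ℝ) ≤ 2 * N := by linarith
    exact_mod_cast this
  have h4 : p.length + 1 ≤ 2 * N := by
    obtain ⟨k, hk⟩ := hp
    omega
  have h5 : (p.length : ℝ) + 1 ≤ 2 * N := by exact_mod_cast h4
  linarith

/-- Local feasibility implies the odd walk inequalities. -/
theorem walk_of_local {V : Type} [Fintype V] (G : SimpleGraph V) (k : ℕ) (x : V → ℝ)
    (hx : ∀ S : Set V, S.ncard ≤ k →
      (fun v : S => x v) ∈ convexHull ℝ (coverVectors (G.induce S)))
    {v : V} (p : G.Walk v v) (hp : Odd p.length) (hk : p.length ≤ k) :
    ((p.length : ℝ) + 1) / 2 ≤ (p.support.tail.map x).sum := by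
  set S : Set V := {u | u ∈ p.support} with hS
  have hcard : S.ncard ≤ p.length := by
    have h0 : p.support = v :: p.support.tail := (SimpleGraph.Walk.cons_tail_support p).symm
    have hv : v ∈ p.support.tail := by
      apply SimpleGraph.Walk.end_mem_tail_support
      intro hnil
      have h1 : p.length = 0 := SimpleGraph.Walk.length_eq_zero_iff.2 hnil
      rw [h1] at hp
      exact absurd hp (by decide)
    have h1 : S = {u | u ∈ p.support.tail} := by
      ext u
      show u ∈ p.support ↔ u ∈ p.support.tail
      constructor
      · intro hu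
        rw [h0] at hu
        rcases List.mem_cons.1 hu with h | h
        · rw [h]; exact hv
        · exact h
      · intro hu
        exact List.mem_of_mem_tail hu
    have h2 : (S : Set V) = (p.support.tail.toFinset : Set V) := by
      rw [h1]; ext u; simp
    rw [h2, Set.ncard_coe_finset]
    refine (List.toFinset_card_le _).trans ?_
    simp
  have hmem := hx S (hcard.trans hk)
  set q := p.induce S (fun u hu => hu) with hq
  have hql : q.length = p.length := by
    have h1 := congrArg SimpleGraph.Walk.length (SimpleGraph.Walk.map_induce p (fun u hu => hu))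
    rw [SimpleGraph.Walk.length_map] at h1
    exact h1
  have hqs : q.support.map (fun u : S => (u : V)) = p.support := by
    rw [hq, SimpleGraph.Walk.support_induce]
    simp
  have h1 := hull_le (G.induce S) q.support.tail (((q.length : ℝ) + 1) / 2)
    (fun y hy => cover_walk (G.induce S) hy q (by rw [hql]; exact hp)) hmem
  rw [hql] at h1
  have h2 : (q.support.tail.map fun v : S => x v) = p.support.tail.map x := by
    rw [← hqs, ← List.map_tail, List.map_map]
    rfl
  rw [h2] at h1
  exact h1

end Pool.Agent.Lib.MP_cff830_lc.MR.RelLoc
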