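import Pool.Agent.Lib.MP_cff830_lc.MR.Stmts59
import Pool.Agent.Lib.MP_cff830_lc.MR.RelLoc

/-!
# Simple relations between the relaxations of vertex cover (module M5)
-/

set_option autoImplicit false
set_option linter.unusedSectionVars false
set_option linter.unusedVariables false

namespace Pool.Agent.Lib.MP_cff830_lc.MR

open Finset

namespace RelAux

section

variable {V : Type} [Fintype V] (G : SimpleGraph V) (k : ℕ) (w : V → ℝ)

theorem bdd_of {Q : (V → ℝ) → Prop} (hQ : ∀ x, Q x → ∀ v, 0 ≤ x v) (hw : ∀ v, 0 ≤ w v) :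
    BddBelow {m | ∃ x : V → ℝ, Q x ∧ m = ∑ v, w v * x v} := by
  refine ⟨0, ?_⟩
  rintro m ⟨x, hx, rfl⟩
  exact Finset.sum_nonneg fun v _ => mul_nonneg (hw v) (hQ x hx v)

omit [Fintype V] in
theorem bdd_cover (hw : ∀ v, 0 ≤ w v) :
    BddBelow {m | ∃ C : Finset V, IsVertexCover G C ∧ m = ∑ v ∈ C, w v} := by
  refine ⟨0, ?_⟩
  rintro m ⟨C, _, rfl⟩
  exact Finset.sum_nonneg fun v _ => hw v

theorem cover_univ : IsVertexCover G (Finset.univ : Finset V) :=
  fun u _ _ => Or.inl (Finset.mem_univ u)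

theorem cover_le (hw : ∀ v, 0 ≤ w v) {C : Finset V} (hC : IsVertexCover G C) :
    minCover G w ≤ ∑ v ∈ C, w v := csInf_le (bdd_cover G w hw) ⟨C, hC, rfl⟩

theorem cover_att : ∃ C : Finset V, IsVertexCover G C ∧ ∑ v ∈ C, w v = minCover G w := by
  have hfin : {m | ∃ C : Finset V, IsVertexCover G C ∧ m = ∑ v ∈ C, w v}.Finite := by
    refine (Set.finite_range (fun C : Finset V => ∑ v ∈ C, w v)).subset ?_
    rintro m ⟨C, -, rfl⟩
    exact ⟨C, rfl⟩
  have hne : {m | ∃ C : Finset V, IsVertexCover G C ∧ m = ∑ v ∈ C, w v}.Nonempty :=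
    ⟨_, Finset.univ, cover_univ G, rfl⟩
  obtain ⟨C, hC, h⟩ := hne.csInf_mem hfin
  exact ⟨C, hC, h.symm⟩

open Classical in
/-- The indicator of a vertex cover is locally feasible. -/
theorem feasible_cover (C : Finset V) (hC : IsVertexCover G C) :
    LocallyFeasible G k (fun v => if v ∈ C then 1 else 0) := by
  refine ⟨fun v => ?_, fun S _ => subset_convexHull ℝ _ ⟨fun v => ?_, fun u v huv => ?_⟩⟩
  · show (0 : ℝ) ≤ if v ∈ C then 1 else 0
    split_ifs <;> norm_num
  · show (if v.1 ∈ C then (1 : ℝ) else 0) = 0 ∨ (if v.1 ∈ C then (1 : ℝ) else 0) = 1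
    split_ifs <;> simp
  · show (if u.1 ∈ C then (1 : ℝ) else 0) = 1 ∨ (if v.1 ∈ C then (1 : ℝ) else 0) = 1
    rcases hC u.1 v.1 huv with h | h
    · left; rw [if_pos h]
    · right; rw [if_pos h]

/-- The odd walk inequalities of a locally feasible point. -/
theorem walk_ineq {x : V → ℝ} (hx : LocallyFeasible G k x) {v : V} (p : G.Walk v v)
    (hp : Odd p.length) (hk : p.length ≤ k) :
    ((p.length : ℝ) + 1) / 2 ≤ (p.support.tail.map x).sum :=
  RelLoc.walk_of_local G k x hx.2 p hp hk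

omit [Fintype V] in
/-- The edge inequalities of a locally feasible point. -/
theorem edge_ineq {x : V → ℝ} (hk : 2 ≤ k) (hx : LocallyFeasible G k x) {a b : V}
    (hab : G.Adj a b) : 1 ≤ x a + x b := by
  have h1 := hx.2 {a, b} ((Set.ncard_insert_le a {b}).trans (by rw [Set.ncard_singleton]; exact hk))
  have h2 := RelLoc.hull_le (G.induce {a, b})
    [(⟨a, by simp⟩ : ({a, b} : Set V)), ⟨b, by simp⟩] 1 (fun y hy => by
      have h3 := hy.2 ⟨a, by simp⟩ ⟨b, by simp⟩ hab
      simp only [List.map_cons, List.map_nil, List.sum_cons, List.sum_nil, add_zero]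
      rcases h3 with h | h
      · rcases hy.1 ⟨b, by simp⟩ with h' | h' <;> rw [h, h'] <;> norm_num
      · rcases hy.1 ⟨a, by simp⟩ with h' | h' <;> rw [h, h'] <;> norm_num) h1
  simpa using h2

/-- For `k ≥ 2` the value of `LP_k` is at least the value of the programme with the edges. -/
theorem edge_le_local (hk : 2 ≤ k) (hw : ∀ v, 0 ≤ w v) : edgeLP G w ≤ localLP G k w := by
  classical
  refine le_csInf ⟨_, _, feasible_cover G k Finset.univ (cover_univ G), rfl⟩ ?_
  rintro m ⟨x, hx, rfl⟩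
  exact csInf_le (bdd_of w (fun x hx => hx.1) hw)
    ⟨x, ⟨hx.1, fun a b hab => edge_ineq G k hk hx hab⟩, rfl⟩

/-- For `k ≥ 3` the value of `LP_k` is at least the value of the edge-triangle programme. -/
theorem triangle_le_local (hk : 3 ≤ k) (hw : ∀ v, 0 ≤ w v) :
    triangleLP G w ≤ localLP G k w := by
  classical
  refine le_csInf ⟨_, _, feasible_cover G k Finset.univ (cover_univ G), rfl⟩ ?_
  rintro m ⟨x, hx, rfl⟩
  refine csInf_le (bdd_of w (fun x hx => hx.1) hw)
    ⟨x, ⟨hx.1, fun a b hab => edge_ineq G k (by omega) hx hab, ?_⟩, rfl⟩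
  intro a b c hab hbc hac
  have h1 := walk_ineq G k hx (SimpleGraph.Walk.cons hab (SimpleGraph.Walk.cons hbc
    (SimpleGraph.Walk.cons hac.symm SimpleGraph.Walk.nil))) (by simp; decide) (by simpa using hk)
  simp only [SimpleGraph.Walk.length_cons, SimpleGraph.Walk.length_nil,
    SimpleGraph.Walk.support_cons, SimpleGraph.Walk.support_nil, List.tail_cons, List.map_cons,
    List.map_nil, List.sum_cons, List.sum_nil] at h1
  push_cast at h1
  linarith

/-- A point of the linear programme gives an upper bound. -/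
theorem edgeLP_le (hw : ∀ v, 0 ≤ w v) (x : V → ℝ) (h0 : ∀ v, 0 ≤ x v)
    (h1 : ∀ a b, G.Adj a b → 1 ≤ x a + x b) : edgeLP G w ≤ ∑ v, w v * x v :=
  csInf_le (bdd_of w (Q := fun x => (∀ v, 0 ≤ x v) ∧ ∀ a b, G.Adj a b → 1 ≤ x a + x b)
    (fun x hx => hx.1) hw) ⟨x, ⟨h0, h1⟩, rfl⟩

theorem edge_nonneg (hw : ∀ v, 0 ≤ w v) : 0 ≤ edgeLP G w := by
  refine Real.sInf_nonneg ?_
  rintro m ⟨x, hx, rfl⟩
  exact Finset.sum_nonneg fun v _ => mul_nonneg (hw v) (hx.1 v)

theorem edge_le_triangle (hw : ∀ v, 0 ≤ w v) : edgeLP G w ≤ triangleLP G w := by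
  refine le_csInf ⟨_, fun _ => 1, ⟨fun _ => zero_le_one, fun _ _ _ => by norm_num,
    fun _ _ _ _ _ _ => by norm_num⟩, rfl⟩ ?_
  rintro m ⟨x, hx, rfl⟩
  exact edgeLP_le G w hw x hx.1 hx.2.1

theorem cover_le_two_edge (hw : ∀ v, 0 ≤ w v) : minCover G w ≤ 2 * edgeLP G w := by
  classical
  have h : minCover G w / 2 ≤ edgeLP G w := by
    refine le_csInf ⟨_, fun _ => 1, ⟨fun _ => zero_le_one, fun _ _ _ => by norm_num⟩, rfl⟩ ?_
    rintro m ⟨x, hx, rfl⟩
    have h1 : IsVertexCover G (Finset.univ.filter fun v => 1 / 2 ≤ x v) := by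
      intro a b hab
      have h2 := hx.2 a b hab
      by_contra hcon
      rw [not_or, Finset.mem_filter, Finset.mem_filter] at hcon
      have h3 : x a < 1 / 2 := by
        by_contra h
        exact hcon.1 ⟨Finset.mem_univ _, not_lt.1 h⟩
      have h4 : x b < 1 / 2 := by
        by_contra h
        exact hcon.2 ⟨Finset.mem_univ _, not_lt.1 h⟩
      linarith
    have h2 := cover_le G w hw h1
    have h3 : ∑ v ∈ Finset.univ.filter (fun v => 1 / 2 ≤ x v), w v ≤ 2 * ∑ v, w v * x v := by
      rw [Finset.sum_filter, Finset.mul_sum]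
      refine Finset.sum_le_sum fun v _ => ?_
      have h4 := mul_nonneg (hw v) (hx.1 v)
      split_ifs with h5
      · nlinarith [hw v]
      · linarith
    linarith
  linarith

theorem edge_le_cover (hw : ∀ v, 0 ≤ w v) : edgeLP G w ≤ minCover G w := by
  classical
  refine le_csInf ⟨_, Finset.univ, cover_univ G, rfl⟩ ?_
  rintro m ⟨C, hC, rfl⟩
  refine (edgeLP_le G w hw (fun v => if v ∈ C then 1 else 0) (fun v => ?_) ?_).trans (le_of_eq ?_)
  · show (0 : ℝ) ≤ if v ∈ C then 1 else 0
    split_ifs <;> norm_num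
  · intro a b hab
    show (1 : ℝ) ≤ (if a ∈ C then 1 else 0) + if b ∈ C then 1 else 0
    rcases hC a b hab with h | h
    · rw [if_pos h]
      split_ifs <;> norm_num
    · rw [if_pos h]
      split_ifs <;> norm_num
  · simp only [mul_ite, mul_one, mul_zero]
    rw [← Finset.sum_filter]
    refine Finset.sum_congr ?_ fun _ _ => rfl
    ext v
    simp

end

section

variable {V : Type} [Fintype V] [DecidableEq V] (G : SimpleGraph V) (k : ℕ) (w : V → ℝ)

/-- Every vertex cover is a solution. -/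
theorem solution_cover (C : Finset V) (hC : IsVertexCover G C) :
    IsSolution G k (fun S U => if S ∩ C = U then 1 else 0) := by
  refine ⟨fun S U => by split_ifs <;> norm_num, fun S _ => ?_, fun S T hST _ U _ => ?_,
    fun S _ U _ hU x hx y hy hxy => ?_, ?_⟩
  · rw [Finset.sum_ite_eq, if_pos (Finset.mem_powerset.2 Finset.inter_subset_left)]
  · rw [Finset.sum_ite_eq]
    have h1 : T ∩ C ∩ S = S ∩ C := by
      rw [Finset.inter_right_comm, Finset.inter_eq_right.2 hST]
    refine if_congr ?_ rfl rfl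
    rw [Finset.mem_filter, Finset.mem_powerset, h1]
    exact ⟨fun h => ⟨Finset.inter_subset_left, h⟩, fun h => h.2⟩
  · have h1 : S ∩ C = U := by
      by_contra hcon
      exact hU (if_neg hcon)
    rw [← h1]
    rcases hC x y hxy with h | h
    · exact Or.inl (Finset.mem_inter.2 ⟨hx, h⟩)
    · exact Or.inr (Finset.mem_inter.2 ⟨hy, h⟩)
  · have h1 : momentMatrix (fun S U : Finset V => if S ∩ C = U then (1 : ℝ) else 0) =
        Matrix.vecMulVec (fun a : Option V => if a.toFinset ⊆ C then (1 : ℝ) else 0)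
          (star fun a : Option V => if a.toFinset ⊆ C then (1 : ℝ) else 0) := by
      ext a b
      have e : ((a.toFinset ∪ b.toFinset) ∩ C = a.toFinset ∪ b.toFinset) ↔
          (a.toFinset ⊆ C ∧ b.toFinset ⊆ C) := by
        rw [Finset.inter_eq_left, Finset.union_subset_iff]
      rw [Matrix.vecMulVec_apply, momentMatrix, Pi.star_apply, star_trivial, if_congr e rfl rfl]
      by_cases ha : a.toFinset ⊆ C <;> by_cases hb : b.toFinset ⊆ C <;> simp [ha, hb]
    rw [h1]
    exact Matrix.posSemidef_vecMulVec_self_star _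

theorem bdd_sdp (hw : ∀ v, 0 ≤ w v) :
    BddBelow {m | ∃ μ : Finset V → Finset V → ℝ, IsSolution G k μ ∧
      m = ∑ v, w v * μ {v} {v}} := by
  refine ⟨0, ?_⟩
  rintro m ⟨μ, hμ, rfl⟩
  exact Finset.sum_nonneg fun v _ => mul_nonneg (hw v) (hμ.nonneg _ _)

/-- The semidefinite programmes are relaxations. -/
theorem sdp_le_cover (hw : ∀ v, 0 ≤ w v) : sdpValue G k w ≤ minCover G w := by
  refine le_csInf ⟨_, Finset.univ, cover_univ G, rfl⟩ ?_
  rintro m ⟨C, hC, rfl⟩
  refine csInf_le (bdd_sdp G k w hw) ⟨_, solution_cover G k C hC, ?_⟩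
  have h1 : ∀ v, w v * (if {v} ∩ C = {v} then (1 : ℝ) else 0) = if v ∈ C then w v else 0 := by
    intro v
    have e : ({v} ∩ C = {v}) ↔ v ∈ C := by
      rw [Finset.inter_eq_left, Finset.singleton_subset_iff]
    rw [if_congr e rfl rfl, mul_ite, mul_one, mul_zero]
  simp only [h1]
  rw [← Finset.sum_filter]
  refine Finset.sum_congr ?_ fun _ _ => rfl
  ext v
  simp

open Classical in
/-- The marginals of a solution are locally feasible. -/
theorem feasible_solution {μ : Finset V → Finset V → ℝ} (hμ : IsSolution G k μ) :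
    LocallyFeasible G k (fun v => μ {v} {v}) := by
  refine ⟨fun v => hμ.nonneg _ _, fun S hS => ?_⟩
  set S' : Finset V := S.toFinset with hS'
  have hc : S'.card ≤ k := by rwa [hS', ← Set.ncard_eq_toFinset_card']
  have h1 : ∑ U ∈ S'.powerset with μ S' U ≠ 0, μ S' U = 1 := by
    rw [Finset.sum_filter_ne_zero]
    exact hμ.total S' hc
  have h2 : (fun v : S => μ {(v : V)} {(v : V)}) =
      ∑ U ∈ S'.powerset with μ S' U ≠ 0, μ S' U • (fun v : S => if (v : V) ∈ U then (1 : ℝ) else 0) := by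
    ext v
    rw [Finset.sum_apply]
    have hv : ({(v : V)} : Finset V) ⊆ S' := by
      rw [Finset.singleton_subset_iff, hS', Set.mem_toFinset]
      exact v.2
    rw [hμ.consistent {(v : V)} S' hv hc {(v : V)} (Finset.Subset.refl _)]
    rw [Finset.sum_filter, Finset.sum_filter]
    refine Finset.sum_congr rfl fun U _ => ?_
    have e : (U ∩ {(v : V)} = {(v : V)}) ↔ (v : V) ∈ U := by
      rw [Finset.inter_eq_right, Finset.singleton_subset_iff]
    rw [Pi.smul_apply, smul_eq_mul, if_congr e rfl rfl]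
    by_cases h3 : μ S' U = 0 <;> by_cases h4 : (v : V) ∈ U <;> simp [h3, h4]
  rw [h2]
  refine (convex_convexHull ℝ _).sum_mem (fun U _ => hμ.nonneg _ _) h1 fun U hU => ?_
  obtain ⟨hU1, hU2⟩ := Finset.mem_filter.1 hU
  refine subset_convexHull ℝ _ ⟨fun v => ?_, fun u v huv => ?_⟩
  · show (if (v : V) ∈ U then (1 : ℝ) else 0) = 0 ∨ (if (v : V) ∈ U then (1 : ℝ) else 0) = 1
    split_ifs <;> simp
  · show (if (u : V) ∈ U then (1 : ℝ) else 0) = 1 ∨ (if (v : V) ∈ U then (1 : ℝ) else 0) = 1
    rcases hμ.cover S' hc U (Finset.mem_powerset.1 hU1) hU2 u.1 (by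
      rw [hS', Set.mem_toFinset]; exact u.2) v.1 (by rw [hS', Set.mem_toFinset]; exact v.2)
      huv with h | h
    · left; rw [if_pos h]
    · right; rw [if_pos h]

/-- The value of level `k` is at least the value of `LP_k`. -/
theorem local_le_sdp (hw : ∀ v, 0 ≤ w v) : localLP G k w ≤ sdpValue G k w := by
  classical
  refine le_csInf ⟨_, _, solution_cover G k Finset.univ (cover_univ G), rfl⟩ ?_
  rintro m ⟨μ, hμ, rfl⟩
  exact csInf_le (bdd_of w (fun x hx => hx.1) hw) ⟨_, feasible_solution G k hμ, rfl⟩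

/-- The levels of the hierarchy increase. -/
theorem sdp_mono {j k : ℕ} (hjk : j ≤ k) (hw : ∀ v, 0 ≤ w v) :
    sdpValue G j w ≤ sdpValue G k w := by
  refine le_csInf ⟨_, _, solution_cover G k Finset.univ (cover_univ G), rfl⟩ ?_
  rintro m ⟨μ, hμ, rfl⟩
  exact csInf_le (bdd_sdp G j w hw) ⟨μ, ⟨hμ.nonneg, fun S hS => hμ.total S (hS.trans hjk),
    fun S T hST hT => hμ.consistent S T hST (hT.trans hjk),
    fun S hS => hμ.cover S (hS.trans hjk), hμ.psd⟩, rfl⟩

end

end RelAux

/-- (M5) Simple relations between the relaxations. -/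
theorem stRel : StRel := by
  intro n G w hw
  refine ⟨RelAux.edge_nonneg G w hw, RelAux.edge_le_triangle G w hw,
    RelAux.cover_le_two_edge G w hw, RelAux.edge_le_cover G w hw, ?_, ?_,
    fun C hC => RelAux.cover_le G w hw hC, RelAux.cover_att G w,
    fun k => RelAux.sdp_le_cover G k w hw, fun k hk =>
      (RelAux.edge_le_local G k w hk hw).trans (RelAux.local_le_sdp G k w hw),
    fun j k hjk => RelAux.sdp_mono G w hjk hw, fun k => RelAux.local_le_sdp G k w hw,
    fun k hk => RelAux.triangle_le_local G k w hk hw⟩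
  · refine (RelAux.edgeLP_le G w hw (fun _ => 1 / 2) (fun _ => by norm_num)
      (fun _ _ _ => by norm_num)).trans (le_of_eq ?_)
    rw [wt, Finset.sum_div]
    exact Finset.sum_congr rfl fun v _ => by ring
  · intro v
    refine (RelAux.edgeLP_le G w hw (fun u => if u = v then 0 else 1) (fun u => ?_) ?_).trans
      (le_of_eq ?_)
    · show (0 : ℝ) ≤ if u = v then 0 else 1
      split_ifs <;> norm_num
    · intro a b hab
      show (1 : ℝ) ≤ (if a = v then 0 else 1) + if b = v then 0 else 1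
      have hne := hab.ne
      by_cases ha : a = v
      · have hb : b ≠ v := fun h => hne (ha.trans h.symm)
        rw [if_pos ha, if_neg hb]
        norm_num
      · rw [if_neg ha]
        split_ifs <;> norm_num
    · rw [wt, eq_sub_iff_add_eq, ← Finset.sum_erase_add _ _ (Finset.mem_univ v),
        ← Finset.sum_erase_add Finset.univ w (Finset.mem_univ v)]
      simp only [if_true, mul_zero, add_zero]
      congr 1
      refine Finset.sum_congr rfl fun u hu => ?_
      rw [if_neg (Finset.ne_of_mem_erase hu), mul_one]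

end Pool.Agent.Lib.MP_cff830_lc.MR
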