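import Pool.Agent.Lib.MP_cff830_lc.MR.Stmts59

/-!
# Monotone circuits over relaxations of vertex cover: rounding on bipartite graphs (M6)
-/

set_option autoImplicit false

namespace Pool.Agent.Lib.MP_cff830_lc.MR

open Finset MeasureTheory

/-- The minimum is at most the weight of any cover. -/
theorem minCover_le54 {n : ℕ} {G : SimpleGraph (Fin n)} {w : Fin n → ℝ} (hw : ∀ v, 0 ≤ w v)
    {C : Finset (Fin n)} (hC : IsVertexCover G C) : minCover G w ≤ ∑ v ∈ C, w v := by
  unfold minCover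
  refine csInf_le ⟨0, ?_⟩ ⟨C, hC, rfl⟩
  rintro m ⟨D, _, rfl⟩
  exact Finset.sum_nonneg fun v _ => hw v

/-- Few edges of a graph without short cycles form a forest. -/
theorem acyclic54 {n t : ℕ} {G : SimpleGraph (Fin n)} {E : Finset (Sym2 (Fin n))}
    (hG : ∀ (v : Fin n) (p : G.Walk v v), p.IsCycle → t < p.length) (hE : In E G)
    (hc : E.card ≤ t) : (gr E).IsAcyclic := by
  classical
  intro v p hp
  have hle : gr E ≤ G := by
    intro a b hab
    unfold gr at hab
    rw [SimpleGraph.fromEdgeSet_adj] at hab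
    exact hE _ hab.1
  have h1 := hG v (p.mapLe hle) ((SimpleGraph.Walk.isCycle_mapLe hle).2 hp)
  have h2 : (p.mapLe hle).length = p.length := by simp
  have h3 : p.length ≤ E.card := by
    rw [← p.length_edges, ← List.toFinset_card_of_nodup hp.edges_nodup]
    refine card_le_card fun e he => ?_
    have h4 : e ∈ (gr E).edgeSet := p.edges_subset_edgeSet (List.mem_toFinset.1 he)
    unfold gr at h4
    rw [SimpleGraph.edgeSet_fromEdgeSet] at h4
    exact h4.1
  omega

/-- The cover for the threshold `θ`. -/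
theorem cover54 {n : ℕ} {E : Finset (Sym2 (Fin n))} {x : Fin n → ℝ} (c : (gr E).Coloring (Fin 2))
    (hx : ∀ a b, (gr E).Adj a b → 1 ≤ x a + x b) (θ : ℝ) :
    IsVertexCover (gr E) ((vs E).filter fun v => (c v = 0 ∧ θ ≤ x v) ∨ (c v = 1 ∧ 1 - θ < x v)) := by
  intro u v huv
  have hE : s(u, v) ∈ E := by
    have h := huv
    unfold gr at h
    rw [SimpleGraph.fromEdgeSet_adj] at h
    exact h.1
  have hu : u ∈ vs E := mem_vs.2 ⟨_, hE, Sym2.mem_mk_left u v⟩
  have hv : v ∈ vs E := mem_vs.2 ⟨_, hE, Sym2.mem_mk_right u v⟩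
  have hne := c.valid huv
  have h1 := hx u v huv
  rw [mem_filter, mem_filter]
  have h2 : ∀ i : Fin 2, i = 0 ∨ i = 1 := by decide
  rcases h2 (c u) with h3 | h3 <;> rcases h2 (c v) with h4 | h4
  · exact absurd (h3.trans h4.symm) hne
  · rcases le_or_gt θ (x u) with h5 | h5
    · exact Or.inl ⟨hu, Or.inl ⟨h3, h5⟩⟩
    · exact Or.inr ⟨hv, Or.inr ⟨h4, by linarith⟩⟩
  · rcases le_or_gt θ (x v) with h5 | h5
    · exact Or.inr ⟨hv, Or.inl ⟨h4, h5⟩⟩
    · exact Or.inl ⟨hu, Or.inr ⟨h3, by linarith⟩⟩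
  · exact absurd (h3.trans h4.symm) hne

/-- The measure on the thresholds. -/
noncomputable def mu54 : Measure ℝ := volume.restrict (Set.Ioc 0 1)

instance : IsProbabilityMeasure mu54 := ⟨by
  unfold mu54
  rw [Measure.restrict_apply_univ, Real.volume_Ioc]
  norm_num⟩

theorem real_Iic54 {x : ℝ} (hx : 0 ≤ x) : mu54.real (Set.Iic x) ≤ x := by
  unfold mu54
  rw [Measure.real, Measure.restrict_apply measurableSet_Iic]
  have h1 : volume (Set.Iic x ∩ Set.Ioc (0 : ℝ) 1) ≤ volume (Set.Ioc 0 x) :=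
    measure_mono fun y hy => ⟨hy.2.1, hy.1⟩
  rw [Real.volume_Ioc, sub_zero] at h1
  exact ENNReal.toReal_le_of_le_ofReal hx h1

theorem real_Ioi54 {x : ℝ} (hx : 0 ≤ x) : mu54.real (Set.Ioi (1 - x)) ≤ x := by
  unfold mu54
  rw [Measure.real, Measure.restrict_apply measurableSet_Ioi]
  have h1 : volume (Set.Ioi (1 - x) ∩ Set.Ioc (0 : ℝ) 1) ≤ volume (Set.Ioc (1 - x) 1) :=
    measure_mono fun y hy => ⟨hy.1, hy.2.2⟩
  rw [Real.volume_Ioc, sub_sub_cancel] at h1
  exact ENNReal.toReal_le_of_le_ofReal hx h1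

/-- The linear programme is exact on bipartite graphs. -/
theorem round54 {n : ℕ} {E : Finset (Sym2 (Fin n))} {w x : Fin n → ℝ} (hw : ∀ v, 0 ≤ w v)
    (hc : (gr E).Colorable 2) (h0 : ∀ v, 0 ≤ x v)
    (hx : ∀ a b, (gr E).Adj a b → 1 ≤ x a + x b) :
    minCover (gr E) w ≤ ∑ v ∈ vs E, w v * x v := by
  classical
  obtain ⟨c⟩ := hc
  set s : Fin n → Set ℝ := fun v => if c v = 0 then Set.Iic (x v) else Set.Ioi (1 - x v) with hs
  have hms : ∀ v, MeasurableSet (s v) := by
    intro v
    simp only [hs]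
    split_ifs
    · exact measurableSet_Iic
    · exact measurableSet_Ioi
  have hreal : ∀ v, mu54.real (s v) ≤ x v := by
    intro v
    simp only [hs]
    split_ifs
    · exact real_Iic54 (h0 v)
    · exact real_Ioi54 (h0 v)
  have hint : ∀ v, Integrable (fun θ => w v * (s v).indicator (fun _ => (1 : ℝ)) θ) mu54 := by
    intro v
    refine Integrable.const_mul ?_ _
    exact (integrable_const (1 : ℝ)).indicator (hms v)
  have hsum : Integrable (fun θ => ∑ v ∈ vs E, w v * (s v).indicator (fun _ => (1 : ℝ)) θ) mu54 :=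
    integrable_finsetSum _ fun v _ => hint v
  obtain ⟨θ, hθ⟩ := exists_le_integral hsum
  have h1 : ∫ θ, ∑ v ∈ vs E, w v * (s v).indicator (fun _ => (1 : ℝ)) θ ∂mu54 ≤
      ∑ v ∈ vs E, w v * x v := by
    rw [integral_finsetSum _ fun v _ => hint v]
    refine Finset.sum_le_sum fun v _ => ?_
    rw [integral_const_mul, integral_indicator_const _ (hms v), smul_eq_mul, mul_one]
    exact mul_le_mul_of_nonneg_left (hreal v) (hw v)
  have h2 := minCover_le54 hw (cover54 c hx θ)
  refine h2.trans (le_trans ?_ (hθ.trans h1))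
  rw [Finset.sum_filter]
  refine Finset.sum_le_sum fun v _ => ?_
  have h3 : ∀ i : Fin 2, i = 0 ∨ i = 1 := by decide
  split_ifs with h4
  · have h5 : θ ∈ s v := by
      simp only [hs]
      rcases h4 with ⟨h4, h5⟩ | ⟨h4, h5⟩
      · rw [if_pos h4]
        exact h5
      · rw [if_neg (by rw [h4]; decide), Set.mem_Ioi]
        linarith
    rw [Set.indicator_of_mem h5, mul_one]
  · exact mul_nonneg (hw v) (Set.indicator_nonneg (fun _ _ => zero_le_one) _)

/-- (M6) -/
theorem stRound : StRound := by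
  refine ⟨fun n E w x hw hc h0 hx => round54 hw hc h0 hx, fun n t G E hG hE hc => ?_⟩
  exact (acyclic54 hG hE hc).colorable_two

end Pool.Agent.Lib.MP_cff830_lc.MR
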