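import Pool.Agent.Lib.MP_cff830_lc.MR.Stmts59

/-!
# Monotone circuits over relaxations of vertex cover: positive tests are sparse on small sets

The hypothesis is that given pairs are edges of the random graph with the probability of
independent events at most. (a) A small set contains few edges: union over the sets of `t + 1`
pairs. (b) A small set has few neighbours: sums over sequences of different neighbours.
-/

set_option autoImplicit false

namespace Pool.Agent.Lib.MP_cff830_lc.MR

open Finset

namespace Small31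

/-- The sum of the products of the weights over the sequences of `r` different elements of
`N \ A`. -/
noncomputable def T {n : ℕ} (w : Fin n → ℝ) : ℕ → Finset (Fin n) → Finset (Fin n) → ℝ
  | 0, _, _ => 1
  | r + 1, N, A => ∑ v ∈ N \ A, w v * T w r N (insert v A)

theorem T_nonneg {n : ℕ} {w : Fin n → ℝ} (hw : ∀ v, 0 ≤ w v) (r : ℕ) (N A : Finset (Fin n)) :
    0 ≤ T w r N A := by
  induction r generalizing A with
  | zero => exact zero_le_one
  | succ r ih => exact Finset.sum_nonneg fun v _ => mul_nonneg (hw v) (ih _)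

theorem T_lower {n : ℕ} {w : Fin n → ℝ} (hw : ∀ v, 0 ≤ w v) {N : Finset (Fin n)} {h y : ℝ}
    (hh : 0 ≤ h) (hy : 0 ≤ y) (hN : ∀ v ∈ N, w v ≤ h) (r : ℕ) (A : Finset (Fin n))
    (hA : y + r * h ≤ wt w (N \ A)) : y ^ r ≤ T w r N A := by
  induction r generalizing A with
  | zero => exact le_of_eq (pow_zero y)
  | succ r ih =>
    have h1 : ∀ v ∈ N \ A, w v * y ^ r ≤ w v * T w r N (insert v A) := by
      intro v hv
      refine mul_le_mul_of_nonneg_left (ih _ ?_) (hw v)
      have hv' : v ∈ N := (mem_sdiff.1 hv).1
      have e1 : wt w (N \ A) = w v + wt w (N \ insert v A) := by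
        have : N \ A = insert v (N \ insert v A) := by
          ext z
          simp only [mem_sdiff, mem_insert, not_or]
          constructor
          · rintro ⟨a, b⟩
            by_cases hz : z = v
            · exact Or.inl hz
            · exact Or.inr ⟨a, hz, b⟩
          · rintro (a | ⟨a, _, c⟩)
            · subst a
              exact ⟨hv', (mem_sdiff.1 hv).2⟩
            · exact ⟨a, c⟩
        rw [this]
        unfold wt
        rw [sum_insert]
        simp
      have e2 := hN v hv'
      rw [e1] at hA
      push_cast at hA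
      nlinarith
    have h2 : ∑ v ∈ N \ A, w v * y ^ r ≤ T w (r + 1) N A := Finset.sum_le_sum h1
    refine le_trans ?_ h2
    rw [← Finset.sum_mul]
    have h3 : y ≤ ∑ v ∈ N \ A, w v := by
      have : y ≤ wt w (N \ A) := by
        refine le_trans ?_ hA
        have : (0 : ℝ) ≤ ((r + 1 : ℕ) : ℝ) * h := by positivity
        linarith
      exact this
    rw [pow_succ, mul_comm]
    exact mul_le_mul_of_nonneg_right h3 (pow_nonneg hy r)

open Classical in
theorem T_upper {n : ℕ} {κ : ℝ} {Ω : Type} [Fintype Ω] [Nonempty Ω]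
    {H : Ω → SimpleGraph (Fin n)} (hκ : 0 ≤ κ)
    (hH : ∀ E : Finset (Sym2 (Fin n)), prP (fun ω => In E (H ω)) ≤ κ ^ E.card)
    {S : Finset (Fin n)} {L : ℕ} (hS : S.card ≤ L) {w : Fin n → ℝ} (hw : ∀ v, 0 ≤ w v) (r : ℕ)
    (A : Finset (Fin n)) (E : Finset (Sym2 (Fin n)))
    (hE : ∀ e ∈ E, ∀ z ∈ e, z ∈ S ∨ z ∈ A) :
    ∑ ω, (if In E (H ω) then T w r (nbr (H ω) S) A else 0) ≤
      (Fintype.card Ω : ℝ) * (κ ^ E.card * (L * κ * wt w Sᶜ) ^ r) := by
  have hW : 0 ≤ wt w Sᶜ := Finset.sum_nonneg fun v _ => hw v
  have hΩ : (0 : ℝ) < (Fintype.card Ω : ℝ) := by exact_mod_cast Fintype.card_pos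
  induction r generalizing A E with
  | zero =>
    have h1 := hH E
    rw [prP_eq, div_le_iff₀ hΩ] at h1
    have h2 : ∑ ω, (if In E (H ω) then T w 0 (nbr (H ω) S) A else 0) =
        ((univ.filter fun ω => In E (H ω)).card : ℝ) := by
      rw [← Finset.sum_filter]
      simp [T]
    rw [h2, pow_zero, mul_one, mul_comm]
    exact h1
  | succ r ih =>
    have hstep : ∀ ω, (if In E (H ω) then T w (r + 1) (nbr (H ω) S) A else 0) ≤
        ∑ v ∈ Sᶜ \ A, ∑ u ∈ S, w v *
          (if In (insert s(u, v) E) (H ω) then T w r (nbr (H ω) S) (insert v A) else 0) := by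
      intro ω
      have hnn : ∀ v u, 0 ≤ w v *
          (if In (insert s(u, v) E) (H ω) then T w r (nbr (H ω) S) (insert v A) else 0) := by
        intro v u
        refine mul_nonneg (hw v) ?_
        split_ifs
        · exact T_nonneg hw _ _ _
        · exact le_rfl
      by_cases hin : In E (H ω)
      · rw [if_pos hin]
        have hsub : nbr (H ω) S \ A ⊆ Sᶜ \ A := by
          intro v hv
          rw [mem_sdiff] at hv ⊢
          refine ⟨?_, hv.2⟩
          have := hv.1
          unfold nbr at this
          rw [mem_filter] at this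
          exact mem_compl.2 this.2.1
        refine le_trans ?_ (Finset.sum_le_sum_of_subset_of_nonneg hsub
          fun v _ _ => Finset.sum_nonneg fun u _ => hnn v u)
        change ∑ v ∈ nbr (H ω) S \ A, w v * T w r (nbr (H ω) S) (insert v A) ≤ _
        refine Finset.sum_le_sum fun v hv => ?_
        have hv' := (mem_sdiff.1 hv).1
        unfold nbr at hv'
        rw [mem_filter] at hv'
        obtain ⟨u, hu, huv⟩ := hv'.2.2
        refine le_trans ?_ (Finset.single_le_sum (f := fun u => w v *
          (if In (insert s(u, v) E) (H ω) then T w r (nbr (H ω) S) (insert v A) else 0))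
          (fun u _ => hnn v u) hu)
        have : In (insert s(u, v) E) (H ω) := by
          intro e he
          rcases mem_insert.1 he with rfl | he
          · exact huv
          · exact hin e he
        simp only [if_pos this]
        exact le_rfl
      · rw [if_neg hin]
        exact Finset.sum_nonneg fun v _ => Finset.sum_nonneg fun u _ => hnn v u
    refine (Finset.sum_le_sum fun ω _ => hstep ω).trans ?_
    rw [Finset.sum_comm]
    have hv : ∀ v ∈ Sᶜ \ A, ∑ ω, ∑ u ∈ S, w v *
          (if In (insert s(u, v) E) (H ω) then T w r (nbr (H ω) S) (insert v A) else 0) ≤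
        w v * (L * ((Fintype.card Ω : ℝ) * (κ ^ (E.card + 1) * (L * κ * wt w Sᶜ) ^ r))) := by
      intro v hv
      have hvS : v ∉ S := mem_compl.1 (mem_sdiff.1 hv).1
      have hvA : v ∉ A := (mem_sdiff.1 hv).2
      rw [Finset.sum_comm]
      have hu : ∀ u ∈ S, ∑ ω, w v *
            (if In (insert s(u, v) E) (H ω) then T w r (nbr (H ω) S) (insert v A) else 0) ≤
          w v * ((Fintype.card Ω : ℝ) * (κ ^ (E.card + 1) * (L * κ * wt w Sᶜ) ^ r)) := by
        intro u hu
        rw [← Finset.mul_sum]
        refine mul_le_mul_of_nonneg_left ?_ (hw v)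
        have hnot : s(u, v) ∉ E := by
          intro hmem
          rcases hE _ hmem v (Sym2.mem_mk_right u v) with h | h
          · exact hvS h
          · exact hvA h
        have := ih (insert v A) (insert s(u, v) E) (by
          intro e he z hz
          rcases mem_insert.1 he with rfl | he
          · rcases Sym2.mem_iff.1 hz with rfl | rfl
            · exact Or.inl hu
            · exact Or.inr (mem_insert_self _ _)
          · rcases hE e he z hz with h | h
            · exact Or.inl h
            · exact Or.inr (mem_insert_of_mem h))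
        rw [card_insert_of_notMem hnot] at this
        exact this
      refine (Finset.sum_le_sum hu).trans ?_
      rw [Finset.sum_const, nsmul_eq_mul]
      have h1 : (S.card : ℝ) ≤ (L : ℝ) := by exact_mod_cast hS
      have h2 : 0 ≤ w v * ((Fintype.card Ω : ℝ) * (κ ^ (E.card + 1) * (L * κ * wt w Sᶜ) ^ r)) := by
        have := hw v
        positivity
      calc (S.card : ℝ) * (w v * ((Fintype.card Ω : ℝ) *
            (κ ^ (E.card + 1) * (L * κ * wt w Sᶜ) ^ r)))
          ≤ (L : ℝ) * (w v * ((Fintype.card Ω : ℝ) *
            (κ ^ (E.card + 1) * (L * κ * wt w Sᶜ) ^ r))) := mul_le_mul_of_nonneg_right h1 h2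
        _ = _ := by ring
    refine (Finset.sum_le_sum hv).trans ?_
    rw [← Finset.sum_mul]
    have h3 : ∑ v ∈ Sᶜ \ A, w v ≤ wt w Sᶜ :=
      Finset.sum_le_sum_of_subset_of_nonneg sdiff_subset fun v _ _ => hw v
    refine (mul_le_mul_of_nonneg_right h3 (by positivity)).trans (le_of_eq ?_)
    ring

end Small31

theorem stSmall : StSmall := by
  classical
  intro n κ Ω _ _ H hκ hH S L hS
  refine ⟨?_, ?_⟩
  · intro t
    -- the pairs in `S`
    set P : Finset (Sym2 (Fin n)) := (S ×ˢ S).image fun p => s(p.1, p.2) with hP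
    have hPc : P.card ≤ L ^ 2 := by
      refine card_image_le.trans ?_
      rw [card_product, sq]
      exact Nat.mul_le_mul hS hS
    have hsub : ∀ ω, edgesIn (H ω) S ⊆ P := by
      intro ω e he
      unfold edgesIn at he
      rw [mem_filter] at he
      induction e with
      | _ a b =>
        rw [hP, mem_image]
        exact ⟨(a, b), mem_product.2 ⟨he.2.2 a (Sym2.mem_mk_left a b),
          he.2.2 b (Sym2.mem_mk_right a b)⟩, rfl⟩
    have h1 : prP (fun ω => t < (edgesIn (H ω) S).card) ≤
        prP (fun ω => ∃ E ∈ P.powersetCard (t + 1), In E (H ω)) := by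
      refine prP_mono fun ω hω => ?_
      obtain ⟨E, hE, hEc⟩ := exists_subset_card_eq (Nat.succ_le_of_lt hω)
      refine ⟨E, mem_powersetCard.2 ⟨hE.trans (hsub ω), hEc⟩, fun e he => ?_⟩
      have := hE he
      unfold edgesIn at this
      exact (mem_filter.1 this).2.1
    refine h1.trans ((prP_exists _ _).trans ?_)
    refine (Finset.sum_le_sum fun E _ => hH E).trans ?_
    have h2 : ∑ E ∈ P.powersetCard (t + 1), κ ^ E.card =
        (P.card.choose (t + 1) : ℝ) * κ ^ (t + 1) := by
      rw [Finset.sum_congr rfl (g := fun _ => κ ^ (t + 1)), Finset.sum_const, card_powersetCard,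
        nsmul_eq_mul]
      intro E hE
      rw [(mem_powersetCard.1 hE).2]
    rw [h2, mul_pow]
    refine mul_le_mul_of_nonneg_right ?_ (pow_nonneg hκ _)
    have h3 : (P.card.choose (t + 1) : ℝ) ≤ ((P.card ^ (t + 1) : ℕ) : ℝ) := by
      exact_mod_cast Nat.choose_le_pow _ _
    refine h3.trans ?_
    push_cast
    refine pow_le_pow_left₀ (by positivity) ?_ _
    exact_mod_cast hPc
  · intro r x η w hx hw hη hr
    have hΩ : (0 : ℝ) < (Fintype.card Ω : ℝ) := by exact_mod_cast Fintype.card_pos
    have hWn : 0 ≤ wt w Sᶜ := Finset.sum_nonneg fun v _ => hw v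
    have hrhs : 0 ≤ (2 * L * κ / x) ^ r := by positivity
    have hNsub : ∀ ω, nbr (H ω) S ⊆ Sᶜ := by
      intro ω v hv
      unfold nbr at hv
      exact mem_compl.2 (mem_filter.1 hv).2.1
    rcases hWn.eq_or_lt with hW | hW
    · refine le_trans (le_of_eq ?_) hrhs
      have : ∀ ω, ¬ x * wt w Sᶜ < wt w (nbr (H ω) S) := by
        intro ω
        rw [← hW, mul_zero, not_lt, hW]
        exact Finset.sum_le_sum_of_subset_of_nonneg (hNsub ω) fun v _ _ => hw v
      rw [prP_eq]
      simp [this]
    · -- `η` is positive
      have hη0 : 0 < η := by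
        by_contra hcon
        push Not at hcon
        have : wt w Sᶜ ≤ 0 := by
          refine Finset.sum_nonpos fun v hv => (hη v (mem_compl.1 hv)).trans ?_
          exact mul_nonpos_of_nonpos_of_nonneg hcon hWn
        linarith
      have hlow : ∀ ω, x * wt w Sᶜ < wt w (nbr (H ω) S) →
          (x * wt w Sᶜ / 2) ^ r ≤ Small31.T w r (nbr (H ω) S) ∅ := by
        intro ω hω
        refine Small31.T_lower hw (h := η * wt w Sᶜ) (by positivity) (by positivity)
          (fun v hv => hη v (mem_compl.1 (hNsub ω hv))) r ∅ ?_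
        rw [sdiff_empty]
        refine le_trans ?_ hω.le
        have : (r : ℝ) * η * wt w Sᶜ ≤ x / 2 * wt w Sᶜ := mul_le_mul_of_nonneg_right hr hWn
        nlinarith
      have hup := Small31.T_upper hκ hH hS hw r ∅ ∅ (by simp)
      have hin : ∀ ω, In (∅ : Finset (Sym2 (Fin n))) (H ω) := fun ω e he => by simp at he
      simp only [hin, if_true, card_empty, pow_zero, one_mul] at hup
      have hcard : ((univ.filter fun ω => x * wt w Sᶜ < wt w (nbr (H ω) S)).card : ℝ) *
          (x * wt w Sᶜ / 2) ^ r ≤ (Fintype.card Ω : ℝ) * (L * κ * wt w Sᶜ) ^ r := by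
        refine le_trans ?_ hup
        rw [← nsmul_eq_mul, ← Finset.sum_const]
        refine le_trans (Finset.sum_le_sum fun ω hω => hlow ω (mem_filter.1 hω).2) ?_
        exact Finset.sum_le_sum_of_subset_of_nonneg (filter_subset _ _)
          fun ω _ _ => Small31.T_nonneg hw _ _ _
      have hpos : 0 < (x * wt w Sᶜ / 2) ^ r := by positivity
      rw [prP_eq, div_le_iff₀ hΩ]
      rw [← le_div_iff₀ hpos] at hcard
      refine hcard.trans (le_of_eq ?_)
      rw [mul_div_assoc, ← div_pow, mul_comm]
      congr 2
      field_simp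

end Pool.Agent.Lib.MP_cff830_lc.MR
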