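import Pool.Agent.Lib.MP_cff830_lc.MR.StmtsX59
import Pool.Agent.Lib.MP_cff830_lc.MR.Bern

/-!
# Monotone circuits over relaxations of vertex cover: spread families (X4)
-/

set_option autoImplicit false

namespace Pool.Agent.Lib.MP_cff830_lc.MR

open Finset BernAux

namespace SpreadXAux

/-- The intersection of two independent random sets. -/
theorem comp_sum {n : ℕ} (a b : ℝ) (f : Finset (Fin n) → ℝ) :
    ∑ I : Finset (Fin n), ∑ I' : Finset (Fin n), bern a I * bern b I' * f (I ∩ I') =
      ∑ J : Finset (Fin n), bern (a * b) J * f J := by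
  classical
  have hA : ∀ I : Finset (Fin n), ∑ I' : Finset (Fin n), bern b I' * f (I ∩ I') =
      ∑ J ∈ I.powerset, bA b I J * f J := by
    intro I
    rw [split_sum b I (fun I' => f (I ∩ I')), Finset.sum_product]
    refine Finset.sum_congr rfl fun J hJ => ?_
    have e : ∀ L ∈ Iᶜ.powerset, bA b I J * bA b Iᶜ L * f (I ∩ (J ∪ L)) =
        (bA b I J * f J) * bA b Iᶜ L := by
      intro L hL
      have h1 : I ∩ (J ∪ L) = J := by
        ext v
        simp only [mem_inter, mem_union]
        constructor
        · rintro ⟨h1, h2 | h2⟩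
          · exact h2
          · exact absurd h1 (mem_compl.1 (mem_powerset.1 hL h2))
        · exact fun h => ⟨mem_powerset.1 hJ h, Or.inl h⟩
      rw [h1]
      ring
    rw [Finset.sum_congr rfl e, ← Finset.mul_sum, bA_sum, mul_one]
  have e1 : ∀ I : Finset (Fin n), ∑ I' : Finset (Fin n), bern a I * bern b I' * f (I ∩ I') =
      ∑ J ∈ I.powerset, bern a I * bA b I J * f J := by
    intro I
    have : ∀ I' : Finset (Fin n), bern a I * bern b I' * f (I ∩ I') =
        bern a I * (bern b I' * f (I ∩ I')) := fun I' => mul_assoc _ _ _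
    simp only [this]
    rw [← Finset.mul_sum, hA, Finset.mul_sum]
    exact Finset.sum_congr rfl fun J _ => (mul_assoc _ _ _).symm
  simp only [e1]
  rw [Finset.sum_comm' (t' := univ)
    (s' := fun J => (univ : Finset (Finset (Fin n))).filter fun I => J ⊆ I)]
  · refine Finset.sum_congr rfl fun J _ => ?_
    rw [← Finset.sum_mul]
    congr 1
    have h2 : ∑ I ∈ (univ : Finset (Finset (Fin n))).filter (fun I => J ⊆ I),
        bern a I * bA b I J = ∑ L ∈ Jᶜ.powerset, (a * b) ^ J.card *
          ((a * (1 - b)) ^ L.card * (1 - a) ^ (Jᶜ.card - L.card)) := by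
      refine Finset.sum_nbij' (fun I => I \ J) (fun L => J ∪ L) ?_ ?_ ?_ ?_ ?_
      · intro I _
        rw [mem_powerset]
        intro v hv
        rw [mem_compl]
        exact (mem_sdiff.1 hv).2
      · intro L _
        rw [mem_filter]
        exact ⟨mem_univ _, subset_union_left⟩
      · intro I hI
        exact union_sdiff_of_subset (mem_filter.1 hI).2
      · intro L hL
        ext v
        simp only [mem_sdiff, mem_union]
        constructor
        · rintro ⟨h | h, h'⟩
          · exact absurd h h'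
          · exact h
        · exact fun h => ⟨Or.inr h, mem_compl.1 (mem_powerset.1 hL h)⟩
      · intro I hI
        have hJI := (mem_filter.1 hI).2
        have h3 : (I \ J).card + J.card = I.card := card_sdiff_add_card_eq_card hJI
        have h4 : Jᶜ.card + J.card = n := by
          rw [add_comm, card_add_card_compl, Fintype.card_fin]
        have h5 : I.card ≤ n := by
          have := card_le_univ I
          rwa [Fintype.card_fin] at this
        unfold bern bA
        have h6 : n - I.card = Jᶜ.card - (I \ J).card := by omega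
        have h7 : I.card - J.card = (I \ J).card := by omega
        rw [h6, h7, ← h3, pow_add, mul_pow, mul_pow]
        ring
    rw [h2, ← Finset.mul_sum, Finset.sum_pow_mul_eq_add_pow]
    have h4 : Jᶜ.card = n - J.card := by
      rw [card_compl, Fintype.card_fin]
    have h5 : a * (1 - b) + (1 - a) = 1 - a * b := by ring
    rw [h4, h5]
    rfl
  · intro I J
    simp only [mem_univ, mem_powerset, mem_filter, true_and, and_true]

/-- Increasing events for the intersection of two random sets. -/
theorem pr_mul_le {n : ℕ} {a b : ℝ} (ha : 0 ≤ a) (ha1 : a ≤ 1) (hb : 0 ≤ b) (hb1 : b ≤ 1)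
    (F : Finset (Fin n) → Prop) (hF : ∀ I I', I ⊆ I' → F I → F I') :
    prN (a * b) F ≤ prN a F * prN b F := by
  classical
  have h1 := comp_sum a b (fun I : Finset (Fin n) => if F I then (1 : ℝ) else 0)
  have h2 : prN (a * b) F = ∑ J : Finset (Fin n), bern (a * b) J * (if F J then (1 : ℝ) else 0) := by
    unfold prN
    refine Finset.sum_congr rfl fun I _ => ?_
    by_cases h : F I <;> simp [h]
  rw [h2, ← h1]
  unfold prN
  rw [Finset.sum_mul_sum]
  refine Finset.sum_le_sum fun I _ => Finset.sum_le_sum fun I' _ => ?_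
  have p1 := bern_nonneg ha ha1 I
  have p2 := bern_nonneg hb hb1 I'
  by_cases h : F (I ∩ I')
  · have k1 : F I := hF _ _ inter_subset_left h
    have k2 : F I' := hF _ _ inter_subset_right h
    simp only [h, k1, k2, if_true, mul_one]
    exact le_rfl
  · simp only [h, if_false, mul_zero]
    split_ifs
    · exact mul_nonneg p1 p2
    · rw [mul_zero]
    · rw [zero_mul]
    · rw [zero_mul]

theorem pr_pow_le {n : ℕ} {a : ℝ} (ha : 0 ≤ a) (ha1 : a ≤ 1) (F : Finset (Fin n) → Prop)
    (hF : ∀ I I', I ⊆ I' → F I → F I') (N : ℕ) : prN (a ^ N) F ≤ prN a F ^ N := by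
  induction N with
  | zero =>
    rw [pow_zero, pow_zero]
    exact prN_le_one zero_le_one le_rfl F
  | succ N ih =>
    rw [pow_succ, pow_succ]
    refine (pr_mul_le (pow_nonneg ha N) (pow_le_one₀ ha ha1) ha ha1 F hF).trans ?_
    exact mul_le_mul_of_nonneg_right ih (prN_nonneg ha ha1 F)

/-- The expectation of a sum of indicators. -/
theorem exp_ind {n : ℕ} (a : ℝ) (A : Finset (Fin n) → Prop) [DecidablePred A] :
    ∑ I, bern a I * (if A I then (1 : ℝ) else 0) = prN a A := by
  classical
  unfold prN
  refine Finset.sum_congr rfl fun I _ => ?_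
  by_cases h : A I <;> simp [h]

open Classical in
/-- The second moment. -/
theorem second {n : ℕ} {ι : Type} (s : Finset ι) (A : ι → Finset (Fin n)) (y : ℕ) (a x : ℝ)
    (ha : 0 ≤ a) (ha1 : a < 1) (hs : s.Nonempty) (hx0 : 0 ≤ x) (hxy : (1 + x) ^ y ≤ 2)
    (hA : ∀ i ∈ s, (A i).card ≤ y)
    (hS : ∀ S : Finset (Fin n), ((s.filter fun i => S ⊆ A i).card : ℝ) * (1 / (1 - a)) ^ S.card ≤
      x ^ S.card * s.card) :
    prN a (fun I => ∀ i ∈ s, ¬ Disjoint (A i) I) ≤ 1 / 2 := by
  set q := 1 / (1 - a) with hq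
  have h1a : 0 < 1 - a := by linarith
  have hq0 : 0 < q := by positivity
  have hq1 : q * (1 - a) = 1 := by rw [hq]; field_simp
  have hsc : (0 : ℝ) < s.card := by exact_mod_cast hs.card_pos
  set X : Finset (Fin n) → ℝ := fun I => ∑ i ∈ s, q ^ (A i).card *
    (if Disjoint (A i) I then (1 : ℝ) else 0) with hX
  have hb : ∀ I : Finset (Fin n), 0 ≤ bern a I := bern_nonneg ha ha1.le
  have E1 : ∑ I, bern a I * X I = s.card := by
    have e : ∀ I : Finset (Fin n), bern a I * X I = ∑ i ∈ s, q ^ (A i).card *
        (bern a I * (if Disjoint (A i) I then (1 : ℝ) else 0)) := by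
      intro I
      rw [hX]
      dsimp only
      rw [Finset.mul_sum]
      exact Finset.sum_congr rfl fun i _ => by ring
    simp only [e]
    rw [Finset.sum_comm]
    have e2 : ∀ i ∈ s, ∑ I, q ^ (A i).card *
        (bern a I * (if Disjoint (A i) I then (1 : ℝ) else 0)) = 1 := by
      intro i _
      rw [← Finset.mul_sum, exp_ind a (fun I => Disjoint (A i) I), pr_disj, ← mul_pow, hq1,
        one_pow]
    rw [Finset.sum_congr rfl e2, Finset.sum_const, nsmul_eq_mul, mul_one]
  have E2 : ∑ I, bern a I * X I ^ 2 ≤ 2 * (s.card : ℝ) ^ 2 := by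
    have e : ∀ I : Finset (Fin n), bern a I * X I ^ 2 = ∑ i ∈ s, ∑ j ∈ s,
        (q ^ (A i).card * q ^ (A j).card) *
        (bern a I * (if Disjoint (A i ∪ A j) I then (1 : ℝ) else 0)) := by
      intro I
      rw [hX]
      dsimp only
      rw [sq, Finset.sum_mul_sum, Finset.mul_sum]
      refine Finset.sum_congr rfl fun i _ => ?_
      rw [Finset.mul_sum]
      refine Finset.sum_congr rfl fun j _ => ?_
      have h1 : Disjoint (A i ∪ A j) I ↔ Disjoint (A i) I ∧ Disjoint (A j) I :=
        disjoint_union_left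
      by_cases c1 : Disjoint (A i) I <;> by_cases c2 : Disjoint (A j) I
      · rw [if_pos c1, if_pos c2, if_pos (h1.2 ⟨c1, c2⟩)]
        ring
      · rw [if_neg c2, if_neg (fun h => c2 (h1.1 h).2)]
        ring
      · rw [if_neg c1, if_neg (fun h => c1 (h1.1 h).1)]
        ring
      · rw [if_neg c1, if_neg (fun h => c1 (h1.1 h).1)]
        ring
    simp only [e]
    rw [Finset.sum_comm]
    have hrow : ∀ i ∈ s, ∑ I, ∑ j ∈ s, (q ^ (A i).card * q ^ (A j).card) *
        (bern a I * (if Disjoint (A i ∪ A j) I then (1 : ℝ) else 0)) ≤ 2 * s.card := by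
      intro i hi
      rw [Finset.sum_comm]
      have e2 : ∀ j ∈ s, ∑ I, (q ^ (A i).card * q ^ (A j).card) *
          (bern a I * (if Disjoint (A i ∪ A j) I then (1 : ℝ) else 0)) =
          q ^ (A i ∩ A j).card := by
        intro j _
        rw [← Finset.mul_sum, exp_ind a (fun I => Disjoint (A i ∪ A j) I), pr_disj, ← pow_add,
          ← card_union_add_card_inter, pow_add]
        have : q ^ (A i ∪ A j).card * (1 - a) ^ (A i ∪ A j).card = 1 := by
          rw [← mul_pow, hq1, one_pow]
        calc _ = (q ^ (A i ∪ A j).card * (1 - a) ^ (A i ∪ A j).card) * q ^ (A i ∩ A j).card := by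
              ring
          _ = _ := by rw [this, one_mul]
      rw [Finset.sum_congr rfl e2]
      calc ∑ j ∈ s, q ^ (A i ∩ A j).card
          ≤ ∑ j ∈ s, ∑ S ∈ (A i).powerset, (if S ⊆ A j then q ^ S.card else 0) := by
            refine sum_le_sum fun j _ => ?_
            have h3 := single_le_sum (f := fun S => if S ⊆ A j then q ^ S.card else 0)
              (s := (A i).powerset) (fun S _ => by split_ifs <;> positivity)
              (mem_powerset.2 (inter_subset_left : A i ∩ A j ⊆ A i))
            simpa [inter_subset_right] using h3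
        _ = ∑ S ∈ (A i).powerset, ((s.filter (fun j => S ⊆ A j)).card : ℝ) * q ^ S.card := by
            rw [sum_comm]
            refine sum_congr rfl fun S _ => ?_
            rw [← sum_filter, sum_const, nsmul_eq_mul]
        _ ≤ ∑ S ∈ (A i).powerset, x ^ S.card * s.card := sum_le_sum fun S _ => hS S
        _ = (1 + x) ^ (A i).card * s.card := by
            rw [← sum_mul]
            congr 1
            have h3 := Finset.sum_pow_mul_eq_add_pow x 1 (A i)
            simp only [one_pow, mul_one] at h3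
            rw [h3, add_comm]
        _ ≤ 2 * s.card := by
            refine mul_le_mul_of_nonneg_right ?_ hsc.le
            exact (pow_le_pow_right₀ (by linarith) (hA i hi)).trans hxy
    refine (Finset.sum_le_sum hrow).trans (le_of_eq ?_)
    rw [Finset.sum_const, nsmul_eq_mul]
    ring
  -- Cauchy - Schwarz
  have hXG : ∀ I : Finset (Fin n), (Real.sqrt (bern a I) * X I) * (Real.sqrt (bern a I) *
      (if ∀ i ∈ s, ¬ Disjoint (A i) I then (0 : ℝ) else 1)) = bern a I * X I := by
    intro I
    by_cases c : ∀ i ∈ s, ¬ Disjoint (A i) I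
    · have : X I = 0 := by
        rw [hX]
        refine Finset.sum_eq_zero fun i hi => ?_
        rw [if_neg (c i hi), mul_zero]
      rw [if_pos c, this]
      ring
    · rw [if_neg c, mul_one]
      calc _ = (Real.sqrt (bern a I) * Real.sqrt (bern a I)) * X I := by ring
        _ = _ := by rw [Real.mul_self_sqrt (hb I)]
  have hCS := Finset.sum_mul_sq_le_sq_mul_sq (univ : Finset (Finset (Fin n)))
    (fun I => Real.sqrt (bern a I) * X I) (fun I => Real.sqrt (bern a I) *
      (if ∀ i ∈ s, ¬ Disjoint (A i) I then (0 : ℝ) else 1))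
  simp only [hXG, mul_pow, Real.sq_sqrt (hb _)] at hCS
  rw [E1] at hCS
  have hP : ∑ I : Finset (Fin n), bern a I *
      (if ∀ i ∈ s, ¬ Disjoint (A i) I then (0 : ℝ) else 1) ^ 2 =
      1 - prN a (fun I => ∀ i ∈ s, ¬ Disjoint (A i) I) := by
    rw [← pr_not, ← exp_ind a (fun I => ¬ ∀ i ∈ s, ¬ Disjoint (A i) I)]
    refine Finset.sum_congr rfl fun I _ => ?_
    by_cases c : ∀ i ∈ s, ¬ Disjoint (A i) I
    · rw [if_pos c, if_neg (not_not.2 c)]
      ring
    · rw [if_neg c, if_pos c]
      ring
  rw [hP] at hCS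
  set P := prN a (fun I => ∀ i ∈ s, ¬ Disjoint (A i) I) with hPd
  have hP1 : P ≤ 1 := prN_le_one ha ha1.le _
  have h5 : (s.card : ℝ) ^ 2 ≤ 2 * (s.card : ℝ) ^ 2 * (1 - P) :=
    hCS.trans (mul_le_mul_of_nonneg_right E2 (by linarith))
  have h6 : 0 < (s.card : ℝ) ^ 2 := by positivity
  by_contra h7
  push Not at h7
  nlinarith

theorem exp_half : Real.exp (1 / 2) ≤ 2 := by
  have h1 : Real.exp (1 / 2) * Real.exp (1 / 2) = Real.exp 1 := by
    rw [← Real.exp_add]
    norm_num
  have h2 := Real.exp_one_lt_d9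
  have h3 := Real.exp_pos (1 / 2)
  nlinarith

end SpreadXAux

open SpreadXAux

theorem stSpread : StSpread := by
  classical
  intro n N y K ρ ι s A hρ hρ2 hN hK hs hA hS
  rcases Nat.eq_zero_or_pos y with hy | hy
  · -- all sets are empty
    obtain ⟨i, hi⟩ := hs
    have h1 : A i = ∅ := by
      rw [← card_eq_zero]
      have := hA i hi
      omega
    have h2 : prN ρ (fun I => ∀ i ∈ s, ¬ Disjoint (A i) I) ≤ 0 := by
      unfold prN
      refine Finset.sum_nonpos fun I _ => ?_
      rw [if_neg]
      intro h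
      apply h i hi
      rw [h1]
      exact disjoint_empty_left I
    exact h2.trans (by positivity)
  · have hy0 : (0 : ℝ) < y := by exact_mod_cast hy
    have hN0 : (0 : ℝ) < N := by exact_mod_cast hN
    have hN1 : (1 : ℝ) ≤ N := by exact_mod_cast hN
    have hKn : 0 < K := by
      have : 0 < 4 * N * y ^ 2 := by positivity
      omega
    have hK0 : (0 : ℝ) < K := by exact_mod_cast hKn
    -- the root
    set a : ℝ := ρ ^ (1 / (N : ℝ)) with ha
    have ha0 : 0 ≤ a := by positivity
    have haN : a ^ N = ρ := by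
      rw [ha, ← Real.rpow_natCast, ← Real.rpow_mul hρ.le, one_div,
        inv_mul_cancel₀ hN0.ne', Real.rpow_one]
    have hB : (1 / 2 : ℝ) ≤ (1 - 1 / (2 * N)) ^ N := by
      have h1 : -2 ≤ -(1 / (2 * (N : ℝ))) := by
        have : 1 / (2 * (N : ℝ)) ≤ 1 := by
          rw [div_le_one (by positivity)]
          linarith
        linarith
      have h2 := one_add_mul_le_pow h1 N
      have h3 : 1 + (N : ℝ) * -(1 / (2 * N)) = 1 / 2 := by
        field_simp
        norm_num
      rw [h3] at h2
      rwa [← sub_eq_add_neg] at h2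
    have ha2 : a ≤ 1 - 1 / (2 * N) := by
      have h0 : 0 ≤ 1 - 1 / (2 * (N : ℝ)) := by
        have : 1 / (2 * (N : ℝ)) ≤ 1 := by
          rw [div_le_one (by positivity)]
          linarith
        linarith
      refine le_of_pow_le_pow_left₀ (n := N) (by omega) h0 ?_
      rw [haN]
      exact hρ2.trans hB
    have h2N : 0 < 1 / (2 * (N : ℝ)) := by positivity
    have ha1 : a < 1 := by linarith
    have h1a : 0 < 1 - a := by linarith
    have hq : 1 / (1 - a) ≤ 2 * N := by
      rw [div_le_iff₀ h1a]
      have : 1 / (2 * (N : ℝ)) ≤ 1 - a := by linarith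
      calc (1 : ℝ) = 2 * N * (1 / (2 * N)) := by field_simp
        _ ≤ 2 * N * (1 - a) := mul_le_mul_of_nonneg_left this (by positivity)
    set x : ℝ := y * (1 / (1 - a)) / K with hx
    have hx0 : 0 ≤ x := by positivity
    have hKr : 4 * (N : ℝ) * (y : ℝ) ^ 2 ≤ K := by exact_mod_cast hK
    have hx1 : x * y ≤ 1 / 2 := by
      rw [hx, div_mul_eq_mul_div, div_le_iff₀ hK0]
      calc (y : ℝ) * (1 / (1 - a)) * y ≤ y * (2 * N) * y := by gcongr
        _ = 1 / 2 * (4 * N * (y : ℝ) ^ 2) := by ring
        _ ≤ 1 / 2 * K := by gcongr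
    have hxy : (1 + x) ^ y ≤ 2 := by
      calc (1 + x) ^ y ≤ (Real.exp x) ^ y := by
            refine pow_le_pow_left₀ (by linarith) ?_ y
            rw [add_comm]
            exact Real.add_one_le_exp x
        _ = Real.exp (y * x) := by rw [← Real.exp_nat_mul]
        _ ≤ Real.exp (1 / 2) := Real.exp_le_exp.2 (by linarith)
        _ ≤ 2 := exp_half
    have hhalf := second s A y a x ha0 ha1 hs hx0 hxy hA (by
      intro S
      have h1 : ((s.filter fun i => S ⊆ A i).card : ℝ) * (K : ℝ) ^ S.card ≤
          (y : ℝ) ^ S.card * s.card := by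
        have := hS S
        exact_mod_cast this
      have h2 : x ^ S.card = (y : ℝ) ^ S.card * (1 / (1 - a)) ^ S.card / (K : ℝ) ^ S.card := by
        rw [hx, div_pow, mul_pow]
      rw [h2, div_mul_eq_mul_div, le_div_iff₀ (by positivity)]
      have h3 : (0 : ℝ) ≤ (1 / (1 - a)) ^ S.card := by positivity
      calc ((s.filter fun i => S ⊆ A i).card : ℝ) * (1 / (1 - a)) ^ S.card * (K : ℝ) ^ S.card =
            (((s.filter fun i => S ⊆ A i).card : ℝ) * (K : ℝ) ^ S.card) *
              (1 / (1 - a)) ^ S.card := by ring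
        _ ≤ ((y : ℝ) ^ S.card * s.card) * (1 / (1 - a)) ^ S.card :=
            mul_le_mul_of_nonneg_right h1 h3
        _ = (y : ℝ) ^ S.card * (1 / (1 - a)) ^ S.card * s.card := by ring)
    have hmono : ∀ I I' : Finset (Fin n), I ⊆ I' → (∀ i ∈ s, ¬ Disjoint (A i) I) →
        ∀ i ∈ s, ¬ Disjoint (A i) I' := by
      intro I I' hII h i hi hd
      exact h i hi (disjoint_of_subset_right hII hd)
    calc prN ρ (fun I => ∀ i ∈ s, ¬ Disjoint (A i) I) =
          prN (a ^ N) (fun I => ∀ i ∈ s, ¬ Disjoint (A i) I) := by rw [haN]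
      _ ≤ prN a (fun I => ∀ i ∈ s, ¬ Disjoint (A i) I) ^ N := pr_pow_le ha0 ha1.le _ hmono N
      _ ≤ (1 / 2 : ℝ) ^ N := pow_le_pow_left₀ (prN_nonneg ha0 ha1.le _) hhalf N

end Pool.Agent.Lib.MP_cff830_lc.MR
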