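import Pool.Agent.Lib.MP_cff830_lc.MR.Basic

/-!
# Monotone circuits over relaxations of vertex cover: statements of the modules

Proofs: team store `MR59.md` and the comments below.
-/

set_option autoImplicit false

namespace Pool.Agent.Lib.MP_cff830_lc.MR

open Finset

/-! ### The positive tests -/

/-- (M1) As `SDP.StTopL`, with a bound for every marginal: copy `SDP/Lev/TopL.lean` (namespace
`TopM`), where the marginals are all equal (`e1`). -/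
def StBase : Prop := ∀ ε : ℝ, 0 < ε → ∃ C : ℕ, ∀ k : ℕ, 1 ≤ k →
  ∃ (V : Type) (_ : Fintype V) (_ : DecidableEq V) (G : SimpleGraph V),
    0 < Fintype.card V ∧ Fintype.card V ≤ 2 ^ (C * k ^ 2) ∧
    (∀ U : Finset V, (∀ x y, G.Adj x y → x ∈ U ∨ y ∈ U) →
      (1 - ε) * (Fintype.card V : ℝ) ≤ (U.card : ℝ)) ∧
    ∃ μ : Finset V → Finset V → ℝ, SDP.IsSol G k μ ∧ ∀ x, μ {x} {x} ≤ 1 / 2 + ε

open Classical in
/-- (M2) Few vertices on short cycles. A cycle of length `l` is a closed walk of the complete graph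
with `l` different edges; there are at most `n ^ l` closed walks of length `l`, and the edges of
one have colour `0` in `(r + 1) ^ (Q - l)` colourings (`GSI.count_pi`), `Q` the number of pairs. -/
def StCyc : Prop := ∀ n r D t : ℕ, n ≤ D * (r + 1) →
  ∑ ω : Sym2 (Fin n) → Fin (r + 1), (univ.filter fun v : Fin n =>
      ∃ p : (GSI.Gr ω).Walk v v, p.IsCycle ∧ p.length ≤ t).card ≤
    (∑ l ∈ range (t + 1), D ^ l) * (r + 1) ^ (Fintype.card (Sym2 (Fin n)))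

/-- (M3) The positive tests. Base graph `F₀` on `N₀ ≤ 2 ^ (C₁ * k ^ 2)` vertices for `ε / 8`;
`D = 2 ^ ((2 * C₁ + C₂) * k ^ 2) ≥ 1100 * N₀ ^ 2 / ε ^ 2`, `r + 1 = n / D`, `b : Fin n → V₀` with
fibres of at most `n / N₀ + 1` elements; `Ω` all colourings `ω`; `Z ω` the vertices on cycles of
length at most `t` of `GSI.Gr ω`; `u`, `v` adjacent in `H ω` if they are adjacent in `GSI.Gr ω`,
outside `Z ω`, and `b u`, `b v` are adjacent in `F₀`. Pull the solution back (`Pull`).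
Covers: as in `Sparse.exists_sparse`, with `Sparse.card_hasHole` for `s = ⌊ε * n / (8 * N₀)⌋` (at
most a quarter of the `ω` is bad) and `card (Z ω) ≤ ε * n / 8` (M2 with `2 * D` for `D`, Markov). -/
def StPos : Prop := ∀ ε : ℝ, 0 < ε → ∃ C : ℕ, ∀ k n t : ℕ, 1 ≤ k → 1 ≤ t →
  (2 ^ (C * k ^ 2)) ^ (t + 1) ≤ n →
  ∃ (Ω : Type) (_ : Fintype Ω) (_ : Nonempty Ω) (H : Ω → SimpleGraph (Fin n)),
    (∀ E : Finset (Sym2 (Fin n)),
      prP (fun ω => In E (H ω)) ≤ ((2 : ℝ) ^ (C * k ^ 2) / n) ^ E.card) ∧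
    (∀ (ω : Ω) (v : Fin n) (p : (H ω).Walk v v), p.IsCycle → t < p.length) ∧
    (∀ ω : Ω, ∃ μ : Finset (Fin n) → Finset (Fin n) → ℝ, SDP.IsSol (H ω) k μ ∧
      ∀ x, μ {x} {x} ≤ 1 / 2 + ε) ∧
    1 / 2 ≤ prP fun ω => ∀ U : Finset (Fin n), IsVertexCover (H ω) U →
      (1 - ε) * (n : ℝ) ≤ (U.card : ℝ)

/-! ### Relaxations -/

/-- (M4) An upper bound for the value of the semidefinite programme. With
`Z = S ∪ nbr G S` and `C' = C₀ ∪ nbr G S` use the solution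
`μ' A U = if U ∩ Z = A ∩ C' then μ (A \ Z) (U \ Z) else 0`; its quadratic form at `(c₀, c)` is the
one of `μ` at `c₀ + ∑ x ∈ C', c x` and `c` restricted to the complement of `Z`. For `IsSol` to
`IsSolution` see `Results/MP_cff830_lc/SheraliAdamsSDP.lean`. -/
def StUp : Prop := ∀ (n k : ℕ) (G : SimpleGraph (Fin n))
  (μ : Finset (Fin n) → Finset (Fin n) → ℝ) (p : ℝ), SDP.IsSol G k μ → (∀ x, μ {x} {x} ≤ p) →
  ∀ w : Fin n → ℝ, (∀ v, 0 ≤ w v) → ∀ S C₀ : Finset (Fin n), C₀ ⊆ S →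
    (∀ x ∈ S, ∀ y ∈ S, G.Adj x y → x ∈ C₀ ∨ y ∈ C₀) →
      sdpValue G k w ≤ wt w C₀ + wt w (nbr G S) + p * wt w Sᶜ

/-- (M5) Simple relations between the relaxations; most of them are in
`Results/MP_cff830_lc/HierarchyDichotomy.lean`, to be copied. -/
def StRel : Prop := ∀ (n : ℕ) (G : SimpleGraph (Fin n)) (w : Fin n → ℝ), (∀ v, 0 ≤ w v) →
  0 ≤ edgeLP G w ∧ edgeLP G w ≤ triangleLP G w ∧ minCover G w ≤ 2 * edgeLP G w ∧
  edgeLP G w ≤ minCover G w ∧ edgeLP G w ≤ wt w univ / 2 ∧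
  (∀ v, edgeLP G w ≤ wt w univ - w v) ∧
  (∀ C, IsVertexCover G C → minCover G w ≤ wt w C) ∧
  (∃ C, IsVertexCover G C ∧ wt w C = minCover G w) ∧
  (∀ k, sdpValue G k w ≤ minCover G w) ∧ (∀ k, 2 ≤ k → edgeLP G w ≤ sdpValue G k w) ∧
  (∀ j k, j ≤ k → sdpValue G j w ≤ sdpValue G k w) ∧
  (∀ k, localLP G k w ≤ sdpValue G k w) ∧ ∀ k, 3 ≤ k → triangleLP G w ≤ localLP G k w

/-- (M6) The linear programme is exact on bipartite graphs: for a threshold `θ` in `(0, 1]` the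
vertices `v` of one class with `θ ≤ x v` and of the other class with `1 - θ < x v` form a cover;
average over `θ`. And few edges of a graph without short cycles form a forest. -/
def StRound : Prop :=
  (∀ (n : ℕ) (E : Finset (Sym2 (Fin n))) (w x : Fin n → ℝ), (∀ v, 0 ≤ w v) →
    (gr E).Colorable 2 → (∀ v, 0 ≤ x v) → (∀ a b, (gr E).Adj a b → 1 ≤ x a + x b) →
      minCover (gr E) w ≤ ∑ v ∈ vs E, w v * x v) ∧
  ∀ (n t : ℕ) (G : SimpleGraph (Fin n)) (E : Finset (Sym2 (Fin n))),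
    (∀ (v : Fin n) (p : G.Walk v v), p.IsCycle → t < p.length) → In E G → E.card ≤ t →
      (gr E).Colorable 2

/-- (M7) Lower bounds on the negative tests. (a) On `Sᶜ` let `α ≤ β` be the two smallest values of
`x` outside `I` (if there are not two, the left side is at most the cover); every other vertex of
`Sᶜ` has value at least `2 - α - β` and `1 - α`, and at least `β` if it is outside `I`. (b) the
edge between `v` and `v'`. (c) Let `α` be the smallest value of `x` outside `I`; consider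
`α ≤ 1 / 2`, `1 / 2 ≤ α ≤ 1` and `1 ≤ α`. (d) `S \ I` is a cover. (e) Intersect a minimum cover
with `S`. -/
def StLow : Prop := ∀ (n : ℕ) (w : Fin n → ℝ), (∀ v, 0 ≤ w v) →
  (∀ (S I : Finset (Fin n)) (E : Finset (Sym2 (Fin n))) (η : ℝ), 0 ≤ η → Inside S E →
    (gr E).Colorable 2 → In E (negG I) → (∀ v, v ∉ S → w v ≤ η * wt w Sᶜ) →
      minCover (gr E) w + (min (2 / 3 * wt w Sᶜ) (wt w (Sᶜ \ I)) - 2 * η * wt w Sᶜ) ≤
        triangleLP (negG I) w) ∧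
  (∀ (I : Finset (Fin n)) (E : Finset (Sym2 (Fin n))) (v v' : Fin n), (gr E).Colorable 2 →
    In E (negG I) → v ∉ vs E → v' ∉ vs E → v ≠ v' → v ∉ I →
      minCover (gr E) w + min (w v) (w v') ≤ edgeLP (negG I) w) ∧
  (∀ (I : Finset (Fin n)) (b : ℝ), b ≤ wt w Iᶜ → b ≤ wt w univ / 2 →
    (∀ v, b ≤ wt w univ - w v) → b ≤ edgeLP (negG I) w) ∧
  (∀ (S I : Finset (Fin n)) (E : Finset (Sym2 (Fin n))), Inside S E → In E (negG I) →
    minCover (gr E) w ≤ wt w (S \ I)) ∧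
  ∀ (G : SimpleGraph (Fin n)) (S : Finset (Fin n)), ∃ C₀ : Finset (Fin n), C₀ ⊆ S ∧
    (∀ x ∈ S, ∀ y ∈ S, G.Adj x y → x ∈ C₀ ∨ y ∈ C₀) ∧ wt w C₀ ≤ minCover (gr (edgesIn G S)) w

/-! ### Probabilities -/

/-- (M8) Events that depend on given vertices. -/
def StBern : Prop := ∀ (n : ℕ) (ρ : ℝ), 0 ≤ ρ → ρ ≤ 1 →
  (∀ B : Finset (Fin n), prN ρ (fun I => B ⊆ I) = ρ ^ B.card) ∧
  (∀ B : Finset (Fin n), prN ρ (fun I => Disjoint B I) = (1 - ρ) ^ B.card) ∧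
  ∀ (ι : Type) (s : Finset ι) (B : ι → Finset (Fin n)) (b : ℕ), (∀ i ∈ s, (B i).card ≤ b) →
    (∀ i ∈ s, ∀ j ∈ s, i ≠ j → Disjoint (B i) (B j)) →
      prN ρ (fun I => ∀ i ∈ s, ¬ Disjoint (B i) I) ≤ (1 - (1 - ρ) ^ b) ^ s.card

/-- (M9) Large deviations: `exp y ≤ 1 + y + y ^ 2` for `0 ≤ y ≤ 1` and `y = w v * l / (2 * η * W)`,
`W = wt w T`. -/
def StHoef : Prop := ∀ (n : ℕ) (ρ l η : ℝ) (w : Fin n → ℝ) (T : Finset (Fin n)), 0 ≤ ρ → ρ ≤ 1 →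
  0 < l → l ≤ 1 → 0 < η → (∀ v, 0 ≤ w v) → (∀ v ∈ T, w v ≤ η * wt w T) →
    prN ρ (fun I => (ρ + l) * wt w T < wt w (T ∩ I)) ≤ Real.exp (-(l ^ 2 / (4 * η))) ∧
    prN ρ (fun I => (1 - ρ + l) * wt w T < wt w (T \ I)) ≤ Real.exp (-(l ^ 2 / (4 * η)))

/-- (M10) Positive tests have few edges in a small set `S`, and few neighbours of `S`. (a) Union
over the sets of `t + 1` pairs in `S`. (b) With `a v = w v / wt w Sᶜ`: if the neighbours `N` have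
weight more than `x`, the sum of `∏ i, a (f i)` over the injective `f : Fin r → N` is at least
`(x - r * η) ^ r ≥ (x / 2) ^ r`; its expectation is at most `(L * κ) ^ r`. -/
def StSmall : Prop := ∀ (n : ℕ) (κ : ℝ) (Ω : Type) [Fintype Ω] [Nonempty Ω]
  (H : Ω → SimpleGraph (Fin n)), 0 ≤ κ →
  (∀ E : Finset (Sym2 (Fin n)), prP (fun ω => In E (H ω)) ≤ κ ^ E.card) →
  ∀ (S : Finset (Fin n)) (L : ℕ), S.card ≤ L →
    (∀ t : ℕ, prP (fun ω => t < (edgesIn (H ω) S).card) ≤ ((L : ℝ) ^ 2 * κ) ^ (t + 1)) ∧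
    ∀ (r : ℕ) (x η : ℝ) (w : Fin n → ℝ), 0 < x → (∀ v, 0 ≤ w v) →
      (∀ v, v ∉ S → w v ≤ η * wt w Sᶜ) → r * η ≤ x / 2 →
        prP (fun ω => x * wt w Sᶜ < wt w (nbr (H ω) S)) ≤ (2 * L * κ / x) ^ r

/-- (M11) The dichotomy for weights. Take the vertices in the order of decreasing weight, `W i` the
weight of all but the first `i`. If vertex number `i` has weight more than `η * W i` for all
`i < L`, then `W L ≤ (1 - η) ^ (L - M) * W M ≤ η * W M`. -/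
def StDich : Prop := ∀ (n M L : ℕ) (w : Fin n → ℝ) (η : ℝ), (∀ v, 0 ≤ w v) → 0 < η → η ≤ 1 →
  M < L → L ≤ n → Real.exp (-(η * ((L : ℝ) - M))) ≤ η →
    (∃ S : Finset (Fin n), S.card ≤ L ∧ ∀ v, v ∉ S → w v ≤ η * wt w Sᶜ) ∨
    ∃ S B : Finset (Fin n), S.card ≤ L ∧ B ⊆ S ∧ M < B.card ∧ ∀ v ∈ B, wt w Sᶜ ≤ w v

/-! ### Approximators -/

/-- (M12) Closures, and the number of terms (`MP_cff830_mono/Closure.lean`). -/
def StClos : Prop :=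
  (∀ (n t : ℕ) (ρ δ : ℝ) (g : Finset (Sym2 (Fin n)) → ℝ), 0 ≤ ρ → ρ ≤ 1 → 0 ≤ δ → MonoFn t g →
    ∃ g' : Finset (Sym2 (Fin n)) → ℝ, MonoFn t g' ∧ Closed ρ δ t g' ∧
      (∀ E ∈ terms n t, g E ≤ g' E) ∧
      prN ρ (fun I => ∃ K ∈ terms n t, In K (negG I) ∧
        ∀ K' ∈ terms n t, In K' (negG I) → g K' < g' K) ≤ ((terms n t).card : ℝ) ^ 2 * δ) ∧
  ∀ n t : ℕ, 1 ≤ n → (terms n t).card ≤ n ^ (2 * t)

/-- (M13) Closed functions have few jumps. Let `Φ = jump t g` and let `link Y E₀` be the set of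
`E ∈ Φ` with `Y ⊆ vs E` whose pairs inside `Y` are exactly `E₀`. If `Φ` has more than
`K ^ (2 * t)` members, choose `Y` of maximal size such that some `link Y E₀` has more than
`K ^ (2 * t - Y.card)` members. Then `Y.card < 2 * t`, and for `u ∉ Y` at most
`2 ^ (2 * t) * K ^ (2 * t - Y.card - 1)` members of the link contain `u`. So there are `p` members
`E ≠ E₀` with pairwise disjoint `vs E \ Y`. If one of these sets is disjoint from `I` and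
`In E₀ (negG I)`, then `In E (negG I)`. So `g K ≤ g E₀` for the one `K` of them with the smallest
value (M8, third part), but `E₀` is a proper subset of `K ∈ Φ`. -/
def StMin : Prop := ∀ (n t p K : ℕ) (ρ δ : ℝ) (g : Finset (Sym2 (Fin n)) → ℝ), 1 ≤ t → 1 ≤ p →
  0 ≤ ρ → ρ ≤ 1 / 2 → (1 - (1 / 2 : ℝ) ^ (2 * t)) ^ p ≤ δ → p * (2 * t) * 2 ^ (2 * t) < K →
    Closed ρ δ t g → (jump t g).card ≤ K ^ (2 * t)

/-- (M14) Approximation of circuits (`MP_cff830_mono/Core.lean`). By induction on the gates, a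
monotone closed function for every gate. Leaves: for a relaxation `R` let `g E` be the largest
value `v` of `R` (there are finitely many graphs) with
`prN ρ (fun I => In E (negG I) ∧ R (negG I) < v) ≤ δ₁`; for a pair `u ≠ v` the function that is `1`
on the terms with `s(u, v)`, else `0`; for `u = v` the function `0`; take the closure. Gate
`φ`: closure of `fun E => φ (g₁ E) (g₂ E)`; if `H ω` contains terms of value at least `g₁ (H ω)`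
and `g₂ (H ω)`, it contains such terms `E` and `E'` in `jump t g₁` and `jump t g₂`, and
`(E ∪ E').card ≤ t` or `H ω` contains more than `t` given pairs. -/
def StGates : Prop := ∀ (n k t m s : ℕ) (ρ δ δ₁ κ a : ℝ) (Ω : Type) [Fintype Ω] [Nonempty Ω]
  (H : Ω → SimpleGraph (Fin n)) (F : Fin s → SimpleGraph (Fin n) → ℝ), 1 ≤ t → 0 ≤ ρ →
  ρ ≤ 1 → 0 ≤ δ → 0 ≤ δ₁ → 0 ≤ κ → κ ≤ 1 → 0 ≤ a →
  (∀ E : Finset (Sym2 (Fin n)), prP (fun ω => In E (H ω)) ≤ κ ^ E.card) →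
  (∀ g : Finset (Sym2 (Fin n)) → ℝ, Closed ρ δ t g → (jump t g).card ≤ m) →
  (∀ (w : Fin n → ℝ) (R : SimpleGraph (Fin n) → ℝ), (∀ v, 0 ≤ w v) → IsRelaxation k w R →
    prP (fun ω => ∀ E ∈ terms n t, In E (H ω) →
      δ₁ < prN ρ fun I => In E (negG I) ∧ R (negG I) < R (H ω)) ≤ a) →
  IsCircuit k F →
  ∃ (P : Ω → Prop) (Q : Finset (Fin n) → Prop),
    prP P ≤ s * (2 * a + (m : ℝ) ^ 2 * κ ^ (t + 1)) ∧
    prN ρ Q ≤ s * (3 * (((terms n t).card : ℝ) ^ 2 * (δ + δ₁))) ∧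
    ∀ o : Fin s, ∃ g : Finset (Sym2 (Fin n)) → ℝ,
      (∀ ω, ¬ P ω → ∃ E ∈ terms n t, In E (H ω) ∧ F o (H ω) ≤ g E) ∧
      ∀ I, ¬ Q I → ∀ E ∈ terms n t, In E (negG I) → g E ≤ F o (negG I)

/-- (M15) Leaves. Apply (M11). First case: outside the events of (M10) with `x = ε / 8`,
`E = edgesIn (H ω) S` is a term and `sdpValue (H ω) k w ≤ minCover (gr E) w + (1 / 2 + ε / 4) * W`,
`W = wt w Sᶜ`, by (M4) and (M7e); if `In E (negG I)` and `wt w (Sᶜ ∩ I) ≤ (ρ + ε / 8) * W` (M9),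
then `triangleLP (negG I) w` is at least this (M7a). For `edgeLP` use (M5), (M7c) with
`b = edgeLP (H ω) w` and (M7d). Second case: `E` as before,
`sdpValue (H ω) k w ≤ minCover (gr E) w + W` (a cover in `S` and all of `Sᶜ`), and if some
`v ∈ B \ vs E` is outside `I`, then `edgeLP (negG I) w` is at least this (M7b). -/
def StLeaf : Prop := ∀ (n k t M L r : ℕ) (ε η κ δ₁ : ℝ) (Ω : Type) [Fintype Ω] [Nonempty Ω]
  (H : Ω → SimpleGraph (Fin n)), 2 ≤ k → 1 ≤ t → 0 < ε → ε ≤ 1 / 4 → 0 < η → η ≤ ε / 16 →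
  r * η ≤ ε / 16 → 0 ≤ κ → 2 * t + 1 ≤ M → M < L → L ≤ n →
  Real.exp (-(η * ((L : ℝ) - M))) ≤ η → Real.exp (-((ε / 8) ^ 2 / (4 * η))) ≤ δ₁ →
  (1 / 2 : ℝ) ^ (M + 1 - 2 * t) ≤ δ₁ →
  (∀ E : Finset (Sym2 (Fin n)), prP (fun ω => In E (H ω)) ≤ κ ^ E.card) →
  (∀ (ω : Ω) (v : Fin n) (p : (H ω).Walk v v), p.IsCycle → t < p.length) →
  (∀ ω : Ω, ∃ μ : Finset (Fin n) → Finset (Fin n) → ℝ, SDP.IsSol (H ω) k μ ∧
    ∀ x, μ {x} {x} ≤ 1 / 2 + ε / 8) →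
  ∀ (w : Fin n → ℝ) (R : SimpleGraph (Fin n) → ℝ), (∀ v, 0 ≤ w v) → IsRelaxation k w R →
    prP (fun ω => ∀ E ∈ terms n t, In E (H ω) →
      δ₁ < prN (1 / 2 - ε / 2) fun I => In E (negG I) ∧ R (negG I) < R (H ω)) ≤
      ((L : ℝ) ^ 2 * κ) ^ (t + 1) + (16 * L * κ / ε) ^ r

/-- (M16) Choice of the parameters: `t = ⌊b * log₂ n / k ^ 2⌋` with `b` small in terms of `C`,
`c = b / 8`, `η = ε ^ 2 / (2000 * t * log n)`, `r = 2 * t + 2`, `M = ⌈8 * t * log₂ n⌉ + 2 * t`,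
`L = M + ⌈η⁻¹ * log η⁻¹⌉`, `p = ⌈4 ^ t * 6 * t * log n⌉`, `K = p * 2 * t * 4 ^ t + 1`; smaller `c`
to make `n` large. Note `k ≥ 2`, so `t ≤ b * log₂ n / 4`; `K ^ (4 * t)` is about `2 ^ (16 * t ^ 2)`
times `(log n) ^ O(t)`, and `n ^ (c * log₂ n / k ^ 2) ≤ n ^ (t / 4)`. -/
def StNum : Prop := ∀ (ε : ℝ) (C : ℕ), 0 < ε → ε ≤ 1 / 4 → ∃ c : ℝ, 0 < c ∧ ∀ k n : ℕ, 2 ≤ k →
  (2 : ℝ) ^ ((k : ℝ) ^ 2 / c) ≤ n →
  ∃ (t M L r p K : ℕ) (η κ δ : ℝ), κ = (2 : ℝ) ^ (C * k ^ 2) / n ∧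
    δ = ((n : ℝ) ^ (6 * t))⁻¹ ∧ 1 ≤ t ∧ (2 ^ (C * k ^ 2)) ^ (t + 1) ≤ n ∧ κ ≤ 1 ∧
    0 < η ∧ η ≤ ε / 16 ∧ r * η ≤ ε / 16 ∧ 2 * t + 1 ≤ M ∧ M < L ∧ L ≤ n ∧
    Real.exp (-(η * ((L : ℝ) - M))) ≤ η ∧ Real.exp (-((ε / 8) ^ 2 / (4 * η))) ≤ δ ∧
    (1 / 2 : ℝ) ^ (M + 1 - 2 * t) ≤ δ ∧ 1 ≤ p ∧ (1 - (1 / 2 : ℝ) ^ (2 * t)) ^ p ≤ δ ∧
    p * (2 * t) * 2 ^ (2 * t) < K ∧
    ∀ s : ℕ, (s : ℝ) < (n : ℝ) ^ (c * Real.logb 2 n / (k : ℝ) ^ 2) →
      s * (2 * (((L : ℝ) ^ 2 * κ) ^ (t + 1) + (16 * L * κ / ε) ^ r) +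
        ((K : ℝ) ^ (2 * t)) ^ 2 * κ ^ (t + 1)) < 1 / 2 ∧
      s * (3 * (((n : ℝ) ^ (2 * t)) ^ 2 * (δ + δ))) +
        Real.exp (-((ε / 2) ^ 2 * n / 4)) < (1 / 2 : ℝ) ^ (2 * t)

/-! ### The theorem -/

/-- The main theorem. -/
def StMR : Prop :=
  (∀ ε : ℝ, 0 < ε → ∃ c : ℝ, 0 < c ∧ ∀ k n : ℕ, 2 ≤ k → (2 : ℝ) ^ ((k : ℝ) ^ 2 / c) ≤ n →
    (∀ (s : ℕ) (F : Fin s → SimpleGraph (Fin n) → ℝ), IsCircuit k F → ∀ o : Fin s,
      ((∀ G, minCover G (fun _ => 1) ≤ F o G ∧ F o G ≤ (2 - ε) * minCover G fun _ => 1) ∨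
        ∀ G G', (1 - ε) * (n : ℝ) ≤ minCover G (fun _ => 1) →
          minCover G' (fun _ => 1) ≤ (1 / 2 + ε) * (n : ℝ) → F o G' < F o G) →
        (n : ℝ) ^ (c * Real.logb 2 n / (k : ℝ) ^ 2) ≤ (s : ℝ)) ∧
    ∃ G : SimpleGraph (Fin n), (1 - ε) * (n : ℝ) ≤ minCover G (fun _ => 1) ∧
      sdpValue G k (fun _ => 1) ≤ (1 / 2 + ε) * (n : ℝ)) ∧
  (∀ (n k : ℕ) (w : Fin n → ℝ), (∀ v, 0 ≤ w v) → ∀ R : SimpleGraph (Fin n) → ℝ,
    IsRelaxation k w R → ∀ G, R G ≤ minCover G w ∧ minCover G w ≤ 2 * R G) ∧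
  ∀ (n j k : ℕ) (w : Fin n → ℝ), (∀ v, 0 ≤ w v) → 3 ≤ j → j ≤ k →
    IsRelaxation k w (fun G => localLP G j w) ∧ IsRelaxation k w fun G => sdpValue G j w

end Pool.Agent.Lib.MP_cff830_lc.MR
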