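import Pool.Agent.Lib.MP_cff830_lc.MR.Stmts59

/-!
# Monotone circuits over relaxations of vertex cover, exponential size: statements of the modules

The modules (M1), (M4), (M5), (M8)-(M12) of `Stmts59.lean` are used unchanged.
-/

set_option autoImplicit false

namespace Pool.Agent.Lib.MP_cff830_lc.MR

open Finset

/-! ### The positive tests -/

/-- (X1) A graph all of whose subgraphs have average degree less than three is 3-colourable: every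
nonempty set `U` of vertices contains a vertex with at most two neighbours in `U`; induction. -/
def StCol : Prop := ∀ (n : ℕ) (E : Finset (Sym2 (Fin n))),
  (∀ F : Finset (Sym2 (Fin n)), F ⊆ E → F.Nonempty → 2 * F.card < 3 * (vs F).card) →
    (gr E).Colorable 3

/-- (X2) The positive tests. As (M3), but no vertices are isolated: `H ω` is the graph `G ω` with
`u`, `v` adjacent if they are adjacent in `GSI.Gr ω` and `b u`, `b v` are adjacent in `F₀`, except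
that `H ω` is the empty graph if some nonempty `F` with `In F (G ω)`, `F.card ≤ t` has
`3 * (vs F).card ≤ 2 * F.card`. The number of `F` with `f` pairs and `u` vertices is at most
`n ^ u * (u ^ 2) ^ f` (functions `Fin u → Fin n` and `Fin f → Fin u × Fin u`), each is in `G ω`
with probability at most `(2 * D / n) ^ f`, and `u ≤ 2 * f / 3`, `2 * D * t ^ 2 ≤ n ^ (1 / 12)`; so
this has probability at most `∑ f, t * n ^ (-f / 4)`, less than `1 / 8`. -/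
def StPosX : Prop := ∀ ε : ℝ, 0 < ε → ∃ C : ℕ, ∀ k n t : ℕ, 1 ≤ k → 1 ≤ t →
  (2 ^ (C * k ^ 2) * t) ^ 24 ≤ n →
  ∃ (Ω : Type) (_ : Fintype Ω) (_ : Nonempty Ω) (H : Ω → SimpleGraph (Fin n)),
    (∀ E : Finset (Sym2 (Fin n)),
      prP (fun ω => In E (H ω)) ≤ ((2 : ℝ) ^ (C * k ^ 2) / n) ^ E.card) ∧
    (∀ (ω : Ω) (E : Finset (Sym2 (Fin n))), In E (H ω) → E.card ≤ t → (gr E).Colorable 3) ∧
    (∀ ω : Ω, ∃ μ : Finset (Fin n) → Finset (Fin n) → ℝ, SDP.IsSol (H ω) k μ ∧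
      ∀ x, μ {x} {x} ≤ 1 / 2 + ε) ∧
    1 / 2 ≤ prP fun ω => ∀ U : Finset (Fin n), IsVertexCover (H ω) U →
      (1 - ε) * (n : ℝ) ≤ (U.card : ℝ)

/-! ### Lower bounds on the negative tests -/

/-- (X3) Lower bounds on the negative tests. First the LEMMA: if `In E (negG I)`, `gr E` is
3-colourable and `x` satisfies the edge and triangle constraints of `negG I`, then
`minCover (gr E) w ≤ ∑ v ∈ vs E, w v * x v`. Proof: `U = vs E`, `b = minCover (gr E) w`. Covers: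
`U \ I`; `U` without one vertex; two of three colour classes, so `3 * b ≤ 2 * wt w U`. Let `v₁`,
`v₂` be the vertices of `U \ I` with the smallest values `α ≤ β` (one vertex only: easy). The other
vertices of `U \ I` have value at least `β` and `2 - α - β`, those of `U ∩ I` at least
`2 - α - β`, `1 - α`, `0`. If `β ≥ 1`: the sum is at least `α * wt w (U \ I)` plus
`(1 - α) * (wt w U - w v₁)` if `α ≤ 1`, and `wt w (U \ I)` if `α ≥ 1`. If `β ≤ 1` and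
`α + 2 * β ≥ 2`: with `λ₁ = β - α`, `λ₂ = 3 * (1 - β)`, `λ₃ = α + 2 * β - 2` it is at least
`λ₁ * (wt w U - w v₁) + λ₂ * (2 / 3 * wt w U) + λ₃ * wt w (U \ I)`. If `α + 2 * β ≤ 2`: with
`λ₁ = β - α`, `λ₂ = 3 * (α + β - 1)`, `λ₄ = 2 * (2 - α - 2 * β)` it is at least
`λ₁ * (wt w U - w v₁) + λ₂ * (2 / 3 * wt w U) + λ₄ * (wt w U - (w v₁ + w v₂) / 2)`.
(a) the lemma on `S` and the old argument on `Sᶜ`. (b) the lemma for `E` and the pair `v`, `v'`.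
(c), (e), (f) as in (M7). (d) `Iᶜ` without `v` is a cover. -/
def StLowX : Prop := ∀ (n : ℕ) (w : Fin n → ℝ), (∀ v, 0 ≤ w v) →
  (∀ (S I : Finset (Fin n)) (E : Finset (Sym2 (Fin n))) (η : ℝ), 0 ≤ η → Inside S E →
    (gr E).Colorable 3 → In E (negG I) → (∀ v, v ∉ S → w v ≤ η * wt w Sᶜ) →
      minCover (gr E) w + (min (2 / 3 * wt w Sᶜ) (wt w (Sᶜ \ I)) - 2 * η * wt w Sᶜ) ≤
        triangleLP (negG I) w) ∧
  (∀ (I : Finset (Fin n)) (E : Finset (Sym2 (Fin n))) (v v' : Fin n), (gr E).Colorable 3 →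
    In E (negG I) → v ∉ vs E → v' ∉ vs E → v ≠ v' → v ∉ I →
      minCover (gr E) w + min (w v) (w v') ≤ triangleLP (negG I) w) ∧
  (∀ (I : Finset (Fin n)) (b : ℝ), b ≤ wt w Iᶜ → b ≤ wt w univ / 2 →
    (∀ v, b ≤ wt w univ - w v) → b ≤ edgeLP (negG I) w) ∧
  (∀ (I : Finset (Fin n)) (E : Finset (Sym2 (Fin n))) (v : Fin n), In E (negG I) → v ∉ vs E →
    v ∉ I → minCover (gr E) w + w v ≤ wt w Iᶜ) ∧
  (∀ (S I : Finset (Fin n)) (E : Finset (Sym2 (Fin n))), Inside S E → In E (negG I) →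
    minCover (gr E) w ≤ wt w (S \ I)) ∧
  ∀ (G : SimpleGraph (Fin n)) (S : Finset (Fin n)), ∃ C₀ : Finset (Fin n), C₀ ⊆ S ∧
    (∀ x ∈ S, ∀ y ∈ S, G.Adj x y → x ∈ C₀ ∨ y ∈ C₀) ∧ wt w C₀ ≤ minCover (gr (edgesIn G S)) w

/-! ### Spread families -/

open Classical in
/-- (X4) Spread families of small sets: almost surely one of the sets is disjoint from `I`. Let
`a = ρ ^ (1 / N)`, so `1 - a ≥ 1 / (2 * N)` (`(1 - 1 / (2 * N)) ^ N ≥ 1 / 2 ≥ ρ`). Second moment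
for `prN a` and the sum of `(1 - a) ^ (- (A i).card)` over the `i` with `Disjoint (A i) I` (see
`Neg/Spread.lean`): `prN a` of the event is at most `1 / 2`, since
`(1 + y / ((1 - a) * K)) ^ y ≤ exp (1 / 2) ≤ 2`. And
`prN (a * b) F ≤ prN a F * prN b F` for the event `F`: a random set for `a * b` is the intersection
of independent random sets for `a` and `b`. -/
def StSpread : Prop := ∀ (n N y K : ℕ) (ρ : ℝ) (ι : Type) (s : Finset ι)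
  (A : ι → Finset (Fin n)), 0 < ρ → ρ ≤ 1 / 2 → 1 ≤ N → 4 * N * y ^ 2 ≤ K → s.Nonempty →
  (∀ i ∈ s, (A i).card ≤ y) →
  (∀ S : Finset (Fin n), (s.filter fun i => S ⊆ A i).card * K ^ S.card ≤ y ^ S.card * s.card) →
    prN ρ (fun I => ∀ i ∈ s, ¬ Disjoint (A i) I) ≤ (1 / 2 : ℝ) ^ N

open Classical in
/-- (X5) Closed functions have few jumps. For `E` in the family choose
`f E : Fin s × Bool → Fin n` such that `E \ J` consists of the pairs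
`s(f E (i, false), f E (i, true))`. If there are more than `K ^ (2 * s)` sets, choose a set `Z` of
coordinates of maximal size such that the subfamily of all `E` with given `f E` on `Z` has more than
`K ^ (2 * s - Z.card)` members. Then `Z` is not everything, and (X4) applies to this subfamily,
`A E` the set of the values of `f E` outside `Z`, and `y = 2 * t`. Let `E₀` be `J` together with
the pairs with both coordinates in `Z`. If `A E` is disjoint from `I` and `In E₀ (negG I)`, then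
`In E (negG I)`. So `g E ≤ g E₀` for the `E` of the subfamily with the smallest value, but `E₀` is
a proper subset of `E`. -/
def StJump : Prop := ∀ (n t N K : ℕ) (ρ δ : ℝ) (g : Finset (Sym2 (Fin n)) → ℝ), 0 < ρ →
  ρ ≤ 1 / 2 → 1 ≤ N → (1 / 2 : ℝ) ^ N ≤ δ → 16 * N * t ^ 2 ≤ K → Closed ρ δ t g →
    ∀ (J : Finset (Sym2 (Fin n))) (s : ℕ),
      ((jump t g).filter fun E => J ⊆ E ∧ (E \ J).card = s).card ≤ K ^ (2 * s)

open Classical in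
/-- (X6) Approximation of circuits, as (M14); all leaves are covered by the hypothesis on the leaves. The error of a gate on the positive tests: the sum
over `E ∈ jump t g₁`, `J ⊆ E` and `E' ∈ jump t g₂` with `E' ∩ E = J`,
`E.card + (E' \ J).card > t`, of `κ ^ (E.card + (E' \ J).card)`, is at most
`∑ j ≤ t, B ^ j * 2 ^ j * ∑ i > t - j, B ^ i * κ ^ (j + i) ≤ (4 * B * κ) ^ (t + 1)`. -/
def StGatesY : Prop := ∀ (n k t B s : ℕ) (ρ δ δ₁ κ a : ℝ) (Ω : Type) [Fintype Ω] [Nonempty Ω]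
  (H : Ω → SimpleGraph (Fin n)) (F : Fin s → SimpleGraph (Fin n) → ℝ), 1 ≤ t → 0 ≤ ρ →
  ρ ≤ 1 → 0 ≤ δ → 0 ≤ δ₁ → 0 ≤ κ → κ ≤ 1 → B * κ ≤ 1 / 2 → 0 ≤ a →
  (∀ E : Finset (Sym2 (Fin n)), prP (fun ω => In E (H ω)) ≤ κ ^ E.card) →
  (∀ g : Finset (Sym2 (Fin n)) → ℝ, Closed ρ δ t g → ∀ (J : Finset (Sym2 (Fin n))) (i : ℕ),
    ((jump t g).filter fun E => J ⊆ E ∧ (E \ J).card = i).card ≤ B ^ i) →
  (∀ R : SimpleGraph (Fin n) → ℝ, IsLeaf k R →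
    prP (fun ω => ∀ E ∈ terms n t, In E (H ω) →
      δ₁ < prN ρ fun I => In E (negG I) ∧ R (negG I) < R (H ω)) ≤ a) →
  IsCircuit k F →
  ∃ (P : Ω → Prop) (Q : Finset (Fin n) → Prop),
    prP P ≤ s * (2 * a + (4 * B * κ) ^ (t + 1)) ∧
    prN ρ Q ≤ s * (3 * (((terms n t).card : ℝ) ^ 2 * (δ + δ₁))) ∧
    ∀ o : Fin s, ∃ g : Finset (Sym2 (Fin n)) → ℝ,
      (∀ ω, ¬ P ω → ∃ E ∈ terms n t, In E (H ω) ∧ F o (H ω) ≤ g E) ∧
      ∀ I, ¬ Q I → ∀ E ∈ terms n t, In E (negG I) → g E ≤ F o (negG I)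

/-- (X7) Leaves, as (M15). -/
def StLeafX : Prop := ∀ (n k t M L r : ℕ) (ε η κ δ₁ : ℝ) (Ω : Type) [Fintype Ω] [Nonempty Ω]
  (H : Ω → SimpleGraph (Fin n)), 2 ≤ k → 1 ≤ t → 0 < ε → ε ≤ 1 / 4 → 0 < η → η ≤ ε / 16 →
  r * η ≤ ε / 16 → 0 ≤ κ → 2 * t + 1 ≤ M → M < L → L ≤ n →
  Real.exp (-(η * ((L : ℝ) - M))) ≤ η → Real.exp (-((ε / 8) ^ 2 / (4 * η))) ≤ δ₁ →
  (1 / 2 : ℝ) ^ (M + 1 - 2 * t) ≤ δ₁ →
  (∀ E : Finset (Sym2 (Fin n)), prP (fun ω => In E (H ω)) ≤ κ ^ E.card) →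
  (∀ (ω : Ω) (E : Finset (Sym2 (Fin n))), In E (H ω) → E.card ≤ t → (gr E).Colorable 3) →
  (∀ ω : Ω, ∃ μ : Finset (Fin n) → Finset (Fin n) → ℝ, SDP.IsSol (H ω) k μ ∧
    ∀ x, μ {x} {x} ≤ 1 / 2 + ε / 8) →
  ∀ (w : Fin n → ℝ) (R : SimpleGraph (Fin n) → ℝ), (∀ v, 0 ≤ w v) → IsRelaxation k w R →
    prP (fun ω => ∀ E ∈ terms n t, In E (H ω) →
      δ₁ < prN (1 / 2 - ε / 2) fun I => In E (negG I) ∧ R (negG I) < R (H ω)) ≤
      ((L : ℝ) ^ 2 * κ) ^ (t + 1) + (16 * L * κ / ε) ^ r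

/-- (X7) Leaves, with the local functions: `E = edgesIn (H ω) S`. -/
def StLeafY : Prop := ∀ (n k t M L r : ℕ) (ε η κ δ₁ : ℝ) (Ω : Type) [Fintype Ω] [Nonempty Ω]
  (H : Ω → SimpleGraph (Fin n)), 2 ≤ k → 1 ≤ t → 0 < ε → ε ≤ 1 / 4 → 0 < η → η ≤ ε / 16 →
  r * η ≤ ε / 16 → 0 ≤ κ → 2 * t + 1 ≤ M → M < L → L ≤ n →
  Real.exp (-(η * ((L : ℝ) - M))) ≤ η → Real.exp (-((ε / 8) ^ 2 / (4 * η))) ≤ δ₁ →
  (1 / 2 : ℝ) ^ (M + 1 - 2 * t) ≤ δ₁ →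
  (∀ E : Finset (Sym2 (Fin n)), prP (fun ω => In E (H ω)) ≤ κ ^ E.card) →
  (∀ (ω : Ω) (E : Finset (Sym2 (Fin n))), In E (H ω) → E.card ≤ t → (gr E).Colorable 3) →
  (∀ ω : Ω, ∃ μ : Finset (Fin n) → Finset (Fin n) → ℝ, SDP.IsSol (H ω) k μ ∧
    ∀ x, μ {x} {x} ≤ 1 / 2 + ε / 8) →
  ∀ R : SimpleGraph (Fin n) → ℝ, IsLeaf k R →
    prP (fun ω => ∀ E ∈ terms n t, In E (H ω) →
      δ₁ < prN (1 / 2 - ε / 2) fun I => In E (negG I) ∧ R (negG I) < R (H ω)) ≤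
      ((L : ℝ) ^ 2 * κ) ^ (t + 1) + (16 * L * κ / ε) ^ r +
        ((n : ℝ) ^ (2 / 3 : ℝ) * κ) ^ (t + 1)

/-- (X8) Choice of the parameters: `t = ⌊n ^ (1 / 29)⌋ ≥ n ^ (1 / 30)`,
`η = ε ^ 2 / (2000 * t * log n)`, `r = 2 * t + 2`, `M = ⌈8 * t * log₂ n⌉ + 2 * t`,
`L = M + ⌈η⁻¹ * log η⁻¹⌉`, `N = ⌈6 * t * log₂ n⌉`, `K = 16 * N * t ^ 2`; `C' = 140 * (C + 1)` plus
something to make `n` large. -/
def StNumY : Prop := ∀ (ε : ℝ) (C : ℕ), 0 < ε → ε ≤ 1 / 4 → ∃ C' : ℕ, ∀ k n : ℕ, 2 ≤ k →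
  2 ^ (C' * k ^ 2) ≤ n →
  ∃ (t M L r N K : ℕ) (η κ δ : ℝ), κ = (2 : ℝ) ^ (C * k ^ 2) / n ∧
    δ = ((n : ℝ) ^ (6 * t))⁻¹ ∧ 1 ≤ t ∧ (2 ^ (C * k ^ 2) * t) ^ 24 ≤ n ∧ κ ≤ 1 ∧
    0 < η ∧ η ≤ ε / 16 ∧ r * η ≤ ε / 16 ∧ 2 * t + 1 ≤ M ∧ M < L ∧ L ≤ n ∧
    Real.exp (-(η * ((L : ℝ) - M))) ≤ η ∧ Real.exp (-((ε / 8) ^ 2 / (4 * η))) ≤ δ ∧
    (1 / 2 : ℝ) ^ (M + 1 - 2 * t) ≤ δ ∧ 1 ≤ N ∧ (1 / 2 : ℝ) ^ N ≤ δ ∧ 16 * N * t ^ 2 ≤ K ∧
    ((K ^ 2 : ℕ) : ℝ) * κ ≤ 1 / 2 ∧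
    ∀ s : ℕ, (s : ℝ) < (2 : ℝ) ^ ((n : ℝ) ^ (1 / 30 : ℝ)) →
      s * (2 * (((L : ℝ) ^ 2 * κ) ^ (t + 1) + (16 * L * κ / ε) ^ r +
        ((n : ℝ) ^ (2 / 3 : ℝ) * κ) ^ (t + 1)) + (4 * ((K ^ 2 : ℕ) : ℝ) * κ) ^ (t + 1)) < 1 / 2 ∧
      s * (3 * (((n : ℝ) ^ (2 * t)) ^ 2 * (δ + δ))) +
        Real.exp (-((ε / 2) ^ 2 * n / 4)) < (1 / 2 : ℝ) ^ (2 * t)

/-! ### The theorem -/

/-- The main theorem. -/
def StMRY : Prop :=
  (∀ ε : ℝ, 0 < ε → ∃ C : ℕ, ∀ k n : ℕ, 2 ≤ k → 2 ^ (C * k ^ 2) ≤ n →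
    ∀ (s : ℕ) (F : Fin s → SimpleGraph (Fin n) → ℝ), IsCircuit k F → ∀ o : Fin s,
      ((∀ G, minCover G (fun _ => 1) ≤ F o G ∧ F o G ≤ (2 - ε) * minCover G fun _ => 1) ∨
        ∀ G G', (1 - ε) * (n : ℝ) ≤ minCover G (fun _ => 1) →
          minCover G' (fun _ => 1) ≤ (1 / 2 + ε) * (n : ℝ) → F o G' < F o G) →
        (2 : ℝ) ^ ((n : ℝ) ^ (1 / 30 : ℝ)) ≤ (s : ℝ)) ∧
  (∀ (n k : ℕ) (w : Fin n → ℝ), (∀ v, 0 ≤ w v) → ∀ R : SimpleGraph (Fin n) → ℝ,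
    IsRelaxation k w R → ∀ G, R G ≤ minCover G w ∧ minCover G w ≤ 2 * R G) ∧
  ∀ (n j k : ℕ) (w : Fin n → ℝ), (∀ v, 0 ≤ w v) → 3 ≤ j → j ≤ k →
    IsRelaxation k w (fun G => localLP G j w) ∧ IsRelaxation k w fun G => sdpValue G j w

end Pool.Agent.Lib.MP_cff830_lc.MR
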