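import Pool.Agent.Lib.MP_cff830_lc.MR.Stmts59
import Pool.Agent.Lib.MP_cff830_lc.MR.Pos
import Pool.Agent.Lib.MP_cff830_lc.SDP.Lev.FinalL

/-!
# Monotone circuits over relaxations of vertex cover: the base graphs

The vertices with marginal less than `1 / 2` of a solution of level two are independent, so almost
all marginals are at least `1 / 2`; so few of them are much larger, and these vertices are deleted.
-/

set_option autoImplicit false

namespace Pool.Agent.Lib.MP_cff830_lc.MR

open Finset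

namespace TopM

variable {V : Type} [Fintype V] [DecidableEq V] {G : SimpleGraph V} {k : ℕ}
  {μ : Finset V → Finset V → ℝ}

theorem isSol_mono {j : ℕ} (h : SDP.IsSol G k μ) (hj : j ≤ k) : SDP.IsSol G j μ :=
  ⟨h.nonneg, fun S hS => h.total S (hS.trans hj),
    fun S T hST hT => h.consistent S T hST (hT.trans hj), fun S hS => h.cover S (hS.trans hj),
    h.psd⟩

theorem edge (h : SDP.IsSol G k μ) (hk : 2 ≤ k) {u v : V} (huv : G.Adj u v) :
    1 ≤ μ {u} {u} + μ {v} {v} := by
  have hc : ({u, v} : Finset V).card ≤ k := card_le_two.trans hk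
  have h1 := h.total {u, v} hc
  have h2 := h.consistent {u} {u, v} (by simp) hc {u} subset_rfl
  have h3 := h.consistent {v} {u, v} (by simp) hc {v} subset_rfl
  rw [← h1, h2, h3, sum_filter, sum_filter, ← sum_add_distrib]
  refine sum_le_sum fun U hU => ?_
  have h5 := h.nonneg {u, v} U
  by_cases h0 : μ {u, v} U = 0
  · simp [h0]
  · rcases h.cover {u, v} hc U (mem_powerset.1 hU) h0 u (by simp) v (by simp) huv with h4 | h4
    · rw [if_pos (inter_singleton_of_mem h4)]
      split_ifs <;> linarith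
    · rw [if_pos (inter_singleton_of_mem h4)]
      split_ifs <;> linarith

/-- Few marginals are much larger than `1 / 2`. -/
theorem few (h : SDP.IsSol G k μ) (hk : 2 ≤ k) {ε ε₀ : ℝ}
    (hU : ∀ U : Finset V, (∀ x y, G.Adj x y → x ∈ U ∨ y ∈ U) →
      (1 - ε₀) * (Fintype.card V : ℝ) ≤ (U.card : ℝ))
    (hs : ∑ x, μ {x} {x} ≤ (1 / 2 + ε₀) * (Fintype.card V : ℝ)) (hε : 0 < ε) :
    ε * ((univ.filter fun x => 1 / 2 + ε < μ {x} {x}).card : ℝ) ≤
      3 / 2 * ε₀ * (Fintype.card V : ℝ) := by
  have h1 := hU (univ.filter fun x => 1 / 2 ≤ μ {x} {x}) fun x y hxy => by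
    have h2 := edge h hk hxy
    simp only [mem_filter, mem_univ, true_and]
    by_contra hcon
    push Not at hcon
    linarith
  have h3 : 1 / 2 * ((univ.filter fun x => 1 / 2 ≤ μ {x} {x}).card : ℝ) +
      ε * ((univ.filter fun x => 1 / 2 + ε < μ {x} {x}).card : ℝ) ≤ ∑ x, μ {x} {x} := by
    have e1 : ∀ (c : ℝ) (p : V → Prop) [DecidablePred p],
        c * ((univ.filter p).card : ℝ) = ∑ x, if p x then c else 0 := by
      intro c p _
      rw [← sum_filter, sum_const, nsmul_eq_mul, mul_comm]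
    rw [e1, e1, ← sum_add_distrib]
    refine sum_le_sum fun x _ => ?_
    have e2 := h.nonneg {x} {x}
    split_ifs <;> linarith
  linarith

end TopM

/-- The base graphs. -/
theorem stBase : StBase := by
  intro ε₁ hε₁
  set ε : ℝ := min ε₁ (1 / 2) with hεdef
  have hε : 0 < ε := lt_min hε₁ (by norm_num)
  have hε2 : ε ≤ 1 / 2 := min_le_right _ _
  have hεε : ε ≤ ε₁ := min_le_left _ _
  have hε0 : 0 < ε ^ 2 / 10 := by positivity
  obtain ⟨C, hC⟩ := SDP.finalL (ε ^ 2 / 10) hε0
  refine ⟨4 * C, fun k hk => ?_⟩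
  obtain ⟨V, hF, hD, G, hN0, hN, hU, μ, hμ, hs⟩ := hC (k + 1) (by omega)
  set N : ℝ := (Fintype.card V : ℝ) with hNdef
  have hNpos : 0 < N := by rw [hNdef]; exact_mod_cast hN0
  set B : Finset V := univ.filter fun x => 1 / 2 + ε < μ {x} {x} with hB
  have hfew := TopM.few hμ (by omega) hU hs hε
  rw [← hB, ← hNdef] at hfew
  have hBN : (B.card : ℝ) ≤ 3 / 20 * ε * N := by
    have e1 : ε * (B.card : ℝ) ≤ ε * (3 / 20 * ε * N) := by nlinarith
    exact le_of_mul_le_mul_left e1 hε
  have hcard : (Fintype.card {x // x ∉ B} : ℝ) = N - B.card := by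
    rw [Fintype.card_subtype_compl, Fintype.card_coe, Nat.cast_sub (card_le_univ B)]
  refine ⟨{x // x ∉ B}, inferInstance, inferInstance, G.comap Subtype.val, ?_, ?_, ?_,
    Pull.pull Subtype.val μ, ?_, ?_⟩
  · have e1 : (0 : ℝ) < (Fintype.card {x // x ∉ B} : ℝ) := by
      rw [hcard]
      nlinarith
    exact_mod_cast e1
  · refine (Fintype.card_subtype_le _).trans (hN.trans (Nat.pow_le_pow_right (by norm_num) ?_))
    have e1 : (k + 1) ^ 2 ≤ 4 * k ^ 2 := by nlinarith
    calc C * (k + 1) ^ 2 ≤ C * (4 * k ^ 2) := Nat.mul_le_mul_left _ e1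
      _ = 4 * C * k ^ 2 := by ring
  · intro U' hU'
    have e1 := hU (U'.map (Function.Embedding.subtype _) ∪ B) fun x y hxy => by
      by_cases hx : x ∈ B
      · exact Or.inl (mem_union_right _ hx)
      · by_cases hy : y ∈ B
        · exact Or.inr (mem_union_right _ hy)
        · rcases hU' ⟨x, hx⟩ ⟨y, hy⟩ hxy with h | h
          · exact Or.inl (mem_union_left _ (mem_map.2 ⟨_, h, rfl⟩))
          · exact Or.inr (mem_union_left _ (mem_map.2 ⟨_, h, rfl⟩))
    have e2 : ((U'.map (Function.Embedding.subtype _) ∪ B).card : ℝ) ≤ U'.card + B.card := by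
      have e3 := card_union_le (U'.map (Function.Embedding.subtype _)) B
      rw [card_map] at e3
      exact_mod_cast e3
    rw [hcard]
    have e4 : (1 - ε₁) * (N - B.card) ≤ (1 - ε) * (N - B.card) :=
      mul_le_mul_of_nonneg_right (by linarith) (by nlinarith)
    have e5 : 0 ≤ (B.card : ℝ) := Nat.cast_nonneg _
    have e6 : ε ^ 2 / 10 * N ≤ 1 / 20 * ε * N := by nlinarith
    nlinarith
  · exact PosAux.isSol_pull (TopM.isSol_mono hμ (by omega)) Subtype.val fun u v h => h
  · intro x
    rw [Pull.pull_self, image_singleton]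
    have e1 : ¬ 1 / 2 + ε < μ {(x : V)} {(x : V)} := fun hcon =>
      x.2 (mem_filter.2 ⟨mem_univ _, hcon⟩)
    linarith

end Pool.Agent.Lib.MP_cff830_lc.MR
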