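import Pool.Agent.Lib.MP_cff830_lc.MR.Stmts59

/-!
# An upper bound for the value of the semidefinite programme (module M4)
-/

set_option autoImplicit false
set_option linter.unusedSectionVars false

namespace Pool.Agent.Lib.MP_cff830_lc.MR

open Finset

namespace UpAux

/-- Solutions in the sense of the library. -/
theorem solution_of_sol {V : Type} [Fintype V] [DecidableEq V] {G : SimpleGraph V} {k : ℕ}
    {μ : Finset V → Finset V → ℝ} (h : SDP.IsSol G k μ) : IsSolution G k μ := by
  refine ⟨h.nonneg, h.total, h.consistent, h.cover, ?_⟩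
  have h0 : μ ∅ ∅ = 1 := by
    have := h.total ∅ (by simp)
    simpa using this
  refine Matrix.PosSemidef.of_dotProduct_mulVec_nonneg ?_ fun c => ?_
  · ext a b
    simp [momentMatrix, Finset.union_comm]
  · have := h.psd (c none) fun x => c (some x)
    refine this.trans (le_of_eq ?_)
    simp only [dotProduct, Matrix.mulVec, momentMatrix, Fintype.sum_option, Option.toFinset_none,
      Option.toFinset_some, star_trivial, Finset.mul_sum, Finset.union_empty, Finset.empty_union,
      Pi.star_apply, h0, Finset.sum_add_distrib, mul_add]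
    have e : ∀ x y : V, ({x} ∪ {y} : Finset V) = {x, y} := fun x y => rfl
    simp only [e]
    have e₁ : ∑ x, c none * (μ {x} {x} * c (some x)) = c none * ∑ x, c (some x) * μ {x} {x} := by
      rw [Finset.mul_sum]
      exact Finset.sum_congr rfl fun x _ => by ring
    have e₂ : ∑ x, c (some x) * (μ {x} {x} * c none) = c none * ∑ x, c (some x) * μ {x} {x} := by
      rw [Finset.mul_sum]
      exact Finset.sum_congr rfl fun x _ => by ring
    have e₃ : ∑ x, ∑ y, c (some x) * (μ {x, y} {x, y} * c (some y)) =
        ∑ x, ∑ y, c (some x) * c (some y) * μ {x, y} {x, y} :=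
      Finset.sum_congr rfl fun x _ => Finset.sum_congr rfl fun y _ => by ring
    rw [e₁, e₂, e₃, ← Finset.mul_sum]
    ring

section

variable {V : Type} [Fintype V] [DecidableEq V]

/-- The solution that is the cover `C'` on `Z` and `μ` outside. -/
noncomputable def nu (μ : Finset V → Finset V → ℝ) (Z C' : Finset V) (A U : Finset V) : ℝ :=
  if U ∩ Z = A ∩ C' then μ (A \ Z) (U \ Z) else 0

variable {μ : Finset V → Finset V → ℝ} {Z C' : Finset V}

/-- Sums over the sets with prescribed intersection with `Z`. -/
theorem sum_nu (hC : C' ⊆ Z) (A : Finset V) (f : Finset V → ℝ) :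
    (∑ U ∈ A.powerset, if U ∩ Z = A ∩ C' then f (U \ Z) else 0) =
      ∑ U ∈ (A \ Z).powerset, f U := by
  rw [← Finset.sum_filter]
  refine Finset.sum_nbij' (fun U => U \ Z) (fun U => U ∪ A ∩ C') ?_ ?_ ?_ ?_ ?_
  · intro U hU
    rw [Finset.mem_filter, Finset.mem_powerset] at hU
    exact Finset.mem_powerset.2 (Finset.sdiff_subset_sdiff hU.1 (Finset.Subset.refl _))
  · intro U hU
    rw [Finset.mem_powerset] at hU
    rw [Finset.mem_filter, Finset.mem_powerset]
    refine ⟨Finset.union_subset (hU.trans Finset.sdiff_subset) Finset.inter_subset_left, ?_⟩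
    ext v
    simp only [Finset.mem_inter, Finset.mem_union]
    constructor
    · rintro ⟨h1 | h1, h2⟩
      · exact absurd h2 (Finset.mem_sdiff.1 (hU h1)).2
      · exact h1
    · rintro ⟨h1, h2⟩
      exact ⟨Or.inr ⟨h1, h2⟩, hC h2⟩
  · intro U hU
    rw [Finset.mem_filter, Finset.mem_powerset] at hU
    show U \ Z ∪ A ∩ C' = U
    rw [← hU.2]
    exact Finset.sdiff_union_inter U Z
  · intro U hU
    rw [Finset.mem_powerset] at hU
    ext v
    simp only [Finset.mem_sdiff, Finset.mem_union, Finset.mem_inter]
    constructor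
    · rintro ⟨h1 | h1, h2⟩
      · exact h1
      · exact absurd (hC h1.2) h2
    · intro h1
      exact ⟨Or.inl h1, (Finset.mem_sdiff.1 (hU h1)).2⟩
  · intro U _
    rfl

theorem nu_solution {G : SimpleGraph V} {k : ℕ} (h : IsSolution G k μ) (hC : C' ⊆ Z)
    (hcov : ∀ x ∈ Z, ∀ y, G.Adj x y → x ∈ C' ∨ y ∈ C') :
    IsSolution G k (nu μ Z C') := by
  have hcard : ∀ A : Finset V, A.card ≤ k → (A \ Z).card ≤ k := fun A hA =>
    (Finset.card_le_card Finset.sdiff_subset).trans hA
  refine ⟨?_, ?_, ?_, ?_, ?_⟩
  · intro A U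
    unfold nu
    split_ifs
    · exact h.nonneg _ _
    · exact le_rfl
  · intro A hA
    unfold nu
    rw [sum_nu hC A (fun U => μ (A \ Z) U)]
    exact h.total _ (hcard A hA)
  · intro A B hAB hB U hU
    have hA : A.card ≤ k := (Finset.card_le_card hAB).trans hB
    rw [Finset.sum_filter]
    have h1 : (∑ W ∈ B.powerset, if W ∩ A = U then nu μ Z C' B W else 0) =
        ∑ W ∈ B.powerset, if W ∩ Z = B ∩ C' then
          (if (W \ Z) ∩ (A \ Z) = U \ Z ∧ U ∩ Z = A ∩ C' then μ (B \ Z) (W \ Z) else 0)
          else 0 := by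
      refine Finset.sum_congr rfl fun W hW => ?_
      unfold nu
      by_cases h2 : W ∩ Z = B ∩ C'
      · rw [if_pos h2, if_pos h2]
        refine if_congr ?_ rfl rfl
        have h3 : ∀ v ∈ Z, (v ∈ W ↔ v ∈ B ∧ v ∈ C') := by
          intro v hv
          have h4 : v ∈ W ∩ Z ↔ v ∈ B ∩ C' := by rw [h2]
          simpa [hv] using h4
        constructor
        · intro h4
          constructor
          · ext v
            have h5 : v ∈ W ∩ A ↔ v ∈ U := by rw [h4]
            simp only [Finset.mem_inter, Finset.mem_sdiff] at h5 ⊢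
            tauto
          · ext v
            have h5 : v ∈ W ∩ A ↔ v ∈ U := by rw [h4]
            simp only [Finset.mem_inter] at h5 ⊢
            have h6 := h3 v
            have h7 := @hC v
            have h8 := @hAB v
            tauto
        · rintro ⟨h4, h5⟩
          ext v
          have h6 : v ∈ (W \ Z) ∩ (A \ Z) ↔ v ∈ U \ Z := by rw [h4]
          have h7 : v ∈ U ∩ Z ↔ v ∈ A ∩ C' := by rw [h5]
          simp only [Finset.mem_inter, Finset.mem_sdiff] at h6 h7 ⊢
          have h8 := h3 v
          have h9 := @hAB v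
          have h10 := @hC v
          by_cases hv : v ∈ Z <;> tauto
      · rw [if_neg h2, if_neg h2]
        split_ifs <;> rfl
    rw [h1, sum_nu hC B (fun W => if W ∩ (A \ Z) = U \ Z ∧ U ∩ Z = A ∩ C' then
      μ (B \ Z) W else 0)]
    unfold nu
    by_cases h2 : U ∩ Z = A ∩ C'
    · rw [if_pos h2]
      rw [h.consistent (A \ Z) (B \ Z) (Finset.sdiff_subset_sdiff hAB (Finset.Subset.refl _))
        (hcard B hB) (U \ Z) (Finset.sdiff_subset_sdiff hU (Finset.Subset.refl _)),
        Finset.sum_filter]
      refine Finset.sum_congr rfl fun W _ => ?_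
      exact if_congr ⟨fun h3 => ⟨h3, h2⟩, fun h3 => h3.1⟩ rfl rfl
    · rw [if_neg h2]
      refine (Finset.sum_eq_zero fun W _ => ?_).symm
      rw [if_neg]
      exact fun h3 => h2 h3.2
  · intro A hA U hU hne x hx y hy hxy
    unfold nu at hne
    have h2 : U ∩ Z = A ∩ C' := by
      by_contra h3
      exact hne (if_neg h3)
    rw [if_pos h2] at hne
    have h3 : ∀ v ∈ A, v ∈ C' → v ∈ U := by
      intro v hv hv'
      have h4 : v ∈ U ∩ Z := by
        rw [h2]
        exact Finset.mem_inter.2 ⟨hv, hv'⟩
      exact (Finset.mem_inter.1 h4).1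
    by_cases hxZ : x ∈ Z
    · rcases hcov x hxZ y hxy with h4 | h4
      · exact Or.inl (h3 x hx h4)
      · exact Or.inr (h3 y hy h4)
    · by_cases hyZ : y ∈ Z
      · rcases hcov y hyZ x hxy.symm with h4 | h4
        · exact Or.inr (h3 y hy h4)
        · exact Or.inl (h3 x hx h4)
      · rcases h.cover (A \ Z) (hcard A hA) (U \ Z)
          (Finset.sdiff_subset_sdiff hU (Finset.Subset.refl _)) hne x
          (Finset.mem_sdiff.2 ⟨hx, hxZ⟩) y (Finset.mem_sdiff.2 ⟨hy, hyZ⟩) hxy with h4 | h4
        · exact Or.inl (Finset.mem_sdiff.1 h4).1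
        · exact Or.inr (Finset.mem_sdiff.1 h4).1
  · set φ : Option V → Option V := fun a => a.bind fun v => if v ∈ Z then none else some v with hφ
    set d : Option V → ℝ := fun a => if a.toFinset ∩ Z ⊆ C' then 1 else 0 with hd
    have hφ1 : ∀ a, (φ a).toFinset = a.toFinset \ Z := by
      intro a
      rcases a with - | v
      · simp [hφ]
      · by_cases hv : v ∈ Z
        · have h1 : ({v} : Finset V) \ Z = ∅ := by
            rw [Finset.sdiff_eq_empty_iff_subset, Finset.singleton_subset_iff]
            exact hv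
          simp [hφ, hv, h1]
        · have h1 : ({v} : Finset V) \ Z = {v} := by
            rw [Finset.sdiff_eq_self_iff_disjoint, Finset.disjoint_singleton_left]
            exact hv
          simp [hφ, hv, h1]
    have h1 : momentMatrix (nu μ Z C') = (Matrix.diagonal d) *
        (momentMatrix μ).submatrix φ φ * (Matrix.diagonal d).conjTranspose := by
      ext a b
      rw [Matrix.diagonal_conjTranspose, Matrix.mul_diagonal, Matrix.diagonal_mul,
        Matrix.submatrix_apply, momentMatrix, momentMatrix, hφ1, hφ1, ← Finset.union_sdiff_distrib]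
      unfold nu
      have h2 : ((a.toFinset ∪ b.toFinset) ∩ Z = (a.toFinset ∪ b.toFinset) ∩ C') ↔
          (a.toFinset ∩ Z ⊆ C' ∧ b.toFinset ∩ Z ⊆ C') := by
        constructor
        · intro h3
          constructor
          · intro v hv
            have h4 : v ∈ (a.toFinset ∪ b.toFinset) ∩ Z := by
              rw [Finset.mem_inter] at hv
              exact Finset.mem_inter.2 ⟨Finset.mem_union_left _ hv.1, hv.2⟩
            rw [h3, Finset.mem_inter] at h4
            exact h4.2
          · intro v hv
            have h4 : v ∈ (a.toFinset ∪ b.toFinset) ∩ Z := by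
              rw [Finset.mem_inter] at hv
              exact Finset.mem_inter.2 ⟨Finset.mem_union_right _ hv.1, hv.2⟩
            rw [h3, Finset.mem_inter] at h4
            exact h4.2
        · rintro ⟨h3, h4⟩
          ext v
          have h5 := @h3 v
          have h6 := @h4 v
          have h7 := @hC v
          simp only [Finset.mem_inter, Finset.mem_union] at h5 h6 ⊢
          tauto
      rw [if_congr h2 rfl rfl]
      simp only [hd, Pi.star_apply, star_trivial]
      by_cases h3 : a.toFinset ∩ Z ⊆ C' <;> by_cases h4 : b.toFinset ∩ Z ⊆ C' <;> simp [h3, h4]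
    rw [h1]
    exact (h.psd.submatrix φ).mul_mul_conjTranspose_same _

end

end UpAux

/-- (M4) An upper bound for the value of the semidefinite programme. -/
theorem stUp : StUp := by
  intro n k G μ p hμ hp w hw S C₀ hC₀ hcov
  set N := nbr G S with hN
  set Z := S ∪ N with hZ
  set C' := C₀ ∪ N with hC'
  have hCZ : C' ⊆ Z := Finset.union_subset_union hC₀ (Finset.Subset.refl _)
  have hmem : ∀ v, v ∈ N ↔ v ∉ S ∧ ∃ u ∈ S, G.Adj u v := by
    intro v
    simp [hN, nbr]
  have hsol := UpAux.solution_of_sol hμ
  have hnu : IsSolution G k (UpAux.nu μ Z C') := by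
    refine UpAux.nu_solution hsol hCZ ?_
    intro x hx y hxy
    rcases Finset.mem_union.1 hx with h1 | h1
    · by_cases hy : y ∈ S
      · rcases hcov x h1 y hy hxy with h2 | h2
        · exact Or.inl (Finset.mem_union_left _ h2)
        · exact Or.inr (Finset.mem_union_left _ h2)
      · exact Or.inr (Finset.mem_union_right _ ((hmem y).2 ⟨hy, x, h1, hxy⟩))
    · exact Or.inl (Finset.mem_union_right _ h1)
  have h0 : μ ∅ ∅ = 1 := by
    have := hμ.total ∅ (by simp)
    simpa using this
  have h1 : sdpValue G k w ≤ ∑ v, w v * UpAux.nu μ Z C' {v} {v} := by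
    refine csInf_le ⟨0, ?_⟩ ⟨_, hnu, rfl⟩
    rintro m ⟨ν, hν, rfl⟩
    exact Finset.sum_nonneg fun v _ => mul_nonneg (hw v) (hν.nonneg _ _)
  refine h1.trans ?_
  have h2 : ∀ v, w v * UpAux.nu μ Z C' {v} {v} ≤
      (if v ∈ C₀ then w v else 0) + (if v ∈ N then w v else 0) +
        (if v ∈ Sᶜ then p * w v else 0) := by
    intro v
    have hp0 : 0 ≤ p := (hμ.nonneg {v} {v}).trans (hp v)
    have hwv := hw v
    have hpw : 0 ≤ p * w v := mul_nonneg hp0 hwv
    have h5 : (0 : ℝ) ≤ if v ∈ C₀ then w v else 0 := by split_ifs <;> simp [hwv]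
    have h6 : (0 : ℝ) ≤ if v ∈ N then w v else 0 := by split_ifs <;> simp [hwv]
    have h7 : (0 : ℝ) ≤ if v ∈ Sᶜ then p * w v else 0 := by split_ifs <;> simp [hpw]
    by_cases hvZ : v ∈ Z
    · have e1 : ({v} : Finset (Fin n)) ∩ Z = {v} := by
        rw [Finset.inter_eq_left, Finset.singleton_subset_iff]
        exact hvZ
      by_cases hvC : v ∈ C'
      · have e2 : ({v} : Finset (Fin n)) ∩ C' = {v} := by
          rw [Finset.inter_eq_left, Finset.singleton_subset_iff]
          exact hvC
        have e3 : ({v} : Finset (Fin n)) \ Z = ∅ := by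
          rw [Finset.sdiff_eq_empty_iff_subset, Finset.singleton_subset_iff]
          exact hvZ
        have e4 : UpAux.nu μ Z C' {v} {v} = 1 := by
          unfold UpAux.nu
          rw [e1, e2, if_pos rfl, e3, h0]
        rw [e4, mul_one]
        rcases Finset.mem_union.1 hvC with h8 | h8
        · rw [if_pos h8]
          linarith
        · rw [if_pos h8]
          linarith
      · have e2 : ({v} : Finset (Fin n)) ∩ C' = ∅ := by
          rw [Finset.singleton_inter_of_notMem hvC]
        have e4 : UpAux.nu μ Z C' {v} {v} = 0 := by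
          unfold UpAux.nu
          rw [e1, e2, if_neg (Finset.singleton_ne_empty v)]
        rw [e4, mul_zero]
        linarith
    · have hvS : v ∈ Sᶜ := by
        rw [Finset.mem_compl]
        exact fun h => hvZ (Finset.mem_union_left _ h)
      have e1 : ({v} : Finset (Fin n)) ∩ Z = ∅ := Finset.singleton_inter_of_notMem hvZ
      have e2 : ({v} : Finset (Fin n)) ∩ C' = ∅ :=
        Finset.singleton_inter_of_notMem fun h => hvZ (hCZ h)
      have e3 : ({v} : Finset (Fin n)) \ Z = {v} := by
        rw [Finset.sdiff_eq_self_iff_disjoint, Finset.disjoint_singleton_left]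
        exact hvZ
      have e4 : UpAux.nu μ Z C' {v} {v} = μ {v} {v} := by
        unfold UpAux.nu
        rw [e1, e2, if_pos rfl, e3]
      rw [e4, if_pos hvS]
      have h8 : w v * μ {v} {v} ≤ p * w v := by
        rw [mul_comm p]
        exact mul_le_mul_of_nonneg_left (hp v) hwv
      linarith
  refine (Finset.sum_le_sum fun v _ => h2 v).trans (le_of_eq ?_)
  rw [Finset.sum_add_distrib, Finset.sum_add_distrib]
  simp only [← Finset.sum_filter, wt, Finset.mul_sum]
  have f : ∀ A : Finset (Fin n), Finset.univ.filter (fun v => v ∈ A) = A := by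
    intro A
    ext v
    simp
  rw [f, f, f]

end Pool.Agent.Lib.MP_cff830_lc.MR
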